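import Mathlib

/-!
# Zeros of nonnegative ternary forms and zeros of affine polynomials

`count_iff` : for even `n` the possible finite numbers of projective zeros of nonnegative ternary
forms of degree `n` are the possible finite numbers of zeros of nonnegative affine polynomials in
two variables of degree at most `n` whose component of degree `n` is positive definite.
-/

open MvPolynomial

namespace Pool.Agent.MP9d

theorem eval_smul_hom {σ : Type*} {p : MvPolynomial σ ℝ} {n : ℕ}
    (hp : p.IsHomogeneous n) (c : ℝ) (v : σ → ℝ) :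
    eval (c • v) p = c ^ n * eval v p := by
  rw [eval_eq, eval_eq, Finset.mul_sum]
  refine Finset.sum_congr rfl fun d hd => ?_
  have hdeg : ∑ i ∈ d.support, d i = n := by
    have := hp.degree_eq_sum_deg_support hd
    simpa using this.symm
  have : ∏ i ∈ d.support, (c • v) i ^ d i = c ^ n * ∏ i ∈ d.support, v i ^ d i := by
    rw [← hdeg, ← Finset.prod_pow_eq_pow_sum, ← Finset.prod_mul_distrib]
    refine Finset.prod_congr rfl fun i _ => ?_
    simp [mul_pow]
  rw [this]; ring

theorem sum_comp {σ : Type*} (P : MvPolynomial σ ℝ) {n : ℕ} (h : P.totalDegree ≤ n) :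
    ∑ k ∈ Finset.range (n + 1), homogeneousComponent k P = P := by
  conv_rhs => rw [← sum_homogeneousComponent P]
  refine (Finset.sum_subset (Finset.range_mono (by omega)) ?_).symm
  intro k _ hk
  rw [Finset.mem_range, not_lt] at hk
  exact homogeneousComponent_eq_zero _ _ (by omega)

theorem eval_scale {σ : Type*} (P : MvPolynomial σ ℝ) {n : ℕ} (h : P.totalDegree ≤ n)
    (v : σ → ℝ) {s : ℝ} (hs : s ≠ 0) :
    ∑ k ∈ Finset.range (n + 1), eval v (homogeneousComponent k P) * s ^ (n - k)
      = s ^ n * eval (s⁻¹ • v) P := by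
  conv_rhs => rw [← sum_comp P h, map_sum, Finset.mul_sum]
  refine Finset.sum_congr rfl fun k hk => ?_
  rw [eval_smul_hom (homogeneousComponent_isHomogeneous k P)]
  have hk' : k ≤ n := by
    have := Finset.mem_range.mp hk; omega
  have : s ^ n = s ^ (n - k) * s ^ k := by rw [← pow_add]; congr 1; omega
  rw [this, inv_pow]
  field_simp

/-- Homogenisation. -/
noncomputable def homog (n : ℕ) (P : MvPolynomial (Fin 2) ℝ) : MvPolynomial (Fin 3) ℝ :=
  ∑ k ∈ Finset.range (n + 1), rename Fin.castSucc (homogeneousComponent k P) * X 2 ^ (n - k)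

theorem homog_hom (n : ℕ) (P : MvPolynomial (Fin 2) ℝ) : (homog n P).IsHomogeneous n := by
  refine IsHomogeneous.sum _ _ _ fun k hk => ?_
  have hk' : k ≤ n := by
    have := Finset.mem_range.mp hk; omega
  have h1 : (rename Fin.castSucc (homogeneousComponent k P) : MvPolynomial (Fin 3) ℝ).IsHomogeneous k :=
    (homogeneousComponent_isHomogeneous k P).rename_isHomogeneous
  have h2 := (isHomogeneous_X_pow (R := ℝ) (2 : Fin 3) (n - k))
  have := h1.mul h2
  rwa [Nat.add_sub_cancel' hk'] at this

theorem eval_homog (n : ℕ) (P : MvPolynomial (Fin 2) ℝ) (w : Fin 3 → ℝ) :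
    eval w (homog n P) = ∑ k ∈ Finset.range (n + 1),
      eval (w ∘ Fin.castSucc) (homogeneousComponent k P) * (w 2) ^ (n - k) := by
  simp [homog, eval_rename]

theorem eval_homog_zero (n : ℕ) (P : MvPolynomial (Fin 2) ℝ) (w : Fin 3 → ℝ) (hw : w 2 = 0) :
    eval w (homog n P) = eval (w ∘ Fin.castSucc) (homogeneousComponent n P) := by
  rw [eval_homog, Finset.sum_range_succ, Finset.sum_eq_zero]
  · simp
  · intro k hk
    have hk' : k < n := Finset.mem_range.mp hk
    rw [hw, zero_pow (by omega), mul_zero]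

theorem eval_homog_ne (n : ℕ) (P : MvPolynomial (Fin 2) ℝ) (h : P.totalDegree ≤ n)
    (w : Fin 3 → ℝ) (hw : w 2 ≠ 0) :
    eval w (homog n P) = (w 2) ^ n * eval ((w 2)⁻¹ • (w ∘ Fin.castSucc)) P := by
  rw [eval_homog, eval_scale P h _ hw]

theorem lift_ne (u : Fin 2 → ℝ) : (![u 0, u 1, 1] : Fin 3 → ℝ) ≠ 0 := by
  intro h
  have := congrFun h 2
  simp at this

/-- The affine chart. -/
noncomputable def chart (u : Fin 2 → ℝ) : Projectivization ℝ (Fin 3 → ℝ) :=
  Projectivization.mk ℝ ![u 0, u 1, 1] (lift_ne u)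

theorem chart_injective : Function.Injective chart := by
  intro u v h
  rw [chart, chart, Projectivization.mk_eq_mk_iff'] at h
  obtain ⟨a, ha⟩ := h
  have h2 := congrFun ha 2
  have h0 := congrFun ha 0
  have h1 := congrFun ha 1
  simp at h2 h0 h1
  subst h2
  funext i
  fin_cases i
  · simpa using h0.symm
  · simpa using h1.symm

theorem eval_rep_iff {p : MvPolynomial (Fin 3) ℝ} {n : ℕ} (hp : p.IsHomogeneous n)
    (w : Fin 3 → ℝ) (hw : w ≠ 0) :
    eval (Projectivization.mk ℝ w hw).rep p = 0 ↔ eval w p = 0 := by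
  obtain ⟨a, ha⟩ := Projectivization.exists_smul_eq_mk_rep ℝ w hw
  rw [← ha]
  have : (a • w : Fin 3 → ℝ) = (a : ℝ) • w := rfl
  rw [this, eval_smul_hom hp]
  have ha' : (a : ℝ) ^ n ≠ 0 := pow_ne_zero _ a.ne_zero
  constructor
  · intro h
    exact (mul_eq_zero.mp h).resolve_left ha'
  · intro h
    rw [h, mul_zero]

/-- If no zero lies on the line at infinity, the projective zero set is the image of the
affine one. -/
theorem zero_image {p : MvPolynomial (Fin 3) ℝ} {n : ℕ} (hp : p.IsHomogeneous n)
    (P : MvPolynomial (Fin 2) ℝ) (hP : ∀ u : Fin 2 → ℝ, eval ![u 0, u 1, 1] p = eval u P)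
    (hinf : ∀ w : Fin 3 → ℝ, w ≠ 0 → w 2 = 0 → eval w p ≠ 0) :
    {v : Projectivization ℝ (Fin 3 → ℝ) | eval v.rep p = 0}
      = chart '' {v : Fin 2 → ℝ | eval v P = 0} := by
  ext v
  simp only [Set.mem_ofPred_eq, Set.mem_image]
  constructor
  · intro hv
    have hne := v.rep_nonzero
    have h2 : v.rep 2 ≠ 0 := fun h => hinf _ hne h hv
    refine ⟨![v.rep 0 / v.rep 2, v.rep 1 / v.rep 2], ?_, ?_⟩
    · rw [← hP]
      have : (![(![v.rep 0 / v.rep 2, v.rep 1 / v.rep 2] : Fin 2 → ℝ) 0,
          (![v.rep 0 / v.rep 2, v.rep 1 / v.rep 2] : Fin 2 → ℝ) 1, 1] : Fin 3 → ℝ)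
          = (v.rep 2)⁻¹ • v.rep := by
        funext i
        fin_cases i
        · simp [div_eq_inv_mul]
        · simp [div_eq_inv_mul]
        · simp [h2]
      rw [this, eval_smul_hom hp, hv, mul_zero]
    · conv_rhs => rw [← v.mk_rep]
      rw [chart, Projectivization.mk_eq_mk_iff']
      refine ⟨(v.rep 2)⁻¹, ?_⟩
      funext i
      fin_cases i
      · simp [div_eq_inv_mul]
      · simp [div_eq_inv_mul]
      · simp [h2]
  · rintro ⟨u, hu, rfl⟩
    rw [chart, eval_rep_iff hp, hP, hu]

theorem exists_form {Z : Set (Projectivization ℝ (Fin 3 → ℝ))} (hZ : Z.Finite) :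
    ∃ t : ℝ, ∀ v ∈ Z, v.rep 0 + t * v.rep 1 + t ^ 2 * v.rep 2 ≠ 0 := by
  classical
  let q : Projectivization ℝ (Fin 3 → ℝ) → Polynomial ℝ := fun v =>
    Polynomial.C (v.rep 0) + Polynomial.C (v.rep 1) * Polynomial.X
      + Polynomial.C (v.rep 2) * Polynomial.X ^ 2
  have hq : ∀ v, q v ≠ 0 := by
    intro v hv
    apply v.rep_nonzero
    have h0 : (q v).coeff 0 = v.rep 0 := by simp [q]
    have h1 : (q v).coeff 1 = v.rep 1 := by simp [q, Polynomial.coeff_X_pow, Polynomial.coeff_C]
    have h2 : (q v).coeff 2 = v.rep 2 := by simp [q]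
    rw [hv] at h0 h1 h2
    funext i
    fin_cases i
    · simpa using h0.symm
    · simpa using h1.symm
    · simpa using h2.symm
  have hfin : (⋃ v ∈ Z, {t : ℝ | (q v).IsRoot t}).Finite := by
    refine hZ.biUnion fun v _ => ?_
    exact Polynomial.finite_setOfPred_isRoot (hq v)
  obtain ⟨t, ht⟩ := hfin.exists_notMem
  refine ⟨t, fun v hv h => ht ?_⟩
  simp only [Set.mem_iUnion, Set.mem_ofPred_eq]
  refine ⟨v, hv, ?_⟩
  simp only [q, Polynomial.IsRoot, Polynomial.eval_add, Polynomial.eval_mul, Polynomial.eval_C,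
    Polynomial.eval_X, Polynomial.eval_pow]
  linarith

/-- The substitution `(a, b, c) ↦ (c - t a - t² b, a, b)`. -/
noncomputable def sub3 (t : ℝ) : Fin 3 → MvPolynomial (Fin 3) ℝ :=
  ![X 2 - C t * X 0 - C (t ^ 2) * X 1, X 0, X 1]

/-- The corresponding linear map. -/
def lin3 (t : ℝ) (w : Fin 3 → ℝ) : Fin 3 → ℝ := ![w 2 - t * w 0 - t ^ 2 * w 1, w 0, w 1]

theorem eval_sub3 (t : ℝ) (p : MvPolynomial (Fin 3) ℝ) (w : Fin 3 → ℝ) :
    eval w (aeval (sub3 t) p) = eval (lin3 t w) p := by
  have h1 : eval w (aeval (sub3 t) p) = eval (fun i => eval w (sub3 t i)) p := by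
    rw [aeval_def, ← coe_eval₂Hom]
    change ((eval w).comp (eval₂Hom (algebraMap ℝ (MvPolynomial (Fin 3) ℝ)) (sub3 t))) p = _
    congr 1
    apply MvPolynomial.ringHom_ext
    · intro r; simp
    · intro i; simp
  rw [h1]
  congr 2
  funext i
  fin_cases i <;> simp [sub3, lin3]

theorem sub3_hom (t : ℝ) (i : Fin 3) : (sub3 t i).IsHomogeneous 1 := by
  fin_cases i
  · have h1 : (X 2 - C t * X 0 - C (t ^ 2) * X 1 : MvPolynomial (Fin 3) ℝ).IsHomogeneous 1 :=
      ((isHomogeneous_X ℝ _).sub (isHomogeneous_C_mul_X _ _)).sub (isHomogeneous_C_mul_X _ _)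
    simpa [sub3] using h1
  · simpa [sub3] using isHomogeneous_X ℝ (0 : Fin 3)
  · simpa [sub3] using isHomogeneous_X ℝ (1 : Fin 3)


theorem totalDegree_aeval_le {p : MvPolynomial (Fin 3) ℝ} {n : ℕ} (hp : p.IsHomogeneous n)
    (g : Fin 3 → MvPolynomial (Fin 2) ℝ) (hg : ∀ i, (g i).totalDegree ≤ 1) :
    (aeval g p).totalDegree ≤ n := by
  rw [aeval_def, eval₂_eq]
  refine totalDegree_finsetSum_le fun d hd => ?_
  refine (totalDegree_mul _ _).trans ?_
  have h0 : (algebraMap ℝ (MvPolynomial (Fin 2) ℝ) (coeff d p)).totalDegree = 0 := by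
    rw [algebraMap_eq, totalDegree_C]
  rw [h0, zero_add]
  refine (totalDegree_finsetProd _ _).trans ?_
  have hdeg : ∑ i ∈ d.support, d i = n := by
    have := hp.degree_eq_sum_deg_support hd
    simpa using this.symm
  rw [← hdeg]
  refine Finset.sum_le_sum fun i _ => ?_
  refine (totalDegree_pow _ _).trans ?_
  exact (Nat.mul_le_mul_left _ (hg i)).trans (by simp)

/-- Dehomogenisation. -/
noncomputable def sub2 : Fin 3 → MvPolynomial (Fin 2) ℝ := ![X 0, X 1, 1]

theorem eval_sub2 (p : MvPolynomial (Fin 3) ℝ) (u : Fin 2 → ℝ) :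
    eval u (aeval sub2 p) = eval ![u 0, u 1, 1] p := by
  have h1 : eval u (aeval sub2 p) = eval (fun i => eval u (sub2 i)) p := by
    rw [aeval_def, ← coe_eval₂Hom]
    change ((eval u).comp (eval₂Hom (algebraMap ℝ (MvPolynomial (Fin 2) ℝ)) sub2)) p = _
    congr 1
    apply MvPolynomial.ringHom_ext
    · intro r; simp
    · intro i; simp
  rw [h1]
  congr 2
  funext i
  fin_cases i <;> simp [sub2]

theorem lead_of_dehomog {p : MvPolynomial (Fin 3) ℝ} {n : ℕ} (hp : p.IsHomogeneous n)
    {P : MvPolynomial (Fin 2) ℝ} (hd : P.totalDegree ≤ n)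
    (hP : ∀ u : Fin 2 → ℝ, eval ![u 0, u 1, 1] p = eval u P) (v : Fin 2 → ℝ) :
    eval v (homogeneousComponent n P) = eval ![v 0, v 1, 0] p := by
  let F : ℝ → ℝ := fun s => ∑ k ∈ Finset.range (n + 1),
    eval v (homogeneousComponent k P) * s ^ (n - k)
  let G : ℝ → ℝ := fun s => eval ![v 0, v 1, s] p
  have hF : Continuous F := by
    refine continuous_finsetSum _ fun k _ => ?_
    exact continuous_const.mul (continuous_pow _)
  have hG : Continuous G := by
    have h1 : Continuous fun w : Fin 3 → ℝ => eval w p := MvPolynomial.continuous_eval p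
    refine h1.comp ?_
    refine continuous_pi fun i => ?_
    fin_cases i
    · exact continuous_const
    · exact continuous_const
    · exact continuous_id
  have hFG : F = G := by
    refine Continuous.ext_on (s := {(0 : ℝ)}ᶜ) (dense_compl_singleton 0) hF hG ?_
    intro s hs
    have hs' : s ≠ 0 := by simpa using hs
    have h1 : F s = s ^ n * eval (s⁻¹ • v) P := eval_scale P hd v hs'
    rw [h1, ← hP]
    change _ = eval ![v 0, v 1, s] p
    have h2 : (![v 0, v 1, s] : Fin 3 → ℝ) = s • ![(s⁻¹ • v) 0, (s⁻¹ • v) 1, 1] := by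
      funext i
      fin_cases i
      · simp [hs']
      · simp [hs']
      · simp
    rw [h2, eval_smul_hom hp]
  have h0 : F 0 = G 0 := by rw [hFG]
  have hF0 : F 0 = eval v (homogeneousComponent n P) := by
    simp only [F]
    rw [Finset.sum_range_succ, Finset.sum_eq_zero]
    · simp
    · intro k hk
      have hk' : k < n := Finset.mem_range.mp hk
      rw [zero_pow (by omega), mul_zero]
  rw [← hF0, h0]

theorem count_iff (n N : ℕ) (hn : Even n) :
    (∃ p : MvPolynomial (Fin 3) ℝ, p.IsHomogeneous n ∧ (∀ v, 0 ≤ eval v p) ∧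
      {v : Projectivization ℝ (Fin 3 → ℝ) | eval v.rep p = 0}.Finite ∧
      {v : Projectivization ℝ (Fin 3 → ℝ) | eval v.rep p = 0}.ncard = N) ↔
    (∃ P : MvPolynomial (Fin 2) ℝ, P.totalDegree ≤ n ∧ (∀ v, 0 ≤ eval v P) ∧
      (∀ v, v ≠ 0 → 0 < eval v (homogeneousComponent n P)) ∧
      {v : Fin 2 → ℝ | eval v P = 0}.Finite ∧ {v : Fin 2 → ℝ | eval v P = 0}.ncard = N) := by
  constructor
  · rintro ⟨p, hp, hnn, hfin, hN⟩
    obtain ⟨t, ht⟩ := exists_form hfin
    set p' : MvPolynomial (Fin 3) ℝ := aeval (sub3 t) p with hp'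
    have hp'h : p'.IsHomogeneous n := by
      have := hp.aeval (sub3 t) (sub3_hom t)
      rwa [one_mul] at this
    have hev : ∀ w, eval w p' = eval (lin3 t w) p := eval_sub3 t p
    have hnz : ∀ w : Fin 3 → ℝ, w ≠ 0 → lin3 t w ≠ 0 := by
      intro w hw h
      apply hw
      have h0 := congrFun h 0
      have h1 := congrFun h 1
      have h2 := congrFun h 2
      simp only [lin3, Matrix.cons_val_zero, Matrix.cons_val_one, Matrix.cons_val,
        Pi.zero_apply] at h0 h1 h2
      funext i
      fin_cases i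
      · exact h1
      · exact h2
      · simpa [h1, h2] using h0
    have hform : ∀ w : Fin 3 → ℝ, w ≠ 0 → eval w p = 0 → w 0 + t * w 1 + t ^ 2 * w 2 ≠ 0 := by
      intro w hw h0 h
      have hz : Projectivization.mk ℝ w hw ∈
          {v : Projectivization ℝ (Fin 3 → ℝ) | eval v.rep p = 0} := by
        rw [Set.mem_ofPred_eq, eval_rep_iff hp]; exact h0
      apply ht _ hz
      obtain ⟨a, ha⟩ := Projectivization.exists_smul_eq_mk_rep ℝ w hw
      rw [← ha]
      have e : ∀ i, (a • w) i = (a : ℝ) * w i := fun i => rfl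
      rw [e, e, e]
      have : (a : ℝ) * w 0 + t * ((a : ℝ) * w 1) + t ^ 2 * ((a : ℝ) * w 2)
          = (a : ℝ) * (w 0 + t * w 1 + t ^ 2 * w 2) := by ring
      rw [this, h, mul_zero]
    have hinf : ∀ w : Fin 3 → ℝ, w ≠ 0 → w 2 = 0 → eval w p' ≠ 0 := by
      intro w hw hw2 h
      rw [hev] at h
      apply hform _ (hnz w hw) h
      simp only [lin3, Matrix.cons_val_zero, Matrix.cons_val_one, Matrix.cons_val]
      rw [hw2]; ring
    -- number of zeros of `p'`
    let T : Projectivization ℝ (Fin 3 → ℝ) → Projectivization ℝ (Fin 3 → ℝ) := fun v =>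
      Projectivization.mk ℝ (lin3 t v.rep) (hnz _ v.rep_nonzero)
    have hlin_smul : ∀ (a : ℝ) (w : Fin 3 → ℝ), lin3 t (a • w) = a • lin3 t w := by
      intro a w
      funext i
      fin_cases i
      · simp [lin3]; ring
      · simp [lin3]
      · simp [lin3]
    have hTinj : Function.Injective T := by
      intro u v h
      simp only [T] at h
      rw [Projectivization.mk_eq_mk_iff'] at h
      obtain ⟨a, ha⟩ := h
      rw [← hlin_smul] at ha
      have hinj : ∀ w w' : Fin 3 → ℝ, lin3 t w = lin3 t w' → w = w' := by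
        intro w w' h
        have h0 := congrFun h 0
        have h1 := congrFun h 1
        have h2 := congrFun h 2
        simp only [lin3, Matrix.cons_val_zero, Matrix.cons_val_one, Matrix.cons_val] at h0 h1 h2
        funext i
        fin_cases i
        · exact h1
        · exact h2
        · have : w 2 = w' 2 := by
            rw [h1, h2] at h0; linarith
          exact this
      have h3 := hinj _ _ ha
      rw [← u.mk_rep, ← v.mk_rep, Projectivization.mk_eq_mk_iff']
      exact ⟨a, h3⟩
    have hZ : {v : Projectivization ℝ (Fin 3 → ℝ) | eval v.rep p = 0}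
        = T '' {v : Projectivization ℝ (Fin 3 → ℝ) | eval v.rep p' = 0} := by
      ext v
      simp only [Set.mem_ofPred_eq, Set.mem_image]
      constructor
      · intro hv
        let w : Fin 3 → ℝ := ![v.rep 1, v.rep 2, v.rep 0 + t * v.rep 1 + t ^ 2 * v.rep 2]
        have hw : lin3 t w = v.rep := by
          funext i
          fin_cases i
          · change v.rep 0 + t * v.rep 1 + t ^ 2 * v.rep 2 - t * v.rep 1 - t ^ 2 * v.rep 2
              = v.rep 0
            ring
          · simp [lin3, w]
          · simp [lin3, w]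
        have hwne : w ≠ 0 := by
          intro h
          apply v.rep_nonzero
          rw [← hw, h]
          funext i
          fin_cases i <;> simp [lin3]
        refine ⟨Projectivization.mk ℝ w hwne, ?_, ?_⟩
        · rw [eval_rep_iff hp'h, hev, hw, hv]
        · simp only [T]
          conv_rhs => rw [← v.mk_rep]
          rw [Projectivization.mk_eq_mk_iff']
          obtain ⟨a, ha⟩ := Projectivization.exists_smul_eq_mk_rep ℝ w hwne
          refine ⟨(a : ℝ), ?_⟩
          rw [← ha]
          have : (a • w : Fin 3 → ℝ) = (a : ℝ) • w := rfl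
          rw [this, hlin_smul, hw]
      · rintro ⟨u, hu, rfl⟩
        simp only [T]
        rw [eval_rep_iff hp, ← hev, hu]
    have hd : (aeval sub2 p').totalDegree ≤ n := by
      refine totalDegree_aeval_le hp'h _ fun i => ?_
      fin_cases i
      · simp [sub2]
      · simp [sub2]
      · simp [sub2]
    have hP : ∀ u : Fin 2 → ℝ, eval ![u 0, u 1, 1] p' = eval u (aeval sub2 p') :=
      fun u => (eval_sub2 p' u).symm
    have hlead := lead_of_dehomog hp'h hd hP
    have himg := zero_image hp'h _ hP hinf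
    have hfin' : {v : Projectivization ℝ (Fin 3 → ℝ) | eval v.rep p' = 0}.Finite := by
      rw [hZ] at hfin
      exact Set.Finite.of_finite_image hfin hTinj.injOn
    refine ⟨aeval sub2 p', hd, ?_, ?_, ?_, ?_⟩
    · intro v
      rw [← hP, hev]
      exact hnn _
    · intro v hv
      rw [hlead, hev]
      refine lt_of_le_of_ne (hnn _) (Ne.symm ?_)
      rw [← hev]
      refine hinf _ ?_ (by simp)
      intro h
      apply hv
      have h0 := congrFun h 0
      have h1 := congrFun h 1
      funext i
      fin_cases i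
      · simpa using h0
      · simpa using h1
    · rw [himg] at hfin'
      exact Set.Finite.of_finite_image hfin' chart_injective.injOn
    · rw [← hN, hZ, Set.ncard_image_of_injective _ hTinj, himg,
        Set.ncard_image_of_injective _ chart_injective]
  · rintro ⟨P, hd, hnn, hpos, hfin, hN⟩
    have hlead : ∀ v, 0 ≤ eval v (homogeneousComponent n P) := by
      intro v
      by_cases hv : v = 0
      · have h1 : (0 : Fin 2 → ℝ) = (0 : ℝ) • (![1, 0] : Fin 2 → ℝ) := by simp
        rw [hv, h1, eval_smul_hom (homogeneousComponent_isHomogeneous n P)]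
        refine mul_nonneg (by positivity) (hpos _ ?_).le
        intro h
        have := congrFun h 0
        simp at this
      · exact (hpos v hv).le
    have hP : ∀ u : Fin 2 → ℝ, eval ![u 0, u 1, 1] (homog n P) = eval u P := by
      intro u
      rw [eval_homog_ne n P hd _ (by simp)]
      have : ((![u 0, u 1, 1] : Fin 3 → ℝ) 2)⁻¹ • ((![u 0, u 1, 1] : Fin 3 → ℝ) ∘ Fin.castSucc)
          = u := by
        funext i
        fin_cases i <;> simp
      rw [this]
      simp
    have hinf : ∀ w : Fin 3 → ℝ, w ≠ 0 → w 2 = 0 → eval w (homog n P) ≠ 0 := by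
      intro w hw hw2
      rw [eval_homog_zero n P w hw2]
      refine (hpos _ ?_).ne'
      intro h
      apply hw
      have h0 := congrFun h 0
      have h1 := congrFun h 1
      funext i
      fin_cases i
      · simpa using h0
      · simpa using h1
      · exact hw2
    have himg := zero_image (homog_hom n P) P hP hinf
    refine ⟨homog n P, homog_hom n P, ?_, ?_, ?_⟩
    · intro w
      by_cases hw : w 2 = 0
      · rw [eval_homog_zero n P w hw]; exact hlead _
      · rw [eval_homog_ne n P hd w hw]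
        exact mul_nonneg (hn.pow_nonneg _) (hnn _)
    · rw [himg]; exact hfin.image _
    · rw [himg, Set.ncard_image_of_injective _ chart_injective, hN]

end Pool.Agent.MP9d
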