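import Mathlib

/-!
Two elements of `K[x, y] / (J)`, `J ≠ 0`, are algebraically dependent over the field `K`.
-/

open MvPolynomial

namespace Pool.Agent.MP9d

theorem exists_elim_prime {K : Type*} [Field K] (f g J : MvPolynomial (Fin 2) K) (hJ : Prime J) :
    ∃ D : MvPolynomial (Fin 2) K, D ≠ 0 ∧ J ∣ aeval ![f, g] D := by
  classical
  set I : Ideal (MvPolynomial (Fin 2) K) := Ideal.span {J} with hI
  have hprime : I.IsPrime := (Ideal.span_singleton_prime hJ.ne_zero).2 hJ
  set A := MvPolynomial (Fin 2) K ⧸ I with hA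
  have hdom : IsDomain A := Ideal.Quotient.isDomain I
  set π : MvPolynomial (Fin 2) K →ₐ[K] A := Ideal.Quotient.mkₐ K I with hπ
  have hsurj : Function.Surjective π := Ideal.Quotient.mkₐ_surjective K I
  have hker : ∀ p, π p = 0 ↔ J ∣ p := by
    intro p
    rw [hπ, Ideal.Quotient.mkₐ_eq_mk, Ideal.Quotient.eq_zero_iff_mem, hI,
      Ideal.mem_span_singleton]
  set x : Fin 2 → A := fun i => π (X i) with hx
  have hπx : ∀ p, aeval x p = π p := by
    intro p
    have : aeval x = π := by
      apply MvPolynomial.algHom_ext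
      intro i
      rw [aeval_X]
    rw [this]
  have hadj : Algebra.adjoin K (Set.range x) = ⊤ := by
    rw [Algebra.adjoin_range_eq_range_aeval]
    rw [AlgHom.range_eq_top]
    intro a
    obtain ⟨p, rfl⟩ := hsurj a
    exact ⟨p, hπx p⟩
  by_contra hcon
  push Not at hcon
  have hind : AlgebraicIndependent K (fun i => π ((![f, g] : Fin 2 → _) i)) := by
    rw [algebraicIndependent_iff]
    intro D hD
    by_contra hne
    apply hcon D hne
    rw [← hker]
    rw [← hD]
    have : aeval (fun i => π ((![f, g] : Fin 2 → _) i)) = π.comp (aeval ![f, g]) := by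
      apply MvPolynomial.algHom_ext
      intro i
      rw [aeval_X, AlgHom.comp_apply, aeval_X]
    rw [this, AlgHom.comp_apply]
  have hle := hind.lift_cardinalMk_le_trdeg
  have : Algebra.IsAlgebraic (Algebra.adjoin K (Set.range x)) A := by
    refine ⟨fun a => ?_⟩
    have ha : a ∈ Algebra.adjoin K (Set.range x) := by
      rw [hadj]
      exact Algebra.mem_top
    exact isAlgebraic_algebraMap (⟨a, ha⟩ : Algebra.adjoin K (Set.range x))
  have hbasis := Algebra.IsAlgebraic.isTranscendenceBasis_of_lift_le_trdeg_of_finite K x hle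
  have hJ0 := (algebraicIndependent_iff.1 hbasis.1) J (by
    rw [hπx, hker])
  exact hJ.ne_zero hJ0

theorem exists_elim {K : Type*} [Field K] (f g J : MvPolynomial (Fin 2) K) (hJ : J ≠ 0) :
    ∃ D : MvPolynomial (Fin 2) K, D ≠ 0 ∧ J ∣ aeval ![f, g] D := by
  classical
  induction J using UniqueFactorizationMonoid.induction_on_prime with
  | h₁ => exact absurd rfl hJ
  | h₂ u hu => exact ⟨1, one_ne_zero, hu.dvd⟩
  | h₃ a p ha hp ih =>
    obtain ⟨D, hD, hdvd⟩ := ih ha
    obtain ⟨E, hE, hdvd'⟩ := exists_elim_prime f g p hp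
    refine ⟨E * D, mul_ne_zero hE hD, ?_⟩
    rw [map_mul]
    exact mul_dvd_mul hdvd' hdvd

end Pool.Agent.MP9d
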