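import Mathlib

/-!
Two plane curves of degree `d` without common points at infinity: Bezout's bound, vanishing of
small degree polynomials and the Euler-Jacobi relation, by elementary means.
-/

open MvPolynomial

namespace Pool.Agent.MP9d

namespace EJ

variable {K Ξ : Type} [Field K]

/-- multiplying by a homogeneous polynomial shifts homogeneous components -/
theorem hc_mul_left {D : ℕ} {p : MvPolynomial Ξ K}
    (hp : p.IsHomogeneous D) (h : MvPolynomial Ξ K) (e : ℕ) :
    homogeneousComponent (D + e) (p * h) = p * homogeneousComponent e h := by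
  classical
  have h1 : p * h = ∑ i ∈ Finset.range (h.totalDegree + 1), p * homogeneousComponent i h := by
    rw [← Finset.mul_sum, sum_homogeneousComponent]
  rw [h1, map_sum]
  have h2 : ∀ i ∈ Finset.range (h.totalDegree + 1),
      homogeneousComponent (D + e) (p * homogeneousComponent i h) =
        if i = e then p * homogeneousComponent e h else 0 := by
    intro i _
    have hm : (p * homogeneousComponent i h) ∈ homogeneousSubmodule Ξ K (D + i) :=
      (mem_homogeneousSubmodule _ _).2 (hp.mul (homogeneousComponent_isHomogeneous i h))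
    rw [homogeneousComponent_of_mem hm]
    by_cases hie : i = e
    · subst hie; simp
    · rw [if_neg (by omega), if_neg hie]
  rw [Finset.sum_congr rfl h2, Finset.sum_ite_eq']
  split_ifs with hmem
  · rfl
  · rw [homogeneousComponent_eq_zero, mul_zero]
    rw [Finset.mem_range] at hmem; omega

theorem hc_hc (m n : ℕ) (p : MvPolynomial Ξ K) :
    homogeneousComponent m (homogeneousComponent n p) =
      if m = n then homogeneousComponent n p else 0 := by
  rw [homogeneousComponent_of_mem ((mem_homogeneousSubmodule _ _).2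
    (homogeneousComponent_isHomogeneous n p))]

theorem hc_of_hom {m n : ℕ} {p : MvPolynomial Ξ K} (hp : p.IsHomogeneous n) :
    homogeneousComponent m p = if m = n then p else 0 :=
  homogeneousComponent_of_mem ((mem_homogeneousSubmodule _ _).2 hp)

/-- all components of degree at least `N` vanish -/
def LT (N : ℕ) (p : MvPolynomial Ξ K) : Prop := ∀ k, N ≤ k → homogeneousComponent k p = 0

theorem LT.zero_or {N : ℕ} {p : MvPolynomial Ξ K} (h : LT N p) : p = 0 ∨ p.totalDegree < N := by
  by_cases hp : p = 0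
  · exact Or.inl hp
  right
  by_contra hN
  push Not at hN
  -- the support element of top degree
  have hne : p.support.Nonempty := by rwa [Finset.nonempty_iff_ne_empty, Ne, support_eq_empty]
  obtain ⟨s, hs, hs2⟩ := Finset.exists_mem_eq_sup p.support hne (fun s => s.sum fun _ e => e)
  have h1 := h p.totalDegree hN
  have h2 := congrArg (coeff s) h1
  rw [coeff_homogeneousComponent, coeff_zero] at h2
  have h3 : Finsupp.degree s = p.totalDegree := by
    rw [totalDegree, hs2]; rfl
  rw [if_pos h3] at h2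
  exact (mem_support_iff.1 hs) h2

theorem LT.of_totalDegree {N : ℕ} {p : MvPolynomial Ξ K} (h : p.totalDegree < N) : LT N p :=
  fun _ hk => homogeneousComponent_eq_zero _ _ (h.trans_le hk)

theorem LT.mul {N M : ℕ} {p q : MvPolynomial Ξ K} (h : LT N p) (hq : q.totalDegree ≤ M) :
    LT (N + M) (p * q) := by
  rcases h.zero_or with rfl | h
  · intro k _; simp
  · apply LT.of_totalDegree
    exact (totalDegree_mul p q).trans_lt (by omega)

/-- The top component of a product. -/
theorem hc_mul_top {N d : ℕ} {u f : MvPolynomial Ξ K} (hu : LT (N + 1) u)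
    (hf : f.totalDegree ≤ d) :
    homogeneousComponent (N + d) (u * f) = homogeneousComponent N u * homogeneousComponent d f := by
  have hu' : LT N (u - homogeneousComponent N u) := by
    intro k hk
    rw [map_sub, hc_hc]
    rcases hk.eq_or_lt with rfl | hk
    · simp
    · rw [hu k hk, if_neg (by omega), sub_zero]
  have h1 : u * f = homogeneousComponent N u * f + (u - homogeneousComponent N u) * f := by ring
  rw [h1, map_add, hc_mul_left (homogeneousComponent_isHomogeneous N u),
    (hu'.mul hf) _ le_rfl, add_zero]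

end EJ

open EJ

section Main

variable {d : ℕ} {f g : MvPolynomial (Fin 2) ℂ}

theorem exists_zero_ne (q : MvPolynomial (Fin 2) ℂ) (hq : ¬ IsUnit q) :
    ∃ a : Fin 2 → ℂ, a ≠ 0 ∧ eval a q = 0 := by
  by_contra hcon
  push Not at hcon
  have h1 : ∀ i : Fin 2, ∃ n : ℕ, q ∣ (X i : MvPolynomial (Fin 2) ℂ) ^ n := by
    intro i
    have : (X i : MvPolynomial (Fin 2) ℂ) ∈ (Ideal.span {q}).radical := by
      rw [← vanishingIdeal_zeroLocus_eq_radical (K := ℂ), mem_vanishingIdeal_iff]
      intro x hx
      have hx0 : x = 0 := by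
        by_contra hx0
        apply hcon x hx0
        have := hx q (Ideal.subset_span rfl)
        simpa [aeval_eq_eval] using this
      subst hx0
      simp
    obtain ⟨n, hn⟩ := this
    exact ⟨n, Ideal.mem_span_singleton.1 hn⟩
  obtain ⟨n, hn⟩ := h1 0
  obtain ⟨m, hm⟩ := h1 1
  obtain ⟨i, -, hi⟩ := (dvd_prime_pow (X_prime (R := ℂ) (i := (0 : Fin 2))) n).1 hn
  rcases Nat.eq_zero_or_pos i with rfl | hipos
  · rw [pow_zero] at hi
    exact hq (associated_one_iff_isUnit.1 hi)
  · have h2 : (X 0 : MvPolynomial (Fin 2) ℂ) ∣ X 1 ^ m :=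
      ((dvd_pow_self _ hipos.ne').trans hi.dvd').trans hm
    have h3 := (X_prime (R := ℂ) (i := (0 : Fin 2))).dvd_of_dvd_pow h2
    obtain ⟨r, hr⟩ := h3
    have h4 := congrArg (eval ![0, 1]) hr
    simp at h4

variable (hcop : ∀ a : Fin 2 → ℂ, eval a (homogeneousComponent d f) = 0 →
  eval a (homogeneousComponent d g) = 0 → a = 0)

include hcop

theorem relprime_top : IsRelPrime (homogeneousComponent d f) (homogeneousComponent d g) := by
  intro q h1 h2
  by_contra hq
  obtain ⟨a, ha, hqa⟩ := exists_zero_ne q hq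
  apply ha
  apply hcop a
  · obtain ⟨r, hr⟩ := h1
    rw [hr, map_mul, hqa, zero_mul]
  · obtain ⟨r, hr⟩ := h2
    rw [hr, map_mul, hqa, zero_mul]

theorem top_ne_zero (hd : 1 ≤ d) : homogeneousComponent d f ≠ 0 := by
  intro h0
  have h1 := relprime_top hcop
  rw [h0, isRelPrime_zero_left] at h1
  have h2 : (homogeneousComponent d g).totalDegree = 0 := by
    have := (MvPolynomial.isUnit_iff_totalDegree_of_isReduced).1 h1
    exact this.2
  have h3 := (homogeneousComponent_isHomogeneous d g).totalDegree h1.ne_zero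
  omega

/-- One step of the degree control. -/
theorem control_step (hd : 1 ≤ d) (hf : f.totalDegree ≤ d) (hg : g.totalDegree ≤ d)
    (h : MvPolynomial (Fin 2) ℂ) (N : ℕ) (hN : h.totalDegree < N + d)
    (hR : ∃ u v, h = u * f + v * g ∧ LT (N + 1) u ∧ LT (N + 1) v) :
    ∃ u v, h = u * f + v * g ∧ LT N u ∧ LT N v := by
  obtain ⟨u, v, huv, hu, hv⟩ := hR
  set F := homogeneousComponent d f with hF
  set G := homogeneousComponent d g with hG
  have hF0 : F ≠ 0 := top_ne_zero hcop hd
  have hrel : IsRelPrime F G := relprime_top hcop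
  set U := homogeneousComponent N u with hU
  set V := homogeneousComponent N v with hV
  have htop : U * F + V * G = 0 := by
    have h1 := congrArg (homogeneousComponent (N + d)) huv
    rw [homogeneousComponent_eq_zero _ _ hN, map_add, hc_mul_top hu hf, hc_mul_top hv hg] at h1
    exact h1.symm
  have hdvd : F ∣ G * V := ⟨-U, by linear_combination htop⟩
  obtain ⟨W', hW'⟩ := hrel.dvd_of_dvd_mul_left hdvd
  have hUW : U = -(W' * G) := by
    apply mul_right_cancel₀ hF0
    rw [hW'] at htop
    linear_combination htop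
  rcases lt_or_ge N d with hlt | hge
  · -- the top components vanish
    have hV0 : V = 0 := by
      by_contra hV0
      have h1 : W' ≠ 0 := by
        rintro rfl
        exact hV0 (by rw [hW', mul_zero])
      have h2 := totalDegree_mul_of_isDomain hF0 h1
      rw [← hW', (homogeneousComponent_isHomogeneous N v).totalDegree hV0,
        (homogeneousComponent_isHomogeneous d f).totalDegree hF0] at h2
      omega
    have hU0 : U = 0 := by
      rw [hV0, zero_mul, add_zero] at htop
      exact (mul_eq_zero.1 htop).resolve_right hF0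
    refine ⟨u, v, huv, ?_, ?_⟩
    · intro k hk
      rcases hk.eq_or_lt with rfl | hk
      · exact hU0
      · exact hu k hk
    · intro k hk
      rcases hk.eq_or_lt with rfl | hk
      · exact hV0
      · exact hv k hk
  · obtain ⟨e, rfl⟩ := Nat.exists_eq_add_of_le hge
    set W := homogeneousComponent e W' with hWdef
    have hWh : W.IsHomogeneous e := homogeneousComponent_isHomogeneous e W'
    have hV2 : V = W * F := by
      have h1 : V = homogeneousComponent (d + e) V := by rw [hV, hc_hc, if_pos rfl]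
      rw [h1, hW', hc_mul_left (homogeneousComponent_isHomogeneous d f), mul_comm]
    have hU2 : U = -(W * G) := by
      have h1 : U = homogeneousComponent (d + e) U := by rw [hU, hc_hc, if_pos rfl]
      rw [h1, hUW, map_neg, mul_comm W' G, hc_mul_left (homogeneousComponent_isHomogeneous d g),
        mul_comm]
    refine ⟨u + W * g, v - W * f, by rw [huv]; ring, ?_, ?_⟩
    · intro k hk
      rw [map_add]
      rcases hk.eq_or_lt with rfl | hk
      · rw [add_comm d e, hc_mul_left hWh, add_comm e d, ← hU, hU2, ← hG]; ring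
      · rw [hu k hk, zero_add]
        exact (LT.mul (LT.of_totalDegree (N := e + 1)
          (Nat.lt_succ_of_le hWh.totalDegree_le)) hg) k (by omega)
    · intro k hk
      rw [map_sub]
      rcases hk.eq_or_lt with rfl | hk
      · rw [add_comm d e, hc_mul_left hWh, add_comm e d, ← hV, hV2, ← hF]; ring
      · rw [hv k hk, zero_sub, neg_eq_zero]
        exact (LT.mul (LT.of_totalDegree (N := e + 1)
          (Nat.lt_succ_of_le hWh.totalDegree_le)) hf) k (by omega)

/-- Degree control: members of the ideal have representations of small degree. -/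
theorem degree_control (hd : 1 ≤ d) (hf : f.totalDegree ≤ d) (hg : g.totalDegree ≤ d)
    (h : MvPolynomial (Fin 2) ℂ) (hh : h ∈ Ideal.span {f, g}) :
    ∃ u v, h = u * f + v * g ∧ LT (h.totalDegree + 1 - d) u ∧ LT (h.totalDegree + 1 - d) v := by
  rw [Ideal.mem_span_pair] at hh
  obtain ⟨u, v, huv⟩ := hh
  set n₀ := h.totalDegree + 1 - d with hn₀
  have key : ∀ m, (∃ u v, h = u * f + v * g ∧ LT (n₀ + m) u ∧ LT (n₀ + m) v) →
      ∃ u v, h = u * f + v * g ∧ LT n₀ u ∧ LT n₀ v := by
    intro m
    induction m with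
    | zero => exact id
    | succ m ih =>
      intro hR
      apply ih
      exact control_step hcop hd hf hg h (n₀ + m) (by omega) hR
  apply key (u.totalDegree + v.totalDegree + 1)
  exact ⟨u, v, huv.symm, LT.of_totalDegree (by omega), LT.of_totalDegree (by omega)⟩

theorem eq_zero_of_mem (hd : 1 ≤ d) (hf : f.totalDegree ≤ d) (hg : g.totalDegree ≤ d)
    (h : MvPolynomial (Fin 2) ℂ) (hh : h ∈ Ideal.span {f, g}) (hdeg : h.totalDegree < d) :
    h = 0 := by
  obtain ⟨u, v, huv, hu, hv⟩ := degree_control hcop hd hf hg h hh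
  have e : h.totalDegree + 1 - d = 0 := by omega
  rw [e] at hu hv
  have hu0 : u = 0 := (hu.zero_or).resolve_right (by omega)
  have hv0 : v = 0 := (hv.zero_or).resolve_right (by omega)
  rw [huv, hu0, hv0]; ring

end Main

section Radical

/-- First order Taylor expansion. -/
theorem taylor (b : Fin 2 → ℂ) (p : MvPolynomial (Fin 2) ℂ) :
    ∃ A B : MvPolynomial (Fin 2) ℂ,
      p = C (eval b p) + A * (X 0 - C (b 0)) + B * (X 1 - C (b 1)) := by
  induction p using MvPolynomial.induction_on with
  | C a => exact ⟨0, 0, by simp⟩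
  | add p q hp hq =>
    obtain ⟨A, B, h⟩ := hp
    obtain ⟨A', B', h'⟩ := hq
    refine ⟨A + A', B + B', ?_⟩
    rw [map_add, C_add]
    linear_combination h + h'
  | mul_X p i hp =>
    obtain ⟨A, B, h⟩ := hp
    fin_cases i
    · refine ⟨C (b 0) * A + p, C (b 0) * B, ?_⟩
      simp only [Fin.zero_eta, map_mul, eval_X]
      linear_combination C (b 0) * h
    · refine ⟨C (b 1) * A, C (b 1) * B + p, ?_⟩
      simp only [Fin.mk_one, map_mul, eval_X]
      linear_combination C (b 1) * h

theorem taylor_eval (b : Fin 2 → ℂ) {p A B : MvPolynomial (Fin 2) ℂ} {c : ℂ}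
    (h : p = C c + A * (X 0 - C (b 0)) + B * (X 1 - C (b 1))) :
    eval b (pderiv 0 p) = eval b A ∧ eval b (pderiv 1 p) = eval b B := by
  subst h
  constructor <;> simp [pderiv_X]

/-- Polynomials vanishing at all (simple) common zeros are in the ideal. -/
theorem mem_of_vanish (f g : MvPolynomial (Fin 2) ℂ) (Z : Finset (Fin 2 → ℂ))
    (hZ : ∀ a, a ∈ Z ↔ eval a f = 0 ∧ eval a g = 0)
    (hJ : ∀ a ∈ Z, eval a (pderiv 0 f * pderiv 1 g - pderiv 1 f * pderiv 0 g) ≠ 0)
    (h : MvPolynomial (Fin 2) ℂ) (hv : ∀ a ∈ Z, eval a h = 0) : h ∈ Ideal.span {f, g} := by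
  by_contra hcon
  set I := Ideal.span {f, g} with hI
  have hfI : f ∈ I := Ideal.subset_span (by simp)
  have hgI : g ∈ I := Ideal.subset_span (by simp)
  -- the colon ideal
  let Jc : Ideal (MvPolynomial (Fin 2) ℂ) :=
    { carrier := {u | u * h ∈ I}
      zero_mem' := by simp
      add_mem' := by
        intro u v hu hv
        change (u + v) * h ∈ I
        rw [add_mul]
        exact I.add_mem hu hv
      smul_mem' := by
        intro c u hu
        change (c * u) * h ∈ I
        rw [mul_assoc]
        exact I.mul_mem_left c hu }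
  have hJne : Jc ≠ ⊤ := by
    intro h1
    have : (1 : MvPolynomial (Fin 2) ℂ) ∈ Jc := by rw [h1]; trivial
    change 1 * h ∈ I at this
    rw [one_mul] at this
    exact hcon this
  obtain ⟨M, hM, hJM⟩ := Ideal.exists_le_maximal Jc hJne
  obtain ⟨b, hb⟩ := isMaximal_iff_eq_vanishingIdeal_singleton.1 hM
  have hmem : ∀ u, u * h ∈ I → eval b u = 0 := by
    intro u hu
    have : u ∈ M := hJM hu
    rw [hb, mem_vanishingIdeal_singleton_iff] at this
    simpa [aeval_eq_eval] using this
  have hbf : eval b f = 0 := hmem f (I.mul_mem_right h hfI)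
  have hbg : eval b g = 0 := hmem g (I.mul_mem_right h hgI)
  have hbZ : b ∈ Z := (hZ b).2 ⟨hbf, hbg⟩
  obtain ⟨A1, B1, h1⟩ := taylor b f
  obtain ⟨A2, B2, h2⟩ := taylor b g
  obtain ⟨A3, B3, h3⟩ := taylor b h
  have e1 := taylor_eval b h1
  have e2 := taylor_eval b h2
  rw [hbf, map_zero, zero_add] at h1
  rw [hbg, map_zero, zero_add] at h2
  rw [hv b hbZ, map_zero, zero_add] at h3
  have hu : (A1 * B2 - A2 * B1) * h ∈ I := by
    have : (A1 * B2 - A2 * B1) * h = (A3 * B2 - B3 * A2) * f + (B3 * A1 - A3 * B1) * g := by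
      rw [h3, h1, h2]; ring
    rw [this]
    exact I.add_mem (I.mul_mem_left _ hfI) (I.mul_mem_left _ hgI)
  have h4 := hmem _ hu
  apply hJ b hbZ
  rw [map_sub, map_mul, map_mul, e1.1, e1.2, e2.1, e2.2]
  rw [map_sub, map_mul, map_mul] at h4
  linear_combination h4

end Radical

theorem vanish_small (d : ℕ) (f g : MvPolynomial (Fin 2) ℂ) (hf : f.totalDegree ≤ d)
    (hg : g.totalDegree ≤ d)
    (hcop : ∀ a : Fin 2 → ℂ, eval a (homogeneousComponent d f) = 0 →
      eval a (homogeneousComponent d g) = 0 → a = 0)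
    (Z : Finset (Fin 2 → ℂ)) (hZ : ∀ a, a ∈ Z ↔ eval a f = 0 ∧ eval a g = 0)
    (hJ : ∀ a ∈ Z, eval a (pderiv 0 f * pderiv 1 g - pderiv 1 f * pderiv 0 g) ≠ 0)
    (h : MvPolynomial (Fin 2) ℂ) (hh : h.totalDegree < d) (hv : ∀ a ∈ Z, eval a h = 0) :
    h = 0 :=
  eq_zero_of_mem hcop (by omega) hf hg h (mem_of_vanish f g Z hZ hJ h hv) hh

/-! ### The Euler-Jacobi relation -/

namespace EJ

theorem lag (S : Finset ℂ) (k : ℕ) (hk : k + 2 ≤ S.card) :
    ∑ s ∈ S, s ^ k / ∏ t ∈ S.erase s, (s - t) = 0 := by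
  have h := Lagrange.coeff_eq_sum (s := S) (v := id) (Set.injOn_id _)
    (P := (Polynomial.X ^ k : Polynomial ℂ)) (by
      rw [Polynomial.degree_X_pow]; exact_mod_cast (by omega : k < S.card))
  rw [Polynomial.coeff_X_pow, if_neg (by omega)] at h
  simpa using h.symm

theorem grid_sum (S T : Finset ℂ) (P : MvPolynomial (Fin 2) ℂ)
    (hP : P.totalDegree + 3 ≤ S.card + T.card) :
    ∑ s ∈ S, ∑ t ∈ T, eval ![s, t] P /
      ((∏ x ∈ S.erase s, (s - x)) * ∏ y ∈ T.erase t, (t - y)) = 0 := by
  have h1 : ∀ s t : ℂ, eval ![s, t] P = ∑ m ∈ P.support, coeff m P * (s ^ m 0 * t ^ m 1) := by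
    intro s t
    rw [eval_eq']
    simp [Fin.prod_univ_two]
  have h2 : ∑ s ∈ S, ∑ t ∈ T, eval ![s, t] P /
      ((∏ x ∈ S.erase s, (s - x)) * ∏ y ∈ T.erase t, (t - y)) =
      ∑ m ∈ P.support, coeff m P * ((∑ s ∈ S, s ^ m 0 / ∏ x ∈ S.erase s, (s - x)) *
        ∑ t ∈ T, t ^ m 1 / ∏ y ∈ T.erase t, (t - y)) := by
    calc ∑ s ∈ S, ∑ t ∈ T, eval ![s, t] P /
          ((∏ x ∈ S.erase s, (s - x)) * ∏ y ∈ T.erase t, (t - y))
        = ∑ s ∈ S, ∑ t ∈ T, ∑ m ∈ P.support, coeff m P * (s ^ m 0 * t ^ m 1) /
          ((∏ x ∈ S.erase s, (s - x)) * ∏ y ∈ T.erase t, (t - y)) := by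
          refine Finset.sum_congr rfl (fun s _ => Finset.sum_congr rfl (fun t _ => ?_))
          rw [h1, Finset.sum_div]
      _ = ∑ s ∈ S, ∑ m ∈ P.support, ∑ t ∈ T, coeff m P * (s ^ m 0 * t ^ m 1) /
          ((∏ x ∈ S.erase s, (s - x)) * ∏ y ∈ T.erase t, (t - y)) :=
          Finset.sum_congr rfl (fun s _ => Finset.sum_comm)
      _ = ∑ m ∈ P.support, ∑ s ∈ S, ∑ t ∈ T, coeff m P * (s ^ m 0 * t ^ m 1) /
          ((∏ x ∈ S.erase s, (s - x)) * ∏ y ∈ T.erase t, (t - y)) := Finset.sum_comm
      _ = _ := by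
          refine Finset.sum_congr rfl (fun m _ => ?_)
          rw [Finset.sum_mul_sum, Finset.mul_sum]
          refine Finset.sum_congr rfl (fun s _ => ?_)
          rw [Finset.mul_sum]
          refine Finset.sum_congr rfl (fun t _ => ?_)
          ring
  rw [h2]
  apply Finset.sum_eq_zero
  intro m hm
  have hdeg : m 0 + m 1 ≤ P.totalDegree := by
    have := le_totalDegree hm
    rw [Finsupp.sum_fintype _ _ (fun _ => rfl), Fin.sum_univ_two] at this
    exact this
  rcases le_or_gt (m 0 + 2) S.card with h | h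
  · rw [lag S _ h, zero_mul, mul_zero]
  · rw [lag T _ (by omega), mul_zero, mul_zero]

/-- product of the linear factors in one variable -/
noncomputable def lin (i : Fin 2) (S : Finset ℂ) : MvPolynomial (Fin 2) ℂ := ∏ s ∈ S, (X i - C s)

theorem lin_degree (i : Fin 2) (S : Finset ℂ) : (lin i S).totalDegree ≤ S.card := by
  rw [lin]
  refine (totalDegree_finsetProd _ _).trans ?_
  refine (Finset.sum_le_card_nsmul _ _ 1 (fun s _ => ?_)).trans (by simp)
  exact (totalDegree_sub_C_le _ _).trans (totalDegree_X _).le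

theorem lin_ne_zero (i : Fin 2) (S : Finset ℂ) : lin i S ≠ 0 := by
  rw [lin, Finset.prod_ne_zero_iff]
  intro s _ h
  have := congrArg (eval (fun _ => s + 1)) h
  simp at this

theorem lin_eval (i : Fin 2) (S : Finset ℂ) (a : Fin 2 → ℂ) (ha : a i ∈ S) :
    eval a (lin i S) = 0 := by
  rw [lin, map_prod]
  exact Finset.prod_eq_zero ha (by simp)

theorem lin_pderiv_ne (i j : Fin 2) (hij : i ≠ j) (S : Finset ℂ) :
    pderiv j (lin i S) = 0 := by
  rw [lin]
  induction S using Finset.induction_on with
  | empty => simp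
  | insert s S hs ih =>
    rw [Finset.prod_insert hs, Derivation.leibniz, ih]
    simp [pderiv_X_of_ne hij]

theorem lin_pderiv (i : Fin 2) (S : Finset ℂ) (a : Fin 2 → ℂ) (ha : a i ∈ S) :
    eval a (pderiv i (lin i S)) = ∏ t ∈ S.erase (a i), (a i - t) := by
  rw [lin, ← Finset.mul_prod_erase _ _ ha, Derivation.leibniz]
  simp [map_prod]

end EJ

theorem euler_jacobi (d : ℕ) (f g : MvPolynomial (Fin 2) ℂ) (hf : f.totalDegree ≤ d)
    (hg : g.totalDegree ≤ d)
    (hcop : ∀ a : Fin 2 → ℂ, eval a (homogeneousComponent d f) = 0 →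
      eval a (homogeneousComponent d g) = 0 → a = 0)
    (Z : Finset (Fin 2 → ℂ)) (hZ : ∀ a, a ∈ Z ↔ eval a f = 0 ∧ eval a g = 0)
    (hJ : ∀ a ∈ Z, eval a (pderiv 0 f * pderiv 1 g - pderiv 1 f * pderiv 0 g) ≠ 0)
    (h : MvPolynomial (Fin 2) ℂ) (hh : h.totalDegree + 3 ≤ 2 * d) :
    ∑ a ∈ Z, eval a h / eval a (pderiv 0 f * pderiv 1 g - pderiv 1 f * pderiv 0 g) = 0 := by
  classical
  have hd : 1 ≤ d := by omega
  set S : Fin 2 → Finset ℂ := fun i => Z.image (fun a => a i) with hS
  have hSmem : ∀ i, ∀ a ∈ Z, a i ∈ S i := fun i a ha => Finset.mem_image_of_mem _ ha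
  -- representation of the two products
  have hrep : ∀ i, ∃ u v, lin i (S i) = u * f + v * g ∧ u.totalDegree + d ≤ (S i).card ∧
      v.totalDegree + d ≤ (S i).card := by
    intro i
    have hmem := mem_of_vanish f g Z hZ hJ (lin i (S i))
      (fun a ha => lin_eval i (S i) a (hSmem i a ha))
    obtain ⟨u, v, huv, hu, hv⟩ := degree_control hcop hd hf hg _ hmem
    have hle := lin_degree i (S i)
    have hdS : d ≤ (S i).card := by
      by_contra hlt
      push Not at hlt
      exact lin_ne_zero i (S i) (eq_zero_of_mem hcop hd hf hg _ hmem (by omega))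
    refine ⟨u, v, huv, ?_, ?_⟩
    · rcases hu.zero_or with rfl | hu
      · simpa using hdS
      · omega
    · rcases hv.zero_or with rfl | hv
      · simpa using hdS
      · omega
  obtain ⟨a11, a12, h1, d11, d12⟩ := hrep 0
  obtain ⟨a21, a22, h2, d21, d22⟩ := hrep 1
  set Δ := a11 * a22 - a12 * a21 with hΔ
  set P := h * Δ with hP
  have hPdeg : P.totalDegree + 3 ≤ (S 0).card + (S 1).card := by
    have e1 : (a11 * a22).totalDegree ≤ a11.totalDegree + a22.totalDegree := totalDegree_mul _ _
    have e2 : (a12 * a21).totalDegree ≤ a12.totalDegree + a21.totalDegree := totalDegree_mul _ _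
    have e3 : Δ.totalDegree ≤ max (a11 * a22).totalDegree (a12 * a21).totalDegree :=
      totalDegree_sub _ _
    have e4 : P.totalDegree ≤ h.totalDegree + Δ.totalDegree := totalDegree_mul _ _
    rcases le_max_iff.1 e3 with e5 | e5 <;> omega
  have hgrid := grid_sum (S 0) (S 1) P hPdeg
  -- values on `Z`
  have hval : ∀ a ∈ Z, eval a Δ * eval a (pderiv 0 f * pderiv 1 g - pderiv 1 f * pderiv 0 g) =
      (∏ x ∈ (S 0).erase (a 0), (a 0 - x)) * ∏ y ∈ (S 1).erase (a 1), (a 1 - y) := by
    intro a ha
    obtain ⟨haf, hag⟩ := (hZ a).1 ha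
    have hder : ∀ (i : Fin 2) (u v : MvPolynomial (Fin 2) ℂ),
        eval a (pderiv i (u * f + v * g)) = eval a u * eval a (pderiv i f) +
          eval a v * eval a (pderiv i g) := by
      intro i u v
      simp only [map_add, Derivation.leibniz, smul_eq_mul, map_mul, haf, hag]
      ring
    have p1 := lin_pderiv 0 (S 0) a (hSmem 0 a ha)
    have p2 := lin_pderiv 1 (S 1) a (hSmem 1 a ha)
    have p3 : eval a (pderiv 1 (lin 0 (S 0))) = 0 := by
      rw [lin_pderiv_ne 0 1 (by decide)]; simp
    have p4 : eval a (pderiv 0 (lin 1 (S 1))) = 0 := by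
      rw [lin_pderiv_ne 1 0 (by decide)]; simp
    rw [h1, hder] at p1 p3
    rw [h2, hder] at p2 p4
    rw [← p1, ← p2, hΔ]
    simp only [map_sub, map_mul]
    linear_combination (-(eval a a21 * eval a (pderiv 0 f) + eval a a22 * eval a (pderiv 0 g))) * p3
  have hw : ∀ a ∈ Z, (∏ x ∈ (S 0).erase (a 0), (a 0 - x)) *
      ∏ y ∈ (S 1).erase (a 1), (a 1 - y) ≠ 0 := by
    intro a _
    apply mul_ne_zero <;>
    · rw [Finset.prod_ne_zero_iff]
      intro t ht
      exact sub_ne_zero.2 (Finset.ne_of_mem_erase ht).symm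
  rw [← hgrid, ← Finset.sum_product']
  have hinj : Set.InjOn (fun a : Fin 2 → ℂ => (a 0, a 1)) (Z : Set (Fin 2 → ℂ)) := by
    intro a _ b _ hab
    simp only [Prod.mk.injEq] at hab
    ext i
    fin_cases i
    · exact hab.1
    · exact hab.2
  have hsub : Z.image (fun a : Fin 2 → ℂ => (a 0, a 1)) ⊆ S 0 ×ˢ S 1 := by
    intro q hq
    obtain ⟨a, ha, rfl⟩ := Finset.mem_image.1 hq
    exact Finset.mem_product.2 ⟨hSmem 0 a ha, hSmem 1 a ha⟩
  rw [← Finset.sum_subset hsub, Finset.sum_image hinj]
  · apply Finset.sum_congr rfl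
    intro a ha
    have hvec : ![a 0, a 1] = a := by
      ext i; fin_cases i <;> rfl
    rw [hvec, hP, map_mul, div_eq_div_iff (hJ a ha) (hw a ha), ← hval a ha]
    ring
  · rintro ⟨s, t⟩ hst hnot
    rw [Finset.mem_product] at hst
    have hnZ : ![s, t] ∉ Z := by
      intro hmem
      apply hnot
      exact Finset.mem_image.2 ⟨![s, t], hmem, rfl⟩
    have e1 := lin_eval 0 (S 0) ![s, t] hst.1
    have e2 := lin_eval 1 (S 1) ![s, t] hst.2
    rw [h1, map_add, map_mul, map_mul] at e1
    rw [h2, map_add, map_mul, map_mul] at e2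
    have hΔ0 : eval ![s, t] Δ = 0 := by
      by_contra hne
      apply hnZ
      rw [hZ]
      constructor
      · apply (mul_eq_zero.1 ?_).resolve_left hne
        rw [hΔ, map_sub, map_mul, map_mul]
        linear_combination eval ![s, t] a22 * e1 - eval ![s, t] a12 * e2
      · apply (mul_eq_zero.1 ?_).resolve_left hne
        rw [hΔ, map_sub, map_mul, map_mul]
        linear_combination eval ![s, t] a11 * e2 - eval ![s, t] a21 * e1
    change eval ![s, t] P / _ = 0
    rw [hP, map_mul, hΔ0, mul_zero, zero_div]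

/-! ### Bezout's bound -/

namespace EJ

/-- Exponent vectors of degree at most `N` and compositions of `N`. -/
noncomputable def degEquiv (N : ℕ) :
    {μ : Fin 2 →₀ ℕ // (μ.sum fun _ e => e) ≤ N} ≃ {P : Option (Fin 2) → ℕ // ∑ i, P i = N} where
  toFun μ := ⟨fun o => o.elim (N - ∑ i, μ.1 i) μ.1, by
    have h := μ.2
    rw [Finsupp.sum_fintype _ _ (fun _ => rfl)] at h
    rw [Fintype.sum_option]
    simp only [Option.elim]
    omega⟩
  invFun P := ⟨Finsupp.equivFunOnFinite.symm (fun i => P.1 (some i)), by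
    have h := P.2
    rw [Fintype.sum_option] at h
    rw [Finsupp.sum_fintype _ _ (fun _ => rfl)]
    simp only [Finsupp.equivFunOnFinite_symm_apply_apply]
    omega⟩
  left_inv μ := by
    ext i
    simp
  right_inv P := by
    have h := P.2
    rw [Fintype.sum_option] at h
    apply Subtype.ext
    funext o
    cases o with
    | none =>
      simp only [Option.elim, Finsupp.equivFunOnFinite_symm_apply_apply]
      omega
    | some i => simp

theorem card_deg (N : ℕ) : Nat.card {μ : Fin 2 →₀ ℕ // (μ.sum fun _ e => e) ≤ N} =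
    (N + 2).choose 2 := by
  classical
  rw [Nat.card_congr (degEquiv N),
    Nat.card_congr (Sym.equivNatSumOfFintype (Option (Fin 2)) N).symm, Nat.card_eq_fintype_card,
    Sym.card_sym_eq_multichoose, Fintype.card_option, Fintype.card_fin, Nat.multichoose_eq]
  have e : 2 + 1 + N - 1 = N + 2 := by omega
  rw [e, Nat.choose_symm_add]

/-- the space of polynomials of degree at most `N` -/
noncomputable abbrev V (N : ℕ) : Submodule ℂ (MvPolynomial (Fin 2) ℂ) := restrictTotalDegree (Fin 2) ℂ N

theorem mem_V {N : ℕ} {q : MvPolynomial (Fin 2) ℂ} (h : q.totalDegree ≤ N) : q ∈ V N :=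
  (mem_restrictTotalDegree _ _ _).2 h

theorem deg_V {N : ℕ} {q : MvPolynomial (Fin 2) ℂ} (h : q ∈ V N) : q.totalDegree ≤ N :=
  (mem_restrictTotalDegree _ _ _).1 h

theorem finrank_deg (N : ℕ) : Module.finrank ℂ (V N) = (N + 2).choose 2 := by
  rw [← card_deg N]
  exact Module.finrank_eq_nat_card_basis (basisRestrictSupport ℂ _)

theorem two_mul_choose (n : ℕ) : 2 * (n + 2).choose 2 = (n + 2) * (n + 1) := by
  rw [Nat.choose_two_right]
  have := Nat.even_mul_pred_self (n + 2)
  rw [Nat.two_mul_div_two_of_even this]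
  rfl

theorem sep (Z : Finset (Fin 2 → ℂ)) (a : Fin 2 → ℂ) :
    ∃ p : MvPolynomial (Fin 2) ℂ, eval a p = 1 ∧ ∀ b ∈ Z, b ≠ a → eval b p = 0 := by
  classical
  have h1 : ∀ b : Fin 2 → ℂ, b ≠ a → ∃ q : MvPolynomial (Fin 2) ℂ, eval a q = 1 ∧ eval b q = 0 := by
    intro b hb
    obtain ⟨i, hi⟩ := Function.ne_iff.1 hb
    refine ⟨C (a i - b i)⁻¹ * (X i - C (b i)), ?_, ?_⟩
    · simp only [map_mul, map_sub, eval_C, eval_X]
      exact inv_mul_cancel₀ (sub_ne_zero.2 hi.symm)
    · simp
  choose! q hq using h1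
  refine ⟨∏ b ∈ Z.erase a, q b, ?_, ?_⟩
  · rw [map_prod]
    exact Finset.prod_eq_one (fun b hb => (hq b (Finset.ne_of_mem_erase hb)).1)
  · intro b hb hba
    rw [map_prod]
    exact Finset.prod_eq_zero (Finset.mem_erase.2 ⟨hba, hb⟩) (hq b hba).2

end EJ

section Bezout

variable {d : ℕ} {f g : MvPolynomial (Fin 2) ℂ}

theorem top_dvd (hf : f.totalDegree ≤ d) (hF : homogeneousComponent d f ≠ 0)
    (q : MvPolynomial (Fin 2) ℂ) (hq : q ∣ f) :
    homogeneousComponent q.totalDegree q ∣ homogeneousComponent d f := by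
  obtain ⟨r, rfl⟩ := hq
  have h0 : q * r ≠ 0 := by
    intro h
    rw [h, map_zero] at hF
    exact hF rfl
  have hq0 : q ≠ 0 := left_ne_zero_of_mul h0
  have hr0 : r ≠ 0 := right_ne_zero_of_mul h0
  have hdeg : (q * r).totalDegree = d := by
    apply le_antisymm hf
    by_contra hlt
    exact hF (homogeneousComponent_eq_zero _ _ (by omega))
  rw [totalDegree_mul_of_isDomain hq0 hr0] at hdeg
  rw [← hdeg, hc_mul_top (LT.of_totalDegree (Nat.lt_succ_self _)) le_rfl]
  exact dvd_mul_right _ _

theorem relprime_fg (hd : 1 ≤ d) (hf : f.totalDegree ≤ d) (hg : g.totalDegree ≤ d)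
    (hcop : ∀ a : Fin 2 → ℂ, eval a (homogeneousComponent d f) = 0 →
      eval a (homogeneousComponent d g) = 0 → a = 0) : IsRelPrime f g := by
  intro q hqf hqg
  have hF := top_ne_zero hcop hd
  have hG := top_ne_zero (f := g) (g := f) (fun a h1 h2 => hcop a h2 h1) hd
  have h1 := top_dvd hf hF q hqf
  have h2 := top_dvd hg hG q hqg
  have hu := (relprime_top hcop) h1 h2
  have hk : q.totalDegree = 0 := by
    rw [← (homogeneousComponent_isHomogeneous q.totalDegree q).totalDegree hu.ne_zero]
    exact (isUnit_iff_totalDegree_of_isReduced.1 hu).2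
  rw [hk, homogeneousComponent_zero] at hu
  rw [totalDegree_eq_zero_iff_eq_C.1 hk]
  exact hu

end Bezout

theorem bezout_card (d : ℕ) (f g : MvPolynomial (Fin 2) ℂ) (hf : f.totalDegree ≤ d)
    (hg : g.totalDegree ≤ d)
    (hcop : ∀ a : Fin 2 → ℂ, eval a (homogeneousComponent d f) = 0 →
      eval a (homogeneousComponent d g) = 0 → a = 0)
    (Z : Finset (Fin 2 → ℂ)) (hZ : ∀ a ∈ Z, eval a f = 0 ∧ eval a g = 0) :
    Z.card ≤ d ^ 2 := by
  classical
  rcases Nat.eq_zero_or_pos d with rfl | hd
  · -- constants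
    have hfC := totalDegree_eq_zero_iff_eq_C.1 (Nat.le_zero.1 hf)
    have hgC := totalDegree_eq_zero_iff_eq_C.1 (Nat.le_zero.1 hg)
    rw [Nat.pow_succ, mul_zero, Nat.le_zero, Finset.card_eq_zero, Finset.eq_empty_iff_forall_notMem]
    intro a ha
    obtain ⟨h1, h2⟩ := hZ a ha
    rw [hfC, eval_C] at h1
    rw [hgC, eval_C] at h2
    have h3 := hcop ![1, 1] (by rw [homogeneousComponent_zero, eval_C, h1])
      (by rw [homogeneousComponent_zero, eval_C, h2])
    have h4 := congrFun h3 0
    simp at h4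
  choose p hp using fun a : Fin 2 → ℂ => sep Z a
  set M := Z.sup (fun a => (p a).totalDegree) with hM
  have hMp : ∀ a ∈ Z, (p a).totalDegree ≤ M := fun a ha =>
    Finset.le_sup (f := fun a => (p a).totalDegree) ha
  -- evaluation
  let E : V (M + 2 * d) →ₗ[ℂ] (Z → ℂ) :=
    { toFun := fun q a => eval a.1 q.1
      map_add' := by intro x y; ext a; simp
      map_smul' := by intro c x; ext a; simp [smul_eval] }
  have hE : Function.Surjective E := by
    intro c
    refine ⟨⟨∑ a : Z, C (c a) * p a.1, ?_⟩, ?_⟩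
    · apply Submodule.sum_mem
      intro a _
      apply mem_V
      refine (totalDegree_mul _ _).trans ?_
      rw [totalDegree_C]
      have := hMp a.1 a.2
      omega
    · ext b
      change eval b.1 (∑ a : Z, C (c a) * p a.1) = c b
      rw [map_sum, Finset.sum_eq_single b]
      · rw [map_mul, eval_C, (hp b.1).1, mul_one]
      · intro a _ hab
        rw [map_mul, (hp a.1).2 b.1 b.2 (fun h => hab (Subtype.ext h.symm)), mul_zero]
      · intro h; exact absurd (Finset.mem_univ _) h
  -- the map `(u, v) ↦ u f + v g`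
  let Φ : (V (M + d) × V (M + d)) →ₗ[ℂ] V (M + 2 * d) :=
    { toFun := fun w => ⟨w.1.1 * f + w.2.1 * g, by
        have h1 := deg_V w.1.2
        have h2 := deg_V w.2.2
        exact Submodule.add_mem _ (mem_V ((totalDegree_mul _ _).trans (by omega)))
          (mem_V ((totalDegree_mul _ _).trans (by omega)))⟩
      map_add' := by
        intro x y
        apply Subtype.ext
        simp only [Prod.fst_add, Prod.snd_add, Submodule.coe_add]
        ring
      map_smul' := by
        intro c x
        apply Subtype.ext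
        simp only [Prod.smul_fst, Prod.smul_snd, Submodule.coe_smul, smul_mul_assoc,
          RingHom.id_apply, smul_add] }
  let Ψ : V M →ₗ[ℂ] (V (M + d) × V (M + d)) :=
    { toFun := fun w => (⟨w.1 * g, by
        have h1 := deg_V w.2
        exact mem_V ((totalDegree_mul _ _).trans (by omega))⟩, ⟨-(w.1 * f), by
        have h1 := deg_V w.2
        apply mem_V
        rw [totalDegree_neg]
        exact (totalDegree_mul _ _).trans (by omega)⟩)
      map_add' := by
        intro x y
        apply Prod.ext <;> apply Subtype.ext <;>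
          simp only [Prod.fst_add, Prod.snd_add, Submodule.coe_add] <;> ring
      map_smul' := by
        intro c x
        apply Prod.ext <;> apply Subtype.ext <;>
          simp only [Prod.smul_fst, Prod.smul_snd, Submodule.coe_smul, smul_mul_assoc,
          RingHom.id_apply, smul_neg] }
  have hF0 : homogeneousComponent d f ≠ 0 := top_ne_zero hcop hd
  have hf0 : f ≠ 0 := by
    rintro rfl
    exact hF0 (map_zero _)
  have hfdeg : f.totalDegree = d := by
    apply le_antisymm hf
    by_contra hlt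
    exact hF0 (homogeneousComponent_eq_zero _ _ (by omega))
  have hker : LinearMap.ker Φ ≤ LinearMap.range Ψ := by
    rintro ⟨⟨u, hu⟩, ⟨v, hv⟩⟩ huv
    rw [LinearMap.mem_ker] at huv
    have h1 : u * f + v * g = 0 := congrArg Subtype.val huv
    have h2 : f ∣ g * v := ⟨-u, by linear_combination h1⟩
    obtain ⟨w, hw⟩ := (relprime_fg hd hf hg hcop).dvd_of_dvd_mul_left h2
    have hu2 : u = -w * g := by
      apply mul_right_cancel₀ hf0
      rw [hw] at h1
      linear_combination h1
    have hwdeg : (-w).totalDegree ≤ M := by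
      by_cases hw0 : w = 0
      · simp [hw0]
      · have h3 := totalDegree_mul_of_isDomain hf0 hw0
        rw [← hw, hfdeg] at h3
        have h4 := deg_V hv
        rw [totalDegree_neg]
        omega
    refine ⟨⟨-w, mem_V hwdeg⟩, ?_⟩
    apply Prod.ext <;> apply Subtype.ext
    · change -w * g = u
      exact hu2.symm
    · change -(-w * f) = v
      rw [hw]; ring
  have hrange : LinearMap.range Φ ≤ LinearMap.ker E := by
    rintro _ ⟨w, rfl⟩
    rw [LinearMap.mem_ker]
    ext a
    change eval a.1 (w.1.1 * f + w.2.1 * g) = 0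
    rw [map_add, map_mul, map_mul, (hZ a.1 a.2).1, (hZ a.1 a.2).2]
    ring
  have r1 := LinearMap.finrank_range_add_finrank_ker E
  have r2 := LinearMap.finrank_range_add_finrank_ker Φ
  have r3 : Module.finrank ℂ (LinearMap.ker Φ) ≤ Module.finrank ℂ (V M) :=
    (Submodule.finrank_mono hker).trans (LinearMap.finrank_range_le Ψ)
  have r4 := Submodule.finrank_mono hrange
  rw [LinearMap.range_eq_top.2 hE, finrank_top, Module.finrank_fintype_fun_eq_card,
    Fintype.card_coe] at r1
  rw [Module.finrank_prod] at r2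
  simp only [finrank_deg] at r1 r2 r3
  have c1 := two_mul_choose (M + 2 * d)
  have c2 := two_mul_choose (M + d)
  have c3 := two_mul_choose M
  have key : 2 * Z.card + 2 * ((M + d + 2) * (M + d + 1)) ≤
      (M + 2 * d + 2) * (M + 2 * d + 1) + (M + 2) * (M + 1) := by
    rw [← c1, ← c2, ← c3]; omega
  nlinarith [key]

end Pool.Agent.MP9d
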