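import Mathlib
import Pool.Agent.Work.MP_9d788c_ag.Elim

/-!
Generic small perturbation of a plane polynomial with positive definite leading form.
-/

open MvPolynomial

namespace Pool.Agent.MP9d

namespace GenPert

theorem aeval_smul_hom {σ : Type*} {p : MvPolynomial σ ℝ} {n : ℕ}
    (hp : p.IsHomogeneous n) (c : ℂ) (v : σ → ℂ) :
    aeval (c • v) p = c ^ n * aeval v p := by
  rw [aeval_def, aeval_def, eval₂_eq, eval₂_eq, Finset.mul_sum]
  refine Finset.sum_congr rfl fun d hd => ?_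
  have hdeg : ∑ i ∈ d.support, d i = n := by
    have := hp.degree_eq_sum_deg_support hd
    simpa using this.symm
  have : ∏ i ∈ d.support, (c • v) i ^ d i = c ^ n * ∏ i ∈ d.support, v i ^ d i := by
    rw [← hdeg, ← Finset.prod_pow_eq_pow_sum, ← Finset.prod_mul_distrib]
    refine Finset.prod_congr rfl fun i _ => ?_
    simp [mul_pow]
  rw [this]; ring

theorem aeval_ofReal {σ : Type*} (p : MvPolynomial σ ℝ) (v : σ → ℝ) :
    aeval (fun i => (v i : ℂ)) p = ((eval v p : ℝ) : ℂ) := by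
  have h := MvPolynomial.aeval_algebraMap_apply ℂ v p
  rw [MvPolynomial.aeval_eq_eval] at h
  exact h

/-- The restriction of a form to the line `y = 1`. -/
noncomputable def line (p : MvPolynomial (Fin 2) ℝ) : Polynomial ℝ :=
  aeval ![Polynomial.X, 1] p

theorem eval_line (p : MvPolynomial (Fin 2) ℝ) (c : ℂ) :
    Polynomial.aeval c (line p) = aeval ![c, 1] p := by
  have : (Polynomial.aeval c).comp (aeval (R := ℝ) ![Polynomial.X, 1])
      = aeval (R := ℝ) ![c, 1] := by
    apply MvPolynomial.algHom_ext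
    intro i
    fin_cases i <;> simp
  exact AlgHom.congr_fun this p

theorem line_pderiv (p : MvPolynomial (Fin 2) ℝ) :
    line (pderiv 0 p) = Polynomial.derivative (line p) := by
  induction p using MvPolynomial.induction_on with
  | C a => simp [line]
  | add p q hp hq => 
    simp only [line, map_add] at *
    rw [hp, hq]
  | mul_X p i hp =>
    simp only [line, map_mul, aeval_X, Derivation.leibniz, smul_eq_mul, map_add] at *
    rw [hp]
    fin_cases i
    · simp [Polynomial.derivative_mul]; ring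
    · simp

/-- The finite set of values of the first parameter to be avoided. -/
theorem leading_generic {n : ℕ} (hn : 3 ≤ n) (Pn : MvPolynomial (Fin 2) ℝ)
    (hh : Pn.IsHomogeneous n) (h10 : 0 < eval ![1, 0] Pn) :
    ∃ B : Set ℝ, B.Finite ∧ ∀ η : ℝ, η ∉ B → ∀ a : Fin 2 → ℂ,
      aeval a (pderiv 0 (Pn + C η * X 1 ^ n)) = 0 →
      aeval a (pderiv 1 (Pn + C η * X 1 ^ n)) = 0 → a = 0 := by
  classical
  set q := line (pderiv 0 Pn) with hq
  have hq0 : q ≠ 0 := by
    intro h0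
    rw [hq, line_pderiv] at h0
    have hconst : line Pn = Polynomial.C ((line Pn).coeff 0) :=
      Polynomial.eq_C_of_derivative_eq_zero h0
    set c := (line Pn).coeff 0
    have hval : ∀ x : ℝ, eval ![x, 1] Pn = c := by
      intro x
      have h1 := eval_line Pn (x : ℂ)
      rw [hconst] at h1
      have h2 : (![(x : ℂ), 1] : Fin 2 → ℂ) = fun i => (((![x, 1] : Fin 2 → ℝ) i : ℝ) : ℂ) := by
        funext i; fin_cases i <;> simp
      rw [h2, aeval_ofReal] at h1
      simp only [Polynomial.aeval_C] at h1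
      have h3 : ((c : ℝ) : ℂ) = ((eval ![x, 1] Pn : ℝ) : ℂ) := h1
      exact_mod_cast h3.symm
    have hcont : Continuous fun s : ℝ => eval ![1, s] Pn := by
      refine (MvPolynomial.continuous_eval Pn).comp ?_
      refine continuous_pi fun i => ?_
      fin_cases i
      · exact continuous_const
      · exact continuous_id
    have hcont2 : Continuous fun s : ℝ => s ^ n * c := (continuous_pow n).mul continuous_const
    have heq : (fun s : ℝ => eval ![1, s] Pn) = fun s : ℝ => s ^ n * c := by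
      refine Continuous.ext_on (s := {(0 : ℝ)}ᶜ) (dense_compl_singleton 0) hcont hcont2 ?_
      intro s hs
      have hs' : s ≠ 0 := by simpa using hs
      change eval ![1, s] Pn = s ^ n * c
      have h2 : (![1, s] : Fin 2 → ℝ) = s • ![s⁻¹, 1] := by
        funext i; fin_cases i <;> simp [hs']
      have h3 : eval (s • (![s⁻¹, 1] : Fin 2 → ℝ)) Pn = s ^ n * eval ![s⁻¹, 1] Pn := by
        have h4 := aeval_smul_hom hh (s : ℂ) (fun i => (((![s⁻¹, 1] : Fin 2 → ℝ) i : ℝ) : ℂ))
        have h5 : ((s : ℂ) • (fun i => (((![s⁻¹, 1] : Fin 2 → ℝ) i : ℝ) : ℂ)))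
            = fun i => (((s • (![s⁻¹, 1] : Fin 2 → ℝ)) i : ℝ) : ℂ) := by
          funext i; simp
        rw [h5, aeval_ofReal, aeval_ofReal] at h4
        exact_mod_cast h4
      rw [h2, h3, hval]
    have : eval ![1, 0] Pn = (0 : ℝ) ^ n * c := congrFun heq 0
    rw [zero_pow (by omega), zero_mul] at this
    exact absurd this h10.ne'
  set B : Set ℝ := {η : ℝ | ∃ c : ℂ, Polynomial.aeval c q = 0 ∧ (η : ℂ) = - aeval ![c, 1] Pn}
  have hB : B.Finite := by
    have hr : {c : ℂ | Polynomial.aeval c q = 0}.Finite := by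
      have hq1 : q.map (algebraMap ℝ ℂ) ≠ 0 := by
        rwa [Polynomial.map_ne_zero_iff (algebraMap ℝ ℂ).injective]
      refine (Polynomial.finite_setOfPred_isRoot hq1).subset ?_
      intro c hc
      simp only [Set.mem_ofPred_eq, Polynomial.IsRoot, Polynomial.eval_map_algebraMap] at hc ⊢
      exact hc
    have h2 := hr.image (fun c => - aeval ![c, 1] Pn)
    refine (h2.preimage (f := fun η : ℝ => (η : ℂ)) Complex.ofReal_injective.injOn).subset ?_
    rintro η ⟨c, hc, he⟩
    exact ⟨c, hc, he.symm⟩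
  refine ⟨B, hB, fun η hη a h0 h1 => ?_⟩
  set F := Pn + C η * X 1 ^ n with hF
  have hFh : F.IsHomogeneous n := by
    refine hh.add ?_
    exact isHomogeneous_C_mul_X_pow η 1 n
  have hFa : aeval a F = 0 := by
    have h2 := hFh.sum_X_mul_pderiv
    have h3 := congrArg (aeval a) h2
    rw [Fin.sum_univ_two, map_add, map_mul, map_mul, h0, h1, mul_zero, mul_zero, add_zero,
      map_nsmul] at h3
    have h4 : (n : ℂ) ≠ 0 := by
      have : n ≠ 0 := by omega
      exact_mod_cast this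
    rw [nsmul_eq_mul] at h3
    exact (mul_eq_zero.mp h3.symm).resolve_left h4
  have hFe : aeval a F = aeval a Pn + (η : ℂ) * a 1 ^ n := by
    rw [hF]; simp
  by_contra ha
  by_cases ha1 : a 1 = 0
  · have ha0 : a 0 ≠ 0 := by
      intro h; apply ha; funext i; fin_cases i
      · exact h
      · exact ha1
    have h2 : a = a 0 • (fun i => (((![1, 0] : Fin 2 → ℝ) i : ℝ) : ℂ)) := by
      funext i; fin_cases i
      · simp
      · simpa using ha1
    have h3 : aeval a Pn = a 0 ^ n * ((eval ![1, 0] Pn : ℝ) : ℂ) := by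
      conv_lhs => rw [h2]
      rw [aeval_smul_hom hh, aeval_ofReal]
    rw [hFe, ha1, zero_pow (by omega), mul_zero, add_zero, h3] at hFa
    have h5 : a 0 ^ n ≠ 0 := pow_ne_zero _ ha0
    have h6 := (mul_eq_zero.mp hFa).resolve_left h5
    exact h10.ne' (by exact_mod_cast h6)
  · have h2 : a = a 1 • ![a 0 / a 1, 1] := by
      funext i; fin_cases i
      · simp; field_simp
      · simp
    have h3 : aeval a Pn = a 1 ^ n * aeval ![a 0 / a 1, 1] Pn := by
      conv_lhs => rw [h2]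
      rw [aeval_smul_hom hh]
    have hp0 : pderiv 0 F = pderiv 0 Pn := by
      rw [hF]; simp [pderiv_X]
    have h4 : aeval a (pderiv 0 Pn) = a 1 ^ (n - 1) * aeval ![a 0 / a 1, 1] (pderiv 0 Pn) := by
      conv_lhs => rw [h2]
      rw [aeval_smul_hom (hh.pderiv)]
    rw [hp0, h4] at h0
    have h5 : aeval ![a 0 / a 1, 1] (pderiv 0 Pn) = 0 :=
      (mul_eq_zero.mp h0).resolve_left (pow_ne_zero _ ha1)
    apply hη
    refine ⟨a 0 / a 1, ?_, ?_⟩
    · rw [hq, eval_line, h5]
    · rw [hFe, h3] at hFa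
      have h6 : a 1 ^ n * (aeval ![a 0 / a 1, 1] Pn + (η : ℂ)) = 0 := by
        rw [← hFa]; ring
      have h7 := (mul_eq_zero.mp h6).resolve_left (pow_ne_zero _ ha1)
      linear_combination h7

theorem homComp_f {n : ℕ} (hn : 3 ≤ n) (P : MvPolynomial (Fin 2) ℝ) (η₁ η₂ b₀ b₁ : ℝ) :
    homogeneousComponent n (P + C η₁ * X 1 ^ n + C η₂ * (X 0 ^ 2 + X 1 ^ 2)
      - C b₀ * X 0 - C b₁ * X 1) = homogeneousComponent n P + C η₁ * X 1 ^ n := by
  have h1 : homogeneousComponent n (C η₁ * X 1 ^ n : MvPolynomial (Fin 2) ℝ)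
      = C η₁ * X 1 ^ n := by
    rw [homogeneousComponent_of_mem (isHomogeneous_C_mul_X_pow η₁ 1 n)]
    simp
  have h2 : homogeneousComponent n (C η₂ * (X 0 ^ 2 + X 1 ^ 2) : MvPolynomial (Fin 2) ℝ) = 0 := by
    have : (C η₂ * (X 0 ^ 2 + X 1 ^ 2) : MvPolynomial (Fin 2) ℝ).IsHomogeneous 2 :=
      ((isHomogeneous_X_pow 0 2).add (isHomogeneous_X_pow 1 2)).C_mul η₂
    rw [homogeneousComponent_of_mem this, if_neg (by omega)]
  have h3 : ∀ (b : ℝ) (i : Fin 2),
      homogeneousComponent n (C b * X i : MvPolynomial (Fin 2) ℝ) = 0 := by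
    intro b i
    rw [homogeneousComponent_of_mem (isHomogeneous_C_mul_X b i), if_neg (by omega)]
  rw [map_sub, map_sub, map_add, map_add, h1, h2, h3, h3]
  ring

theorem exists_small_notMem {B : Set ℝ} (hB : B.Finite) {ε : ℝ} (hε : 0 < ε) :
    ∃ η : ℝ, 0 ≤ η ∧ η ≤ ε ∧ η ∉ B := by
  obtain ⟨η, h1, h2⟩ := ((Set.Icc_infinite hε).sdiff hB).nonempty
  exact ⟨η, h1.1, h1.2, h2⟩

theorem hess_generic (α β γ : ℝ) :
    {η : ℝ | (α + 2 * η) * (β + 2 * η) - γ = 0}.Finite := by
  let R : Polynomial ℝ := (Polynomial.C α + Polynomial.C 2 * Polynomial.X) *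
    (Polynomial.C β + Polynomial.C 2 * Polynomial.X) - Polynomial.C γ
  have hR : R ≠ 0 := by
    intro h
    have h1 : ∀ x : ℝ, (α + 2 * x) * (β + 2 * x) - γ = 0 := by
      intro x
      have := congrArg (Polynomial.eval x) h
      simpa [R] using this
    have e0 := h1 0
    have e1 := h1 1
    have e2 := h1 (-1)
    nlinarith
  refine (Polynomial.finite_setOfPred_isRoot hR).subset ?_
  intro x hx
  simp only [Set.mem_ofPred_eq, Polynomial.IsRoot] at hx ⊢
  simpa [R] using hx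

theorem exists_nonroot {D : MvPolynomial (Fin 2) ℝ} (hD : D ≠ 0) {ε : ℝ} (hε : 0 < ε) :
    ∃ b : Fin 2 → ℝ, (∀ i, |b i| ≤ ε) ∧ eval b D ≠ 0 := by
  by_contra hcon
  push Not at hcon
  apply hD
  refine MvPolynomial.funext_set (fun _ => Set.Icc (-ε) ε) (fun _ => Set.Icc_infinite (by linarith))
    fun x hx => ?_
  rw [map_zero]
  refine hcon x fun i => ?_
  rw [abs_le]
  exact hx i (Set.mem_univ i)

end GenPert

open GenPert in
theorem exists_perturb (n : ℕ) (hn : 3 ≤ n) (P : MvPolynomial (Fin 2) ℝ) (hP : P.totalDegree ≤ n)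
    (hlead : ∀ v, v ≠ 0 → 0 < eval v (homogeneousComponent n P)) (ε : ℝ) (hε : 0 < ε) :
    ∃ η₁ η₂ b₀ b₁ : ℝ, 0 ≤ η₁ ∧ η₁ ≤ ε ∧ 0 ≤ η₂ ∧ η₂ ≤ ε ∧ |b₀| ≤ ε ∧ |b₁| ≤ ε ∧
      ∃ f : MvPolynomial (Fin 2) ℝ,
        f = P + C η₁ * X 1 ^ n + C η₂ * (X 0 ^ 2 + X 1 ^ 2) - C b₀ * X 0 - C b₁ * X 1 ∧
        (∀ a : Fin 2 → ℂ, aeval a (pderiv 0 (homogeneousComponent n f)) = 0 →
          aeval a (pderiv 1 (homogeneousComponent n f)) = 0 → a = 0) ∧
        (∀ a : Fin 2 → ℂ, aeval a (pderiv 0 f) = 0 → aeval a (pderiv 1 f) = 0 →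
          aeval a (pderiv 0 (pderiv 0 f) * pderiv 1 (pderiv 1 f) -
            pderiv 1 (pderiv 0 f) * pderiv 0 (pderiv 1 f)) ≠ 0) := by
  classical
  obtain ⟨B, hB, hBη⟩ := leading_generic hn (homogeneousComponent n P)
    (homogeneousComponent_isHomogeneous n P) (hlead _ (by
      intro h
      have := congrFun h 0
      simp at this))
  obtain ⟨η₁, h10, h11, h12⟩ := exists_small_notMem hB hε
  set Q : MvPolynomial (Fin 2) ℝ := P + C η₁ * X 1 ^ n with hQ
  obtain ⟨η₂, h20, h21, h22⟩ := exists_small_notMem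
    (hess_generic (eval 0 (pderiv 0 (pderiv 0 Q))) (eval 0 (pderiv 1 (pderiv 1 Q)))
      (eval 0 (pderiv 1 (pderiv 0 Q)) * eval 0 (pderiv 0 (pderiv 1 Q)))) hε
  set F1 : MvPolynomial (Fin 2) ℝ := Q + C η₂ * (X 0 ^ 2 + X 1 ^ 2) with hF1
  have d0 : pderiv 0 F1 = pderiv 0 Q + C (2 * η₂) * X 0 := by
    rw [hF1]
    simp only [map_add, Derivation.leibniz, pderiv_C, smul_zero, Derivation.leibniz_pow,
      pderiv_X_self, pderiv_X_of_ne (show (1 : Fin 2) ≠ 0 by decide)]
    simp only [smul_eq_mul, add_zero, map_mul, map_ofNat]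
    ring
  have d1 : pderiv 1 F1 = pderiv 1 Q + C (2 * η₂) * X 1 := by
    rw [hF1]
    simp only [map_add, Derivation.leibniz, pderiv_C, smul_zero, Derivation.leibniz_pow,
      pderiv_X_self, pderiv_X_of_ne (show (0 : Fin 2) ≠ 1 by decide)]
    simp only [smul_eq_mul, add_zero, map_mul, map_ofNat]
    ring
  have d00 : pderiv 0 (pderiv 0 F1) = pderiv 0 (pderiv 0 Q) + C (2 * η₂) := by
    rw [d0, map_add, pderiv_C_mul, pderiv_X_self, mul_one]
  have d10 : pderiv 1 (pderiv 0 F1) = pderiv 1 (pderiv 0 Q) := by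
    rw [d0, map_add, pderiv_C_mul, pderiv_X_of_ne (by decide), mul_zero, add_zero]
  have d11 : pderiv 1 (pderiv 1 F1) = pderiv 1 (pderiv 1 Q) + C (2 * η₂) := by
    rw [d1, map_add, pderiv_C_mul, pderiv_X_self, mul_one]
  have d01 : pderiv 0 (pderiv 1 F1) = pderiv 0 (pderiv 1 Q) := by
    rw [d1, map_add, pderiv_C_mul, pderiv_X_of_ne (by decide), mul_zero, add_zero]
  set J : MvPolynomial (Fin 2) ℝ := pderiv 0 (pderiv 0 F1) * pderiv 1 (pderiv 1 F1) -
    pderiv 1 (pderiv 0 F1) * pderiv 0 (pderiv 1 F1) with hJ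
  have hJ0 : J ≠ 0 := by
    intro h
    have h1 := congrArg (eval (0 : Fin 2 → ℝ)) h
    rw [hJ, d00, d11, d10, d01] at h1
    simp only [map_sub, map_mul, map_add, eval_C, map_zero] at h1
    exact h22 h1
  obtain ⟨D, hD, hdvd⟩ := exists_elim (pderiv 0 F1) (pderiv 1 F1) J hJ0
  obtain ⟨b, hb, hbD⟩ := exists_nonroot hD hε
  refine ⟨η₁, η₂, b 0, b 1, h10, h11, h20, h21, hb 0, hb 1, _, rfl, ?_, ?_⟩
  · rw [homComp_f hn]
    exact hBη η₁ h12
  · intro a ha0 ha1
    have e0 : pderiv 0 (F1 - C (b 0) * X 0 - C (b 1) * X 1) = pderiv 0 F1 - C (b 0) := by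
      rw [map_sub, map_sub, pderiv_C_mul, pderiv_C_mul, pderiv_X_self,
        pderiv_X_of_ne (by decide), mul_one, mul_zero, sub_zero]
    have e1 : pderiv 1 (F1 - C (b 0) * X 0 - C (b 1) * X 1) = pderiv 1 F1 - C (b 1) := by
      rw [map_sub, map_sub, pderiv_C_mul, pderiv_C_mul, pderiv_X_self,
        pderiv_X_of_ne (by decide), mul_one, mul_zero, sub_zero]
    rw [e0] at ha0 ⊢
    rw [e1] at ha1 ⊢
    simp only [map_sub, pderiv_C, sub_zero] at ha0 ha1 ⊢
    have hJa : aeval a J ≠ 0 := by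
      intro h
      obtain ⟨H, hH⟩ := hdvd
      have h1 := congrArg (aeval a) hH
      rw [map_mul, h, zero_mul] at h1
      have h2 : aeval a (aeval ![pderiv 0 F1, pderiv 1 F1] D)
          = aeval (fun i => ((b i : ℝ) : ℂ)) D := by
        have : (aeval (R := ℝ) a).comp (aeval (R := ℝ) ![pderiv 0 F1, pderiv 1 F1])
            = aeval (R := ℝ) (fun i => ((b i : ℝ) : ℂ)) := by
          apply MvPolynomial.algHom_ext
          intro i
          fin_cases i
          · simp only [AlgHom.comp_apply, aeval_X]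
            simpa [sub_eq_zero] using ha0
          · simp only [AlgHom.comp_apply, aeval_X]
            simpa [sub_eq_zero] using ha1
        exact AlgHom.congr_fun this D
      rw [h2, aeval_ofReal] at h1
      exact hbD (by exact_mod_cast h1)
    rw [hJ] at hJa
    simpa only [map_sub, map_mul] using hJa

end Pool.Agent.MP9d
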