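import Mathlib

/-!
# The sum of the signs of the Jacobians of a polynomial vector field on a box
-/

set_option autoImplicit false

namespace Pool.Agent.MP9d

open MvPolynomial MeasureTheory Set Filter Topology

namespace IB

/-- The function of a polynomial. -/
noncomputable def ev (w : MvPolynomial (Fin 2) ℝ) (z : ℝ × ℝ) : ℝ := eval ![z.1, z.2] w

/-- Its derivative. -/
noncomputable def dv (w : MvPolynomial (Fin 2) ℝ) (z : ℝ × ℝ) : ℝ × ℝ →L[ℝ] ℝ :=
  ev (pderiv 0 w) z • ContinuousLinearMap.fst ℝ ℝ ℝ +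
    ev (pderiv 1 w) z • ContinuousLinearMap.snd ℝ ℝ ℝ

theorem hasStrictFDerivAt_ev (w : MvPolynomial (Fin 2) ℝ) (z : ℝ × ℝ) :
    HasStrictFDerivAt (ev w) (dv w z) z := by
  induction w using MvPolynomial.induction_on with
  | C a =>
    have h1 : ev (C a) = fun _ => a := by funext z; simp [ev]
    have h2 : dv (C a) z = 0 := by simp [dv, ev]
    rw [h1, h2]
    exact hasStrictFDerivAt_const a z
  | add p q hp hq =>
    have h1 : ev (p + q) = fun z => ev p z + ev q z := by funext z; simp [ev]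
    have h2 : dv (p + q) z = dv p z + dv q z := by
      simp only [dv, ev, map_add, add_smul]
      abel
    rw [h1, h2]
    exact hp.add hq
  | mul_X p i hp =>
    have hX : HasStrictFDerivAt (ev (X i)) (dv (X i) z) z := by
      fin_cases i
      · have h1 : ev (X 0) = fun z : ℝ × ℝ => z.1 := by funext z; simp [ev]
        have h2 : dv (X 0) z = ContinuousLinearMap.fst ℝ ℝ ℝ := by
          simp [dv, ev, pderiv_X]
        show HasStrictFDerivAt (ev (X 0)) (dv (X 0) z) z
        rw [h1, h2]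
        exact hasStrictFDerivAt_fst
      · have h1 : ev (X 1) = fun z : ℝ × ℝ => z.2 := by funext z; simp [ev]
        have h2 : dv (X 1) z = ContinuousLinearMap.snd ℝ ℝ ℝ := by
          simp [dv, ev, pderiv_X]
        show HasStrictFDerivAt (ev (X 1)) (dv (X 1) z) z
        rw [h1, h2]
        exact hasStrictFDerivAt_snd
    have h1 : ev (p * X i) = fun z => ev p z * ev (X i) z := by funext z; simp [ev]
    have h2 : dv (p * X i) z = ev p z • dv (X i) z + ev (X i) z • dv p z := by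
      simp only [dv, ev, Derivation.leibniz, smul_eq_mul, map_add, map_mul, smul_add, smul_smul,
        add_smul]
      abel
    rw [h1, h2]
    exact hp.mul hX

theorem continuous_ev (w : MvPolynomial (Fin 2) ℝ) : Continuous (ev w) :=
  continuous_iff_continuousAt.2 fun z => (hasStrictFDerivAt_ev w z).hasFDerivAt.continuousAt

theorem pderiv_comm' (w : MvPolynomial (Fin 2) ℝ) :
    pderiv 0 (pderiv 1 w) = pderiv 1 (pderiv 0 w) := by
  have h : ⁅(pderiv 0 : Derivation ℝ (MvPolynomial (Fin 2) ℝ) (MvPolynomial (Fin 2) ℝ)),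
      (pderiv 1 : Derivation ℝ (MvPolynomial (Fin 2) ℝ) (MvPolynomial (Fin 2) ℝ))⁆ = 0 := by
    apply MvPolynomial.derivation_ext
    intro i
    rw [Derivation.commutator_apply, pderiv_X, pderiv_X]
    fin_cases i <;> simp
  have h2 := congrArg (fun D => D w) h
  simp only [Derivation.commutator_apply] at h2
  exact sub_eq_zero.1 h2

/-- The Jacobian. -/
noncomputable def jac (u v : MvPolynomial (Fin 2) ℝ) (z : ℝ × ℝ) : ℝ :=
  ev (pderiv 0 u) z * ev (pderiv 1 v) z - ev (pderiv 1 u) z * ev (pderiv 0 v) z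

theorem continuous_jac (u v : MvPolynomial (Fin 2) ℝ) : Continuous (jac u v) :=
  ((continuous_ev _).mul (continuous_ev _)).sub ((continuous_ev _).mul (continuous_ev _))

theorem det_prod (u v : MvPolynomial (Fin 2) ℝ) (z : ℝ × ℝ) :
    ((dv u z).prod (dv v z)).det = jac u v z := by
  unfold dv jac
  rw [← Matrix.toLin_finTwoProd_toContinuousLinearMap]
  simp only [ContinuousLinearMap.det, LinearMap.coe_toContinuousLinearMap, LinearMap.det_toLin,
    Matrix.det_fin_two_of]

/-- Bump functions. -/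
theorem exists_bump (ε : ℝ) (hε : 0 < ε) : ∃ α A : ℝ → ℝ, ContDiff ℝ 1 α ∧
    (∀ t, ε ≤ |t| → α t = 0) ∧ (∫ t, α t = 1) ∧ (∀ t, HasDerivAt A (α t) t) ∧
    (∀ t, t ≤ -ε → A t = 0) ∧ ∀ t, ε ≤ t → A t = 1 := by
  let f : ContDiffBump (0 : ℝ) := ⟨ε / 2, ε, half_pos hε, half_lt_self hε⟩
  have hcd : ContDiff ℝ 1 (f.normed volume) := f.contDiff_normed (n := 1)
  have hcont : Continuous (f.normed volume) := hcd.continuous
  have hsupp : Function.support (f.normed volume) = Metric.ball 0 ε := f.support_normed_eq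
  have hzero : ∀ t, ε ≤ |t| → f.normed volume t = 0 := by
    intro t ht
    by_contra h
    have : t ∈ Function.support (f.normed volume) := h
    rw [hsupp, Metric.mem_ball, dist_zero_right, Real.norm_eq_abs] at this
    linarith
  refine ⟨f.normed volume, fun t => ∫ s in (-ε)..t, f.normed volume s, hcd, hzero,
    f.integral_normed, ?_, ?_, ?_⟩
  · intro t
    exact intervalIntegral.integral_hasDerivAt_right (hcont.intervalIntegrable _ _)
      hcont.stronglyMeasurable.stronglyMeasurableAtFilter hcont.continuousAt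
  · intro t ht
    apply intervalIntegral.integral_zero_ae
    refine Eventually.of_forall fun s hs => hzero s ?_
    rw [uIoc_of_ge ht] at hs
    have : s ≤ -ε := hs.2
    rw [abs_of_nonpos (by linarith)]
    linarith
  · intro t ht
    beta_reduce
    rw [intervalIntegral.integral_eq_integral_of_support_subset]
    · exact f.integral_normed
    · rw [hsupp]
      intro s hs
      rw [Metric.mem_ball, dist_zero_right, Real.norm_eq_abs] at hs
      exact ⟨(abs_lt.1 hs).1, ((abs_lt.1 hs).2.le).trans ht⟩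

/-- Green's formula. -/
theorem green (u v : MvPolynomial (Fin 2) ℝ) (a b c d : ℝ) (hab : a < b) (hcd : c < d)
    (ε : ℝ) (α A : ℝ → ℝ) (hα : ContDiff ℝ 1 α) (hα0 : ∀ t, ε ≤ |t| → α t = 0)
    (hA : ∀ t, HasDerivAt A (α t) t) (hA0 : ∀ t, t ≤ -ε → A t = 0) (hA1 : ∀ t, ε ≤ t → A t = 1)
    (hT : ∀ x ∈ Icc a b, ε ≤ ev v (x, d)) (hB : ∀ x ∈ Icc a b, ev v (x, c) ≤ -ε)
    (hR : ∀ y ∈ Icc c d, |ev v (b, y)| < ε → ε ≤ ev u (b, y))
    (hL : ∀ y ∈ Icc c d, |ev v (a, y)| < ε → ev u (a, y) ≤ -ε) :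
    ∫ z in Icc (a, c) (b, d), α (ev u z) * α (ev v z) * jac u v z = 1 := by
  have hAc : Continuous A := continuous_iff_continuousAt.2 fun t => (hA t).continuousAt
  have hα1 : ∀ t, HasDerivAt α (deriv α t) t := fun t =>
    (hα.differentiable (by norm_num) t).hasDerivAt
  let f : ℝ × ℝ → ℝ := fun z => A (ev u z) * (α (ev v z) * ev (pderiv 1 v) z)
  let g : ℝ × ℝ → ℝ := fun z => -(A (ev u z) * (α (ev v z) * ev (pderiv 0 v) z))
  have hf : ∀ w : MvPolynomial (Fin 2) ℝ, ∀ z, HasFDerivAt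
      (fun z => A (ev u z) * (α (ev v z) * ev w z))
      (A (ev u z) • (α (ev v z) • dv w z + ev w z • (deriv α (ev v z) • dv v z)) +
        (α (ev v z) * ev w z) • (α (ev u z) • dv u z)) z := by
    intro w z
    have h1 : HasFDerivAt (fun z => A (ev u z)) (α (ev u z) • dv u z) z :=
      (hA (ev u z)).comp_hasFDerivAt z (hasStrictFDerivAt_ev u z).hasFDerivAt
    have h2 : HasFDerivAt (fun z => α (ev v z)) (deriv α (ev v z) • dv v z) z :=
      (hα1 (ev v z)).comp_hasFDerivAt z (hasStrictFDerivAt_ev v z).hasFDerivAt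
    exact h1.mul (h2.mul (hasStrictFDerivAt_ev w z).hasFDerivAt)
  let f' : ℝ × ℝ → ℝ × ℝ →L[ℝ] ℝ := fun z =>
    A (ev u z) • (α (ev v z) • dv (pderiv 1 v) z +
      ev (pderiv 1 v) z • (deriv α (ev v z) • dv v z)) +
        (α (ev v z) * ev (pderiv 1 v) z) • (α (ev u z) • dv u z)
  let g' : ℝ × ℝ → ℝ × ℝ →L[ℝ] ℝ := fun z =>
    -(A (ev u z) • (α (ev v z) • dv (pderiv 0 v) z +
      ev (pderiv 0 v) z • (deriv α (ev v z) • dv v z)) +
        (α (ev v z) * ev (pderiv 0 v) z) • (α (ev u z) • dv u z))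
  have hsum : ∀ z, f' z (1, 0) + g' z (0, 1) = α (ev u z) * α (ev v z) * jac u v z := by
    intro z
    simp only [f', g', dv, jac, _root_.add_apply, _root_.smul_apply,
      _root_.neg_apply, ContinuousLinearMap.coe_fst', ContinuousLinearMap.coe_snd',
      smul_eq_mul, mul_one, mul_zero, add_zero, zero_add, pderiv_comm']
    ring
  have hint : Continuous fun z => α (ev u z) * α (ev v z) * jac u v z :=
    ((hα.continuous.comp (continuous_ev u)).mul (hα.continuous.comp (continuous_ev v))).mul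
      (continuous_jac u v)
  have hfc : Continuous f := (hAc.comp (continuous_ev u)).mul
    ((hα.continuous.comp (continuous_ev v)).mul (continuous_ev _))
  have hgc : Continuous g := ((hAc.comp (continuous_ev u)).mul
    ((hα.continuous.comp (continuous_ev v)).mul (continuous_ev _))).neg
  have hdiv := integral_divergence_prod_Icc_of_hasFDerivAt_of_le f g f' g' (a, c) (b, d)
    ⟨hab.le, hcd.le⟩ hfc.continuousOn hgc.continuousOn (fun z _ => hf _ z)
    (fun z _ => (hf _ z).neg) (by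
      simp only [hsum]
      exact hint.continuousOn.integrableOn_compact isCompact_Icc)
  simp only [hsum] at hdiv
  rw [hdiv]
  have e1 : ∫ x in a..b, g (x, d) = 0 := by
    apply intervalIntegral.integral_zero_ae
    refine Eventually.of_forall fun x hx => ?_
    rw [uIoc_of_le hab.le] at hx
    have h1 := hT x ⟨hx.1.le, hx.2⟩
    have h2 : α (ev v (x, d)) = 0 := hα0 _ (h1.trans (le_abs_self _))
    simp only [g, h2, zero_mul, mul_zero, neg_zero]
  have e2 : ∫ x in a..b, g (x, c) = 0 := by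
    apply intervalIntegral.integral_zero_ae
    refine Eventually.of_forall fun x hx => ?_
    rw [uIoc_of_le hab.le] at hx
    have h1 := hB x ⟨hx.1.le, hx.2⟩
    have h2 : α (ev v (x, c)) = 0 := hα0 _ (by
      have := neg_le_abs (ev v (x, c)); linarith)
    simp only [g, h2, zero_mul, mul_zero, neg_zero]
  have e3 : ∫ y in c..d, f (a, y) = 0 := by
    apply intervalIntegral.integral_zero_ae
    refine Eventually.of_forall fun y hy => ?_
    rw [uIoc_of_le hcd.le] at hy
    by_cases h : |ev v (a, y)| < ε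
    · have h1 := hL y ⟨hy.1.le, hy.2⟩ h
      simp only [f, hA0 _ h1, zero_mul]
    · have h2 : α (ev v (a, y)) = 0 := hα0 _ (not_lt.1 h)
      simp only [f, h2, zero_mul, mul_zero]
  have e4 : ∫ y in c..d, f (b, y) = 1 := by
    have h1 : ∫ y in c..d, f (b, y) = ∫ y in c..d, α (ev v (b, y)) * ev (pderiv 1 v) (b, y) := by
      apply intervalIntegral.integral_congr_ae
      refine Eventually.of_forall fun y hy => ?_
      rw [uIoc_of_le hcd.le] at hy
      by_cases h : |ev v (b, y)| < ε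
      · have h1 := hR y ⟨hy.1.le, hy.2⟩ h
        simp only [f, hA1 _ h1, one_mul]
      · have h2 : α (ev v (b, y)) = 0 := hα0 _ (not_lt.1 h)
        simp only [f, h2, zero_mul, mul_zero]
    rw [h1]
    have h2 : ∀ y ∈ uIcc c d, HasDerivAt (fun y => A (ev v (b, y)))
        (α (ev v (b, y)) * ev (pderiv 1 v) (b, y)) y := by
      intro y _
      have h3 : HasDerivAt (fun y : ℝ => (b, y)) ((0 : ℝ), (1 : ℝ)) y :=
        (hasDerivAt_const y b).prodMk (hasDerivAt_id y)
      have h4 := (hasStrictFDerivAt_ev v (b, y)).hasFDerivAt.comp_hasDerivAt y h3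
      have h5 := (hA (ev v (b, y))).comp y h4
      have h6 : dv v (b, y) (0, 1) = ev (pderiv 1 v) (b, y) := by
        simp [dv]
      rw [h6] at h5
      exact h5
    rw [intervalIntegral.integral_eq_sub_of_hasDerivAt h2]
    · rw [hA1 _ (hT b ⟨hab.le, le_rfl⟩), hA0 _ (hB b ⟨hab.le, le_rfl⟩), sub_zero]
    · apply Continuous.intervalIntegrable
      have hc : Continuous fun y : ℝ => (b, y) := by fun_prop
      exact (hα.continuous.comp ((continuous_ev v).comp hc)).mul ((continuous_ev _).comp hc)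
  show (((∫ x in a..b, g (x, d)) - ∫ x in a..b, g (x, c)) + ∫ y in c..d, f (b, y)) -
    ∫ y in c..d, f (a, y) = 1
  rw [e1, e2, e3, e4]
  norm_num

/-- A good neighbourhood of a nondegenerate zero. -/
theorem local_nbhd (u v : MvPolynomial (Fin 2) ℝ) (p : ℝ × ℝ) (hu : ev u p = 0) (hv : ev v p = 0)
    (hJ : jac u v p ≠ 0) (W : Set (ℝ × ℝ)) (hW : W ∈ 𝓝 p) :
    ∃ N ⊆ W, IsOpen N ∧ p ∈ N ∧ InjOn (fun z => (ev u z, ev v z)) N ∧
      (∀ z ∈ N, SignType.sign (jac u v z) = SignType.sign (jac u v p)) ∧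
      (fun z => (ev u z, ev v z)) '' N ∈ 𝓝 (0 : ℝ × ℝ) := by
  have hF : HasStrictFDerivAt (fun z => (ev u z, ev v z)) ((dv u p).prod (dv v p)) p :=
    (hasStrictFDerivAt_ev u p).prodMk (hasStrictFDerivAt_ev v p)
  have hdet : ((dv u p).prod (dv v p)).det ≠ 0 := by rw [det_prod]; exact hJ
  have hF' : HasStrictFDerivAt (fun z => (ev u z, ev v z))
      ((((dv u p).prod (dv v p)).toContinuousLinearEquivOfDetNeZero hdet :
        (ℝ × ℝ) ≃L[ℝ] (ℝ × ℝ)) : ℝ × ℝ →L[ℝ] ℝ × ℝ) p := by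
    rw [ContinuousLinearMap.coe_toContinuousLinearEquivOfDetNeZero]
    exact hF
  let e := hF'.toOpenPartialHomeomorph (fun z => (ev u z, ev v z))
  have hsrc : e.source ∈ 𝓝 p := e.open_source.mem_nhds hF'.mem_toOpenPartialHomeomorph_source
  have hsgn : {z | SignType.sign (jac u v z) = SignType.sign (jac u v p)} ∈ 𝓝 p := by
    rcases lt_or_gt_of_ne hJ with h | h
    · filter_upwards [(continuous_jac u v).continuousAt.eventually (gt_mem_nhds h)] with z hz
      rw [sign_neg h]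
      exact sign_neg hz
    · filter_upwards [(continuous_jac u v).continuousAt.eventually (lt_mem_nhds h)] with z hz
      rw [sign_pos h]
      exact sign_pos hz
  obtain ⟨N, hN, hNo, hpN⟩ := mem_nhds_iff.1 (inter_mem hW (inter_mem hsrc hsgn))
  refine ⟨N, fun z hz => (hN hz).1, hNo, hpN, ?_, fun z hz => (hN hz).2.2, ?_⟩
  · exact e.injOn.mono fun z hz => (hN hz).2.1
  · have h1 := hF'.map_nhds_eq_of_equiv
    have h2 : (ev u p, ev v p) = (0 : ℝ × ℝ) := by
      rw [hu, hv]; rfl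
    rw [h2] at h1
    rw [← h1]
    exact image_mem_map (hNo.mem_nhds hpN)

theorem exists_lower {K : Set (ℝ × ℝ)} (hK : IsCompact K) {f : ℝ × ℝ → ℝ} (hf : ContinuousOn f K)
    (h : ∀ z ∈ K, 0 < f z) : ∃ ε > 0, ∀ z ∈ K, ε ≤ f z := by
  rcases K.eq_empty_or_nonempty with rfl | hne
  · exact ⟨1, one_pos, fun z hz => absurd hz (notMem_empty z)⟩
  · obtain ⟨z, hz, hmin⟩ := hK.exists_isMinOn hne hf
    exact ⟨f z, h z hz, fun w hw => hmin hw⟩

theorem exists_lower' {c d : ℝ} {f : ℝ → ℝ} (hf : Continuous f)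
    (h : ∀ z ∈ Icc c d, 0 < f z) : ∃ ε > 0, ∀ z ∈ Icc c d, ε ≤ f z := by
  rcases (Icc c d).eq_empty_or_nonempty with he | hne
  · exact ⟨1, one_pos, fun z hz => by rw [he] at hz; exact absurd hz (notMem_empty z)⟩
  · obtain ⟨z, hz, hmin⟩ := isCompact_Icc.exists_isMinOn hne hf.continuousOn
    exact ⟨f z, h z hz, fun w hw => hmin hw⟩

end IB

open IB in
theorem index_box (u v : MvPolynomial (Fin 2) ℝ) (a b c d : ℝ) (hab : a < b) (hcd : c < d)
    (htop : ∀ x ∈ Set.Icc a b, 0 < eval ![x, d] v)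
    (hbot : ∀ x ∈ Set.Icc a b, eval ![x, c] v < 0)
    (hright : ∀ y ∈ Set.Icc c d, eval ![b, y] v = 0 → 0 < eval ![b, y] u)
    (hleft : ∀ y ∈ Set.Icc c d, eval ![a, y] v = 0 → eval ![a, y] u < 0)
    (Z : Finset (ℝ × ℝ))
    (hZ : ∀ p : ℝ × ℝ, p ∈ Z ↔ p.1 ∈ Set.Icc a b ∧ p.2 ∈ Set.Icc c d ∧
      eval ![p.1, p.2] u = 0 ∧ eval ![p.1, p.2] v = 0)
    (hJ : ∀ p ∈ Z, eval ![p.1, p.2] (pderiv 0 u * pderiv 1 v - pderiv 1 u * pderiv 0 v) ≠ 0) :
    ∑ p ∈ Z, (SignType.sign
      (eval ![p.1, p.2] (pderiv 0 u * pderiv 1 v - pderiv 1 u * pderiv 0 v)) : ℤ) = 1 := by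
  classical
  have hjac : ∀ p : ℝ × ℝ, eval ![p.1, p.2] (pderiv 0 u * pderiv 1 v - pderiv 1 u * pderiv 0 v) =
      jac u v p := by
    intro p
    simp only [jac, ev, map_sub, map_mul]
  simp only [hjac] at hJ ⊢
  have htop' : ∀ x ∈ Icc a b, 0 < ev v (x, d) := htop
  have hbot' : ∀ x ∈ Icc a b, ev v (x, c) < 0 := hbot
  have hright' : ∀ y ∈ Icc c d, ev v (b, y) = 0 → 0 < ev u (b, y) := hright
  have hleft' : ∀ y ∈ Icc c d, ev v (a, y) = 0 → ev u (a, y) < 0 := hleft
  have hZ' : ∀ p : ℝ × ℝ, p ∈ Z ↔ p.1 ∈ Icc a b ∧ p.2 ∈ Icc c d ∧ ev u p = 0 ∧ ev v p = 0 := hZ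
  clear htop hbot hright hleft hZ
  -- the zeros are interior
  have hint : ∀ p ∈ Z, Ioo a b ×ˢ Ioo c d ∈ 𝓝 p := by
    intro p hp
    obtain ⟨h1, h2, h3, h4⟩ := (hZ' p).1 hp
    obtain ⟨x, y⟩ := p
    refine (isOpen_Ioo.prod isOpen_Ioo).mem_nhds ⟨⟨?_, ?_⟩, ?_, ?_⟩
    · refine lt_of_le_of_ne h1.1 fun e => ?_
      have e' : a = x := e
      subst e'
      exact absurd h3 (hleft' y h2 h4).ne
    · refine lt_of_le_of_ne h1.2 fun e => ?_
      have e' : x = b := e
      subst e'
      exact absurd h3 (hright' y h2 h4).ne'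
    · refine lt_of_le_of_ne h2.1 fun e => ?_
      have e' : c = y := e
      subst e'
      exact absurd h4 (hbot' x h1).ne
    · refine lt_of_le_of_ne h2.2 fun e => ?_
      have e' : y = d := e
      subst e'
      exact absurd h4 (htop' x h1).ne'
  obtain ⟨W, hW1, hW2⟩ := Z.finite_toSet.t2_separation
  have hN : ∀ p ∈ Z, ∃ N ⊆ (Ioo a b ×ˢ Ioo c d) ∩ W p, IsOpen N ∧ p ∈ N ∧
      InjOn (fun z => (ev u z, ev v z)) N ∧
      (∀ z ∈ N, SignType.sign (jac u v z) = SignType.sign (jac u v p)) ∧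
      (fun z => (ev u z, ev v z)) '' N ∈ 𝓝 (0 : ℝ × ℝ) := by
    intro p hp
    obtain ⟨-, -, h3, h4⟩ := (hZ' p).1 hp
    exact local_nbhd u v p h3 h4 (hJ p hp) _ (inter_mem (hint p hp) ((hW1 p).2.mem_nhds (hW1 p).1))
  choose! N hNs hNo hNp hNi hNsgn hNim using hN
  -- the rest of the box
  have hKc : IsCompact (Icc (a, c) (b, d) \ ⋃ p ∈ Z, N p) :=
    isCompact_Icc.diff (isOpen_biUnion fun p hp => hNo p hp)
  have hIcc : ∀ z : ℝ × ℝ, z ∈ Icc (a, c) (b, d) ↔ z.1 ∈ Icc a b ∧ z.2 ∈ Icc c d := by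
    intro z
    constructor
    · rintro ⟨h1, h2⟩
      exact ⟨⟨h1.1, h2.1⟩, h1.2, h2.2⟩
    · rintro ⟨h1, h2⟩
      exact ⟨⟨h1.1, h2.1⟩, h1.2, h2.2⟩
  obtain ⟨ε1, hε1, h1⟩ := exists_lower hKc
    (f := fun z => max |ev u z| |ev v z|)
    (((continuous_ev u).abs.max (continuous_ev v).abs).continuousOn) (by
      rintro z ⟨hz1, hz2⟩
      by_contra hcon
      have h0 := not_lt.1 hcon
      have hu0 : ev u z = 0 := abs_nonpos_iff.1 ((le_max_left _ _).trans h0)
      have hv0 : ev v z = 0 := abs_nonpos_iff.1 ((le_max_right _ _).trans h0)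
      have hz := (hIcc z).1 hz1
      have hzZ : z ∈ Z := (hZ' z).2 ⟨hz.1, hz.2, hu0, hv0⟩
      exact hz2 (mem_biUnion hzZ (hNp z hzZ)))
  have cx : ∀ y : ℝ, Continuous fun x : ℝ => (x, y) := fun y => by fun_prop
  have cy : ∀ x : ℝ, Continuous fun y : ℝ => (x, y) := fun x => by fun_prop
  obtain ⟨ε2, hε2, h2⟩ := exists_lower' (c := a) (d := b) ((continuous_ev v).comp (cx d)) htop'
  obtain ⟨ε3, hε3, h3⟩ := exists_lower' (c := a) (d := b) ((continuous_ev v).comp (cx c)).neg
    (fun x hx => neg_pos.2 (hbot' x hx))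
  obtain ⟨ε4, hε4, h4⟩ := exists_lower' (c := c) (d := d)
    (((continuous_ev v).comp (cy b)).abs.max ((continuous_ev u).comp (cy b))) (fun y hy => by
      by_cases h : ev v (b, y) = 0
      · exact lt_max_of_lt_right (hright' y hy h)
      · exact lt_max_of_lt_left (abs_pos.2 h))
  obtain ⟨ε5, hε5, h5⟩ := exists_lower' (c := c) (d := d)
    (((continuous_ev v).comp (cy a)).abs.max ((continuous_ev u).comp (cy a)).neg) (fun y hy => by
      by_cases h : ev v (a, y) = 0
      · exact lt_max_of_lt_right (neg_pos.2 (hleft' y hy h))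
      · exact lt_max_of_lt_left (abs_pos.2 h))
  have hball : ∀ p ∈ Z, ∀ᶠ ε : ℝ in 𝓝[>] 0,
      Metric.ball (0 : ℝ × ℝ) ε ⊆ (fun z => (ev u z, ev v z)) '' N p := by
    intro p hp
    obtain ⟨δ, hδ, hsub⟩ := Metric.mem_nhds_iff.1 (hNim p hp)
    filter_upwards [Ioo_mem_nhdsGT hδ] with ε hε
    exact (Metric.ball_subset_ball hε.2.le).trans hsub
  have hev : ∀ᶠ ε : ℝ in 𝓝[>] 0, 0 < ε ∧ ε < ε1 ∧ ε < ε2 ∧ ε < ε3 ∧ ε < ε4 ∧ ε < ε5 ∧
      ∀ p ∈ Z, Metric.ball (0 : ℝ × ℝ) ε ⊆ (fun z => (ev u z, ev v z)) '' N p := by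
    filter_upwards [Ioo_mem_nhdsGT hε1, Ioo_mem_nhdsGT hε2, Ioo_mem_nhdsGT hε3,
      Ioo_mem_nhdsGT hε4, Ioo_mem_nhdsGT hε5, (Finset.eventually_all Z).2 hball]
      with ε e1 e2 e3 e4 e5 e6
    exact ⟨e1.1, e1.2, e2.2, e3.2, e4.2, e5.2, e6⟩
  obtain ⟨ε, hε, l1, l2, l3, l4, l5, l6⟩ := hev.exists
  obtain ⟨α, A, hα, hα0, hαi, hA, hA0, hA1⟩ := exists_bump ε hε
  have hgreen := green u v a b c d hab hcd ε α A hα hα0 hA hA0 hA1
    (fun x hx => l2.le.trans (h2 x hx))
    (fun x hx => by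
      have : ε3 ≤ - ev v (x, c) := h3 x hx
      linarith)
    (fun y hy hlt => by
      have : ε4 ≤ max |ev v (b, y)| (ev u (b, y)) := h4 y hy
      rcases le_max_iff.1 this with h | h
      · linarith
      · linarith)
    (fun y hy hlt => by
      have : ε5 ≤ max |ev v (a, y)| (- ev u (a, y)) := h5 y hy
      rcases le_max_iff.1 this with h | h
      · linarith
      · linarith)
  have hcont : Continuous fun z => α (ev u z) * α (ev v z) * jac u v z :=
    ((hα.continuous.comp (continuous_ev u)).mul (hα.continuous.comp (continuous_ev v))).mul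
      (continuous_jac u v)
  have hNbox : ∀ p ∈ Z, N p ⊆ Icc (a, c) (b, d) := by
    intro p hp z hz
    obtain ⟨⟨hz1, hz2⟩, _⟩ := hNs p hp hz
    exact (hIcc z).2 ⟨⟨hz1.1.le, hz1.2.le⟩, hz2.1.le, hz2.2.le⟩
  rw [setIntegral_eq_of_subset_of_forall_sdiff_eq_zero (s := ⋃ p ∈ Z, N p) measurableSet_Icc
    (iUnion₂_subset hNbox) (by
      intro z hz
      have := h1 z hz
      rcases le_max_iff.1 this with h | h
      · rw [hα0 _ (l1.le.trans h), zero_mul, zero_mul]
      · rw [hα0 (ev v z) (l1.le.trans h), mul_zero, zero_mul]),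
    integral_biUnion_finset Z (fun p hp => (hNo p hp).measurableSet) (by
      intro p hp q hq hpq
      exact (hW2 hp hq hpq).mono (fun z hz => (hNs p hp hz).2) (fun z hz => (hNs q hq hz).2))
      (fun p hp => (hcont.continuousOn.integrableOn_compact isCompact_Icc).mono_set
        (hNbox p hp))] at hgreen
  have hloc : ∀ p ∈ Z, ∫ z in N p, α (ev u z) * α (ev v z) * jac u v z =
      (SignType.sign (jac u v p) : ℝ) := by
    intro p hp
    have e1 := integral_image_eq_integral_abs_det_fderiv_smul (μ := volume)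
      (hNo p hp).measurableSet (f := fun z => (ev u z, ev v z))
      (f' := fun z => (dv u z).prod (dv v z)) (fun z _ =>
        ((hasStrictFDerivAt_ev u z).hasFDerivAt.prodMk
          (hasStrictFDerivAt_ev v z).hasFDerivAt).hasFDerivWithinAt) (hNi p hp)
      (fun w : ℝ × ℝ => α w.1 * α w.2)
    have e2 : ∫ w in (fun z => (ev u z, ev v z)) '' N p, α w.1 * α w.2 = 1 := by
      rw [setIntegral_eq_integral_of_forall_compl_eq_zero, Measure.volume_eq_prod,
        integral_prod_mul, hαi, one_mul]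
      intro w hw
      have hw' : w ∉ Metric.ball (0 : ℝ × ℝ) ε := fun h => hw (l6 p hp h)
      rw [Metric.mem_ball, dist_zero_right, not_lt, Prod.norm_def] at hw'
      rcases le_max_iff.1 hw' with h | h
      · rw [hα0 _ h, zero_mul]
      · rw [hα0 w.2 h, mul_zero]
    have e3 : ∫ z in N p, α (ev u z) * α (ev v z) * jac u v z =
        ∫ z in N p, (SignType.sign (jac u v p) : ℝ) *
          (|((dv u z).prod (dv v z)).det| • (α (ev u z) * α (ev v z))) := by
      apply setIntegral_congr_fun (hNo p hp).measurableSet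
      intro z hz
      simp only [det_prod, smul_eq_mul]
      rw [← hNsgn p hp z hz]
      have := sign_mul_abs (jac u v z)
      calc α (ev u z) * α (ev v z) * jac u v z
          = α (ev u z) * α (ev v z) * ((SignType.sign (jac u v z) : ℝ) * |jac u v z|) := by
            rw [this]
        _ = _ := by ring
    rw [e3, integral_const_mul, ← e1, e2, mul_one]
  rw [Finset.sum_congr rfl hloc] at hgreen
  have : ((∑ p ∈ Z, (SignType.sign (jac u v p) : ℤ) : ℤ) : ℝ) = 1 := by
    rw [Int.cast_sum, ← hgreen]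
    apply Finset.sum_congr rfl
    intro p _
    exact SignType.intCast_cast _
  exact_mod_cast this

end Pool.Agent.MP9d
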