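import Mathlib

/-!
Signature inequality for the real quadratic form `∑ φ(a) h(a)^2` on a space of real polynomials.
-/

open MvPolynomial

namespace Pool.Agent.MP9d

private theorem aeval_conj (a : Fin 2 → ℂ) (h : MvPolynomial (Fin 2) ℝ) :
    aeval (fun i => (starRingEnd ℂ) (a i)) h = (starRingEnd ℂ) (aeval a h) := by
  have key : ((Complex.conjAe : ℂ ≃ₐ[ℝ] ℂ) : ℂ →ₐ[ℝ] ℂ).comp (aeval a) =
      aeval (R := ℝ) (fun i => (starRingEnd ℂ) (a i)) := by
    apply MvPolynomial.algHom_ext
    intro i
    simp
  have := congrArg (fun f => f h) key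
  simpa using this.symm

private theorem conj_conj_fun (a : Fin 2 → ℂ) :
    (fun i => (starRingEnd ℂ) ((fun i => (starRingEnd ℂ) (a i)) i)) = a := by
  funext i
  simp

/-- the real points -/
private def IsRe (a : Fin 2 → ℂ) : Prop := ∀ i, (a i).im = 0

/-- the chosen half of the nonreal points -/
private def Up (a : Fin 2 → ℂ) : Prop := 0 < (a 0).im ∨ ((a 0).im = 0 ∧ 0 < (a 1).im)

private theorem trich (a : Fin 2 → ℂ) :
    IsRe a ∨ Up a ∨ Up (fun i => (starRingEnd ℂ) (a i)) := by
  rcases lt_trichotomy (a 0).im 0 with h | h | h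
  · right; right; left; simpa using h
  · rcases lt_trichotomy (a 1).im 0 with h' | h' | h'
    · right; right; right; exact ⟨by simpa using h, by simpa using h'⟩
    · left
      intro i
      fin_cases i
      · exact h
      · exact h'
    · right; left; right; exact ⟨h, h'⟩
  · right; left; left; exact h

private theorem not_re_of_up {a : Fin 2 → ℂ} (h : Up a) : ¬ IsRe a := by
  intro hr
  rcases h with h | ⟨_, h⟩
  · rw [hr 0] at h; exact lt_irrefl _ h
  · rw [hr 1] at h; exact lt_irrefl _ h

private theorem not_up_conj_of_up {a : Fin 2 → ℂ} (h : Up a) :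
    ¬ Up (fun i => (starRingEnd ℂ) (a i)) := by
  intro h'
  unfold Up at h h'
  simp only [Complex.conj_im] at h'
  rcases h with h | ⟨h1, h2⟩ <;> rcases h' with h' | ⟨h3, h4⟩ <;> linarith

private theorem not_re_of_up_conj {a : Fin 2 → ℂ}
    (h : Up (fun i => (starRingEnd ℂ) (a i))) : ¬ IsRe a := by
  intro hr
  apply not_re_of_up h
  intro i
  simp [hr i]

/-- The signature inequality. -/
theorem isotropic_bound (Z : Finset (Fin 2 → ℂ))
    (hZ : ∀ a ∈ Z, (fun i => (starRingEnd ℂ) (a i)) ∈ Z)
    (φ : (Fin 2 → ℂ) → ℂ)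
    (hφ : ∀ a ∈ Z, φ (fun i => (starRingEnd ℂ) (a i)) = (starRingEnd ℂ) (φ a))
    (hφ0 : ∀ a ∈ Z, φ a ≠ 0)
    (W : Submodule ℝ (MvPolynomial (Fin 2) ℝ)) [FiniteDimensional ℝ W]
    (hW : ∀ h ∈ W, ∑ a ∈ Z, φ a * (aeval a h) ^ 2 = 0)
    (hinj : ∀ h ∈ W, (∀ a ∈ Z, aeval a h = 0) → h = 0) :
    2 * Module.finrank ℝ W + (Z.filter (fun a => (∀ i, (a i).im = 0) ∧ (φ a).re < 0)).card ≤
      Z.card + (Z.filter (fun a => (∀ i, (a i).im = 0) ∧ 0 < (φ a).re)).card := by
  classical
  -- square roots of `φ`
  have hsq : ∀ a : Fin 2 → ℂ, ∃ ψ : ℂ, ψ ^ 2 = φ a := fun a =>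
    IsAlgClosed.exists_pow_nat_eq (φ a) (by norm_num : 0 < 2)
  choose ψ hψ using hsq
  set P := Z.filter (fun a => (∀ i, (a i).im = 0) ∧ 0 < (φ a).re) with hP
  set Q := Z.filter (fun a => (∀ i, (a i).im = 0) ∧ (φ a).re < 0) with hQ
  set U := Z.filter (fun a => Up a) with hU
  set V := Z.filter (fun a => Up (fun i => (starRingEnd ℂ) (a i))) with hV
  have hreal : ∀ a ∈ Z, (∀ i, (a i).im = 0) → (φ a).im = 0 ∧ (φ a).re ≠ 0 := by
    intro a ha hr
    have h1 : (fun i => (starRingEnd ℂ) (a i)) = a := by
      funext i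
      exact Complex.conj_eq_iff_im.2 (hr i)
    have h2 := hφ a ha
    rw [h1] at h2
    have h3 : (φ a).im = 0 := Complex.conj_eq_iff_im.1 h2.symm
    refine ⟨h3, fun h4 => hφ0 a ha (Complex.ext h4 h3)⟩
  -- cardinalities
  have hUV : U.card = V.card := by
    apply Finset.card_bij (fun a _ => (fun i => (starRingEnd ℂ) (a i)))
    · intro a ha
      rw [hU, Finset.mem_filter] at ha
      rw [hV, Finset.mem_filter]
      refine ⟨hZ a ha.1, ?_⟩
      rw [conj_conj_fun]
      exact ha.2
    · intro a _ b _ hab
      funext i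
      have := congrFun hab i
      exact (starRingEnd ℂ).injective this
    · intro b hb
      rw [hV, Finset.mem_filter] at hb
      refine ⟨(fun i => (starRingEnd ℂ) (b i)), ?_, conj_conj_fun b⟩
      rw [hU, Finset.mem_filter]
      exact ⟨hZ b hb.1, hb.2⟩
  have hcover : Z = P ∪ Q ∪ U ∪ V := by
    ext a
    simp only [hP, hQ, hU, hV, Finset.mem_union, Finset.mem_filter]
    constructor
    · intro ha
      rcases trich a with h | h | h
      · have h2 := (hreal a ha h).2
        rcases lt_or_gt_of_ne h2 with h3 | h3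
        · left; left; right; exact ⟨ha, h, h3⟩
        · left; left; left; exact ⟨ha, h, h3⟩
      · left; right; exact ⟨ha, h⟩
      · right; exact ⟨ha, h⟩
    · rintro (((h | h) | h) | h)
      · exact h.1
      · exact h.1
      · exact h.1
      · exact h.1
  have hPQ : Disjoint P Q := by
    rw [Finset.disjoint_left]
    intro a ha hb
    rw [hP, Finset.mem_filter] at ha
    rw [hQ, Finset.mem_filter] at hb
    linarith [ha.2.2, hb.2.2]
  have hPQU : Disjoint (P ∪ Q) U := by
    rw [Finset.disjoint_left]
    intro a ha hb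
    rw [hU, Finset.mem_filter] at hb
    apply not_re_of_up hb.2
    rcases Finset.mem_union.1 ha with h | h
    · rw [hP, Finset.mem_filter] at h; exact h.2.1
    · rw [hQ, Finset.mem_filter] at h; exact h.2.1
  have hPQUV : Disjoint (P ∪ Q ∪ U) V := by
    rw [Finset.disjoint_left]
    intro a ha hb
    rw [hV, Finset.mem_filter] at hb
    rcases Finset.mem_union.1 ha with h | h
    · apply not_re_of_up_conj hb.2
      rcases Finset.mem_union.1 h with h | h
      · rw [hP, Finset.mem_filter] at h; exact h.2.1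
      · rw [hQ, Finset.mem_filter] at h; exact h.2.1
    · rw [hU, Finset.mem_filter] at h
      exact not_up_conj_of_up h.2 hb.2
  have hcard : Z.card = P.card + Q.card + U.card + V.card := by
    rw [hcover, Finset.card_union_of_disjoint hPQUV, Finset.card_union_of_disjoint hPQU,
      Finset.card_union_of_disjoint hPQ]
  -- the linear map
  let evR : (Fin 2 → ℂ) → (MvPolynomial (Fin 2) ℝ →ₗ[ℝ] ℂ) := fun a =>
    (aeval (R := ℝ) a).toLinearMap
  let T : W →ₗ[ℝ] (P → ℝ) × (U → ℝ) :=
    (LinearMap.prod
      (LinearMap.pi (fun a : P => Complex.reLm.comp (evR a.1)))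
      (LinearMap.pi (fun a : U => Complex.reLm.comp
        ((LinearMap.mulLeft ℝ (ψ a.1)).comp (evR a.1))))).comp W.subtype
  have hT1 : ∀ h : W, T h = 0 → ∀ a ∈ P, (aeval a (h : MvPolynomial (Fin 2) ℝ)).re = 0 := by
    intro h hh a ha
    have := congrFun (congrArg Prod.fst hh) ⟨a, ha⟩
    simpa [T, evR] using this
  have hT2 : ∀ h : W, T h = 0 → ∀ a ∈ U,
      (ψ a * aeval a (h : MvPolynomial (Fin 2) ℝ)).re = 0 := by
    intro h hh a ha
    have := congrFun (congrArg Prod.snd hh) ⟨a, ha⟩
    simpa [T, evR] using this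
  have hker : Function.Injective T := by
    rw [injective_iff_map_eq_zero]
    intro h hh
    have h1 := hT1 h hh
    have h2 := hT2 h hh
    obtain ⟨p, hp⟩ := h
    simp only at h1 h2
    -- each term is nonpositive, with equality only if the value vanishes
    have hUle : ∀ a ∈ U, (φ a * (aeval a p) ^ 2).re ≤ 0 ∧
        ((φ a * (aeval a p) ^ 2).re = 0 → aeval a p = 0) := by
      intro a ha
      have haZ : a ∈ Z := (Finset.mem_filter.1 (hU ▸ ha)).1
      have e1 : φ a * (aeval a p) ^ 2 = (ψ a * aeval a p) ^ 2 := by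
        rw [mul_pow, hψ]
      have e2 := h2 a ha
      have e3 : (φ a * (aeval a p) ^ 2).re = - (ψ a * aeval a p).im ^ 2 := by
        rw [e1, sq, Complex.mul_re, e2]
        ring
      constructor
      · rw [e3]
        nlinarith [sq_nonneg (ψ a * aeval a p).im]
      · intro h0
        rw [e3] at h0
        have e4 : (ψ a * aeval a p).im = 0 := by
          have : (ψ a * aeval a p).im ^ 2 = 0 := by linarith
          exact pow_eq_zero_iff (two_ne_zero) |>.1 this
        have e5 : ψ a * aeval a p = 0 := Complex.ext e2 e4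
        have e6 : ψ a ≠ 0 := by
          intro h7
          apply hφ0 a haZ
          rw [← hψ, h7]
          simp
        exact (mul_eq_zero.1 e5).resolve_left e6
    have hrealval : ∀ a : Fin 2 → ℂ, (∀ i, (a i).im = 0) → (aeval a p).im = 0 := by
      intro a hr
      have h1 : (fun i => (starRingEnd ℂ) (a i)) = a := by
        funext i
        exact Complex.conj_eq_iff_im.2 (hr i)
      have h2 := aeval_conj a p
      rw [h1] at h2
      exact Complex.conj_eq_iff_im.1 h2.symm
    have hall : ∀ a ∈ Z, (φ a * (aeval a p) ^ 2).re ≤ 0 ∧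
        ((φ a * (aeval a p) ^ 2).re = 0 → aeval a p = 0) := by
      intro a ha
      have hmem : a ∈ P ∪ Q ∪ U ∪ V := hcover ▸ ha
      rcases Finset.mem_union.1 hmem with hmem | hmem
      · rcases Finset.mem_union.1 hmem with hmem | hmem
        · rcases Finset.mem_union.1 hmem with hmem | hmem
          · have hr := (Finset.mem_filter.1 (hP ▸ hmem)).2.1
            have hz : aeval a p = 0 := Complex.ext (h1 a hmem) (hrealval a hr)
            refine ⟨?_, fun _ => hz⟩
            rw [hz]
            simp
          · have hr := (Finset.mem_filter.1 (hQ ▸ hmem)).2.1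
            have hneg := (Finset.mem_filter.1 (hQ ▸ hmem)).2.2
            have hi := hrealval a hr
            have hφi := (hreal a ha hr).1
            have e3 : (φ a * (aeval a p) ^ 2).re = (φ a).re * (aeval a p).re ^ 2 := by
              rw [sq, Complex.mul_re, Complex.mul_re, hφi, hi]
              ring
            rw [e3]
            constructor
            · exact mul_nonpos_of_nonpos_of_nonneg hneg.le (sq_nonneg _)
            · intro h0
              have : (aeval a p).re ^ 2 = 0 := (mul_eq_zero.1 h0).resolve_left hneg.ne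
              exact Complex.ext (pow_eq_zero_iff (two_ne_zero) |>.1 this) hi
        · exact hUle a hmem
      · have hup := (Finset.mem_filter.1 (hV ▸ hmem)).2
        have hcU : (fun i => (starRingEnd ℂ) (a i)) ∈ U := by
          rw [hU, Finset.mem_filter]
          exact ⟨hZ a ha, hup⟩
        have h3 := hUle _ hcU
        rw [hφ a ha, aeval_conj, ← map_pow, ← map_mul, Complex.conj_re] at h3
        refine ⟨h3.1, fun h0 => ?_⟩
        have := h3.2 h0
        exact (map_eq_zero (starRingEnd ℂ)).1 this
    have hsum : ∑ a ∈ Z, (φ a * (aeval a p) ^ 2).re = 0 := by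
      rw [← Complex.re_sum, hW p hp]
      simp
    have hzero := (Finset.sum_eq_zero_iff_of_nonpos (fun a ha => (hall a ha).1)).1 hsum
    have hp0 : p = 0 := hinj p hp (fun a ha => (hall a ha).2 (hzero a ha))
    exact Subtype.ext hp0
  have hfin := LinearMap.finrank_le_finrank_of_injective hker
  have hdim : Module.finrank ℝ ((P → ℝ) × (U → ℝ)) = P.card + U.card := by
    rw [Module.finrank_prod, Module.finrank_fintype_fun_eq_card,
      Module.finrank_fintype_fun_eq_card, Fintype.card_coe, Fintype.card_coe]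
  rw [hdim] at hfin
  omega

end Pool.Agent.MP9d
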