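import Pool.Agent.Work.MP_9d788c_ag.EulerJacobi
import Pool.Agent.Work.MP_9d788c_ag.Isotropic

/-! Petrovsky type inequality for the critical points below a level (MP_9d788c_ag, item J). -/

set_option autoImplicit false

open MvPolynomial

namespace Pool.Agent.MP9d

namespace II

theorem pderiv_totalDegree {K : Type*} [CommRing K] (n : ℕ) (p : MvPolynomial (Fin 2) K)
    (hp : p.totalDegree ≤ n) (i : Fin 2) : (pderiv i p).totalDegree ≤ n - 1 := by
  have h1 : p = ∑ j ∈ Finset.range (p.totalDegree + 1), homogeneousComponent j p :=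
    (sum_homogeneousComponent p).symm
  rw [h1, map_sum]
  apply totalDegree_finsetSum_le
  intro j hj
  rw [Finset.mem_range] at hj
  have h2 := ((homogeneousComponent_isHomogeneous j p).pderiv (i := i)).totalDegree_le
  omega

theorem hc_pderiv {K : Type*} [CommRing K] (n : ℕ) (p : MvPolynomial (Fin 2) K) (i : Fin 2) :
    homogeneousComponent n (pderiv i p) = pderiv i (homogeneousComponent (n + 1) p) := by
  have h1 : p = ∑ j ∈ Finset.range (p.totalDegree + 1), homogeneousComponent j p :=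
    (sum_homogeneousComponent p).symm
  have h2 : ∀ j, homogeneousComponent n (pderiv i (homogeneousComponent j p)) =
      if j = n + 1 then pderiv i (homogeneousComponent (n + 1) p) else 0 := by
    intro j
    have h3 := (homogeneousComponent_isHomogeneous j p).pderiv (i := i)
    rw [homogeneousComponent_of_mem ((mem_homogeneousSubmodule _ _).2 h3)]
    rcases Nat.eq_zero_or_pos j with rfl | hj
    · rw [if_neg (by omega : ¬ (0 = n + 1)), homogeneousComponent_zero, pderiv_C]
      simp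
    · by_cases h4 : j = n + 1
      · subst h4
        simp
      · rw [if_neg h4, if_neg (by omega)]
  conv_lhs => rw [h1]
  rw [map_sum, map_sum, Finset.sum_congr rfl (fun j _ => h2 j), Finset.sum_ite_eq']
  split_ifs with h5
  · rfl
  · rw [Finset.mem_range] at h5
    rw [homogeneousComponent_eq_zero _ _ (by omega), map_zero]

theorem hc_map (n : ℕ) (p : MvPolynomial (Fin 2) ℝ) :
    homogeneousComponent n (map (algebraMap ℝ ℂ) p) =
      map (algebraMap ℝ ℂ) (homogeneousComponent n p) := by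
  ext s
  rw [coeff_homogeneousComponent, coeff_map, coeff_map, coeff_homogeneousComponent]
  split_ifs <;> simp

theorem totalDegree_map_le' (p : MvPolynomial (Fin 2) ℝ) :
    (map (algebraMap ℝ ℂ) p).totalDegree ≤ p.totalDegree := by
  rw [totalDegree, totalDegree]
  exact Finset.sup_mono (support_map_subset _ _)

theorem eval_map_aeval (a : Fin 2 → ℂ) (p : MvPolynomial (Fin 2) ℝ) :
    eval a (map (algebraMap ℝ ℂ) p) = aeval a p := by
  rw [eval_map, aeval_def]

theorem aeval_conj' (a : Fin 2 → ℂ) (h : MvPolynomial (Fin 2) ℝ) :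
    aeval (fun i => (starRingEnd ℂ) (a i)) h = (starRingEnd ℂ) (aeval a h) := by
  have key : ((Complex.conjAe : ℂ ≃ₐ[ℝ] ℂ) : ℂ →ₐ[ℝ] ℂ).comp (aeval a) =
      aeval (R := ℝ) (fun i => (starRingEnd ℂ) (a i)) := by
    apply MvPolynomial.algHom_ext
    intro i
    simp
  have := congrArg (fun f => f h) key
  simpa using this.symm

/-- real points as complex points -/
noncomputable def emb (p : ℝ × ℝ) : Fin 2 → ℂ := ![(p.1 : ℂ), (p.2 : ℂ)]

theorem emb_inj : Function.Injective emb := by
  intro p q h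
  have h0 := congrFun h 0
  have h1 := congrFun h 1
  simp only [emb, Matrix.cons_val_zero, Matrix.cons_val_one, Complex.ofReal_inj] at h0 h1
  exact Prod.ext h0 h1

theorem aeval_emb (p : ℝ × ℝ) (q : MvPolynomial (Fin 2) ℝ) :
    aeval (emb p) q = ((eval ![p.1, p.2] q : ℝ) : ℂ) := by
  have h1 : emb p = (algebraMap ℝ ℂ) ∘ (![p.1, p.2] : Fin 2 → ℝ) := by
    funext i
    fin_cases i <;> simp [emb]
  rw [h1, aeval_algebraMap_apply, ← coe_aeval_eq_eval]
  rfl

theorem emb_real (p : ℝ × ℝ) (i : Fin 2) : (emb p i).im = 0 := by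
  fin_cases i <;> simp [emb]

theorem exists_emb {a : Fin 2 → ℂ} (h : ∀ i, (a i).im = 0) : ∃ p, emb p = a := by
  refine ⟨((a 0).re, (a 1).re), ?_⟩
  funext i
  fin_cases i
  · exact Complex.ext rfl (by simpa [emb] using (h 0).symm)
  · exact Complex.ext rfl (by simpa [emb] using (h 1).symm)

theorem finrank_real (N : ℕ) :
    2 * Module.finrank ℝ (restrictTotalDegree (Fin 2) ℝ N) = (N + 2) * (N + 1) := by
  have h : Module.finrank ℝ (restrictTotalDegree (Fin 2) ℝ N) = (N + 2).choose 2 := by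
    rw [← EJ.card_deg N]
    exact Module.finrank_eq_nat_card_basis (basisRestrictSupport ℝ _)
  rw [h, EJ.two_mul_choose]

end II

open II in
theorem index_ineq (k : ℕ) (hk : 3 ≤ k) (f : MvPolynomial (Fin 2) ℝ)
    (hf : f.totalDegree ≤ 2 * k)
    (hcop : ∀ a : Fin 2 → ℂ, aeval a (pderiv 0 (homogeneousComponent (2 * k) f)) = 0 →
      aeval a (pderiv 1 (homogeneousComponent (2 * k) f)) = 0 → a = 0)
    (hess : ∀ a : Fin 2 → ℂ, aeval a (pderiv 0 f) = 0 → aeval a (pderiv 1 f) = 0 →
      aeval a (pderiv 0 (pderiv 0 f) * pderiv 1 (pderiv 1 f) -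
        pderiv 1 (pderiv 0 f) * pderiv 0 (pderiv 1 f)) ≠ 0)
    (c₁ c₂ : ℝ) (hc : c₁ < c₂) :
    {p : ℝ × ℝ | eval ![p.1, p.2] (pderiv 0 f) = 0 ∧ eval ![p.1, p.2] (pderiv 1 f) = 0}.Finite ∧
    ∃ c : ℝ, c₁ < c ∧ c < c₂ ∧ ∃ S : Finset (ℝ × ℝ),
      (∀ p : ℝ × ℝ, p ∈ S ↔ eval ![p.1, p.2] (pderiv 0 f) = 0 ∧
        eval ![p.1, p.2] (pderiv 1 f) = 0 ∧ eval ![p.1, p.2] f < c) ∧
      2 * ∑ p ∈ S, (SignType.sign (eval ![p.1, p.2]
        (pderiv 0 (pderiv 0 f) * pderiv 1 (pderiv 1 f) -
          pderiv 1 (pderiv 0 f) * pderiv 0 (pderiv 1 f))) : ℤ) ≤ 3 * k ^ 2 + k - 2 := by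
  classical
  set J : MvPolynomial (Fin 2) ℝ := pderiv 0 (pderiv 0 f) * pderiv 1 (pderiv 1 f) -
        pderiv 1 (pderiv 0 f) * pderiv 0 (pderiv 1 f) with hJdef
  set d := 2 * k - 1 with hd
  set F := map (algebraMap ℝ ℂ) (pderiv 0 f) with hF
  set G := map (algebraMap ℝ ℂ) (pderiv 1 f) with hG
  have hFd : F.totalDegree ≤ d := (totalDegree_map_le' _).trans (pderiv_totalDegree _ _ hf 0)
  have hGd : G.totalDegree ≤ d := (totalDegree_map_le' _).trans (pderiv_totalDegree _ _ hf 1)
  have hd1 : d + 1 = 2 * k := by omega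
  have hcop' : ∀ a : Fin 2 → ℂ, eval a (homogeneousComponent d F) = 0 →
      eval a (homogeneousComponent d G) = 0 → a = 0 := by
    intro a h0 h1
    rw [hF, hc_map, hc_pderiv, hd1, eval_map_aeval] at h0
    rw [hG, hc_map, hc_pderiv, hd1, eval_map_aeval] at h1
    exact hcop a h0 h1
  have hJmap : pderiv 0 F * pderiv 1 G - pderiv 1 F * pderiv 0 G = map (algebraMap ℝ ℂ) J := by
    rw [hF, hG, hJdef]
    simp only [pderiv_map, map_sub, map_mul]
  -- the complex zero set
  set Zs : Set (Fin 2 → ℂ) := {a | eval a F = 0 ∧ eval a G = 0} with hZs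
  have hfin : Zs.Finite := by
    by_contra hinf
    obtain ⟨t, ht1, ht2⟩ := (Set.not_finite.1 hinf).exists_subset_card_eq (d ^ 2 + 1)
    have := bezout_card d F G hFd hGd hcop' t (fun a ha => ht1 ha)
    omega
  set Z : Finset (Fin 2 → ℂ) := hfin.toFinset with hZdef
  have hZ : ∀ a, a ∈ Z ↔ eval a F = 0 ∧ eval a G = 0 := by
    intro a
    rw [hZdef, Set.Finite.mem_toFinset]
    rfl
  have hZ' : ∀ a, a ∈ Z ↔ aeval a (pderiv 0 f) = 0 ∧ aeval a (pderiv 1 f) = 0 := by
    intro a
    rw [hZ, hF, hG, eval_map_aeval, eval_map_aeval]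
  have hZcard : Z.card ≤ d ^ 2 := bezout_card d F G hFd hGd hcop' Z (fun a ha => (hZ a).1 ha)
  have hJ0 : ∀ a ∈ Z, aeval a J ≠ 0 := fun a ha => hess a ((hZ' a).1 ha).1 ((hZ' a).1 ha).2
  have hJ0' : ∀ a ∈ Z, eval a (pderiv 0 F * pderiv 1 G - pderiv 1 F * pderiv 0 G) ≠ 0 := by
    intro a ha
    rw [hJmap, eval_map_aeval]
    exact hJ0 a ha
  have hZconj : ∀ a ∈ Z, (fun i => (starRingEnd ℂ) (a i)) ∈ Z := by
    intro a ha
    rw [hZ'] at ha ⊢
    rw [aeval_conj', aeval_conj', ha.1, ha.2]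
    simp
  -- the real zero set
  have hRfin : {p : ℝ × ℝ | eval ![p.1, p.2] (pderiv 0 f) = 0 ∧
      eval ![p.1, p.2] (pderiv 1 f) = 0}.Finite := by
    apply Set.Finite.subset (hfin.preimage emb_inj.injOn)
    rintro p ⟨h0, h1⟩
    show eval (emb p) F = 0 ∧ eval (emb p) G = 0
    rw [hF, hG, eval_map_aeval, eval_map_aeval, aeval_emb, aeval_emb, h0, h1]
    simp
  refine ⟨hRfin, ?_⟩
  set R : Finset (ℝ × ℝ) := hRfin.toFinset with hRdef
  have hR : ∀ p, p ∈ R ↔ emb p ∈ Z := by
    intro p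
    rw [hRdef, Set.Finite.mem_toFinset, hZ', aeval_emb, aeval_emb, Complex.ofReal_eq_zero,
      Complex.ofReal_eq_zero]
    rfl
  have hR' : ∀ p, p ∈ R ↔ eval ![p.1, p.2] (pderiv 0 f) = 0 ∧
      eval ![p.1, p.2] (pderiv 1 f) = 0 := by
    intro p
    rw [hRdef, Set.Finite.mem_toFinset]
    rfl
  -- the level
  obtain ⟨c, ⟨hc1, hc2⟩, hcZ⟩ : ∃ c ∈ Set.Ioo c₁ c₂, c ∉ (Z.image (fun a => (aeval a f).re) :
      Finset ℝ) := by
    have hinf : (Set.Ioo c₁ c₂).Infinite := Set.Ioo_infinite hc
    obtain ⟨c, hc, hc'⟩ := hinf.exists_notMem_finset (Z.image (fun a => (aeval a f).re))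
    exact ⟨c, hc, hc'⟩
  have hcZ' : ∀ a ∈ Z, aeval a f ≠ (c : ℂ) := by
    intro a ha h
    apply hcZ
    rw [Finset.mem_image]
    exact ⟨a, ha, by simp [h]⟩
  refine ⟨c, hc1, hc2, R.filter (fun p => eval ![p.1, p.2] f < c), ?_, ?_⟩
  · intro p
    rw [Finset.mem_filter, hR', and_assoc]
  -- transfer of cardinalities
  have htr : ∀ Pd : (Fin 2 → ℂ) → Prop, (Z.filter (fun a => (∀ i, (a i).im = 0) ∧ Pd a)).card =
      (R.filter (fun p => Pd (emb p))).card := by
    intro Pd
    symm
    apply Finset.card_bij (fun p _ => emb p)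
    · intro p hp
      rw [Finset.mem_filter] at hp ⊢
      exact ⟨(hR p).1 hp.1, emb_real p, hp.2⟩
    · intro p _ q _ h
      exact emb_inj h
    · intro a ha
      rw [Finset.mem_filter] at ha
      obtain ⟨p, rfl⟩ := exists_emb ha.2.1
      exact ⟨p, Finset.mem_filter.2 ⟨(hR p).2 ha.1, ha.2.2⟩, rfl⟩
  -- Euler-Jacobi
  have hEJ : ∀ h : MvPolynomial (Fin 2) ℝ, h.totalDegree + 3 ≤ 2 * d →
      ∑ a ∈ Z, aeval a h / aeval a J = 0 := by
    intro h hh
    have := euler_jacobi d F G hFd hGd hcop' Z hZ hJ0' (map (algebraMap ℝ ℂ) h)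
      ((Nat.add_le_add_right (totalDegree_map_le' h) 3).trans hh)
    rw [hJmap] at this
    simpa only [eval_map_aeval] using this
  have hVS : ∀ h : MvPolynomial (Fin 2) ℝ, h.totalDegree < d → (∀ a ∈ Z, aeval a h = 0) →
      h = 0 := by
    intro h hh hv
    have := vanish_small d F G hFd hGd hcop' Z hZ hJ0' (map (algebraMap ℝ ℂ) h)
      ((totalDegree_map_le' h).trans_lt hh) (fun a ha => by rw [eval_map_aeval]; exact hv a ha)
    exact map_injective _ (algebraMap ℝ ℂ).injective (by rw [this, map_zero])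
  -- first form
  have hB1 := isotropic_bound Z hZconj (fun a => -(1 / aeval a J))
    (fun a _ => by
      show -(1 / aeval (fun i => (starRingEnd ℂ) (a i)) J) = _
      rw [aeval_conj']
      simp)
    (fun a ha => by
      have := hJ0 a ha
      simpa using this)
    (restrictTotalDegree (Fin 2) ℝ (2 * k - 3))
    (fun h hh => by
      have h1 : h.totalDegree ≤ 2 * k - 3 := (mem_restrictTotalDegree _ _ _).1 hh
      have h2 : (h ^ 2).totalDegree ≤ 2 * h.totalDegree := totalDegree_pow _ _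
      have h3 := hEJ (h ^ 2) (by omega)
      calc ∑ a ∈ Z, -(1 / aeval a J) * (aeval a h) ^ 2 = -∑ a ∈ Z, aeval a (h ^ 2) / aeval a J := by
            rw [← Finset.sum_neg_distrib]
            apply Finset.sum_congr rfl
            intro a _
            rw [map_pow]
            ring
        _ = 0 := by rw [h3, neg_zero])
    (fun h hh hv => by
      have h1 : h.totalDegree ≤ 2 * k - 3 := (mem_restrictTotalDegree _ _ _).1 hh
      exact hVS h (by omega) hv)
  -- second form
  have hB2 := isotropic_bound Z hZconj (fun a => -(((c : ℂ) - aeval a f) / aeval a J))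
    (fun a _ => by
      show -(((c : ℂ) - aeval (fun i => (starRingEnd ℂ) (a i)) f) /
        aeval (fun i => (starRingEnd ℂ) (a i)) J) = _
      rw [aeval_conj', aeval_conj']
      simp)
    (fun a ha => by
      have h1 := hJ0 a ha
      have h2 : (c : ℂ) - aeval a f ≠ 0 := sub_ne_zero.2 (hcZ' a ha).symm
      exact neg_ne_zero.2 (div_ne_zero h2 h1))
    (restrictTotalDegree (Fin 2) ℝ (k - 3))
    (fun h hh => by
      have h1 : h.totalDegree ≤ k - 3 := (mem_restrictTotalDegree _ _ _).1 hh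
      have h2 : (h ^ 2).totalDegree ≤ 2 * h.totalDegree := totalDegree_pow _ _
      have h4 : ((C c - f) * h ^ 2).totalDegree ≤ (C c - f).totalDegree + (h ^ 2).totalDegree :=
        totalDegree_mul _ _
      have h5 : (C c - f : MvPolynomial (Fin 2) ℝ).totalDegree ≤ 2 * k := by
        refine (totalDegree_sub _ _).trans (max_le ?_ hf)
        rw [totalDegree_C]
        omega
      have h3 := hEJ ((C c - f) * h ^ 2) (by omega)
      calc ∑ a ∈ Z, -(((c : ℂ) - aeval a f) / aeval a J) * (aeval a h) ^ 2 =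
            -∑ a ∈ Z, aeval a ((C c - f) * h ^ 2) / aeval a J := by
            rw [← Finset.sum_neg_distrib]
            apply Finset.sum_congr rfl
            intro a _
            have : aeval a (C c : MvPolynomial (Fin 2) ℝ) = (c : ℂ) := by
              rw [aeval_C]; rfl
            have e : aeval a ((C c - f) * h ^ 2) = ((c : ℂ) - aeval a f) * (aeval a h) ^ 2 := by
              rw [map_mul, map_sub, map_pow, this]
            rw [e]
            ring
        _ = 0 := by rw [h3, neg_zero])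
    (fun h hh hv => by
      have h1 : h.totalDegree ≤ k - 3 := (mem_restrictTotalDegree _ _ _).1 hh
      exact hVS h (by omega) hv)
  rw [htr (fun a => (-(1 / aeval a J)).re < 0), htr (fun a => 0 < (-(1 / aeval a J)).re)] at hB1
  rw [htr (fun a => (-(((c : ℂ) - aeval a f) / aeval a J)).re < 0),
    htr (fun a => 0 < (-(((c : ℂ) - aeval a f) / aeval a J)).re)] at hB2
  -- real values
  have hv1 : ∀ p : ℝ × ℝ, (-(1 / aeval (emb p) J)).re = -(1 / eval ![p.1, p.2] J) := by
    intro p
    rw [aeval_emb]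
    have : -(1 / ((eval ![p.1, p.2] J : ℝ) : ℂ)) = ((-(1 / eval ![p.1, p.2] J) : ℝ) : ℂ) := by
      push_cast; rfl
    rw [this, Complex.ofReal_re]
  have hv2 : ∀ p : ℝ × ℝ, (-(((c : ℂ) - aeval (emb p) f) / aeval (emb p) J)).re =
      -((c - eval ![p.1, p.2] f) / eval ![p.1, p.2] J) := by
    intro p
    rw [aeval_emb, aeval_emb]
    have : -(((c : ℂ) - ((eval ![p.1, p.2] f : ℝ) : ℂ)) / ((eval ![p.1, p.2] J : ℝ) : ℂ)) =
        ((-((c - eval ![p.1, p.2] f) / eval ![p.1, p.2] J) : ℝ) : ℂ) := by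
      push_cast; rfl
    rw [this, Complex.ofReal_re]
  have hRJ : ∀ p ∈ R, eval ![p.1, p.2] J ≠ 0 := by
    intro p hp h
    apply hJ0 _ ((hR p).1 hp)
    rw [aeval_emb, h, Complex.ofReal_zero]
  have hRc : ∀ p ∈ R, eval ![p.1, p.2] f ≠ c := by
    intro p hp h
    apply hcZ' _ ((hR p).1 hp)
    rw [aeval_emb, h]
  set SA := R.filter (fun p => eval ![p.1, p.2] f < c ∧ 0 < eval ![p.1, p.2] J) with hSA
  set SB := R.filter (fun p => eval ![p.1, p.2] f < c ∧ eval ![p.1, p.2] J < 0) with hSB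
  set SC := R.filter (fun p => c < eval ![p.1, p.2] f ∧ 0 < eval ![p.1, p.2] J) with hSC
  set SD := R.filter (fun p => c < eval ![p.1, p.2] f ∧ eval ![p.1, p.2] J < 0) with hSD
  have e1 : (R.filter (fun p => (-(1 / aeval (emb p) J)).re < 0)).card = SA.card + SC.card := by
    rw [← Finset.card_union_of_disjoint]
    · congr 1
      ext p
      simp only [hSA, hSC, Finset.mem_union, Finset.mem_filter, hv1]
      rw [neg_lt_zero, one_div, inv_pos]
      constructor
      · rintro ⟨h1, h2⟩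
        rcases lt_or_gt_of_ne (hRc p h1) with h3 | h3
        · exact Or.inl ⟨h1, h3, h2⟩
        · exact Or.inr ⟨h1, h3, h2⟩
      · rintro (h | h)
        · exact ⟨h.1, h.2.2⟩
        · exact ⟨h.1, h.2.2⟩
    · rw [Finset.disjoint_left]
      intro p hp hq
      rw [hSA, Finset.mem_filter] at hp
      rw [hSC, Finset.mem_filter] at hq
      linarith [hp.2.1, hq.2.1]
  have e2 : (R.filter (fun p => 0 < (-(1 / aeval (emb p) J)).re)).card = SB.card + SD.card := by
    rw [← Finset.card_union_of_disjoint]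
    · congr 1
      ext p
      simp only [hSB, hSD, Finset.mem_union, Finset.mem_filter, hv1]
      rw [neg_pos, one_div, inv_lt_zero]
      constructor
      · rintro ⟨h1, h2⟩
        rcases lt_or_gt_of_ne (hRc p h1) with h3 | h3
        · exact Or.inl ⟨h1, h3, h2⟩
        · exact Or.inr ⟨h1, h3, h2⟩
      · rintro (h | h)
        · exact ⟨h.1, h.2.2⟩
        · exact ⟨h.1, h.2.2⟩
    · rw [Finset.disjoint_left]
      intro p hp hq
      rw [hSB, Finset.mem_filter] at hp
      rw [hSD, Finset.mem_filter] at hq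
      linarith [hp.2.1, hq.2.1]
  have e3 : (R.filter (fun p => (-(((c : ℂ) - aeval (emb p) f) / aeval (emb p) J)).re < 0)).card =
      SA.card + SD.card := by
    rw [← Finset.card_union_of_disjoint]
    · congr 1
      ext p
      simp only [hSA, hSD, Finset.mem_union, Finset.mem_filter, hv2]
      rw [neg_lt_zero, div_pos_iff, sub_pos, sub_neg]
      tauto
    · rw [Finset.disjoint_left]
      intro p hp hq
      rw [hSA, Finset.mem_filter] at hp
      rw [hSD, Finset.mem_filter] at hq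
      linarith [hp.2.1, hq.2.1]
  have e4 : (R.filter (fun p => 0 < (-(((c : ℂ) - aeval (emb p) f) / aeval (emb p) J)).re)).card =
      SB.card + SC.card := by
    rw [← Finset.card_union_of_disjoint]
    · congr 1
      ext p
      simp only [hSB, hSC, Finset.mem_union, Finset.mem_filter, hv2]
      rw [neg_pos, div_neg_iff, sub_pos, sub_neg]
      tauto
    · rw [Finset.disjoint_left]
      intro p hp hq
      rw [hSB, Finset.mem_filter] at hp
      rw [hSC, Finset.mem_filter] at hq
      linarith [hp.2.1, hq.2.1]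
  rw [e1, e2] at hB1
  rw [e3, e4] at hB2
  -- the sum of the signs
  have hsum : ∑ p ∈ R.filter (fun p => eval ![p.1, p.2] f < c),
      (SignType.sign (eval ![p.1, p.2] J) : ℤ) = (SA.card : ℤ) - SB.card := by
    have hsplit : R.filter (fun p => eval ![p.1, p.2] f < c) = SA ∪ SB := by
      ext p
      simp only [hSA, hSB, Finset.mem_union, Finset.mem_filter]
      constructor
      · rintro ⟨h1, h2⟩
        rcases lt_or_gt_of_ne (hRJ p h1) with h3 | h3
        · exact Or.inr ⟨h1, h2, h3⟩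
        · exact Or.inl ⟨h1, h2, h3⟩
      · rintro (h | h)
        · exact ⟨h.1, h.2.1⟩
        · exact ⟨h.1, h.2.1⟩
    have hdis : Disjoint SA SB := by
      rw [Finset.disjoint_left]
      intro p hp hq
      rw [hSA, Finset.mem_filter] at hp
      rw [hSB, Finset.mem_filter] at hq
      linarith [hp.2.2, hq.2.2]
    rw [hsplit, Finset.sum_union hdis]
    have h1 : ∑ p ∈ SA, (SignType.sign (eval ![p.1, p.2] J) : ℤ) = SA.card := by
      rw [Finset.sum_congr rfl (g := fun _ => (1 : ℤ))]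
      · simp
      · intro p hp
        rw [hSA, Finset.mem_filter] at hp
        rw [sign_pos hp.2.2]
        rfl
    have h2 : ∑ p ∈ SB, (SignType.sign (eval ![p.1, p.2] J) : ℤ) = -SB.card := by
      rw [Finset.sum_congr rfl (g := fun _ => (-1 : ℤ))]
      · simp
      · intro p hp
        rw [hSB, Finset.mem_filter] at hp
        rw [sign_neg hp.2.2]
        rfl
    rw [h1, h2]
    ring
  rw [hsum]
  have f1 := finrank_real (2 * k - 3)
  have f2 := finrank_real (k - 3)
  obtain ⟨m, rfl⟩ : ∃ m, k = m + 3 := ⟨k - 3, by omega⟩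
  have g1 : 2 * (m + 3) - 3 = 2 * m + 3 := by omega
  have g2 : m + 3 - 3 = m := by omega
  have g3 : d = 2 * m + 5 := by omega
  rw [g1] at f1 hB1
  rw [g2] at f2 hB2
  rw [g3] at hZcard
  zify at hB1 hB2 f1 f2 hZcard
  push_cast
  nlinarith
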