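import Pool.Agent.Work.MP_9d788c_ag.KeyLocal
import Pool.Agent.Work.MP_9d788c_ag.IndexBox
import Pool.Agent.Work.MP_9d788c_ag.CountIff
import Pool.Agent.Work.MP_9d788c_ag.Generic
import Pool.Agent.Work.MP_9d788c_ag.IndexIneq

/-!
# The upper bound for the number of zeros of a nonnegative plane polynomial
-/

set_option autoImplicit false

namespace Pool.Agent.MP9d

open MvPolynomial Set Filter Topology

namespace UB

open IB

theorem ev_apply (w : MvPolynomial (Fin 2) ℝ) (z : ℝ × ℝ) : ev w z = eval ![z.1, z.2] w := rfl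

/-! ### Translation -/

/-- homogeneous translation -/
noncomputable def tg (z : ℝ × ℝ) : Fin 3 → MvPolynomial (Fin 3) ℝ :=
  ![X 0 + C z.1 * X 2, X 1 + C z.2 * X 2, X 2]

theorem tg_hom (z : ℝ × ℝ) (i : Fin 3) : (tg z i).IsHomogeneous 1 := by
  fin_cases i
  · simpa [tg] using (isHomogeneous_X ℝ (0 : Fin 3)).add (isHomogeneous_C_mul_X z.1 (2 : Fin 3))
  · simpa [tg] using (isHomogeneous_X ℝ (1 : Fin 3)).add (isHomogeneous_C_mul_X z.2 (2 : Fin 3))
  · simpa [tg] using isHomogeneous_X ℝ (2 : Fin 3)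

theorem eval_aeval3 (g : Fin 3 → MvPolynomial (Fin 3) ℝ) (p : MvPolynomial (Fin 3) ℝ)
    (w : Fin 3 → ℝ) : eval w (aeval g p) = eval (fun i => eval w (g i)) p := by
  rw [aeval_def, ← coe_eval₂Hom]
  change ((eval w).comp (eval₂Hom (algebraMap ℝ (MvPolynomial (Fin 3) ℝ)) g)) p = _
  congr 1
  apply MvPolynomial.ringHom_ext
  · intro r; simp
  · intro i; simp

/-- the form behind the translate -/
noncomputable def tform (n : ℕ) (P : MvPolynomial (Fin 2) ℝ) (z : ℝ × ℝ) :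
    MvPolynomial (Fin 3) ℝ := aeval (tg z) (homog n P)

/-- the translate of a polynomial -/
noncomputable def trans (n : ℕ) (P : MvPolynomial (Fin 2) ℝ) (z : ℝ × ℝ) :
    MvPolynomial (Fin 2) ℝ := aeval sub2 (tform n P z)

theorem tform_hom (n : ℕ) (P : MvPolynomial (Fin 2) ℝ) (z : ℝ × ℝ) :
    (tform n P z).IsHomogeneous n := by
  have := (homog_hom n P).aeval (tg z) (tg_hom z)
  rw [one_mul] at this
  exact this

theorem trans_deg (n : ℕ) (P : MvPolynomial (Fin 2) ℝ) (z : ℝ × ℝ) :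
    (trans n P z).totalDegree ≤ n := by
  refine totalDegree_aeval_le (tform_hom n P z) sub2 fun i => ?_
  fin_cases i <;> simp [sub2]

theorem eval_tform (n : ℕ) (P : MvPolynomial (Fin 2) ℝ) (z : ℝ × ℝ) (w : Fin 3 → ℝ) :
    eval w (tform n P z) = eval ![w 0 + z.1 * w 2, w 1 + z.2 * w 2, w 2] (homog n P) := by
  rw [tform, eval_aeval3]
  congr 2
  funext i
  fin_cases i <;> simp [tg]

theorem eval_trans (n : ℕ) (P : MvPolynomial (Fin 2) ℝ) (hP : P.totalDegree ≤ n) (z : ℝ × ℝ)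
    (v : Fin 2 → ℝ) : eval v (trans n P z) = eval ![v 0 + z.1, v 1 + z.2] P := by
  rw [trans, eval_sub2, eval_tform, eval_homog_ne n P hP _ (by simp)]
  simp only [Matrix.cons_val, mul_one, one_pow, inv_one, one_smul, one_mul]
  congr 2
  funext i
  fin_cases i <;> simp

theorem lead_trans (n : ℕ) (P : MvPolynomial (Fin 2) ℝ) (z : ℝ × ℝ)
    (v : Fin 2 → ℝ) : eval v (homogeneousComponent n (trans n P z)) =
      eval v (homogeneousComponent n P) := by
  rw [lead_of_dehomog (tform_hom n P z) (trans_deg n P z) (fun u => ?_) v, eval_tform,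
    eval_homog_zero _ _ _ (by simp)]
  · congr 2
    funext i
    fin_cases i <;> simp
  · rw [trans, eval_sub2]

theorem eval_y_hom {n : ℕ} {Q : MvPolynomial (Fin 2) ℝ} :
    eval ![0, 1] (homogeneousComponent n Q) = coeff (Finsupp.single 1 n) Q := by
  have h := homogeneousComponent_isHomogeneous n Q
  have h2 : coeff (Finsupp.single 1 n) Q = coeff (Finsupp.single 1 n) (homogeneousComponent n Q) := by
    rw [coeff_homogeneousComponent]
    simp [Finsupp.degree_single]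
  rw [h2]
  set q := homogeneousComponent n Q with hq
  rw [eval_eq]
  rw [Finset.sum_eq_single (Finsupp.single 1 n)]
  · have : ∏ i ∈ (Finsupp.single (1 : Fin 2) n).support,
        (![0, 1] : Fin 2 → ℝ) i ^ (Finsupp.single (1 : Fin 2) n) i = 1 := by
      refine Finset.prod_eq_one fun i hi => ?_
      have := Finsupp.support_single_subset hi
      rw [Finset.mem_singleton] at this
      subst this
      simp
    rw [this, mul_one]
  · intro d hd hne
    have hdeg : d.degree = n := by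
      have := h (mem_support_iff.1 hd)
      rw [← this]
      simp [Finsupp.degree, Finsupp.weight_apply, Finsupp.sum]
    have hd0 : d 0 ≠ 0 := by
      intro h0
      apply hne
      ext i
      fin_cases i
      · simpa using h0
      · have : d 0 + d 1 = n := by
          rw [← hdeg, Finsupp.degree_eq_sum]; simp
        simp only [Fin.mk_one, Finsupp.single_eq_same]
        omega
    have : ∏ i ∈ d.support, (![0, 1] : Fin 2 → ℝ) i ^ d i = 0 := by
      refine Finset.prod_eq_zero (i := 0) (Finsupp.mem_support_iff.2 hd0) ?_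
      simp [hd0]
    rw [this, mul_zero]
  · intro hns
    rw [notMem_support_iff.1 hns, zero_mul]

theorem ev_pderiv_trans (n : ℕ) (P : MvPolynomial (Fin 2) ℝ) (hP : P.totalDegree ≤ n)
    (z p : ℝ × ℝ) : ev (pderiv 0 (trans n P z)) p = ev (pderiv 0 P) (p + z) ∧
      ev (pderiv 1 (trans n P z)) p = ev (pderiv 1 P) (p + z) := by
  have h1 : HasFDerivAt (ev (trans n P z)) (dv (trans n P z) p) p :=
    (hasStrictFDerivAt_ev _ _).hasFDerivAt
  have h2 : HasFDerivAt (fun q : ℝ × ℝ => ev P (q + z)) (dv P (p + z)) p := by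
    have h3 := (hasStrictFDerivAt_ev P (p + z)).hasFDerivAt
    have h4 : HasFDerivAt (fun q : ℝ × ℝ => q + z) (ContinuousLinearMap.id ℝ (ℝ × ℝ)) p :=
      (hasFDerivAt_id p).add_const z
    have := h3.comp p h4
    rw [ContinuousLinearMap.comp_id] at this
    exact this
  have h5 : (ev (trans n P z)) = fun q : ℝ × ℝ => ev P (q + z) := by
    funext q
    simp [ev, eval_trans n P hP]
  rw [h5] at h1
  have h6 := h1.unique h2
  constructor
  · have := congrArg (fun L => L (1, 0)) h6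
    simpa [dv] using this
  · have := congrArg (fun L => L (0, 1)) h6
    simpa [dv] using this

/-! ### Growth -/

theorem growth (n : ℕ) (P : MvPolynomial (Fin 2) ℝ) (hP : P.totalDegree ≤ n)
    (hlead : ∀ v, v ≠ 0 → 0 < eval v (homogeneousComponent n P)) :
    ∃ μ > 0, ∃ R > 0, ∀ v : Fin 2 → ℝ, R ≤ ‖v‖ → μ * ‖v‖ ^ n ≤ eval v P := by
  obtain ⟨G, hGd⟩ : ∃ G : ℝ → (Fin 2 → ℝ) → ℝ, G = fun s w => ∑ k ∈ Finset.range (n + 1),
    eval w (homogeneousComponent k P) * s ^ (n - k) := ⟨_, rfl⟩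
  have hG : Continuous fun q : ℝ × (Fin 2 → ℝ) => G q.1 q.2 := by
    rw [hGd]
    refine continuous_finsetSum _ fun k _ => ?_
    exact ((MvPolynomial.continuous_eval _).comp continuous_snd).mul (continuous_fst.pow _)
  have hG0 : ∀ w, G 0 w = eval w (homogeneousComponent n P) := by
    intro w
    simp only [hGd]
    rw [Finset.sum_range_succ, Finset.sum_eq_zero]
    · simp
    · intro k hk
      have hk' : k < n := Finset.mem_range.mp hk
      rw [zero_pow (by omega), mul_zero]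
  have hK : IsCompact (Metric.sphere (0 : Fin 2 → ℝ) 1) := isCompact_sphere _ _
  obtain ⟨μ, hμ, hμK⟩ : ∃ μ > 0, ∀ w ∈ Metric.sphere (0 : Fin 2 → ℝ) 1, μ ≤ G 0 w := by
    have hne : (Metric.sphere (0 : Fin 2 → ℝ) 1).Nonempty :=
      ⟨fun _ => 1, by simp [pi_norm_const]⟩
    have hc : Continuous fun w => G 0 w := hG.comp (continuous_const.prodMk continuous_id)
    obtain ⟨w, hw, hmin⟩ := hK.exists_isMinOn hne hc.continuousOn
    refine ⟨G 0 w, ?_, fun w' hw' => hmin hw'⟩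
    rw [hG0]
    refine hlead w ?_
    rintro rfl
    simp at hw
  have hev : ∀ᶠ s in 𝓝 (0 : ℝ), ∀ w ∈ Metric.sphere (0 : Fin 2 → ℝ) 1, μ / 2 < G s w := by
    refine hK.eventually_forall_of_forall_eventually fun w hw => ?_
    have h1 : μ / 2 < G (0, w).1 (0, w).2 := by
      have := hμK w hw
      simp only
      linarith
    exact hG.continuousAt.eventually (lt_mem_nhds h1)
  obtain ⟨s₀, hs₀, hs⟩ := Metric.eventually_nhds_iff.1 hev
  refine ⟨μ / 2, by positivity, 2 / s₀, by positivity, fun v hv => ?_⟩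
  have hv0 : 0 < ‖v‖ := lt_of_lt_of_le (by positivity) hv
  have h1 : dist (‖v‖⁻¹) 0 < s₀ := by
    rw [Real.dist_eq, sub_zero, abs_of_pos (inv_pos.2 hv0)]
    rw [inv_lt_comm₀ hv0 hs₀]
    refine lt_of_lt_of_le ?_ hv
    rw [← one_div]
    gcongr
    norm_num
  have h2 := hs h1 (‖v‖⁻¹ • v) (by
    rw [mem_sphere_zero_iff_norm, norm_smul, norm_inv, norm_norm, inv_mul_cancel₀ hv0.ne'])
  have h3 := eval_scale P hP (‖v‖⁻¹ • v) (s := ‖v‖⁻¹) (inv_ne_zero hv0.ne')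
  rw [inv_inv, smul_smul, mul_inv_cancel₀ hv0.ne', one_smul] at h3
  have h4 : G ‖v‖⁻¹ (‖v‖⁻¹ • v) = ‖v‖⁻¹ ^ n * eval v P := by
    rw [hGd]; exact h3
  rw [h4, inv_pow] at h2
  have h5 : 0 < ‖v‖ ^ n := pow_pos hv0 n
  have h6 := mul_lt_mul_of_pos_right h2 h5
  have h7 : (‖v‖ ^ n)⁻¹ * eval v P * ‖v‖ ^ n = eval v P := by
    field_simp
  linarith

theorem growth_one (n : ℕ) (hn : 2 ≤ n) (P : MvPolynomial (Fin 2) ℝ) (hP : P.totalDegree ≤ n)
    (hlead : ∀ v, v ≠ 0 → 0 < eval v (homogeneousComponent n P)) :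
    ∃ R > 0, ∀ p : ℝ × ℝ, R ≤ ‖p‖ → 1 + 2 * ‖p‖ ≤ ev P p := by
  obtain ⟨μ, hμ, R, hR, h⟩ := growth n P hP hlead
  refine ⟨max R (max 1 (3 / μ)), by positivity, fun p hp => ?_⟩
  have hn1 : ‖(![p.1, p.2] : Fin 2 → ℝ)‖ = ‖p‖ := by
    rw [Prod.norm_def]
    apply le_antisymm
    · refine (pi_norm_le_iff_of_nonneg (by positivity)).2 fun i => ?_
      fin_cases i <;> simp
    · refine max_le ?_ ?_
      · exact norm_le_pi_norm (![p.1, p.2] : Fin 2 → ℝ) 0
      · exact norm_le_pi_norm (![p.1, p.2] : Fin 2 → ℝ) 1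
  have h1 : R ≤ ‖p‖ := (le_max_left _ _).trans hp
  have h2 : 1 ≤ ‖p‖ := ((le_max_left _ _).trans (le_max_right _ _)).trans hp
  have h3 : 3 / μ ≤ ‖p‖ := ((le_max_right _ _).trans (le_max_right _ _)).trans hp
  have h4 := h ![p.1, p.2] (by rw [hn1]; exact h1)
  rw [hn1] at h4
  refine le_trans ?_ h4
  have h5 : ‖p‖ ^ 2 ≤ ‖p‖ ^ n := pow_le_pow_right₀ h2 hn
  have h6 : 3 ≤ μ * ‖p‖ := by
    rw [div_le_iff₀ hμ] at h3
    linarith
  have h7 : μ * ‖p‖ ^ 2 ≤ μ * ‖p‖ ^ n := mul_le_mul_of_nonneg_left h5 hμ.le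
  nlinarith

/-! ### The perturbed polynomial -/

section pert

variable (n : ℕ) (P : MvPolynomial (Fin 2) ℝ)

/-- the perturbation -/
noncomputable def pf (q : (ℝ × ℝ) × (ℝ × ℝ)) : MvPolynomial (Fin 2) ℝ :=
  P + C q.1.1 * X 1 ^ n + C q.1.2 * (X 0 ^ 2 + X 1 ^ 2) - C q.2.1 * X 0 - C q.2.2 * X 1

theorem ev_pf (q : (ℝ × ℝ) × (ℝ × ℝ)) (p : ℝ × ℝ) : ev (pf n P q) p =
    ev P p + q.1.1 * p.2 ^ n + q.1.2 * (p.1 ^ 2 + p.2 ^ 2) - q.2.1 * p.1 - q.2.2 * p.2 := by
  simp [ev, pf]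

theorem ev_pf0 (q : (ℝ × ℝ) × (ℝ × ℝ)) (p : ℝ × ℝ) : ev (pderiv 0 (pf n P q)) p =
    ev (pderiv 0 P) p + q.1.2 * (2 * p.1) - q.2.1 := by
  simp [ev, pf, pderiv_X, Derivation.leibniz, Derivation.leibniz_pow]

theorem ev_pf1 (q : (ℝ × ℝ) × (ℝ × ℝ)) (p : ℝ × ℝ) : ev (pderiv 1 (pf n P q)) p =
    ev (pderiv 1 P) p + q.1.1 * (n * p.2 ^ (n - 1)) + q.1.2 * (2 * p.2) - q.2.2 := by
  simp [ev, pf, pderiv_X, Derivation.leibniz, Derivation.leibniz_pow]

theorem pf_zero : pf n P 0 = P := by simp [pf]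

theorem cont_pf : Continuous fun r : ((ℝ × ℝ) × (ℝ × ℝ)) × (ℝ × ℝ) => ev (pf n P r.1) r.2 := by
  simp_rw [ev_pf]
  have := (continuous_ev P).comp (continuous_snd (X := (ℝ × ℝ) × (ℝ × ℝ)) (Y := ℝ × ℝ))
  unfold Function.comp at this
  fun_prop

theorem cont_pf0 : Continuous fun r : ((ℝ × ℝ) × (ℝ × ℝ)) × (ℝ × ℝ) =>
    ev (pderiv 0 (pf n P r.1)) r.2 := by
  simp_rw [ev_pf0]
  have := (continuous_ev (pderiv 0 P)).comp (continuous_snd (X := (ℝ × ℝ) × (ℝ × ℝ)) (Y := ℝ × ℝ))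
  unfold Function.comp at this
  fun_prop

theorem cont_pf1 : Continuous fun r : ((ℝ × ℝ) × (ℝ × ℝ)) × (ℝ × ℝ) =>
    ev (pderiv 1 (pf n P r.1)) r.2 := by
  simp_rw [ev_pf1]
  have := (continuous_ev (pderiv 1 P)).comp (continuous_snd (X := (ℝ × ℝ) × (ℝ × ℝ)) (Y := ℝ × ℝ))
  unfold Function.comp at this
  fun_prop

theorem pf_deg (hn : 2 ≤ n) (hP : P.totalDegree ≤ n) (q : (ℝ × ℝ) × (ℝ × ℝ)) :
    (pf n P q).totalDegree ≤ n := by
  unfold pf
  have hX : ∀ i : Fin 2, ∀ m : ℕ, (X i ^ m : MvPolynomial (Fin 2) ℝ).totalDegree ≤ m := by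
    intro i m
    refine (totalDegree_pow _ _).trans ?_
    simp
  have hC : ∀ (c : ℝ) (w : MvPolynomial (Fin 2) ℝ), (C c * w).totalDegree ≤ w.totalDegree := by
    intro c w
    refine (totalDegree_mul _ _).trans ?_
    simp
  have hX1 : ∀ i : Fin 2, (X i : MvPolynomial (Fin 2) ℝ).totalDegree ≤ n := by
    intro i
    rw [totalDegree_X]
    omega
  refine (totalDegree_sub _ _).trans (max_le ?_ ((hC _ _).trans (hX1 1)))
  refine (totalDegree_sub _ _).trans (max_le ?_ ((hC _ _).trans (hX1 0)))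
  refine (totalDegree_add _ _).trans (max_le ?_ ((hC _ _).trans ?_))
  · exact (totalDegree_add _ _).trans (max_le hP ((hC _ _).trans (hX 1 n)))
  · exact (totalDegree_add _ _).trans (max_le ((hX 0 2).trans hn) ((hX 1 2).trans hn))

end pert

/-- a closed box -/
def Bx (z : ℝ × ℝ) (r r' : ℝ) : Set (ℝ × ℝ) :=
  Icc (z.1 - r) (z.1 + r) ×ˢ Icc (z.2 - r') (z.2 + r')

/-- an open box -/
def Bo (z : ℝ × ℝ) (r r' : ℝ) : Set (ℝ × ℝ) :=
  Ioo (z.1 - r) (z.1 + r) ×ˢ Ioo (z.2 - r') (z.2 + r')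

theorem Bo_sub (z : ℝ × ℝ) (r r' : ℝ) : Bo z r r' ⊆ Bx z r r' :=
  Set.prod_mono Ioo_subset_Icc_self Ioo_subset_Icc_self

theorem Bo_open (z : ℝ × ℝ) (r r' : ℝ) : IsOpen (Bo z r r') := isOpen_Ioo.prod isOpen_Ioo

theorem Bx_compact (z : ℝ × ℝ) (r r' : ℝ) : IsCompact (Bx z r r') := isCompact_Icc.prod isCompact_Icc

theorem mem_Bo {z : ℝ × ℝ} {r r' : ℝ} (hr : 0 < r) (hr' : 0 < r') : z ∈ Bo z r r' :=
  ⟨⟨by linarith, by linarith⟩, ⟨by linarith, by linarith⟩⟩

/-- The boxes around the zeros. -/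
theorem box_data (n : ℕ) (P : MvPolynomial (Fin 2) ℝ) (hP : P.totalDegree ≤ n)
    (hlead : ∀ v, v ≠ 0 → 0 < eval v (homogeneousComponent n P))
    (hpos : ∀ p, 0 ≤ ev P p) (T : Finset (ℝ × ℝ)) (hT : ∀ p, p ∈ T ↔ ev P p = 0) :
    ∃ ρ ρ' : ℝ × ℝ → ℝ, (∀ z ∈ T, 0 < ρ z ∧ 0 < ρ' z ∧
      (∀ x ∈ Icc (z.1 - ρ z) (z.1 + ρ z), 0 < ev (pderiv 1 P) (x, z.2 + ρ' z) ∧
        ev (pderiv 1 P) (x, z.2 - ρ' z) < 0) ∧
      (∀ p ∈ Bx z (ρ z) (ρ' z), ev (pderiv 1 P) p = 0 → p ≠ z →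
        0 < (p.1 - z.1) * ev (pderiv 0 P) p)) ∧
      (T : Set (ℝ × ℝ)).PairwiseDisjoint (fun z => Bx z (ρ z) (ρ' z)) := by
  classical
  obtain ⟨U, hU, hUd⟩ := (T.finite_toSet).t2_separation
  have key : ∀ z ∈ T, ∃ r r' : ℝ, 0 < r ∧ 0 < r' ∧
      (∀ x ∈ Icc (z.1 - r) (z.1 + r), 0 < ev (pderiv 1 P) (x, z.2 + r') ∧
        ev (pderiv 1 P) (x, z.2 - r') < 0) ∧
      (∀ p ∈ Bx z r r', ev (pderiv 1 P) p = 0 → p ≠ z →
        0 < (p.1 - z.1) * ev (pderiv 0 P) p) ∧ Bx z r r' ⊆ U z := by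
    intro z hz
    have hcont : Continuous fun p : ℝ × ℝ => p + z := by fun_prop
    have hV : (fun p : ℝ × ℝ => p + z) ⁻¹' (U z) ∈ 𝓝 (0 : ℝ × ℝ) :=
      ((hU z).2.preimage hcont).mem_nhds (by simpa using (hU z).1)
    have hev : ∀ p : ℝ × ℝ, ev (UB.trans n P z) p = ev P (p + z) := by
      intro p
      simp [ev, eval_trans n P hP]
    obtain ⟨r, hr, r', hr', hsub, h1, h2⟩ := key_local (UB.trans n P z) n (trans_deg n P z)
      (by
        rw [← eval_y_hom, lead_trans n P]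
        exact (hlead _ (by
          intro h
          have := congrFun h 1
          simp at this)).ne')
      _ hV (by
        have := hev 0
        rw [zero_add, (hT z).1 hz] at this
        exact this)
      (by
        intro p hp hp0
        have h3 : eval ![p.1, p.2] (UB.trans n P z) = ev P (p + z) := hev p
        rw [h3]
        rcases (hpos (p + z)).lt_or_eq with h | h
        · exact h
        · exfalso
          have h4 : p + z ∈ T := (hT _).2 h.symm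
          have h5 : p + z = z := by
            by_contra hne
            have := hUd h4 hz hne
            exact Set.disjoint_left.1 this (hU (p + z)).1 hp
          apply hp0
          simpa using h5)
    have tr : ∀ x y : ℝ, eval ![x - z.1, y - z.2] (pderiv 1 (UB.trans n P z)) =
        ev (pderiv 1 P) (x, y) ∧ eval ![x - z.1, y - z.2] (pderiv 0 (UB.trans n P z)) =
        ev (pderiv 0 P) (x, y) := by
      intro x y
      have := ev_pderiv_trans n P hP z (x - z.1, y - z.2)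
      have e : ((x - z.1, y - z.2) : ℝ × ℝ) + z = (x, y) := by
        ext <;> simp
      rw [e] at this
      exact ⟨this.2, this.1⟩
    refine ⟨r, r', hr, hr', ?_, ?_, ?_⟩
    · intro x hx
      have hx' : x - z.1 ∈ Icc (-r) r := ⟨by linarith [hx.1], by linarith [hx.2]⟩
      have h3 := h1 (x - z.1) hx'
      have h4 := (tr x (z.2 + r')).1
      have h5 := (tr x (z.2 - r')).1
      rw [show z.2 + r' - z.2 = r' by ring] at h4
      rw [show z.2 - r' - z.2 = -r' by ring] at h5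
      rw [h4, h5] at h3
      exact h3
    · intro p hp hp1 hpz
      have h3 := h2 (p.1 - z.1) ⟨by linarith [hp.1.1], by linarith [hp.1.2]⟩ (p.2 - z.2)
        ⟨by linarith [hp.2.1], by linarith [hp.2.2]⟩
      rw [(tr p.1 p.2).1, (tr p.1 p.2).2] at h3
      refine h3 hp1 ?_
      rintro ⟨h4, h5⟩
      apply hpz
      ext
      · linarith
      · linarith
    · intro p hp
      have h3 : (p - z) ∈ Icc (-r) r ×ˢ Icc (-r') r' :=
        ⟨⟨by simp only [Prod.fst_sub]; linarith [hp.1.1], by simp only [Prod.fst_sub]; linarith [hp.1.2]⟩,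
          ⟨by simp only [Prod.snd_sub]; linarith [hp.2.1], by simp only [Prod.snd_sub]; linarith [hp.2.2]⟩⟩
      have h4 := hsub h3
      simpa using h4
  choose! ρ ρ' hρ using key
  refine ⟨ρ, ρ', fun z hz => ⟨(hρ z hz).1, (hρ z hz).2.1, (hρ z hz).2.2.1, (hρ z hz).2.2.2.1⟩, ?_⟩
  intro z hz w hw hne
  exact Set.disjoint_of_subset (hρ z hz).2.2.2.2 (hρ w hw).2.2.2.2 (hUd hz hw hne)

theorem ev_near (n : ℕ) (P : MvPolynomial (Fin 2) ℝ) {K : Set (ℝ × ℝ)} (hK : IsCompact K)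
    (O : Set (ℝ × ℝ × ℝ)) (hO : IsOpen O)
    (h : ∀ y ∈ K, (ev P y, ev (pderiv 0 P) y, ev (pderiv 1 P) y) ∈ O) :
    ∀ᶠ q in 𝓝 (0 : (ℝ × ℝ) × (ℝ × ℝ)), ∀ y ∈ K,
      (ev (pf n P q) y, ev (pderiv 0 (pf n P q)) y, ev (pderiv 1 (pf n P q)) y) ∈ O := by
  have hc : Continuous fun r : ((ℝ × ℝ) × (ℝ × ℝ)) × (ℝ × ℝ) =>
      (ev (pf n P r.1) r.2, ev (pderiv 0 (pf n P r.1)) r.2, ev (pderiv 1 (pf n P r.1)) r.2) :=
    (cont_pf n P).prodMk ((cont_pf0 n P).prodMk (cont_pf1 n P))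
  refine hK.eventually_forall_of_forall_eventually fun y hy => ?_
  have h1 : (ev (pf n P 0) y, ev (pderiv 0 (pf n P 0)) y, ev (pderiv 1 (pf n P 0)) y) ∈ O := by
    rw [pf_zero]
    exact h y hy
  exact hc.continuousAt.eventually (hO.mem_nhds h1)

theorem real_hess {f w : MvPolynomial (Fin 2) ℝ} (p : ℝ × ℝ)
    (hess : ∀ a : Fin 2 → ℂ, aeval a (pderiv 0 f) = 0 → aeval a (pderiv 1 f) = 0 →
      aeval a w ≠ 0) (h0 : ev (pderiv 0 f) p = 0) (h1 : ev (pderiv 1 f) p = 0) : ev w p ≠ 0 := by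
  have key : ∀ u : MvPolynomial (Fin 2) ℝ,
      aeval (fun i => ((![p.1, p.2] i : ℝ) : ℂ)) u = ((ev u p : ℝ) : ℂ) := by
    intro u
    have := aeval_algebraMap_apply (A := ℝ) ℂ (![p.1, p.2]) u
    simp only [Complex.coe_algebraMap] at this
    have h2 : aeval ![p.1, p.2] u = ev u p := by
      rw [ev, aeval_eq_eval]
    rw [h2] at this
    exact this
  intro hw
  refine hess (fun i => ((![p.1, p.2] i : ℝ) : ℂ)) ?_ ?_ ?_
  · rw [key, h0, Complex.ofReal_zero]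
  · rw [key, h1, Complex.ofReal_zero]
  · rw [key, hw, Complex.ofReal_zero]

/-- The perturbed polynomial. -/
theorem exists_good (n : ℕ) (hn : 3 ≤ n) (hev : Even n) (P : MvPolynomial (Fin 2) ℝ)
    (hP : P.totalDegree ≤ n)
    (hlead : ∀ v, v ≠ 0 → 0 < eval v (homogeneousComponent n P))
    (hpos : ∀ p, 0 ≤ ev P p) (T : Finset (ℝ × ℝ)) (hT : ∀ p, p ∈ T ↔ ev P p = 0)
    (ρ ρ' : ℝ × ℝ → ℝ) (hρ : ∀ z ∈ T, 0 < ρ z ∧ 0 < ρ' z ∧
      (∀ x ∈ Icc (z.1 - ρ z) (z.1 + ρ z), 0 < ev (pderiv 1 P) (x, z.2 + ρ' z) ∧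
        ev (pderiv 1 P) (x, z.2 - ρ' z) < 0) ∧
      (∀ p ∈ Bx z (ρ z) (ρ' z), ev (pderiv 1 P) p = 0 → p ≠ z →
        0 < (p.1 - z.1) * ev (pderiv 0 P) p)) :
    ∃ c₁ c₂ : ℝ, c₁ < c₂ ∧ ∃ f : MvPolynomial (Fin 2) ℝ, f.totalDegree ≤ n ∧
      (∀ a : Fin 2 → ℂ, aeval a (pderiv 0 (homogeneousComponent n f)) = 0 →
          aeval a (pderiv 1 (homogeneousComponent n f)) = 0 → a = 0) ∧
      (∀ a : Fin 2 → ℂ, aeval a (pderiv 0 f) = 0 → aeval a (pderiv 1 f) = 0 →
          aeval a (pderiv 0 (pderiv 0 f) * pderiv 1 (pderiv 1 f) -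
            pderiv 1 (pderiv 0 f) * pderiv 0 (pderiv 1 f)) ≠ 0) ∧
      (∀ p, (∀ z ∈ T, p ∉ Bx z (ρ z) (ρ' z)) → c₂ < ev f p) ∧
      ∀ z ∈ T,
        (∀ x ∈ Icc (z.1 - ρ z) (z.1 + ρ z), 0 < ev (pderiv 1 f) (x, z.2 + ρ' z)) ∧
        (∀ x ∈ Icc (z.1 - ρ z) (z.1 + ρ z), ev (pderiv 1 f) (x, z.2 - ρ' z) < 0) ∧
        (∀ y ∈ Icc (z.2 - ρ' z) (z.2 + ρ' z), ev (pderiv 1 f) (z.1 + ρ z, y) = 0 →
          0 < ev (pderiv 0 f) (z.1 + ρ z, y)) ∧
        (∀ y ∈ Icc (z.2 - ρ' z) (z.2 + ρ' z), ev (pderiv 1 f) (z.1 - ρ z, y) = 0 →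
          ev (pderiv 0 f) (z.1 - ρ z, y) < 0) ∧
        (∀ p ∈ Bx z (ρ z) (ρ' z), ev (pderiv 0 f) p = 0 → ev (pderiv 1 f) p = 0 →
          ev f p < c₁) := by
  classical
  obtain ⟨R, hR, hgr⟩ := growth_one n (by omega) P hP hlead
  set K : Set (ℝ × ℝ) := Metric.closedBall 0 R \ ⋃ z ∈ T, Bo z (ρ z) (ρ' z) with hKd
  have hK : IsCompact K :=
    (isCompact_closedBall _ _).diff (isOpen_biUnion fun z _ => Bo_open z _ _)
  obtain ⟨m, hm, hmK⟩ := IB.exists_lower hK (f := ev P) (continuous_ev P).continuousOn (by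
    intro z hz
    rcases (hpos z).lt_or_eq with h | h
    · exact h
    · exfalso
      have h1 : z ∈ T := (hT z).2 h.symm
      exact hz.2 (mem_iUnion₂.2 ⟨z, h1, mem_Bo (hρ z h1).1 (hρ z h1).2.1⟩))
  set c₂ : ℝ := min m 1 / 2 with hc₂
  have hc₂pos : 0 < c₂ := by positivity
  have hc₂m : c₂ < m := by
    have := min_le_left m 1
    linarith
  have hc₂1 : c₂ < 1 := by
    have := min_le_right m 1
    linarith
  have E0 : ∀ᶠ q in 𝓝 (0 : (ℝ × ℝ) × (ℝ × ℝ)), ∀ y ∈ K, c₂ < ev (pf n P q) y := by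
    refine ev_near n P hK {t | c₂ < t.1} (isOpen_lt continuous_const continuous_fst) ?_
    intro y hy
    exact hc₂m.trans_le (hmK y hy)
  have E1 : ∀ᶠ q in 𝓝 (0 : (ℝ × ℝ) × (ℝ × ℝ)), ∀ z ∈ T,
      ∀ y ∈ Icc (z.1 - ρ z) (z.1 + ρ z) ×ˢ {z.2 + ρ' z}, 0 < ev (pderiv 1 (pf n P q)) y := by
    rw [Filter.eventually_all_finset]
    intro z hz
    refine ev_near n P (isCompact_Icc.prod isCompact_singleton) {t | 0 < t.2.2}
      (isOpen_lt continuous_const (continuous_snd.comp continuous_snd)) ?_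
    rintro ⟨x, y⟩ ⟨hx, hy⟩
    rw [mem_singleton_iff] at hy
    simp only at hx hy
    subst hy
    exact ((hρ z hz).2.2.1 x hx).1
  have E2 : ∀ᶠ q in 𝓝 (0 : (ℝ × ℝ) × (ℝ × ℝ)), ∀ z ∈ T,
      ∀ y ∈ Icc (z.1 - ρ z) (z.1 + ρ z) ×ˢ {z.2 - ρ' z}, ev (pderiv 1 (pf n P q)) y < 0 := by
    rw [Filter.eventually_all_finset]
    intro z hz
    refine ev_near n P (isCompact_Icc.prod isCompact_singleton) {t | t.2.2 < 0}
      (isOpen_lt (continuous_snd.comp continuous_snd) continuous_const) ?_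
    rintro ⟨x, y⟩ ⟨hx, hy⟩
    rw [mem_singleton_iff] at hy
    simp only at hx hy
    subst hy
    exact ((hρ z hz).2.2.1 x hx).2
  have E3 : ∀ᶠ q in 𝓝 (0 : (ℝ × ℝ) × (ℝ × ℝ)), ∀ z ∈ T,
      ∀ y ∈ {z.1 + ρ z} ×ˢ Icc (z.2 - ρ' z) (z.2 + ρ' z),
        ev (pderiv 1 (pf n P q)) y ≠ 0 ∨ 0 < ev (pderiv 0 (pf n P q)) y := by
    rw [Filter.eventually_all_finset]
    intro z hz
    refine ev_near n P (isCompact_singleton.prod isCompact_Icc) {t | t.2.2 ≠ 0 ∨ 0 < t.2.1}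
      ((isOpen_ne_fun (continuous_snd.comp continuous_snd) continuous_const).union
        (isOpen_lt continuous_const (continuous_fst.comp continuous_snd))) ?_
    rintro ⟨x, y⟩ ⟨hx, hy⟩
    rw [mem_singleton_iff] at hx
    simp only at hx hy
    subst hx
    have hr := (hρ z hz).1
    by_cases h : ev (pderiv 1 P) (z.1 + ρ z, y) = 0
    · right
      have h2 := (hρ z hz).2.2.2 (z.1 + ρ z, y) ⟨⟨by simp only; linarith, le_rfl⟩, hy⟩ h (by
        intro h3
        have := congrArg Prod.fst h3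
        simp only at this
        linarith)
      simp only [add_sub_cancel_left] at h2
      exact (mul_pos_iff_of_pos_left hr).1 h2
    · left; exact h
  have E4 : ∀ᶠ q in 𝓝 (0 : (ℝ × ℝ) × (ℝ × ℝ)), ∀ z ∈ T,
      ∀ y ∈ {z.1 - ρ z} ×ˢ Icc (z.2 - ρ' z) (z.2 + ρ' z),
        ev (pderiv 1 (pf n P q)) y ≠ 0 ∨ ev (pderiv 0 (pf n P q)) y < 0 := by
    rw [Filter.eventually_all_finset]
    intro z hz
    refine ev_near n P (isCompact_singleton.prod isCompact_Icc) {t | t.2.2 ≠ 0 ∨ t.2.1 < 0}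
      ((isOpen_ne_fun (continuous_snd.comp continuous_snd) continuous_const).union
        (isOpen_lt (continuous_fst.comp continuous_snd) continuous_const)) ?_
    rintro ⟨x, y⟩ ⟨hx, hy⟩
    rw [mem_singleton_iff] at hx
    simp only at hx hy
    subst hx
    have hr := (hρ z hz).1
    by_cases h : ev (pderiv 1 P) (z.1 - ρ z, y) = 0
    · right
      have h2 := (hρ z hz).2.2.2 (z.1 - ρ z, y) ⟨⟨le_rfl, by simp only; linarith⟩, hy⟩ h (by
        intro h3
        have := congrArg Prod.fst h3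
        simp only at this
        linarith)
      simp only at h2
      show ev (pderiv 0 P) (z.1 - ρ z, y) < 0
      nlinarith
    · left; exact h
  have E5 : ∀ᶠ q in 𝓝 (0 : (ℝ × ℝ) × (ℝ × ℝ)), ∀ z ∈ T,
      ∀ y ∈ Bx z (ρ z) (ρ' z), (ev (pderiv 0 (pf n P q)) y ≠ 0 ∨
        ev (pderiv 1 (pf n P q)) y ≠ 0) ∨ ev (pf n P q) y < c₂ / 2 := by
    rw [Filter.eventually_all_finset]
    intro z hz
    refine ev_near n P (Bx_compact _ _ _) {t | (t.2.1 ≠ 0 ∨ t.2.2 ≠ 0) ∨ t.1 < c₂ / 2}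
      (((isOpen_ne_fun (continuous_fst.comp continuous_snd) continuous_const).union
        (isOpen_ne_fun (continuous_snd.comp continuous_snd) continuous_const)).union
        (isOpen_lt continuous_fst continuous_const)) ?_
    intro y hy
    by_cases hyz : y = z
    · right
      rw [hyz]
      show ev P z < c₂ / 2
      rw [(hT z).1 hz]
      positivity
    · left
      by_cases h : ev (pderiv 1 P) y = 0
      · left
        have h2 := (hρ z hz).2.2.2 y hy h hyz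
        intro h3
        simp only at h3
        rw [h3, mul_zero] at h2
        exact lt_irrefl _ h2
      · right; exact h
  obtain ⟨δ, hδ, hall⟩ := Metric.eventually_nhds_iff.1 (E0.and (E1.and (E2.and (E3.and (E4.and E5)))))
  obtain ⟨η₁, η₂, b₀, b₁, h1, h2, h3, h4, h5, h6, f, hf, hcop, hess⟩ :=
    exists_perturb n hn P hP hlead (min (δ / 2) 1) (by positivity)
  have hfp : f = pf n P ((η₁, η₂), (b₀, b₁)) := hf
  have hd1 : min (δ / 2) 1 < δ := (min_le_left _ _).trans_lt (by linarith)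
  have hd2 : min (δ / 2) 1 ≤ (1:ℝ) := min_le_right _ _
  have hdist : dist (((η₁, η₂), (b₀, b₁)) : (ℝ × ℝ) × (ℝ × ℝ)) 0 < δ := by
    rw [dist_zero_right, Prod.norm_def, Prod.norm_def, Prod.norm_def]
    simp only [Real.norm_eq_abs, max_lt_iff]
    rw [abs_of_nonneg h1, abs_of_nonneg h3]
    exact ⟨⟨by linarith, by linarith⟩, ⟨by linarith, by linarith⟩⟩
  obtain ⟨F0, F1, F2, F3, F4, F5⟩ := hall hdist
  rw [← hfp] at F0 F1 F2 F3 F4 F5
  refine ⟨c₂ / 2, c₂, by linarith, f, ?_, hcop, hess, ?_, ?_⟩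
  · rw [hfp]
    exact pf_deg n P (by omega) hP _
  · intro p hp
    by_cases hpR : p ∈ Metric.closedBall (0 : ℝ × ℝ) R
    · refine F0 p ⟨hpR, fun h => ?_⟩
      obtain ⟨z, hz, hpz⟩ := mem_iUnion₂.1 h
      exact hp z hz (Bo_sub _ _ _ hpz)
    · have hpR' : R ≤ ‖p‖ := by
        rw [mem_closedBall_zero_iff, not_le] at hpR
        exact hpR.le
      have h7 := hgr p hpR'
      rw [hfp, ev_pf]
      simp only
      have h8 : 0 ≤ η₁ * p.2 ^ n := mul_nonneg h1 (hev.pow_nonneg _)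
      have h9 : 0 ≤ η₂ * (p.1 ^ 2 + p.2 ^ 2) := by positivity
      have h10 : |p.1| ≤ ‖p‖ := norm_fst_le p
      have h11 : |p.2| ≤ ‖p‖ := norm_snd_le p
      have h12 : b₀ * p.1 ≤ ‖p‖ := by
        calc b₀ * p.1 ≤ |b₀ * p.1| := le_abs_self _
          _ = |b₀| * |p.1| := abs_mul _ _
          _ ≤ 1 * ‖p‖ := mul_le_mul (by linarith) h10 (abs_nonneg _) (by norm_num)
          _ = ‖p‖ := one_mul _
      have h13 : b₁ * p.2 ≤ ‖p‖ := by
        calc b₁ * p.2 ≤ |b₁ * p.2| := le_abs_self _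
          _ = |b₁| * |p.2| := abs_mul _ _
          _ ≤ 1 * ‖p‖ := mul_le_mul (by linarith) h11 (abs_nonneg _) (by norm_num)
          _ = ‖p‖ := one_mul _
      linarith
  · intro z hz
    refine ⟨?_, ?_, ?_, ?_, ?_⟩
    · intro x hx
      exact F1 z hz (x, z.2 + ρ' z) ⟨hx, rfl⟩
    · intro x hx
      exact F2 z hz (x, z.2 - ρ' z) ⟨hx, rfl⟩
    · intro y hy h
      exact (F3 z hz (z.1 + ρ z, y) ⟨rfl, hy⟩).resolve_left (fun h' => h' h)
    · intro y hy h
      exact (F4 z hz (z.1 - ρ z, y) ⟨rfl, hy⟩).resolve_left (fun h' => h' h)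
    · intro p hp h h'
      exact (F5 z hz p hp).resolve_left (by
        rintro (h'' | h'')
        · exact h'' h
        · exact h'' h')

end UB

open UB IB

/-- The upper bound for the number of zeros of a nonnegative plane polynomial of degree at most
`2 k` with positive definite leading form. -/
theorem upper_affine (k : ℕ) (hk : 3 ≤ k) (P : MvPolynomial (Fin 2) ℝ)
    (hP : P.totalDegree ≤ 2 * k) (hpos : ∀ v, 0 ≤ eval v P)
    (hlead : ∀ v, v ≠ 0 → 0 < eval v (homogeneousComponent (2 * k) P))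
    (hfin : {v : Fin 2 → ℝ | eval v P = 0}.Finite) :
    2 * {v : Fin 2 → ℝ | eval v P = 0}.ncard + 2 ≤ 3 * k ^ 2 + k := by
  classical
  have hvec : ∀ v : Fin 2 → ℝ, ![v 0, v 1] = v := by
    intro v
    funext i
    fin_cases i <;> rfl
  set T : Finset (ℝ × ℝ) := hfin.toFinset.image fun v => (v 0, v 1) with hTd
  have hinj : Function.Injective fun v : Fin 2 → ℝ => ((v 0, v 1) : ℝ × ℝ) := by
    intro v w h
    simp only [Prod.mk.injEq] at h
    rw [← hvec v, ← hvec w, h.1, h.2]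
  have hT : ∀ p, p ∈ T ↔ ev P p = 0 := by
    intro p
    rw [hTd, Finset.mem_image]
    constructor
    · rintro ⟨v, hv, rfl⟩
      have : eval v P = 0 := by simpa using hv
      show eval ![v 0, v 1] P = 0
      rw [hvec, this]
    · intro h
      have h' : eval ![p.1, p.2] P = 0 := h
      exact ⟨![p.1, p.2], by simpa using h', rfl⟩
  have hcard : T.card = {v : Fin 2 → ℝ | eval v P = 0}.ncard := by
    rw [hTd, Finset.card_image_of_injective _ hinj, Set.ncard_eq_toFinset_card _ hfin]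
  have hpos' : ∀ p, 0 ≤ ev P p := fun p => hpos _
  obtain ⟨ρ, ρ', hρ, hdisj⟩ := box_data (2 * k) P hP hlead hpos' T hT
  obtain ⟨c₁, c₂, hc, f, hfdeg, hcop, hess, hout, hbox⟩ :=
    exists_good (2 * k) (by omega) (even_two_mul k) P hP hlead hpos' T hT ρ ρ' hρ
  obtain ⟨-, c, hc1, hc2, S, hS, hsum⟩ := index_ineq k hk f hfdeg hcop hess c₁ c₂ hc
  have hJ : ∀ p : ℝ × ℝ, ev (pderiv 0 f) p = 0 → ev (pderiv 1 f) p = 0 →
      ev (pderiv 0 (pderiv 0 f) * pderiv 1 (pderiv 1 f) -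
        pderiv 1 (pderiv 0 f) * pderiv 0 (pderiv 1 f)) p ≠ 0 := fun p h0 h1 =>
    real_hess p hess h0 h1
  have hSu : S = T.biUnion fun z => S.filter fun p => p ∈ Bx z (ρ z) (ρ' z) := by
    ext p
    simp only [Finset.mem_biUnion, Finset.mem_filter]
    constructor
    · intro hp
      by_contra hno
      push Not at hno
      have h1 := hout p fun z hz hpz => hno z hz hp hpz
      have h2 := ((hS p).1 hp).2.2
      have h3 : ev f p < c := h2
      linarith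
    · rintro ⟨z, hz, hp, -⟩
      exact hp
  have hd : (T : Set (ℝ × ℝ)).PairwiseDisjoint
      fun z => S.filter fun p => p ∈ Bx z (ρ z) (ρ' z) := by
    intro z hz w hw hne
    rw [Function.onFun, Finset.disjoint_left]
    intro p hp hp'
    exact Set.disjoint_left.1 (hdisj hz hw hne) (Finset.mem_filter.1 hp).2
      (Finset.mem_filter.1 hp').2
  have hone : ∀ z ∈ T, ∑ p ∈ S.filter (fun p => p ∈ Bx z (ρ z) (ρ' z)), (SignType.sign
      (eval ![p.1, p.2] (pderiv 0 (pderiv 0 f) * pderiv 1 (pderiv 1 f) -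
          pderiv 1 (pderiv 0 f) * pderiv 0 (pderiv 1 f))) : ℤ) = 1 := by
    intro z hz
    obtain ⟨g1, g2, g3, g4, g5⟩ := hbox z hz
    have hr := (hρ z hz).1
    have hr' := (hρ z hz).2.1
    refine index_box (pderiv 0 f) (pderiv 1 f) (z.1 - ρ z) (z.1 + ρ z) (z.2 - ρ' z) (z.2 + ρ' z)
      (by linarith) (by linarith) g1 g2 g3 g4 _ ?_ ?_
    · intro p
      rw [Finset.mem_filter, hS]
      constructor
      · rintro ⟨⟨h0, h1, -⟩, h2⟩
        exact ⟨h2.1, h2.2, h0, h1⟩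
      · rintro ⟨h2, h3, h0, h1⟩
        have h4 : p ∈ Bx z (ρ z) (ρ' z) := ⟨h2, h3⟩
        exact ⟨⟨h0, h1, (g5 p h4 h0 h1).trans hc1⟩, h4⟩
    · intro p hp
      rw [Finset.mem_filter, hS] at hp
      exact hJ p hp.1.1 hp.1.2.1
  have htot : ∑ p ∈ S, (SignType.sign
      (eval ![p.1, p.2] (pderiv 0 (pderiv 0 f) * pderiv 1 (pderiv 1 f) -
          pderiv 1 (pderiv 0 f) * pderiv 0 (pderiv 1 f))) : ℤ) = T.card := by
    rw [hSu, Finset.sum_biUnion hd, Finset.sum_congr rfl hone]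
    simp
  rw [htot] at hsum
  rw [← hcard]
  zify
  linarith

end Pool.Agent.MP9d
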