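import Pool.Agent.Work.MP_9d788c_ag.Lower
import Pool.Agent.Work.MP_9d788c_ag.Upper
import Pool.Agent.Work.MP_9d788c_ag.CountIff

/-!
The asymptotics of the number of zeros.
-/

namespace Pool.Agent.MP9d

open Set Filter Topology MvPolynomial

/-- numbers of real projective zeros of nonnegative ternary forms of degree `n` -/
def PCount (n : ℕ) : Set ℕ := {N | ∃ p : MvPolynomial (Fin 3) ℝ, p.IsHomogeneous n ∧
  (∀ v, 0 ≤ eval v p) ∧ {v : Projectivization ℝ (Fin 3 → ℝ) | eval v.rep p = 0}.Finite ∧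
  {v : Projectivization ℝ (Fin 3 → ℝ) | eval v.rep p = 0}.ncard = N}

theorem pcount_lower (I : ℕ) (hI : 1 ≤ I) (Q : ℕ) (K : ℕ → ℕ) (k : ℕ)
    (hK : ∀ q < Q, ∀ l < K q, (l : ℤ) + 5 + (off (2 * I + 1) q + 2 * (2 * I + 1)) ≤ (2 * k : ℕ)) :
    (∑ q ∈ Finset.range Q, K q) * (3 * I) ∈ PCount (2 * k) :=
  (count_iff (2 * k) _ (even_two_mul k)).2 (lower_affine I hI Q K (2 * k) (even_two_mul k) hK)

theorem pcount_zero (k : ℕ) : 0 ∈ PCount (2 * k) := by
  have := pcount_lower 1 le_rfl 0 (fun _ => 0) k (by intro q hq; omega)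
  simpa using this

theorem pcount_upper (k : ℕ) (hk : 3 ≤ k) (N : ℕ) (hN : N ∈ PCount (2 * k)) :
    2 * N + 2 ≤ 3 * k ^ 2 + k := by
  obtain ⟨P, h1, h2, h3, h4, h5⟩ := (count_iff (2 * k) N (even_two_mul k)).1 hN
  rw [← h5]
  exact upper_affine k hk P h1 h2 h3 h4

theorem pcount_mono (k : ℕ) : PCount (2 * k) ⊆ PCount (2 * (k + 1)) := by
  rintro N ⟨p, h1, h2, h4, h5⟩
  set S : MvPolynomial (Fin 3) ℝ := ∑ i, X i ^ 2 with hS
  have hSe : ∀ v : Fin 3 → ℝ, eval v S = ∑ i, v i ^ 2 := fun v => by simp [hS]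
  have hSnn : ∀ v : Fin 3 → ℝ, 0 ≤ eval v S := fun v => by
    rw [hSe]; exact Finset.sum_nonneg fun i _ => sq_nonneg _
  have hSpos : ∀ v : Fin 3 → ℝ, v ≠ 0 → eval v S ≠ 0 := fun v hv h => by
    rw [hSe, Finset.sum_eq_zero_iff_of_nonneg (fun i _ => sq_nonneg _)] at h
    apply hv
    funext i
    exact pow_eq_zero_iff (two_ne_zero) |>.1 (h i (Finset.mem_univ i))
  have hzero : {v : Projectivization ℝ (Fin 3 → ℝ) | eval v.rep (p * S) = 0} =
      {v : Projectivization ℝ (Fin 3 → ℝ) | eval v.rep p = 0} := by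
    ext v
    constructor
    · intro h
      have h' : eval v.rep p * eval v.rep S = 0 := by rw [← map_mul]; exact h
      rcases mul_eq_zero.1 h' with h | h
      · exact h
      · exact absurd h (hSpos _ v.rep_nonzero)
    · intro h
      show eval v.rep (p * S) = 0
      have h' : eval v.rep p = 0 := h
      rw [map_mul, h', zero_mul]
  have hSh : S.IsHomogeneous 2 := by
    rw [hS]
    exact IsHomogeneous.sum _ _ _ fun i _ => by
      have := (isHomogeneous_X ℝ i).pow 2
      simpa using this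
  refine ⟨p * S, by have := h1.mul hSh; rwa [mul_add, mul_one] , fun v => ?_, ?_, ?_⟩
  · rw [map_mul]; exact mul_nonneg (h2 v) (hSnn v)
  · rw [hzero]; exact h4
  · rw [hzero]; exact h5

theorem pcount_bdd (k : ℕ) : BddAbove (PCount (2 * k)) := by
  have hmono : ∀ j, PCount (2 * k) ⊆ PCount (2 * (k + j)) := by
    intro j
    induction j with
    | zero => simp
    | succ j ih => exact ih.trans (pcount_mono (k + j))
  refine ⟨3 * (k + 3) ^ 2 + (k + 3), fun N hN => ?_⟩
  have := pcount_upper (k + 3) (by omega) N (hmono 3 hN)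
  omega

/-- the lower bound in numbers -/
theorem pcount_explicit (I : ℕ) (hI : 1 ≤ I) (k : ℕ) (hk : 4 * I + 6 ≤ 2 * k) :
    ∃ N ∈ PCount (2 * k), (3 * I : ℝ) * (((2 * k : ℝ) - (4 * I + 6)) ^ 2 / (4 * I + 4) -
      ((2 * k : ℝ) - (4 * I + 6))) / 2 ≤ N := by
  set c : ℕ := 4 * I + 4 with hc
  set N' : ℕ := 2 * k - (4 * I + 6) with hN'
  set Q : ℕ := N' / c with hQ
  refine ⟨(∑ q ∈ Finset.range Q, (N' - c * q)) * (3 * I),
    pcount_lower I hI Q (fun q => N' - c * q) k ?_, ?_⟩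
  · intro q hq l hl
    have h1 : l + c * q < N' := by omega
    have h2 : l + c * q + (4 * I + 6) < 2 * k := by omega
    have e : off (2 * I + 1) (q : ℤ) = ((c * q : ℕ) : ℤ) := by
      simp only [off, hc]; push_cast; ring
    rw [e]
    push_cast at h2 ⊢
    have h3 : (l : ℤ) + c * q + (4 * I + 6) < 2 * k := by exact_mod_cast h2
    linarith
  · have hcR : (0 : ℝ) < c := by positivity
    have hN'R : (N' : ℝ) = (2 * k : ℝ) - (4 * I + 6) := by
      rw [hN', Nat.cast_sub hk]; push_cast; ring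
    have hQle : c * Q ≤ N' := Nat.mul_div_le N' c
    have hQgt : N' < c * Q + c := by
      have := Nat.lt_mul_div_succ N' (show 0 < c by omega)
      rw [mul_add, mul_one] at this
      exact this
    have hQleR : (c : ℝ) * Q ≤ N' := by exact_mod_cast hQle
    have hQgtR : (N' : ℝ) < c * Q + c := by exact_mod_cast hQgt
    have hsum : (Q : ℝ) * N' - c * (Q * Q) / 2 ≤ ((∑ q ∈ Finset.range Q, (N' - c * q) : ℕ) : ℝ) := by
      have h1 : ((∑ q ∈ Finset.range Q, (N' - c * q) : ℕ) : ℝ) =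
          ∑ q ∈ Finset.range Q, ((N' : ℝ) - c * q) := by
        rw [Nat.cast_sum]
        refine Finset.sum_congr rfl fun q hq => ?_
        rw [Finset.mem_range] at hq
        have : c * q ≤ N' := (Nat.mul_le_mul_left c hq.le).trans hQle
        rw [Nat.cast_sub this]; push_cast; ring
      have h2 : ∀ M : ℕ, ∑ q ∈ Finset.range M, ((N' : ℝ) - c * q) =
          M * N' - c * (M * (M - 1)) / 2 := by
        intro M
        induction M with
        | zero => simp
        | succ M ih => rw [Finset.sum_range_succ, ih]; push_cast; ring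
      rw [h1, h2]
      have : 0 ≤ (c : ℝ) * Q := by positivity
      nlinarith
    have hmain : ((N' : ℝ) ^ 2 / c - N') / 2 ≤ (Q : ℝ) * N' - c * (Q * Q) / 2 := by
      have h3 : (Q : ℝ) * N' / 2 ≤ (Q : ℝ) * N' - c * (Q * Q) / 2 := by
        have : (Q : ℝ) * (c * Q) ≤ Q * N' := mul_le_mul_of_nonneg_left hQleR (by positivity)
        nlinarith
      have h4 : (N' : ℝ) ^ 2 / c - N' ≤ Q * N' := by
        rw [sub_le_iff_le_add, div_le_iff₀ hcR]
        have : (N' : ℝ) * N' ≤ N' * (c * Q + c) := mul_le_mul_of_nonneg_left hQgtR.le (by positivity)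
        nlinarith
      linarith
    have hIR : (0 : ℝ) ≤ 3 * I := by positivity
    have h5 := mul_le_mul_of_nonneg_left (hmain.trans hsum) hIR
    rw [← hN'R]
    have hc' : (c : ℝ) = 4 * I + 4 := by rw [hc]; push_cast; ring
    rw [hc'] at h5
    push_cast at h5 ⊢
    linarith

/-- the limit -/
theorem limit_aux (B : ℕ → ℕ) (hB : ∀ k, ∀ N ∈ PCount (2 * k), N ≤ B k)
    (hB' : ∀ k, B k ∈ PCount (2 * k)) :
    Tendsto (fun k : ℕ => (B k : ℝ) / (2 * k : ℝ) ^ 2) atTop (𝓝 (3 / 8)) := by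
  rw [tendsto_order]
  constructor
  · intro x hx
    -- choose I
    obtain ⟨I, hI1, hI⟩ : ∃ I : ℕ, 1 ≤ I ∧ x < 3 * I / (8 * (I + 1)) := by
      have hlim : Tendsto (fun I : ℕ => 3 / 8 - 3 / 8 * (1 / ((I : ℝ) + 1))) atTop
          (𝓝 (3 / 8 - 3 / 8 * 0)) :=
        (tendsto_one_div_add_atTop_nhds_zero_nat.const_mul _).const_sub _
      rw [mul_zero, sub_zero] at hlim
      obtain ⟨I, h1, h2⟩ := ((hlim.eventually (lt_mem_nhds hx)).and (eventually_ge_atTop 1)).exists
      refine ⟨I, h2, h1.trans_le (le_of_eq ?_)⟩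
      have : (I : ℝ) + 1 ≠ 0 := by positivity
      field_simp
      ring
    -- the limit of the lower bound
    set D : ℝ := 4 * I + 6 with hD
    have hlim : Tendsto (fun k : ℕ => (3 * I : ℝ) * ((1 - D * (1 / (2 * (k : ℝ)))) ^ 2 / (4 * I + 4) -
        (1 / (2 * (k : ℝ)) - D * (1 / (2 * (k : ℝ))) * (1 / (2 * (k : ℝ))))) / 2) atTop
        (𝓝 ((3 * I : ℝ) * ((1 - D * 0) ^ 2 / (4 * I + 4) - (0 - D * 0 * 0)) / 2)) := by
      have h0 : Tendsto (fun k : ℕ => 1 / (2 * (k : ℝ))) atTop (𝓝 0) := by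
        have h1 : Tendsto (fun k : ℕ => (2 * (k : ℝ))) atTop atTop :=
          tendsto_natCast_atTop_atTop.const_mul_atTop (by norm_num)
        refine h1.inv_tendsto_atTop.congr fun k => ?_
        simp only [Pi.inv_apply, one_div]
      have h1 := h0.const_mul D
      refine Tendsto.div_const (Tendsto.const_mul _ (Tendsto.sub ?_ (Tendsto.sub h0 (h1.mul h0)))) 2
      exact ((h1.const_sub 1).pow 2).div_const _
    have hlim2 : (3 * I : ℝ) * ((1 - D * 0) ^ 2 / (4 * I + 4) - (0 - D * 0 * 0)) / 2 =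
        3 * I / (8 * (I + 1)) := by
      have : (I : ℝ) + 1 ≠ 0 := by positivity
      have : (4 : ℝ) * I + 4 ≠ 0 := by positivity
      field_simp
      ring
    rw [hlim2] at hlim
    filter_upwards [hlim.eventually (lt_mem_nhds hI), eventually_ge_atTop (2 * I + 3)] with k hk1 hk2
    obtain ⟨N, hN, hNle⟩ := pcount_explicit I hI1 k (by omega)
    have h1 : (N : ℝ) ≤ B k := by exact_mod_cast hB k N hN
    have hk0 : (0 : ℝ) < k := by
      have : 0 < k := by omega
      exact_mod_cast this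
    refine hk1.trans_le ?_
    rw [le_div_iff₀ (by positivity)]
    refine le_trans (le_of_eq ?_) (hNle.trans h1)
    rw [← hD]
    have : (4 : ℝ) * I + 4 ≠ 0 := by positivity
    field_simp
  · intro x hx
    have hlim : Tendsto (fun k : ℕ => 3 / 8 + 1 / 8 * (1 / (k : ℝ))) atTop
        (𝓝 (3 / 8 + 1 / 8 * 0)) :=
      (tendsto_one_div_atTop_nhds_zero_nat.const_mul _).const_add _
    rw [mul_zero, add_zero] at hlim
    filter_upwards [hlim.eventually (gt_mem_nhds hx), eventually_ge_atTop 3] with k hk1 hk2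
    refine lt_of_le_of_lt ?_ hk1
    have h1 := pcount_upper k hk2 (B k) (hB' k)
    have h1R : 2 * (B k : ℝ) + 2 ≤ 3 * k ^ 2 + k := by exact_mod_cast h1
    have hk0 : (0 : ℝ) < k := by
      have : 0 < k := by omega
      exact_mod_cast this
    rw [div_le_iff₀ (by positivity)]
    have e : (3 / 8 + 1 / 8 * (1 / (k : ℝ))) * (2 * k) ^ 2 = (3 * k ^ 2 + k) / 2 := by
      field_simp
      ring
    rw [e]
    linarith

end Pool.Agent.MP9d
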