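import Mathlib

set_option autoImplicit false

open Filter Topology

namespace Pool.Agent.MP9d

namespace KeyLocal

/-- One step to the left along the curve `q = 0`. -/
theorem local_step {P Px Py q : ℝ × ℝ → ℝ}
    (hP : ∀ z, HasFDerivAt P (Px z • ContinuousLinearMap.fst ℝ ℝ ℝ
      + Py z • ContinuousLinearMap.snd ℝ ℝ ℝ) z)
    (cPx : Continuous Px) (cq : Continuous q)
    {t y a b ε r' : ℝ} (ht : 0 < t) (hε : 0 < ε)
    (hq : HasFDerivAt q (a • ContinuousLinearMap.fst ℝ ℝ ℝ
      + b • ContinuousLinearMap.snd ℝ ℝ ℝ) (t, y))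
    (hb : b ≠ 0) (hq0 : q (t, y) = 0) (hPy : Py (t, y) = 0) (hy : |y| < r')
    (hPx : (∀ z, q z = 0 → Px z = 0) ∨ Px (t, y) < 0) :
    ∃ s, 0 ≤ s ∧ s < t ∧ ∃ y', |y'| ≤ r' ∧ q (s, y') = 0 ∧ Px (s, y') ≤ 0 ∧
      P (t, y) - ε * (t - s) ≤ P (s, y') := by
  have hPx0 : Px (t, y) ≤ 0 := by
    rcases hPx with h | h
    · rw [h _ hq0]
    · exact h.le
  set C : ℝ := (|a| + 1) / |b| with hC
  have hbpos : 0 < |b| := abs_pos.2 hb
  have hC0 : 0 < C := by positivity
  set M : ℝ := max 1 C with hM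
  have hM1 : 1 ≤ M := le_max_left _ _
  have hMC : C ≤ M := le_max_right _ _
  have hM0 : 0 < M := by linarith
  have hqε := hq.isLittleO.def (c := 1 / (2 * M)) (by positivity)
  have hPε := (hP (t, y)).isLittleO.def (c := ε / M) (by positivity)
  have hPx' : ∀ᶠ z in 𝓝 (t, y), q z = 0 → Px z ≤ 0 := by
    rcases hPx with h | h
    · exact Eventually.of_forall (fun z hz => (h z hz).le)
    · filter_upwards [cPx.continuousAt.eventually (gt_mem_nhds h)] with z hz _
      exact hz.le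
  have hy' : ∀ᶠ z : ℝ × ℝ in 𝓝 (t, y), |z.2| ≤ r' := by
    have : Continuous (fun z : ℝ × ℝ => |z.2|) := by fun_prop
    filter_upwards [this.continuousAt.eventually (gt_mem_nhds hy)] with z hz
    exact le_of_lt hz
  obtain ⟨δ, hδ, hball⟩ := Metric.eventually_nhds_iff.1
    (hqε.and (hPε.and (hPx'.and hy')))
  set h : ℝ := min t (δ / (2 * M)) with hh
  have hh0 : 0 < h := lt_min ht (by positivity)
  have hht : h ≤ t := min_le_left _ _
  have hhδ : M * h < δ := by
    have : h ≤ δ / (2 * M) := min_le_right _ _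
    calc M * h ≤ M * (δ / (2 * M)) := by gcongr
      _ = δ / 2 := by field_simp
      _ < δ := by linarith
  have hnorm : ∀ w, |w| ≤ C * h → ‖((t - h, y + w) : ℝ × ℝ) - (t, y)‖ ≤ M * h := by
    intro w hw
    have : ((t - h, y + w) : ℝ × ℝ) - (t, y) = (-h, w) := by
      ext <;> simp
    rw [this, Prod.norm_def]
    apply max_le
    · simp only [norm_neg, Real.norm_eq_abs, abs_of_pos hh0]
      nlinarith
    · simp only [Real.norm_eq_abs]
      exact hw.trans (by gcongr)
  have hdist : ∀ w, |w| ≤ C * h → dist ((t - h, y + w) : ℝ × ℝ) (t, y) < δ := by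
    intro w hw
    rw [dist_eq_norm]
    exact (hnorm w hw).trans_lt hhδ
  have hqest : ∀ w, |w| ≤ C * h → |q (t - h, y + w) - (b * w - a * h)| ≤ h / 2 := by
    intro w hw
    have h1 := (hball (hdist w hw)).1
    have h2 : ((t - h, y + w) : ℝ × ℝ) - (t, y) = (-h, w) := by ext <;> simp
    rw [hq0, h2] at h1
    simp only [sub_zero, add_apply, smul_apply,
      ContinuousLinearMap.coe_fst', ContinuousLinearMap.coe_snd', smul_eq_mul,
      Real.norm_eq_abs] at h1
    have h3 : ‖((-h, w) : ℝ × ℝ)‖ ≤ M * h := by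
      rw [← h2]; exact hnorm w hw
    have h4 : 1 / (2 * M) * ‖((-h, w) : ℝ × ℝ)‖ ≤ h / 2 := by
      calc 1 / (2 * M) * ‖((-h, w) : ℝ × ℝ)‖ ≤ 1 / (2 * M) * (M * h) := by gcongr
        _ = h / 2 := by field_simp
    have h5 : q (t - h, y + w) - (b * w - a * h) = q (t - h, y + w) - (a * -h + b * w) := by ring
    rw [h5]
    exact h1.trans h4
  have hCb : C * |b| = |a| + 1 := by rw [hC]; field_simp
  have hah : -(|a| * h) ≤ a * h ∧ a * h ≤ |a| * h := by
    constructor
    · nlinarith [neg_abs_le a]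
    · nlinarith [le_abs_self a]
  -- the root, by the intermediate value theorem
  have hroot : ∃ w, |w| ≤ C * h ∧ q (t - h, y + w) = 0 := by
    have hcont : Continuous (fun w : ℝ => q (t - h, y + w)) := by fun_prop
    have hCh : 0 ≤ C * h := by positivity
    have e1 := abs_le.1 (hqest (C * h) (by rw [abs_of_nonneg hCh]))
    have e2 := abs_le.1 (hqest (-(C * h)) (by rw [abs_neg, abs_of_nonneg hCh]))
    rcases lt_or_gt_of_ne hb with hb' | hb'
    · have hab : |b| = -b := abs_of_neg hb'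
      rw [hab] at hCb
      have e3 : b * (C * h) = -(|a| + 1) * h := by linear_combination -h * hCb
      have h1 : q (t - h, y + C * h) ≤ 0 := by nlinarith [e1.2]
      have h2 : 0 ≤ q (t - h, y + -(C * h)) := by nlinarith [e2.1]
      obtain ⟨w, hw, hw0⟩ := intermediate_value_Icc' (by linarith : -(C * h) ≤ C * h)
        hcont.continuousOn ⟨h1, h2⟩
      exact ⟨w, abs_le.2 hw, hw0⟩
    · have hab : |b| = b := abs_of_pos hb'
      rw [hab] at hCb
      have e3 : b * (C * h) = (|a| + 1) * h := by linear_combination h * hCb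
      have h1 : 0 ≤ q (t - h, y + C * h) := by nlinarith [e1.1]
      have h2 : q (t - h, y + -(C * h)) ≤ 0 := by nlinarith [e2.2]
      obtain ⟨w, hw, hw0⟩ := intermediate_value_Icc (by linarith : -(C * h) ≤ C * h)
        hcont.continuousOn ⟨h2, h1⟩
      exact ⟨w, abs_le.2 hw, hw0⟩
  obtain ⟨w, hw, hw0⟩ := hroot
  have hz := hball (hdist w hw)
  refine ⟨t - h, by linarith, by linarith, y + w, hz.2.2.2, hw0, hz.2.2.1 hw0, ?_⟩
  have h1 := hz.2.1
  have h2 : ((t - h, y + w) : ℝ × ℝ) - (t, y) = (-h, w) := by ext <;> simp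
  rw [h2] at h1
  simp only [add_apply, smul_apply,
    ContinuousLinearMap.coe_fst', ContinuousLinearMap.coe_snd', smul_eq_mul, hPy, zero_mul,
    add_zero, Real.norm_eq_abs] at h1
  have h3 : ‖((-h, w) : ℝ × ℝ)‖ ≤ M * h := by
    rw [← h2]; exact hnorm w hw
  have h4 : ε / M * ‖((-h, w) : ℝ × ℝ)‖ ≤ ε * h := by
    calc ε / M * ‖((-h, w) : ℝ × ℝ)‖ ≤ ε / M * (M * h) := by gcongr
      _ = ε * h := by field_simp
  have h5 := (abs_le.1 (h1.trans h4)).1
  have h6 : 0 ≤ Px (t, y) * -h := by nlinarith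
  have h7 : t - (t - h) = h := by ring
  rw [h7]
  linarith

/-- The monotonicity along the curve `q = 0`. -/
theorem curve_pos {P Px Py q qy : ℝ × ℝ → ℝ}
    (hP : ∀ z, HasFDerivAt P (Px z • ContinuousLinearMap.fst ℝ ℝ ℝ
      + Py z • ContinuousLinearMap.snd ℝ ℝ ℝ) z)
    (cPx : Continuous Px) (cq : Continuous q)
    (hq : ∀ z : ℝ × ℝ, ∃ a : ℝ, HasFDerivAt q (a • ContinuousLinearMap.fst ℝ ℝ ℝ
      + qy z • ContinuousLinearMap.snd ℝ ℝ ℝ) z)
    {x0 y0 r' : ℝ} (hx0 : 0 < x0)
    (h1 : ∀ x y, 0 < x → x ≤ x0 → |y| ≤ r' → q (x, y) = 0 → qy (x, y) ≠ 0)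
    (h2 : (∀ z, q z = 0 → Px z = 0) ∨
      (∀ x y, 0 < x → x ≤ x0 → |y| ≤ r' → q (x, y) = 0 → Px (x, y) ≠ 0))
    (h3 : ∀ z, q z = 0 → Py z = 0)
    (h4 : ∀ x y, 0 ≤ x → x ≤ x0 → |y| = r' → Py (x, y) ≠ 0)
    (h5 : ∀ y, |y| ≤ r' → y ≠ 0 → Py (0, y) ≠ 0)
    (h6 : P (0, 0) = 0) (hv : 0 < P (x0, y0)) (hy0 : |y0| ≤ r') (hq0 : q (x0, y0) = 0) :
    0 < Px (x0, y0) := by
  by_contra hcon
  push Not at hcon
  set v := P (x0, y0) with hvdef
  set ε := v / (2 * x0) with hε
  have hε0 : 0 < ε := by positivity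
  have cP : Continuous P := continuous_iff_continuousAt.2 (fun z => (hP z).continuousAt)
  set S : Set (ℝ × ℝ) := (Set.Icc 0 x0 ×ˢ Set.Icc (-r') r') ∩
    {z | q z = 0 ∧ Px z ≤ 0 ∧ v - ε * (x0 - z.1) ≤ P z} with hS
  have hScomp : IsCompact S := by
    refine (isCompact_Icc.prod isCompact_Icc).inter_right ?_
    refine (isClosed_eq cq continuous_const).inter ((isClosed_le cPx continuous_const).inter ?_)
    exact isClosed_le (by fun_prop) cP
  have hTcomp : IsCompact (Prod.fst '' S) := hScomp.image continuous_fst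
  have hx0S : (x0, y0) ∈ S := by
    refine ⟨⟨⟨hx0.le, le_rfl⟩, abs_le.1 hy0⟩, hq0, hcon, ?_⟩
    show v - ε * (x0 - x0) ≤ v
    simp
  have hTne : (Prod.fst '' S).Nonempty := ⟨x0, (x0, y0), hx0S, rfl⟩
  have hmem := hTcomp.sInf_mem hTne
  obtain ⟨⟨t, y⟩, hz, htinf⟩ := hmem
  obtain ⟨⟨⟨ht0, htx⟩, hy1, hy2⟩, hqz, hPxz, hPz⟩ := hz
  simp only at ht0 htx hy1 hy2 hPz htinf
  have hyr : |y| ≤ r' := abs_le.2 ⟨hy1, hy2⟩
  have hPyz := h3 _ hqz
  rcases ht0.eq_or_lt with h0 | h0
  · -- the infimum is `0`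
    subst h0
    have hy : y = 0 := by
      by_contra hne
      exact h5 y hyr hne hPyz
    subst hy
    rw [h6] at hPz
    have : ε * (x0 - 0) = v / 2 := by rw [hε]; field_simp; ring
    linarith
  · have hyr' : |y| < r' := lt_of_le_of_ne hyr (fun he => h4 t y h0.le htx he hPyz)
    obtain ⟨a, ha⟩ := hq (t, y)
    have hPx' : (∀ z, q z = 0 → Px z = 0) ∨ Px (t, y) < 0 := by
      rcases h2 with h | h
      · exact Or.inl h
      · exact Or.inr (lt_of_le_of_ne hPxz (h t y h0 htx hyr hqz))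
    obtain ⟨s, hs0, hst, y', hy', hqs, hPxs, hPs⟩ := local_step hP cPx cq h0 hε0 ha
      (h1 t y h0 htx hyr hqz) hqz hPyz hyr' hPx'
    have hsS : s ∈ Prod.fst '' S := by
      refine ⟨(s, y'), ⟨⟨⟨hs0, by linarith⟩, abs_le.1 hy'⟩, hqs, hPxs, ?_⟩, rfl⟩
      simp only
      linarith
    have := csInf_le hTcomp.bddBelow hsS
    rw [← htinf] at this
    linarith

section algebra

open Polynomial

theorem bezout_irred {q R : Polynomial (Polynomial ℝ)} (hq : Irreducible q)
    (hlc : IsUnit q.leadingCoeff) (hR : ¬ q ∣ R) :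
    ∃ (u v : Polynomial (Polynomial ℝ)) (Δ : Polynomial ℝ), Δ ≠ 0 ∧ q * u + R * v = C Δ := by
  obtain ⟨c, hc⟩ := hlc
  set q' : Polynomial (Polynomial ℝ) := C (↑c⁻¹ : Polynomial ℝ) * q with hq'
  have hmon : q'.Monic := by
    apply Polynomial.monic_C_mul_of_mul_leadingCoeff_eq_one
    rw [← hc]; simp
  have hunit : IsUnit (C (↑c⁻¹ : Polynomial ℝ) : Polynomial (Polynomial ℝ)) :=
    (Polynomial.isUnit_C).2 (c⁻¹).isUnit
  have hassoc : Associated q q' := by
    refine ⟨hunit.unit, ?_⟩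
    rw [hq', mul_comm]; rfl
  have hirr : Irreducible q' := hassoc.irreducible hq
  have hndvd : ¬ q' ∣ R := fun h => hR (hassoc.dvd.trans h)
  have hdeg : q'.natDegree ≠ 0 := by
    intro h
    have := Polynomial.eq_one_of_monic_natDegree_zero hmon h
    exact hirr.not_isUnit (this ▸ isUnit_one)
  let K := FractionRing (Polynomial ℝ)
  have hinj : Function.Injective (algebraMap (Polynomial ℝ) K) := IsFractionRing.injective _ _
  have hirrK : Irreducible (q'.map (algebraMap (Polynomial ℝ) K)) :=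
    (Polynomial.Monic.irreducible_iff_irreducible_map_fraction_map (K := K) hmon).1 hirr
  have hndK : ¬ q'.map (algebraMap (Polynomial ℝ) K) ∣ R.map (algebraMap (Polynomial ℝ) K) := by
    rw [Polynomial.map_dvd_map _ hinj hmon]; exact hndvd
  have hcop : IsCoprime (q'.map (algebraMap (Polynomial ℝ) K))
      (R.map (algebraMap (Polynomial ℝ) K)) := (hirrK.coprime_iff_not_dvd).2 hndK
  have hres := Polynomial.resultant_ne_zero _ _ hcop
  rw [Polynomial.natDegree_map_eq_of_injective hinj, Polynomial.natDegree_map_eq_of_injective hinj,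
    Polynomial.resultant_map_map] at hres
  have hres' : Polynomial.resultant q' R ≠ 0 := by
    intro h
    rw [h] at hres
    simp at hres
  obtain ⟨u, v, _, _, huv⟩ := Polynomial.exists_mul_add_mul_eq_C_resultant q' R le_rfl le_rfl
    (Or.inl hdeg)
  refine ⟨C (↑c⁻¹ : Polynomial ℝ) * u, v, _, hres', ?_⟩
  rw [← huv, hq']; ring

/-- Structure of the zero set of a bivariate polynomial with unit leading coefficient. -/
theorem exists_factor (R : Polynomial (Polynomial ℝ)) (A : Polynomial (Polynomial ℝ)) :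
    A ≠ 0 → IsUnit A.leadingCoeff → ∃ Δ : Polynomial ℝ, Δ ≠ 0 ∧ ∀ x y : ℝ, A.evalEval x y = 0 →
      ∃ q : Polynomial (Polynomial ℝ), q ∣ A ∧ q.evalEval x y = 0 ∧
        (∀ x' y', Δ.eval x' ≠ 0 → q.evalEval x' y' = 0 → (derivative q).evalEval x' y' ≠ 0) ∧
        (q ∣ R ∨ ∀ x' y', Δ.eval x' ≠ 0 → q.evalEval x' y' = 0 → R.evalEval x' y' ≠ 0) := by
  induction A using WfDvdMonoid.induction_on_irreducible with
  | zero => intro h; exact absurd rfl h
  | unit u hu =>
    intro _ _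
    refine ⟨1, one_ne_zero, fun x y h => ?_⟩
    exfalso
    have := hu.map (evalEvalRingHom x y)
    rw [coe_evalEvalRingHom, h] at this
    exact not_isUnit_zero this
  | mul a i ha hi ih =>
    intro _ hlc
    rw [leadingCoeff_mul] at hlc
    have hlci : IsUnit i.leadingCoeff := isUnit_of_mul_isUnit_left hlc
    have hlca : IsUnit a.leadingCoeff := isUnit_of_mul_isUnit_right hlc
    obtain ⟨Δa, hΔa, hA⟩ := ih ha hlca
    -- the derivative of `i`
    have hdeg : i.natDegree ≠ 0 := by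
      intro h
      rw [Polynomial.natDegree_eq_zero] at h
      obtain ⟨c, rfl⟩ := h
      rw [leadingCoeff_C] at hlci
      exact hi.not_isUnit (Polynomial.isUnit_C.2 hlci)
    have hd0 : derivative i ≠ 0 := by
      intro h
      exact hdeg (Polynomial.derivative_eq_zero.1 h)
    have hnd : ¬ i ∣ derivative i := by
      intro h
      have h1 := Polynomial.natDegree_le_of_dvd h hd0
      have h2 := Polynomial.natDegree_derivative_lt hdeg
      omega
    obtain ⟨u1, v1, Δ1, hΔ1, h1⟩ := bezout_irred hi hlci hnd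
    have key1 : ∀ x' y', Δ1.eval x' ≠ 0 → i.evalEval x' y' = 0 →
        (derivative i).evalEval x' y' ≠ 0 := by
      intro x' y' hx hi0 hd
      apply hx
      have := congrArg (evalEval x' y') h1
      rw [evalEval_add, evalEval_mul, evalEval_mul, hi0, hd, evalEval_C] at this
      rw [← this]; ring
    obtain ⟨Δ2, hΔ2, key2⟩ : ∃ Δ2 : Polynomial ℝ, Δ2 ≠ 0 ∧ (i ∣ R ∨ ∀ x' y', Δ2.eval x' ≠ 0 →
        i.evalEval x' y' = 0 → R.evalEval x' y' ≠ 0) := by
      by_cases hiR : i ∣ R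
      · exact ⟨1, one_ne_zero, Or.inl hiR⟩
      · obtain ⟨u2, v2, Δ2, hΔ2, h2⟩ := bezout_irred hi hlci hiR
        refine ⟨Δ2, hΔ2, Or.inr ?_⟩
        intro x' y' hx hi0 hd
        apply hx
        have := congrArg (evalEval x' y') h2
        rw [evalEval_add, evalEval_mul, evalEval_mul, hi0, hd, evalEval_C] at this
        rw [← this]; ring
    refine ⟨Δa * (Δ1 * Δ2), mul_ne_zero hΔa (mul_ne_zero hΔ1 hΔ2), ?_⟩
    intro x y hxy
    rw [evalEval_mul, mul_eq_zero] at hxy
    rcases hxy with hxy | hxy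
    · refine ⟨i, dvd_mul_right _ _, hxy, ?_, ?_⟩
      · intro x' y' hx
        rw [eval_mul, eval_mul] at hx
        exact key1 x' y' (fun h => hx (by rw [h]; ring))
      · rcases key2 with h | h
        · exact Or.inl h
        · right
          intro x' y' hx
          rw [eval_mul, eval_mul] at hx
          exact h x' y' (fun h => hx (by rw [h]; ring))
    · obtain ⟨q, hqa, hq0, hq1, hq2⟩ := hA x y hxy
      refine ⟨q, hqa.trans (dvd_mul_left _ _), hq0, ?_, ?_⟩
      · intro x' y' hx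
        rw [eval_mul] at hx
        exact hq1 x' y' (fun h => hx (by rw [h]; ring))
      · rcases hq2 with h | h
        · exact Or.inl h
        · right
          intro x' y' hx
          rw [eval_mul] at hx
          exact h x' y' (fun h => hx (by rw [h]; ring))

end algebra

section conversion

open Polynomial

/-- The bivariate form of a polynomial in two variables. -/
noncomputable def toB : MvPolynomial (Fin 2) ℝ →+* Polynomial (Polynomial ℝ) :=
  (MvPolynomial.aeval ![C X, X] : MvPolynomial (Fin 2) ℝ →ₐ[ℝ] Polynomial (Polynomial ℝ)).toRingHom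

theorem toB_C (a : ℝ) : toB (MvPolynomial.C a) = C (C a) := by
  simp [toB]

theorem toB_X0 : toB (MvPolynomial.X 0) = C X := by simp [toB]

theorem toB_X1 : toB (MvPolynomial.X 1) = X := by simp [toB]

theorem evalEval_toB (P : MvPolynomial (Fin 2) ℝ) (x y : ℝ) :
    (toB P).evalEval x y = MvPolynomial.eval ![x, y] P := by
  induction P using MvPolynomial.induction_on with
  | C a => rw [toB_C, evalEval_CC, MvPolynomial.eval_C]
  | add p q hp hq => rw [map_add, evalEval_add, hp, hq, map_add]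
  | mul_X p i hp =>
    rw [map_mul, evalEval_mul, hp, map_mul, MvPolynomial.eval_X]
    congr 1
    fin_cases i
    · show (toB (MvPolynomial.X 0)).evalEval x y = _
      rw [toB_X0, evalEval_C, eval_X]; rfl
    · show (toB (MvPolynomial.X 1)).evalEval x y = _
      rw [toB_X1, evalEval_X]; rfl

theorem derivative_toB (P : MvPolynomial (Fin 2) ℝ) :
    derivative (toB P) = toB (MvPolynomial.pderiv 1 P) := by
  induction P using MvPolynomial.induction_on with
  | C a => rw [toB_C, derivative_C, MvPolynomial.pderiv_C, map_zero]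
  | add p q hp hq => rw [map_add, derivative_add, hp, hq, map_add, map_add]
  | mul_X p i hp =>
    rw [map_mul, derivative_mul, hp, Derivation.leibniz, smul_eq_mul, smul_eq_mul, map_add,
      map_mul, map_mul]
    fin_cases i
    · show _ + toB p * derivative (toB (MvPolynomial.X 0)) = toB p * toB _ + _
      rw [toB_X0, derivative_C]
      have : MvPolynomial.pderiv (1 : Fin 2) (MvPolynomial.X 0 : MvPolynomial (Fin 2) ℝ) = 0 := by
        rw [MvPolynomial.pderiv_X_of_ne]; decide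
      show _ + _ = toB p * toB (MvPolynomial.pderiv (1 : Fin 2) (MvPolynomial.X 0)) + _
      rw [this, map_zero]
      show toB (MvPolynomial.pderiv 1 p) * toB (MvPolynomial.X 0) + _ = _
      rw [toB_X0]
      show _ = toB p * 0 + toB (MvPolynomial.X 0) * _
      rw [toB_X0]; ring
    · show _ + toB p * derivative (toB (MvPolynomial.X 1)) = toB p * toB _ + _
      rw [toB_X1, derivative_X]
      have : MvPolynomial.pderiv (1 : Fin 2) (MvPolynomial.X 1 : MvPolynomial (Fin 2) ℝ) = 1 :=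
        MvPolynomial.pderiv_X_self _
      show _ + _ = toB p * toB (MvPolynomial.pderiv (1 : Fin 2) (MvPolynomial.X 1)) + _
      rw [this, map_one]
      show toB (MvPolynomial.pderiv 1 p) * toB (MvPolynomial.X 1) + _ = _
      rw [toB_X1]
      show _ = toB p * 1 + toB (MvPolynomial.X 1) * _
      rw [toB_X1]; ring

theorem coeff_toB (P : MvPolynomial (Fin 2) ℝ) (k : ℕ) :
    (toB P).coeff k = ∑ m ∈ P.support, if m 1 = k then C (P.coeff m) * X ^ (m 0) else 0 := by
  conv_lhs => rw [P.as_sum]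
  rw [map_sum, finsetSum_coeff]
  refine Finset.sum_congr rfl (fun m _ => ?_)
  have : toB (MvPolynomial.monomial m (P.coeff m)) = C (C (P.coeff m) * X ^ (m 0)) * X ^ (m 1) := by
    rw [MvPolynomial.monomial_eq, map_mul, toB_C, Finsupp.prod_fintype _ _ (by simp), map_prod,
      Fin.prod_univ_two, map_pow, map_pow, toB_X0, toB_X1, C_mul, C_pow]
    ring
  rw [this, coeff_C_mul_X_pow]
  by_cases h : m 1 = k
  · rw [if_pos h.symm, if_pos h]
  · rw [if_neg (fun e => h e.symm), if_neg h]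

theorem totalDegree_coord {P : MvPolynomial (Fin 2) ℝ} {n : ℕ} (hn : P.totalDegree ≤ n)
    {m : Fin 2 →₀ ℕ} (hm : m ∈ P.support) : m 0 + m 1 ≤ n := by
  have h1 := (MvPolynomial.le_totalDegree hm).trans hn
  rw [Finsupp.sum_fintype _ _ (by simp), Fin.sum_univ_two] at h1
  exact h1

theorem natDegree_toB {P : MvPolynomial (Fin 2) ℝ} {n : ℕ} (hn : P.totalDegree ≤ n)
    (hc : P.coeff (Finsupp.single 1 n) ≠ 0) :
    (toB P).natDegree = n ∧ (toB P).coeff n = C (P.coeff (Finsupp.single 1 n)) := by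
  have hco : (toB P).coeff n = C (P.coeff (Finsupp.single 1 n)) := by
    rw [coeff_toB]
    rw [Finset.sum_eq_single (Finsupp.single 1 n)]
    · simp
    · intro m hm hne
      rw [if_neg]
      intro h
      apply hne
      have := totalDegree_coord hn hm
      have h0 : m 0 = 0 := by omega
      ext i
      fin_cases i
      · simpa using h0
      · simpa using h
    · intro h
      rw [MvPolynomial.notMem_support_iff.1 h]
      simp
  refine ⟨le_antisymm ?_ ?_, hco⟩
  · rw [natDegree_le_iff_coeff_eq_zero]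
    intro N hN
    rw [coeff_toB]
    refine Finset.sum_eq_zero (fun m hm => ?_)
    rw [if_neg]
    intro h
    have := totalDegree_coord hn hm
    omega
  · apply le_natDegree_of_ne_zero
    rw [hco]
    simpa using hc

theorem derivative_toB_lc {P : MvPolynomial (Fin 2) ℝ} {n : ℕ} (hn : P.totalDegree ≤ n)
    (hc : P.coeff (Finsupp.single 1 n) ≠ 0) (hn0 : n ≠ 0) :
    derivative (toB P) ≠ 0 ∧ IsUnit (derivative (toB P)).leadingCoeff := by
  obtain ⟨h1, h2⟩ := natDegree_toB hn hc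
  have hd : (derivative (toB P)).natDegree = n - 1 := by
    rw [natDegree_derivative, h1]
  obtain ⟨k, rfl⟩ := Nat.exists_eq_succ_of_ne_zero hn0
  have hlc : (derivative (toB P)).leadingCoeff
      = C (P.coeff (Finsupp.single 1 k.succ) * ((k : ℝ) + 1)) := by
    rw [leadingCoeff, hd, coeff_derivative, Nat.succ_sub_one, ← Nat.succ_eq_add_one, h2]
    simp
  have hne : P.coeff (Finsupp.single 1 k.succ) * ((k : ℝ) + 1) ≠ 0 :=
    mul_ne_zero hc (by positivity)
  constructor
  · intro h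
    rw [h, leadingCoeff_zero] at hlc
    exact hne (C_eq_zero.1 hlc.symm)
  · rw [hlc]
    exact isUnit_C.2 (isUnit_iff_ne_zero.2 hne)

theorem hasFDerivAt_mv (P : MvPolynomial (Fin 2) ℝ) (z : ℝ × ℝ) :
    HasFDerivAt (fun z : ℝ × ℝ => MvPolynomial.eval ![z.1, z.2] P)
      (MvPolynomial.eval ![z.1, z.2] (MvPolynomial.pderiv 0 P) • ContinuousLinearMap.fst ℝ ℝ ℝ
      + MvPolynomial.eval ![z.1, z.2] (MvPolynomial.pderiv 1 P) •
        ContinuousLinearMap.snd ℝ ℝ ℝ) z := by
  induction P using MvPolynomial.induction_on with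
  | C a =>
    simp only [MvPolynomial.eval_C, MvPolynomial.pderiv_C, map_zero, zero_smul, add_zero]
    exact hasFDerivAt_const a z
  | add p q hp hq =>
    simp only [map_add]
    refine (hp.add hq).congr_fderiv ?_
    module
  | mul_X p i hp =>
    have hX : HasFDerivAt (fun z : ℝ × ℝ => MvPolynomial.eval ![z.1, z.2]
        (MvPolynomial.X i : MvPolynomial (Fin 2) ℝ))
        (MvPolynomial.eval ![z.1, z.2] (MvPolynomial.pderiv 0 (MvPolynomial.X i)) •
          ContinuousLinearMap.fst ℝ ℝ ℝ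
        + MvPolynomial.eval ![z.1, z.2] (MvPolynomial.pderiv 1 (MvPolynomial.X i)) •
          ContinuousLinearMap.snd ℝ ℝ ℝ) z := by
      fin_cases i
      · simp only [Fin.zero_eta, MvPolynomial.eval_X, Matrix.cons_val_zero]
        rw [MvPolynomial.pderiv_X_self, MvPolynomial.pderiv_X_of_ne (by decide)]
        simp only [map_one, map_zero, one_smul, zero_smul, add_zero]
        exact hasFDerivAt_fst
      · simp only [Fin.mk_one, MvPolynomial.eval_X, Matrix.cons_val_one]
        rw [MvPolynomial.pderiv_X_self, MvPolynomial.pderiv_X_of_ne (by decide)]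
        simp only [map_one, map_zero, one_smul, zero_smul, zero_add]
        exact hasFDerivAt_snd
    have := hp.mul hX
    simp only [map_mul, Derivation.leibniz, smul_eq_mul, map_add]
    refine HasFDerivAt.congr_fderiv this ?_
    module

theorem hasFDerivAt_bi (q : Polynomial (Polynomial ℝ)) (z : ℝ × ℝ) :
    ∃ a : ℝ, HasFDerivAt (fun z : ℝ × ℝ => q.evalEval z.1 z.2)
      (a • ContinuousLinearMap.fst ℝ ℝ ℝ
      + (derivative q).evalEval z.1 z.2 • ContinuousLinearMap.snd ℝ ℝ ℝ) z := by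
  induction q using Polynomial.induction_on' with
  | add p q hp hq =>
    obtain ⟨a, ha⟩ := hp
    obtain ⟨b, hb⟩ := hq
    refine ⟨a + b, ?_⟩
    simp only [evalEval_add, derivative_add]
    refine (ha.add hb).congr_fderiv ?_
    module
  | monomial n p =>
    have h1 : (fun z : ℝ × ℝ => (monomial n p).evalEval z.1 z.2)
        = fun z : ℝ × ℝ => p.eval z.1 * z.2 ^ n := by
      funext z
      rw [evalEval, eval_monomial, eval_mul, eval_pow, eval_C]
    have h2 : HasFDerivAt (fun z : ℝ × ℝ => p.eval z.1)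
        ((derivative p).eval z.1 • ContinuousLinearMap.fst ℝ ℝ ℝ) z :=
      (p.hasDerivAt z.1).comp_hasFDerivAt z hasFDerivAt_fst
    have h3 : HasFDerivAt (fun z : ℝ × ℝ => z.2 ^ n)
        (((n : ℝ) * z.2 ^ (n - 1)) • ContinuousLinearMap.snd ℝ ℝ ℝ) z :=
      (hasDerivAt_pow n z.2).comp_hasFDerivAt z hasFDerivAt_snd
    have h4 : (derivative (monomial n p)).evalEval z.1 z.2 = p.eval z.1 * ((n : ℝ) * z.2 ^ (n - 1)) := by
      rw [derivative_monomial, evalEval, eval_monomial, eval_mul, eval_pow, eval_C, eval_mul,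
        eval_natCast]
      ring
    refine ⟨z.2 ^ n * (derivative p).eval z.1, ?_⟩
    rw [h1, h4]
    refine (h2.mul h3).congr_fderiv ?_
    module

end conversion

section final

/-- The zeros of a nonzero polynomial do not accumulate at `0`. -/
theorem exists_no_root {A : Polynomial ℝ} (hA : A ≠ 0) :
    ∃ δ > 0, ∀ y : ℝ, y ≠ 0 → |y| ≤ δ → A.eval y ≠ 0 := by
  have hfin : ((A.roots.toFinset : Set ℝ) \ {0}).Finite := A.roots.toFinset.finite_toSet.sdiff
  have hcl := hfin.isClosed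
  have hmem : (0 : ℝ) ∈ ((A.roots.toFinset : Set ℝ) \ {0})ᶜ := by simp
  obtain ⟨δ, hδ, hball⟩ := Metric.isOpen_iff.1 hcl.isOpen_compl 0 hmem
  refine ⟨δ / 2, by positivity, fun y hy hyδ h0 => ?_⟩
  have hy' : y ∈ Metric.ball (0 : ℝ) δ := by
    rw [mem_ball_zero_iff, Real.norm_eq_abs]; linarith
  have := hball hy'
  apply this
  refine ⟨?_, by simpa using hy⟩
  simp [hA, h0, Polynomial.IsRoot]

theorem deriv_pos_right {p : Polynomial ℝ} {δ : ℝ} (hδ : 0 < δ) (h0 : p.eval 0 = 0)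
    (hp : 0 < p.eval δ) (hne : ∀ y : ℝ, 0 < y → y ≤ δ → (Polynomial.derivative p).eval y ≠ 0) :
    ∀ y : ℝ, 0 < y → y ≤ δ → 0 < (Polynomial.derivative p).eval y := by
  intro y hy hyδ
  by_contra hcon
  push Not at hcon
  have hneg : (Polynomial.derivative p).eval y < 0 := lt_of_le_of_ne hcon (hne y hy hyδ)
  obtain ⟨ξ, hξ, hξ'⟩ := exists_hasDerivAt_eq_slope (fun x => p.eval x)
    (fun x => (Polynomial.derivative p).eval x) hδ p.continuous.continuousOn
    (fun x _ => p.hasDerivAt x)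
  have hpos : 0 < (Polynomial.derivative p).eval ξ := by
    rw [hξ', h0, sub_zero, sub_zero]; positivity
  have hcont : Continuous (fun x => (Polynomial.derivative p).eval x) :=
    (Polynomial.derivative p).continuous
  rcases le_total y ξ with h | h
  · obtain ⟨z, hz, hz0⟩ := intermediate_value_Icc h hcont.continuousOn ⟨hneg.le, hpos.le⟩
    exact hne z (hy.trans_le hz.1) (hz.2.trans hξ.2.le) hz0
  · obtain ⟨z, hz, hz0⟩ := intermediate_value_Icc' h hcont.continuousOn ⟨hneg.le, hpos.le⟩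
    exact hne z (hξ.1.trans_le hz.1) (hz.2.trans hyδ) hz0

theorem hasFDerivAt_refl {f : ℝ × ℝ → ℝ} {a b : ℝ} {z : ℝ × ℝ}
    (h : HasFDerivAt f (a • ContinuousLinearMap.fst ℝ ℝ ℝ + b • ContinuousLinearMap.snd ℝ ℝ ℝ)
      (-z.1, z.2)) :
    HasFDerivAt (fun z : ℝ × ℝ => f (-z.1, z.2)) ((-a) • ContinuousLinearMap.fst ℝ ℝ ℝ
      + b • ContinuousLinearMap.snd ℝ ℝ ℝ) z := by
  have hg : HasFDerivAt (fun z : ℝ × ℝ => ((-z.1, z.2) : ℝ × ℝ))
      ((-ContinuousLinearMap.fst ℝ ℝ ℝ).prod (ContinuousLinearMap.snd ℝ ℝ ℝ)) z :=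
    (hasFDerivAt_fst.neg).prodMk hasFDerivAt_snd
  have := h.comp z hg
  refine this.congr_fderiv ?_
  ext <;> simp

end final

end KeyLocal

open KeyLocal MvPolynomial

/-- Polar curve lemma at an isolated zero of a nonnegative plane polynomial. -/
theorem key_local (P : MvPolynomial (Fin 2) ℝ) (n : ℕ) (hn : P.totalDegree ≤ n)
    (hc : P.coeff (Finsupp.single 1 n) ≠ 0)
    (U : Set (ℝ × ℝ)) (hU : U ∈ nhds (0 : ℝ × ℝ))
    (h0 : eval ![0, 0] P = 0) (hpos : ∀ p ∈ U, p ≠ 0 → 0 < eval ![p.1, p.2] P) :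
    ∃ ρ > 0, ∃ ρ' > 0, Set.Icc (-ρ) ρ ×ˢ Set.Icc (-ρ') ρ' ⊆ U ∧
      (∀ x ∈ Set.Icc (-ρ) ρ, 0 < eval ![x, ρ'] (pderiv 1 P) ∧ eval ![x, -ρ'] (pderiv 1 P) < 0) ∧
      (∀ x ∈ Set.Icc (-ρ) ρ, ∀ y ∈ Set.Icc (-ρ') ρ', eval ![x, y] (pderiv 1 P) = 0 →
        ¬ (x = 0 ∧ y = 0) → 0 < x * eval ![x, y] (pderiv 0 P)) := by
  classical
  -- functions
  set f : ℝ × ℝ → ℝ := fun z => eval ![z.1, z.2] P with hf
  set fx : ℝ × ℝ → ℝ := fun z => eval ![z.1, z.2] (pderiv 0 P) with hfx
  set fy : ℝ × ℝ → ℝ := fun z => eval ![z.1, z.2] (pderiv 1 P) with hfy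
  have hcont : ∀ A : MvPolynomial (Fin 2) ℝ, Continuous (fun z : ℝ × ℝ => eval ![z.1, z.2] A) :=
    fun A => continuous_iff_continuousAt.2 (fun z => (hasFDerivAt_mv A z).continuousAt)
  obtain ⟨r, hr, hrU⟩ : ∃ r > 0, Set.Icc (-r) r ×ˢ Set.Icc (-r) r ⊆ U := by
    obtain ⟨r, hr, hball⟩ := Metric.mem_nhds_iff.1 hU
    refine ⟨r / 2, by positivity, fun z hz => hball ?_⟩
    rw [mem_ball_zero_iff, Prod.norm_def, Real.norm_eq_abs, Real.norm_eq_abs]
    have h1 := abs_le.2 hz.1
    have h2 := abs_le.2 hz.2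
    exact max_lt (by linarith) (by linarith)
  have hn0 : n ≠ 0 := by
    rintro rfl
    have hPC : P = C (P.coeff 0) := totalDegree_eq_zero_iff_eq_C.1 (Nat.le_zero.1 hn)
    rw [hPC, eval_C] at h0
    apply hc
    rw [Finsupp.single_zero]; exact h0
  -- the restriction to the `y` axis
  set p : Polynomial ℝ := (toB P).map (Polynomial.evalRingHom 0) with hp
  have hpe : ∀ y, p.eval y = eval ![0, y] P := by
    intro y
    rw [← evalEval_toB, hp, ← Polynomial.coe_evalRingHom, ← Polynomial.eval₂_evalRingHom,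
      Polynomial.coe_evalRingHom, Polynomial.eval_map]
  have hpd : ∀ y, (Polynomial.derivative p).eval y = eval ![0, y] (pderiv 1 P) := by
    intro y
    rw [← evalEval_toB, ← derivative_toB, hp, Polynomial.derivative_map, Polynomial.eval_map,
      ← Polynomial.eval₂_evalRingHom]
  obtain ⟨hdeg, hco⟩ := natDegree_toB hn hc
  have hpdne : Polynomial.derivative p ≠ 0 := by
    intro h
    have h1 := Polynomial.derivative_eq_zero.1 h
    have h2 : p.coeff n ≠ 0 := by
      rw [hp, Polynomial.coeff_map, hco]; simpa using hc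
    have h3 := Polynomial.le_natDegree_of_ne_zero h2
    omega
  obtain ⟨δ0, hδ0, hδ⟩ := exists_no_root hpdne
  set ρ' : ℝ := min r δ0 with hρ'
  have hρ'0 : 0 < ρ' := lt_min hr hδ0
  have hρ'r : ρ' ≤ r := min_le_left _ _
  have hρ'δ : ρ' ≤ δ0 := min_le_right _ _
  have hp0 : p.eval 0 = 0 := by rw [hpe]; exact h0
  have hppos : ∀ y : ℝ, y ≠ 0 → |y| ≤ ρ' → 0 < p.eval y := by
    intro y hy hyr
    rw [hpe]
    refine hpos (0, y) (hrU ⟨⟨by linarith, hr.le⟩, abs_le.1 (hyr.trans hρ'r)⟩) ?_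
    intro h
    exact hy (congrArg Prod.snd h)
  have hright := deriv_pos_right hρ'0 hp0 (hppos ρ' hρ'0.ne' (abs_of_pos hρ'0).le)
    (fun y hy hy' => hδ y hy.ne' (by rw [abs_of_pos hy]; linarith))
  have hcomp : ∀ y : ℝ, (Polynomial.derivative (p.comp (-Polynomial.X))).eval y
      = -(Polynomial.derivative p).eval (-y) := by
    intro y
    rw [Polynomial.derivative_comp, Polynomial.eval_mul, Polynomial.eval_comp]
    simp only [Polynomial.derivative_neg, Polynomial.derivative_X, Polynomial.eval_neg,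
      Polynomial.eval_X, Polynomial.eval_one]
    ring
  have hleft : ∀ y : ℝ, 0 < y → y ≤ ρ' → (Polynomial.derivative p).eval (-y) < 0 := by
    have h2 : 0 < (p.comp (-Polynomial.X)).eval ρ' := by
      rw [Polynomial.eval_comp, Polynomial.eval_neg, Polynomial.eval_X]
      exact hppos (-ρ') (neg_ne_zero.2 hρ'0.ne') (by rw [abs_neg, abs_of_pos hρ'0])
    have hq := deriv_pos_right (p := p.comp (-Polynomial.X)) hρ'0 (by simpa using hp0) h2
      (fun y hy hy' => by
        rw [hcomp]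
        exact neg_ne_zero.2 (hδ (-y) (neg_ne_zero.2 hy.ne')
          (by rw [abs_neg, abs_of_pos hy]; linarith)))
    intro y hy hy'
    have := hq y hy hy'
    rw [hcomp] at this
    linarith
  have htop0 : 0 < fy (0, ρ') := by
    show 0 < eval ![0, ρ'] (pderiv 1 P)
    rw [← hpd]; exact hright ρ' hρ'0 le_rfl
  have hbot0 : fy (0, -ρ') < 0 := by
    show eval ![0, -ρ'] (pderiv 1 P) < 0
    rw [← hpd]; exact hleft ρ' hρ'0 le_rfl
  have hcy : Continuous fy := hcont _
  obtain ⟨ρ1, hρ1, htb⟩ : ∃ ρ1 > 0, ∀ x : ℝ, |x| ≤ ρ1 → 0 < fy (x, ρ') ∧ fy (x, -ρ') < 0 := by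
    have e1 : ∀ᶠ x : ℝ in 𝓝 0, 0 < fy (x, ρ') := by
      have : Continuous (fun x : ℝ => fy (x, ρ')) := by fun_prop
      exact this.continuousAt.eventually (lt_mem_nhds htop0)
    have e2 : ∀ᶠ x : ℝ in 𝓝 0, fy (x, -ρ') < 0 := by
      have : Continuous (fun x : ℝ => fy (x, -ρ')) := by fun_prop
      exact this.continuousAt.eventually (gt_mem_nhds hbot0)
    obtain ⟨δ, hδ, hb⟩ := Metric.eventually_nhds_iff.1 (e1.and e2)
    refine ⟨δ / 2, by positivity, fun x hx => hb ?_⟩
    rw [Real.dist_eq, sub_zero]; linarith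
  obtain ⟨hA0, hAlc⟩ := derivative_toB_lc hn hc hn0
  obtain ⟨Δ, hΔ0, hΔ⟩ := exists_factor (toB (pderiv 0 P)) _ hA0 hAlc
  obtain ⟨ρ2, hρ2, hΔ2⟩ := exists_no_root hΔ0
  set ρ : ℝ := min r (min ρ1 ρ2) with hρ
  have hρ0 : 0 < ρ := lt_min hr (lt_min hρ1 hρ2)
  have hρr : ρ ≤ r := min_le_left _ _
  have hρρ1 : ρ ≤ ρ1 := (min_le_right _ _).trans (min_le_left _ _)
  have hρρ2 : ρ ≤ ρ2 := (min_le_right _ _).trans (min_le_right _ _)
  have hbox : Set.Icc (-ρ) ρ ×ˢ Set.Icc (-ρ') ρ' ⊆ U := fun z hz => hrU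
    ⟨⟨by linarith [hz.1.1], by linarith [hz.1.2]⟩, ⟨by linarith [hz.2.1], by linarith [hz.2.2]⟩⟩
  refine ⟨ρ, hρ0, ρ', hρ'0, hbox, fun x hx => htb x ((abs_le.2 hx).trans hρρ1), ?_⟩
  intro x hx y hy hxy hne
  -- `P_y` has no zero on the `y` axis except the origin
  have haxis : ∀ y, |y| ≤ ρ' → y ≠ 0 → fy (0, y) ≠ 0 := by
    intro y hy hy0
    show eval ![0, y] (pderiv 1 P) ≠ 0
    rw [← hpd]
    exact hδ y hy0 (hy.trans hρ'δ)
  have hyr : |y| ≤ ρ' := abs_le.2 hy
  have hxr : |x| ≤ ρ := abs_le.2 hx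
  have hx0 : x ≠ 0 := by
    intro h
    subst h
    exact haxis y hyr (fun h => hne ⟨rfl, h⟩) hxy
  have hv : 0 < f (x, y) := by
    refine hpos (x, y) (hbox ⟨hx, hy⟩) ?_
    intro h
    exact hx0 (congrArg Prod.fst h)
  obtain ⟨q, hqA, hq0, hq1, hq2⟩ := hΔ x y (by rw [derivative_toB, evalEval_toB]; exact hxy)
  set Q : ℝ × ℝ → ℝ := fun z => q.evalEval z.1 z.2 with hQ
  set Qy : ℝ × ℝ → ℝ := fun z => (Polynomial.derivative q).evalEval z.1 z.2 with hQy
  have hQd : ∀ z : ℝ × ℝ, ∃ a : ℝ, HasFDerivAt Q (a • ContinuousLinearMap.fst ℝ ℝ ℝ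
      + Qy z • ContinuousLinearMap.snd ℝ ℝ ℝ) z := fun z => hasFDerivAt_bi q z
  have hQc : Continuous Q := continuous_iff_continuousAt.2 (fun z => by
    obtain ⟨a, ha⟩ := hQd z
    exact ha.continuousAt)
  have hfd : ∀ z, HasFDerivAt f (fx z • ContinuousLinearMap.fst ℝ ℝ ℝ
      + fy z • ContinuousLinearMap.snd ℝ ℝ ℝ) z := fun z => hasFDerivAt_mv P z
  have hΔne : ∀ x', x' ≠ 0 → |x'| ≤ |x| → Δ.eval x' ≠ 0 := fun x' h1 h2 =>
    hΔ2 x' h1 (h2.trans (hxr.trans hρρ2))
  have g3 : ∀ z, Q z = 0 → fy z = 0 := by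
    intro z hz
    obtain ⟨w, hw⟩ := hqA
    show eval ![z.1, z.2] (pderiv 1 P) = 0
    rw [← evalEval_toB, ← derivative_toB, hw, Polynomial.evalEval_mul]
    have : q.evalEval z.1 z.2 = 0 := hz
    rw [this, zero_mul]
  have g2 : (∀ z, Q z = 0 → fx z = 0) ∨
      (∀ x' y', x' ≠ 0 → |x'| ≤ |x| → Q (x', y') = 0 → fx (x', y') ≠ 0) := by
    rcases hq2 with h | h
    · left
      intro z hz
      obtain ⟨w, hw⟩ := h
      show eval ![z.1, z.2] (pderiv 0 P) = 0
      rw [← evalEval_toB, hw, Polynomial.evalEval_mul]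
      have : q.evalEval z.1 z.2 = 0 := hz
      rw [this, zero_mul]
    · right
      intro x' y' hx' hx'' hz
      show eval ![x', y'] (pderiv 0 P) ≠ 0
      rw [← evalEval_toB]
      exact h x' y' (hΔne x' hx' hx'') hz
  have g1 : ∀ x' y', x' ≠ 0 → |x'| ≤ |x| → Q (x', y') = 0 → Qy (x', y') ≠ 0 :=
    fun x' y' hx' hx'' hz => hq1 x' y' (hΔne x' hx' hx'') hz
  have g4 : ∀ x' y', |x'| ≤ |x| → |y'| = ρ' → fy (x', y') ≠ 0 := by
    intro x' y' hx' hy'
    have := htb x' (hx'.trans (hxr.trans hρρ1))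
    rcases eq_or_eq_neg_of_abs_eq hy' with h | h
    · rw [h]; exact this.1.ne'
    · rw [h]; exact this.2.ne
  rcases lt_or_gt_of_ne hx0 with hneg | hposx
  · -- reflect
    have hax : |x| = -x := abs_of_neg hneg
    have hmain : 0 < -fx (- -x, y) := by
      refine curve_pos (P := fun z => f (-z.1, z.2)) (Px := fun z => -fx (-z.1, z.2))
        (Py := fun z => fy (-z.1, z.2)) (q := fun z => Q (-z.1, z.2))
        (qy := fun z => Qy (-z.1, z.2)) (x0 := -x) (y0 := y) (r' := ρ')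
        (fun z => hasFDerivAt_refl (hfd (-z.1, z.2))) ?_ ?_ ?_ (by linarith) ?_ ?_ ?_ ?_ ?_ ?_ ?_
        hyr ?_
      · have := hcont (pderiv 0 P)
        exact (this.comp (by fun_prop : Continuous (fun z : ℝ × ℝ => ((-z.1, z.2) : ℝ × ℝ)))).neg
      · exact hQc.comp (by fun_prop)
      · intro z
        obtain ⟨a, ha⟩ := hQd (-z.1, z.2)
        exact ⟨-a, hasFDerivAt_refl ha⟩
      · intro x' y' h1 h2 _ h4
        exact g1 (-x') y' (by simpa using h1.ne') (by rw [abs_neg, abs_of_pos h1, hax]; exact h2) h4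
      · rcases g2 with h | h
        · left
          intro z hz
          show -fx (-z.1, z.2) = 0
          rw [h _ hz, neg_zero]
        · right
          intro x' y' h1 h2 _ h4 h5
          exact h (-x') y' (by simpa using h1.ne') (by rw [abs_neg, abs_of_pos h1, hax]; exact h2) h4
            (neg_eq_zero.1 h5)
      · intro z hz
        exact g3 _ hz
      · intro x' y' h1 h2 h3
        exact g4 (-x') y' (by rw [abs_neg, abs_of_nonneg h1, hax]; exact h2) h3
      · intro y' h1 h2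
        show fy (-0, y') ≠ 0
        rw [neg_zero]; exact haxis y' h1 h2
      · show f (-0, 0) = 0
        rw [neg_zero]; exact h0
      · show 0 < f (- -x, y)
        rw [neg_neg]; exact hv
      · show Q (- -x, y) = 0
        rw [neg_neg]; exact hq0
    rw [neg_neg] at hmain
    have h6 : fx (x, y) < 0 := by linarith
    exact mul_pos_of_neg_of_neg hneg h6
  · have hax : |x| = x := abs_of_pos hposx
    refine mul_pos hposx ?_
    refine curve_pos (P := f) (Px := fx) (Py := fy) (q := Q) (qy := Qy) (r' := ρ') hfd (hcont _)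
      hQc hQd hposx ?_ ?_ g3 ?_ haxis h0 hv hyr hq0
    · intro x' y' h1 h2 _ h4
      exact g1 x' y' h1.ne' (by rw [abs_of_pos h1, hax]; exact h2) h4
    · rcases g2 with h | h
      · exact Or.inl h
      · right
        intro x' y' h1 h2 _ h4
        exact h x' y' h1.ne' (by rw [abs_of_pos h1, hax]; exact h2) h4
    · intro x' y' h1 h2 h3
      exact g4 x' y' (by rw [abs_of_nonneg h1, hax]; exact h2) h3

end Pool.Agent.MP9d
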