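import Pool.Agent.Work.MP_9d788c_ag.Pack

/-!
The affine polynomial with many zeros.
-/

namespace Pool.Agent.MP9d

open Set Filter Topology MvPolynomial

/-- functions given by polynomials of degree at most `n` -/
def IsPoly (n : ℕ) (g : ℝ × ℝ → ℝ) : Prop :=
  ∃ F : MvPolynomial (Fin 2) ℝ, F.totalDegree ≤ n ∧ ∀ v : Fin 2 → ℝ, eval v F = g (v 0, v 1)

theorem IsPoly.add {n : ℕ} {g g' : ℝ × ℝ → ℝ} (hg : IsPoly n g) (hg' : IsPoly n g') :
    IsPoly n (fun z => g z + g' z) := by
  obtain ⟨F, hF, h⟩ := hg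
  obtain ⟨F', hF', h'⟩ := hg'
  exact ⟨F + F', (totalDegree_add _ _).trans (max_le hF hF'), fun v => by rw [map_add, h, h']⟩

theorem IsPoly.const_mul {n : ℕ} {g : ℝ × ℝ → ℝ} (hg : IsPoly n g) (c : ℝ) :
    IsPoly n (fun z => c * g z) := by
  obtain ⟨F, hF, h⟩ := hg
  refine ⟨C c * F, ?_, fun v => by rw [map_mul, eval_C, h]⟩
  refine (totalDegree_mul _ _).trans ?_
  rw [totalDegree_C, zero_add]
  exact hF

theorem IsPoly.sub {n : ℕ} {g g' : ℝ × ℝ → ℝ} (hg : IsPoly n g) (hg' : IsPoly n g') :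
    IsPoly n (fun z => g z - g' z) := by
  have := hg.add (hg'.const_mul (-1))
  simpa [sub_eq_add_neg] using this

theorem IsPoly.sum {n : ℕ} {ι : Type*} (J : Finset ι) (g : ι → ℝ × ℝ → ℝ)
    (hg : ∀ i ∈ J, IsPoly n (g i)) : IsPoly n (fun z => ∑ i ∈ J, g i z) := by
  classical
  induction J using Finset.induction_on with
  | empty => exact ⟨0, by simp, fun v => by simp⟩
  | insert a J ha ih =>
    have h1 := hg a (Finset.mem_insert_self _ _)
    have h2 := ih (fun i hi => hg i (Finset.mem_insert_of_mem hi))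
    have := h1.add h2
    simpa [Finset.sum_insert ha] using this

theorem IsPoly.mono3 {n : ℕ} (e : ℤ × ℤ × ℤ) (s : ℝ) (h1 : 0 ≤ e.2.1) (h2 : 0 ≤ e.2.2)
    (h3 : e.2.1 + e.2.2 ≤ n) : IsPoly n (fun z => mono3 e s z) := by
  obtain ⟨g, p, r⟩ := e
  simp only at h1 h2 h3
  lift p to ℕ using h1
  lift r to ℕ using h2
  refine ⟨C (s ^ g) * (X 0 ^ p * X 1 ^ r), ?_, fun v => ?_⟩
  · refine (totalDegree_mul _ _).trans ?_
    rw [totalDegree_C, zero_add]
    refine (totalDegree_mul _ _).trans ?_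
    rw [totalDegree_X_pow, totalDegree_X_pow]
    exact_mod_cast h3
  · simp [Pool.Agent.MP9d.mono3, mon]

theorem isPoly_big (I : ℕ) {Q : ℕ} {K : ℕ → ℕ} {n : ℕ}
    (hK : ∀ q < Q, ∀ l < K q, (l : ℤ) + 5 + (off (2 * I + 1) q + 2 * (2 * I + 1)) ≤ n)
    (Λ Λ' : ℤ) (a : ℤ × ℤ → ℝ) (b : Fin (3 * I) → ℤ × ℤ → ℝ) (s : ℝ)
    (cc : TT Q K × Fin (3 * I) → ℝ) :
    IsPoly n (fun z => BigP (2 * I + 1) Λ Λ' a Q K n s z +
        ∑ j, cc j * Ctl (2 * I + 1) Λ b s j.1 j.2 z) := by
  set m : ℤ := 2 * I + 1 with hm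
  have hm0 : 0 < m := by positivity
  have key : ∀ q < Q, ∀ l < K q, ∀ w ∈ Dm m,
      IsPoly n (fun z => mono3 ((tile m Λ (q : ℤ) (l : ℤ)).exp w) s z) := by
    intro q hq l hl w hw
    obtain ⟨h1, h2, h3, h4⟩ := exp_pos Λ (q : ℤ) (l : ℤ) hw
    have ho : 0 ≤ off m (q : ℤ) := by
      simp only [off]
      positivity
    have := hK q hq l hl
    refine IsPoly.mono3 _ _ (by linarith [Int.natCast_nonneg l]) (by linarith) (by linarith)
  refine IsPoly.add (IsPoly.add ?_ ?_) ?_
  · refine IsPoly.sum _ _ fun q _ => IsPoly.sub ?_ ?_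
    · refine IsPoly.sum _ _ fun l hl => IsPoly.sum _ _ fun w hw => IsPoly.const_mul ?_ _
      exact key q q.2 l (Finset.mem_range.1 hl) w hw
    · refine IsPoly.sum _ _ fun l hl => IsPoly.sum _ _ fun w hw => IsPoly.const_mul ?_ _
      rw [Finset.mem_filter] at hw
      have := Finset.mem_range.1 hl
      exact key q q.2 l (by omega) w hw.1
  · refine IsPoly.add (IsPoly.add ?_ ?_) ?_
    · exact IsPoly.mono3 _ _ (by simp) (by simp) (by simp)
    · exact IsPoly.mono3 _ _ (by simp) (by simp) (by simp)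
    · exact IsPoly.mono3 _ _ (by simp) (by simp) (by simp)
  · refine IsPoly.sum _ _ fun j _ => IsPoly.const_mul ?_ _
    refine IsPoly.sum _ _ fun w hw => IsPoly.const_mul ?_ _
    exact key j.1.1 j.1.1.2 j.1.2 j.1.2.2 w (Dint_sub_Dm m hw)

theorem dense_Tor : Dense Tor := by
  have : Tor = ({0}ᶜ : Set ℝ) ×ˢ ({0}ᶜ : Set ℝ) := by
    ext z
    simp [Tor]
  rw [this]
  exact (dense_compl_singleton 0).prod (dense_compl_singleton 0)

/-- evaluation of homogeneous components on a line -/
theorem eval_smul_eq (F : MvPolynomial (Fin 2) ℝ) (n : ℕ) (hF : F.totalDegree ≤ n)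
    (v : Fin 2 → ℝ) (t : ℝ) :
    eval (fun i => t * v i) F =
      ∑ k ∈ Finset.range (n + 1), t ^ k * eval v (homogeneousComponent k F) := by
  have h1 : F = ∑ k ∈ Finset.range (n + 1), homogeneousComponent k F := by
    have h2 := sum_homogeneousComponent F
    have h3 : ∑ k ∈ Finset.range (n + 1), homogeneousComponent k F =
        ∑ k ∈ Finset.range (F.totalDegree + 1), homogeneousComponent k F := by
      refine (Finset.sum_subset (Finset.range_subset_range.2 (by omega)) fun k _ hk => ?_).symm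
      rw [Finset.mem_range] at hk
      exact homogeneousComponent_eq_zero _ _ (by omega)
    rw [h3, h2]
  conv_lhs => rw [h1]
  rw [map_sum]
  refine Finset.sum_congr rfl fun k _ => ?_
  have h4 : (homogeneousComponent k F).IsHomogeneous k := homogeneousComponent_isHomogeneous _ _
  rw [eval_eq, eval_eq, Finset.mul_sum]
  refine Finset.sum_congr rfl fun d hd => ?_
  have h5 : ∑ i, d i = k := by
    have := h4 (mem_support_iff.1 hd)
    rw [Finsupp.weight_apply, Finsupp.sum_fintype _ _ (by simp)] at this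
    simpa using this
  have h6 : ∏ i ∈ d.support, (t * v i) ^ d i = t ^ k * ∏ i ∈ d.support, v i ^ d i := by
    simp only [mul_pow, Finset.prod_mul_distrib]
    congr 1
    rw [Finset.prod_pow_eq_pow_sum]
    congr 1
    rw [← h5]
    exact Finset.sum_subset (Finset.subset_univ _) fun i _ hi => by
      simpa using hi
  rw [h6]
  ring

/-- positivity of the leading form from growth -/
theorem leading_pos (F : MvPolynomial (Fin 2) ℝ) (n : ℕ) (hn : Even n) (hF : F.totalDegree ≤ n)
    (μ R : ℝ) (hμ : 0 < μ)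
    (hg : ∀ v : Fin 2 → ℝ, R < |v 0| ∨ R < |v 1| → μ * (1 + v 0 ^ n + v 1 ^ n) ≤ eval v F)
    (v : Fin 2 → ℝ) (hv : v ≠ 0) : 0 < eval v (homogeneousComponent n F) := by
  have hvpos : 0 < v 0 ^ n + v 1 ^ n := by
    have h0 := hn.pow_nonneg (v 0)
    have h1 := hn.pow_nonneg (v 1)
    by_contra hcon
    push Not at hcon
    rcases Nat.eq_zero_or_pos n with rfl | hn0
    · simp at hcon
      linarith
    · have e0 : v 0 = 0 := by
        have : v 0 ^ n = 0 := by linarith
        exact pow_eq_zero_iff (by omega) |>.1 this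
      have e1 : v 1 = 0 := by
        have : v 1 ^ n = 0 := by linarith
        exact pow_eq_zero_iff (by omega) |>.1 this
      apply hv
      funext i
      fin_cases i
      · exact e0
      · exact e1
  have hlim : Tendsto (fun t : ℝ => ∑ k ∈ Finset.range (n + 1),
      t ^ k * eval v (homogeneousComponent k F) / t ^ n) atTop
      (𝓝 (∑ k ∈ Finset.range (n + 1), if k = n then eval v (homogeneousComponent n F) else 0)) := by
    refine tendsto_finsetSum _ fun k hk => ?_
    rw [Finset.mem_range] at hk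
    by_cases hkn : k = n
    · subst hkn
      rw [if_pos rfl]
      refine Tendsto.congr' ?_ tendsto_const_nhds
      filter_upwards [eventually_gt_atTop (0 : ℝ)] with t ht
      field_simp
    · rw [if_neg hkn]
      have h1 : Tendsto (fun t : ℝ => (t ^ (n - k))⁻¹) atTop (𝓝 0) :=
        (tendsto_pow_atTop (by omega)).inv_tendsto_atTop
      have h2 := h1.mul_const (eval v (homogeneousComponent k F))
      rw [zero_mul] at h2
      refine Tendsto.congr' ?_ h2
      filter_upwards [eventually_gt_atTop (0 : ℝ)] with t ht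
      have : t ^ n = t ^ (n - k) * t ^ k := by rw [← pow_add]; congr 1; omega
      rw [this]
      field_simp
  rw [Finset.sum_ite_eq' (Finset.range (n + 1)) n, if_pos (Finset.mem_range.2 (by omega))] at hlim
  have hge : ∀ᶠ t : ℝ in atTop, μ * (v 0 ^ n + v 1 ^ n) ≤
      ∑ k ∈ Finset.range (n + 1), t ^ k * eval v (homogeneousComponent k F) / t ^ n := by
    obtain ⟨i, hi⟩ : ∃ i, v i ≠ 0 := by
      by_contra hcon
      push Not at hcon
      exact hv (funext hcon)
    filter_upwards [eventually_gt_atTop (0 : ℝ), eventually_gt_atTop (R / |v i|)] with t ht htR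
    have hi' : 0 < |v i| := abs_pos.2 hi
    rw [div_lt_iff₀ hi'] at htR
    have h1 : R < |t * v 0| ∨ R < |t * v 1| := by
      rw [abs_mul, abs_mul, abs_of_pos ht]
      fin_cases i
      · exact Or.inl htR
      · exact Or.inr htR
    have h2 := hg (fun i => t * v i) h1
    rw [eval_smul_eq F n hF v t] at h2
    rw [← Finset.sum_div, le_div_iff₀ (by positivity)]
    refine le_trans ?_ h2
    simp only [mul_pow]
    have h3 : 0 ≤ μ := hμ.le
    nlinarith
  have h4 := ge_of_tendsto hlim hge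
  exact lt_of_lt_of_le (mul_pos hμ hvpos) h4

/-- affine polynomials with many zeros -/
theorem lower_affine (I : ℕ) (hI : 1 ≤ I) (Q : ℕ) (K : ℕ → ℕ) (n : ℕ) (hn : Even n)
    (hK : ∀ q < Q, ∀ l < K q, (l : ℤ) + 5 + (off (2 * I + 1) q + 2 * (2 * I + 1)) ≤ n) :
    ∃ F : MvPolynomial (Fin 2) ℝ, F.totalDegree ≤ n ∧ (∀ v, 0 ≤ eval v F) ∧
      (∀ v, v ≠ 0 → 0 < eval v (homogeneousComponent n F)) ∧
      {v : Fin 2 → ℝ | eval v F = 0}.Finite ∧
      {v : Fin 2 → ℝ | eval v F = 0}.ncard = (∑ q ∈ Finset.range Q, K q) * (3 * I) := by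
  obtain ⟨Λ, Λ', a, b, s, cc, U, hs, hU, hUT, hnn, hfin, hcard, hout⟩ := packed I hI Q K n hn
  obtain ⟨F, hF, hFe⟩ := isPoly_big I hK Λ Λ' a b s cc
  set g : ℝ × ℝ → ℝ := fun z => BigP (2 * I + 1) Λ Λ' a Q K n s z +
        ∑ j, cc j * Ctl (2 * I + 1) Λ b s j.1 j.2 z with hg
  have hpair : ∀ z : ℝ × ℝ, eval ![z.1, z.2] F = g z := fun z => by
    rw [hFe]; rfl
  have hgc : Continuous g := by
    have : g = fun z : ℝ × ℝ => eval ![z.1, z.2] F := by
      funext z; rw [hpair]
    rw [this]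
    have h1 : Continuous fun z : ℝ × ℝ => (![z.1, z.2] : Fin 2 → ℝ) := by
      refine continuous_pi fun i => ?_
      fin_cases i
      · exact continuous_fst
      · exact continuous_snd
    exact (MvPolynomial.continuous_eval F).comp h1
  have hqc : Continuous fun z : ℝ × ℝ => s ^ Λ' * (1 + z.1 ^ n + z.2 ^ n) := by fun_prop
  have hμ : 0 < s ^ Λ' := zpow_pos hs _
  -- lower bound outside U
  have hout' : ∀ z, z ∉ U → s ^ Λ' * (1 + z.1 ^ n + z.2 ^ n) ≤ g z := by
    intro z hz
    have hopen : IsOpen Uᶜ := hU.isClosed.isOpen_compl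
    have hcl : z ∈ closure (Uᶜ ∩ Tor) := by
      have := dense_Tor.open_subset_closure_inter hopen
      exact this hz
    have hclosed : IsClosed {z : ℝ × ℝ | s ^ Λ' * (1 + z.1 ^ n + z.2 ^ n) ≤ g z} :=
      isClosed_le hqc hgc
    refine hclosed.closure_subset_iff.2 ?_ hcl
    rintro w ⟨hwU, hwT⟩
    exact hout w hwT hwU
  have hpos1 : ∀ z : ℝ × ℝ, 0 < s ^ Λ' * (1 + z.1 ^ n + z.2 ^ n) := fun z => by
    have h1 := hn.pow_nonneg z.1
    have h2 := hn.pow_nonneg z.2
    exact mul_pos hμ (by linarith)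
  have hgnn : ∀ z, 0 ≤ g z := by
    intro z
    by_cases hz : z ∈ U
    · exact hnn z (hUT hz)
    · exact (hpos1 z).le.trans (hout' z hz)
  have hset : {z | z ∈ Tor ∧ g z = 0} = {z | g z = 0} := by
    ext z
    refine ⟨fun h => h.2, fun h => ⟨?_, h⟩⟩
    by_contra hcon
    have hz : z ∉ U := fun h' => hcon (hUT h')
    have h1 := hout' z hz
    have h2 := hpos1 z
    have h3 : g z = 0 := h
    linarith
  let e : (Fin 2 → ℝ) → ℝ × ℝ := fun v => (v 0, v 1)
  have he : Function.Injective e := by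
    intro v w h
    funext i
    fin_cases i
    · exact congrArg Prod.fst h
    · exact congrArg Prod.snd h
  have hes : ∀ z : ℝ × ℝ, e ![z.1, z.2] = z := fun z => rfl
  have himg : e '' {v : Fin 2 → ℝ | eval v F = 0} = {z | g z = 0} := by
    ext z
    constructor
    · rintro ⟨v, hv, rfl⟩
      have h1 : eval v F = 0 := hv
      rw [hFe] at h1
      exact h1
    · intro hz
      exact ⟨![z.1, z.2], by
        show eval ![z.1, z.2] F = 0
        rw [hpair]; exact hz, hes z⟩
  refine ⟨F, hF, fun v => by rw [hFe]; exact hgnn _, ?_, ?_, ?_⟩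
  · obtain ⟨R, hR⟩ := hU.isBounded.exists_norm_le
    refine leading_pos F n hn hF (s ^ Λ') R hμ ?_
    intro v hv
    rw [hFe]
    refine hout' (v 0, v 1) fun hmem => ?_
    have h1 := hR _ hmem
    rw [Prod.norm_def] at h1
    simp only [Real.norm_eq_abs] at h1
    rcases hv with h | h
    · exact absurd (h.trans_le ((le_max_left _ _).trans h1)) (lt_irrefl _)
    · exact absurd (h.trans_le ((le_max_right _ _).trans h1)) (lt_irrefl _)
  · refine Set.Finite.of_finite_image (f := e) ?_ he.injOn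
    rw [himg, ← hset]
    exact hfin
  · rw [← Set.ncard_image_of_injective _ he, himg, ← hset, hcard, Fintype.card_sigma]
    simp only [Fintype.card_fin]
    rw [Finset.sum_range]

end Pool.Agent.MP9d
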