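import Mathlib

/-! Trigonometric and interpolation preliminaries (item G of MP_9d788c_ag). -/

set_option autoImplicit false

namespace Pool.Agent.MP9d

open Set Filter Topology

theorem exists_odd (n : ℕ) : ∃ R : Polynomial ℝ, R.natDegree ≤ n ∧
    ∀ φ : ℝ, Real.cos ((2 * n + 1) * φ) = Real.cos φ * R.eval (Real.cos φ ^ 2) := by
  induction n using Nat.twoStepInduction with
  | zero => exact ⟨1, by simp, fun φ => by simp⟩
  | one =>
    refine ⟨Polynomial.C 4 * Polynomial.X - Polynomial.C 3, ?_, fun φ => ?_⟩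
    · compute_degree
    · have : ((2 * ((1 : ℕ) : ℝ) + 1) * φ) = 3 * φ := by push_cast; ring
      rw [this, Real.cos_three_mul]
      simp only [Polynomial.eval_sub, Polynomial.eval_mul, Polynomial.eval_C, Polynomial.eval_X]
      ring
  | more n h0 h1 =>
    obtain ⟨R0, d0, e0⟩ := h0
    obtain ⟨R1, d1, e1⟩ := h1
    refine ⟨(Polynomial.C 4 * Polynomial.X - Polynomial.C 2) * R1 - R0, ?_, fun φ => ?_⟩
    · have ha : (Polynomial.C (4 : ℝ) * Polynomial.X - Polynomial.C 2).natDegree ≤ 1 := by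
        compute_degree
      have hb : ((Polynomial.C (4 : ℝ) * Polynomial.X - Polynomial.C 2) * R1).natDegree ≤ n + 2 := by
        refine (Polynomial.natDegree_mul_le).trans ?_
        omega
      refine (Polynomial.natDegree_sub_le _ _).trans ?_
      rw [max_le_iff]
      exact ⟨hb, by omega⟩
    · have e2 : Real.cos ((2 * ((n + 2 : ℕ) : ℝ) + 1) * φ) =
          2 * Real.cos (2 * φ) * Real.cos ((2 * ((n + 1 : ℕ) : ℝ) + 1) * φ) -
            Real.cos ((2 * (n : ℝ) + 1) * φ) := by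
        have a1 : (2 * ((n + 2 : ℕ) : ℝ) + 1) * φ = (2 * ((n + 1 : ℕ) : ℝ) + 1) * φ + 2 * φ := by
          push_cast; ring
        have a2 : (2 * (n : ℝ) + 1) * φ = (2 * ((n + 1 : ℕ) : ℝ) + 1) * φ - 2 * φ := by
          push_cast; ring
        rw [a1, a2, Real.cos_add, Real.cos_sub]; ring
      rw [e2, e1, e0, Real.cos_two_mul]
      simp only [Polynomial.eval_sub, Polynomial.eval_mul, Polynomial.eval_C, Polynomial.eval_X]
      ring

/-- interpolation nodes -/
noncomputable def x00 (I : ℕ) (i : Fin I) : ℝ := 2 * Real.pi * (i + 1) / (2 * I + 1)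

theorem x00_mem (I : ℕ) (i : Fin I) : 0 < x00 I i ∧ x00 I i < Real.pi := by
  have hi : ((i : ℕ) : ℝ) + 1 ≤ I := by exact_mod_cast i.2
  have hpi := Real.pi_pos
  have h0 : (0 : ℝ) ≤ ((i : ℕ) : ℝ) := Nat.cast_nonneg _
  unfold x00
  constructor
  · positivity
  · rw [div_lt_iff₀ (by positivity)]
    nlinarith

theorem cos_x00_ne_zero (I : ℕ) (i : Fin I) : Real.cos (x00 I i) ≠ 0 := by
  intro h
  rw [Real.cos_eq_zero_iff] at h
  obtain ⟨k, hk⟩ := h
  have hpi := Real.pi_pos
  unfold x00 at hk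
  rw [div_eq_div_iff (by positivity) two_ne_zero] at hk
  have h2 : (4 * (((i : ℕ) : ℝ) + 1)) * Real.pi = ((2 * (k : ℝ) + 1) * (2 * I + 1)) * Real.pi := by
    linarith
  have h3 := mul_right_cancel₀ hpi.ne' h2
  have h4 : 4 * (((i : ℕ) : ℤ) + 1) = (2 * k + 1) * (2 * (I : ℤ) + 1) := by exact_mod_cast h3
  have h5 : (2 * k + 1) * (2 * (I : ℤ) + 1) = 2 * (2 * k * I + k + I) + 1 := by ring
  omega

theorem cos_sq_x00_inj (I : ℕ) (i j : Fin I) (h : Real.cos (x00 I i) ^ 2 = Real.cos (x00 I j) ^ 2) :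
    i = j := by
  have hpi := Real.pi_pos
  have h1 : Real.sin (x00 I i + x00 I j) * Real.sin (x00 I i - x00 I j) = 0 := by
    rw [Real.sin_add, Real.sin_sub]
    have s1 := Real.sin_sq_add_cos_sq (x00 I i)
    have s2 := Real.sin_sq_add_cos_sq (x00 I j)
    have e : (Real.sin (x00 I i) * Real.cos (x00 I j) + Real.cos (x00 I i) * Real.sin (x00 I j)) *
      (Real.sin (x00 I i) * Real.cos (x00 I j) - Real.cos (x00 I i) * Real.sin (x00 I j)) =
      Real.sin (x00 I i) ^ 2 * Real.cos (x00 I j) ^ 2 -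
        Real.cos (x00 I i) ^ 2 * Real.sin (x00 I j) ^ 2 := by ring
    rw [e]
    have s1' : Real.sin (x00 I i) ^ 2 = 1 - Real.cos (x00 I i) ^ 2 := by linarith
    have s2' : Real.sin (x00 I j) ^ 2 = 1 - Real.cos (x00 I j) ^ 2 := by linarith
    rw [s1', s2', h]; ring
  have hi : (i : ℕ) + 1 ≤ I := i.2
  have hj : (j : ℕ) + 1 ≤ I := j.2
  rcases mul_eq_zero.1 h1 with h2 | h2
  · rw [Real.sin_eq_zero_iff] at h2
    obtain ⟨k, hk⟩ := h2
    unfold x00 at hk
    have h3 : ((k : ℝ) * (2 * I + 1)) * Real.pi =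
        (2 * (((i : ℕ) : ℝ) + 1 + (((j : ℕ) : ℝ) + 1))) * Real.pi := by
      have hp : (2 * (I : ℝ) + 1) ≠ 0 := by positivity
      field_simp at hk
      rw [hk]
    have h4 := mul_right_cancel₀ hpi.ne' h3
    have h5 : k * (2 * (I : ℤ) + 1) = 2 * (((i : ℕ) : ℤ) + 1 + (((j : ℕ) : ℤ) + 1)) := by
      exact_mod_cast h4
    exfalso
    have hk1 : 0 < k := by
      by_contra hcon
      push Not at hcon
      nlinarith
    have hk2 : k < 2 := by
      by_contra hcon
      push Not at hcon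
      nlinarith
    have hk3 : k = 1 := by omega
    rw [hk3] at h5
    omega
  · rw [Real.sin_eq_zero_iff] at h2
    obtain ⟨k, hk⟩ := h2
    unfold x00 at hk
    have h3 : ((k : ℝ) * (2 * I + 1)) * Real.pi =
        (2 * (((i : ℕ) : ℝ) - ((j : ℕ) : ℝ))) * Real.pi := by
      have hp : (2 * (I : ℝ) + 1) ≠ 0 := by positivity
      field_simp at hk
      rw [hk]; ring
    have h4 := mul_right_cancel₀ hpi.ne' h3
    have h5 : k * (2 * (I : ℤ) + 1) = 2 * (((i : ℕ) : ℤ) - ((j : ℕ) : ℤ)) := by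
      exact_mod_cast h4
    have hk1 : -1 < k := by
      by_contra hcon
      push Not at hcon
      nlinarith
    have hk2 : k < 1 := by
      by_contra hcon
      push Not at hcon
      nlinarith
    have hk3 : k = 0 := by omega
    rw [hk3] at h5
    exact Fin.ext (by omega)

theorem cos_sq_x00_ne_one (I : ℕ) (i : Fin I) : Real.cos (x00 I i) ^ 2 ≠ 1 := by
  have h := x00_mem I i
  have h1 := Real.sin_pos_of_pos_of_lt_pi h.1 h.2
  have h2 := Real.sin_sq_add_cos_sq (x00 I i)
  intro h3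
  rw [h3] at h2
  have : 0 < Real.sin (x00 I i) ^ 2 := by positivity
  linarith

/-- the values at the nodes -/
noncomputable def nodes (I : ℕ) : Option (Fin I) → ℝ
  | none => 1
  | some i => Real.cos (x00 I i) ^ 2

theorem nodes_inj (I : ℕ) : Function.Injective (nodes I) := by
  intro a b h
  match a, b with
  | none, none => rfl
  | none, some j => exact absurd h.symm (cos_sq_x00_ne_one I j)
  | some i, none => exact absurd h (cos_sq_x00_ne_one I i)
  | some i, some j => rw [cos_sq_x00_inj I i j h]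

theorem exists_interp (I : ℕ) (v : Option (Fin I) → ℝ) : ∃ p : Polynomial ℝ, p.natDegree ≤ I ∧
    p.eval 1 = v none ∧ ∀ i, p.eval (Real.cos (x00 I i) ^ 2) = v (some i) := by
  classical
  have hinj : Set.InjOn (nodes I) (Finset.univ : Finset (Option (Fin I))) :=
    (nodes_inj I).injOn
  refine ⟨Lagrange.interpolate Finset.univ (nodes I) v, ?_, ?_, fun i => ?_⟩
  · have h := Lagrange.degree_interpolate_lt (r := v) hinj
    rw [Finset.card_univ, Fintype.card_option, Fintype.card_fin] at h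
    by_cases h0 : Lagrange.interpolate Finset.univ (nodes I) v = 0
    · rw [h0]; simp
    · rw [← Polynomial.natDegree_lt_iff_degree_lt h0] at h
      omega
  · exact Lagrange.eval_interpolate_at_node (r := v) hinj (Finset.mem_univ none)
  · exact Lagrange.eval_interpolate_at_node (r := v) hinj (Finset.mem_univ (some i))

/-- zeros of `4 - 4 cos (m x)` -/
theorem zero_W (I : ℕ) (x : ℝ) (hx : x ∈ Icc 0 Real.pi)
    (h : 4 - 4 * Real.cos ((2 * I + 1) * x) = 0) : x = 0 ∨ ∃ i, x = x00 I i := by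
  have hpi := Real.pi_pos
  have h1 : Real.cos ((2 * I + 1) * x) = 1 := by linarith
  rw [Real.cos_eq_one_iff] at h1
  obtain ⟨n, hn⟩ := h1
  have hm : (0 : ℝ) < 2 * I + 1 := by positivity
  have hn0 : 0 ≤ n := by
    by_contra hcon
    push Not at hcon
    have h2 : (n : ℝ) ≤ -1 := by exact_mod_cast Int.le_sub_one_of_lt hcon
    have h3 : 0 ≤ (2 * (I : ℝ) + 1) * x := mul_nonneg hm.le hx.1
    nlinarith
  have hn1 : n ≤ I := by
    by_contra hcon
    push Not at hcon
    have h2 : (I : ℝ) + 1 ≤ n := by exact_mod_cast hcon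
    have h3 : (2 * (I : ℝ) + 1) * x ≤ (2 * (I : ℝ) + 1) * Real.pi := by
      have := hx.2
      gcongr
    nlinarith
  rcases eq_or_lt_of_le hn0 with h2 | h2
  · left
    rw [← h2] at hn
    simp only [Int.cast_zero, zero_mul] at hn
    rcases mul_eq_zero.1 hn.symm with h3 | h3
    · exact absurd h3 hm.ne'
    · exact h3
  · right
    obtain ⟨k, rfl⟩ : ∃ k : ℕ, n = k + 1 := ⟨(n - 1).toNat, by omega⟩
    refine ⟨⟨k, by omega⟩, ?_⟩
    unfold x00
    rw [eq_div_iff hm.ne']
    push_cast at hn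
    linarith

theorem W_x00 (I : ℕ) (i : Fin I) : 4 - 4 * Real.cos ((2 * I + 1) * x00 I i) = 0 := by
  have h1 : (2 * (I : ℝ) + 1) * x00 I i = ((((i : ℕ) : ℤ) + 1 : ℤ) : ℝ) * (2 * Real.pi) := by
    unfold x00
    have hm : (2 * (I : ℝ) + 1) ≠ 0 := by positivity
    push_cast
    field_simp
  rw [h1, Real.cos_int_mul_two_pi]; ring

theorem conv_W (I : ℕ) (i : Fin I) (f g : ℝ) (hf : |f - x00 I i| ≤ Real.pi / (3 * (2 * I + 1)))
    (hg : |g - x00 I i| ≤ Real.pi / (3 * (2 * I + 1))) :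
    2 * (2 * I + 1) ^ 2 / Real.pi ^ 2 * (f - g) ^ 2 ≤
      (4 - 4 * Real.cos ((2 * I + 1) * f)) + (4 - 4 * Real.cos ((2 * I + 1) * g)) -
        2 * (4 - 4 * Real.cos ((2 * I + 1) * ((f + g) / 2))) := by
  have hpi := Real.pi_pos
  set m : ℝ := 2 * I + 1 with hm
  have hm0 : 0 < m := by positivity
  have e1 : (4 - 4 * Real.cos (m * f)) + (4 - 4 * Real.cos (m * g)) -
        2 * (4 - 4 * Real.cos (m * ((f + g) / 2))) =
      8 * Real.cos (m * ((f + g) / 2)) * (1 - Real.cos (m * ((f - g) / 2))) := by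
    have e2 : Real.cos (m * f) + Real.cos (m * g) =
        2 * Real.cos (m * ((f + g) / 2)) * Real.cos (m * ((f - g) / 2)) := by
      rw [Real.cos_add_cos]
      congr 2
      · congr 1; ring
      · ring
    have : (4 - 4 * Real.cos (m * f)) + (4 - 4 * Real.cos (m * g)) -
        2 * (4 - 4 * Real.cos (m * ((f + g) / 2))) =
        8 * Real.cos (m * ((f + g) / 2)) - 4 * (Real.cos (m * f) + Real.cos (m * g)) := by ring
    rw [this, e2]; ring
  rw [e1]
  have hε : m * (Real.pi / (3 * m)) = Real.pi / 3 := by field_simp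
  have h1 : (1 / 2 : ℝ) ≤ Real.cos (m * ((f + g) / 2)) := by
    have e3 : Real.cos (m * ((f + g) / 2)) = Real.cos (m * ((f + g) / 2 - x00 I i)) := by
      have h2 : m * ((f + g) / 2) = m * ((f + g) / 2 - x00 I i) +
          ((((i : ℕ) : ℤ) + 1 : ℤ) : ℝ) * (2 * Real.pi) := by
        unfold x00
        rw [← hm]
        push_cast
        field_simp
        ring
      rw [h2, Real.cos_add_int_mul_two_pi]
    rw [e3, ← Real.cos_abs, ← Real.cos_pi_div_three]
    apply Real.cos_le_cos_of_nonneg_of_le_pi (abs_nonneg _) (by linarith)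
    rw [abs_mul, abs_of_pos hm0, ← hε]
    apply mul_le_mul_of_nonneg_left _ hm0.le
    rw [abs_le] at hf hg ⊢
    constructor <;> linarith [hf.1, hf.2, hg.1, hg.2]
  have h2 : 2 / Real.pi ^ 2 * (m * ((f - g) / 2)) ^ 2 ≤ 1 - Real.cos (m * ((f - g) / 2)) := by
    have h3 : |m * ((f - g) / 2)| ≤ Real.pi := by
      rw [abs_mul, abs_of_pos hm0]
      have h4 : |(f - g) / 2| ≤ Real.pi / (3 * m) := by
        rw [abs_le] at hf hg ⊢
        constructor <;> linarith [hf.1, hf.2, hg.1, hg.2]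
      calc m * |(f - g) / 2| ≤ m * (Real.pi / (3 * m)) := by gcongr
        _ = Real.pi / 3 := hε
        _ ≤ Real.pi := by linarith
    have := Real.cos_le_one_sub_mul_cos_sq h3
    linarith
  have h3 : 0 ≤ 2 / Real.pi ^ 2 * (m * ((f - g) / 2)) ^ 2 := by positivity
  calc 2 * m ^ 2 / Real.pi ^ 2 * (f - g) ^ 2
      = 8 * (1 / 2) * (2 / Real.pi ^ 2 * (m * ((f - g) / 2)) ^ 2) := by ring
    _ ≤ 8 * Real.cos (m * ((f + g) / 2)) * (1 - Real.cos (m * ((f - g) / 2))) := by
        gcongr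

end Pool.Agent.MP9d
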