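import Pool.Agent.Work.MP_9d788c_ag.ThetaCore
import Pool.Agent.Work.MP_9d788c_ag.ThetaTrig

/-! Existence of the even hyperbolic polynomial data (item G of MP_9d788c_ag). -/

set_option autoImplicit false

namespace Pool.Agent.MP9d

open Set Filter Topology

theorem reflect_eval (I : ℕ) (p : Polynomial ℝ) (hp : p.natDegree ≤ I) (t : ℝ) (ht : t ≠ 0) :
    (p.reflect I).eval (t ^ 2) = (t ^ 2) ^ I * p.eval (1 / t ^ 2) := by
  have ht2 : t ^ 2 ≠ 0 := pow_ne_zero 2 ht
  have hinv : IsUnit (1 / t ^ 2) := (isUnit_iff_ne_zero).2 (by positivity)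
  let _ : Invertible (1 / t ^ 2) := ⟨t ^ 2, by field_simp, by field_simp⟩
  have h := Polynomial.eval₂_reflect_mul_pow (RingHom.id ℝ) (1 / t ^ 2) I p hp
  have h2 : ⅟(1 / t ^ 2) = t ^ 2 := rfl
  rw [h2] at h
  simp only [Polynomial.eval₂_id] at h
  rw [← h]
  have : (t ^ 2) ^ I * ((1 / t ^ 2) ^ I) = 1 := by
    rw [← mul_pow]
    have : t ^ 2 * (1 / t ^ 2) = 1 := by field_simp
    rw [this, one_pow]
  calc (p.reflect I).eval (t ^ 2) = (p.reflect I).eval (t ^ 2) * ((t ^ 2) ^ I * ((1 / t ^ 2) ^ I)) := by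
        rw [this, mul_one]
    _ = _ := by ring

theorem transfer (I : ℕ) (p : Polynomial ℝ) (hp : p.natDegree ≤ I) (δ : ℝ) (a : Fin I → ℝ)
    (s : ℝ) (hs : s = 1 ∨ s = -1) (t : ℝ) (ht : 1 ≤ t) :
    4 * t ^ (2 * I + 1) + s * (p.reflect I).eval (t ^ 2) -
        √(t ^ 2 - 1) * (δ * ∏ i, (t ^ 2 + a i)) =
      t ^ (2 * I + 1) * (4 - Real.cos (Real.arccos (-s / t)) *
        p.eval (Real.cos (Real.arccos (-s / t)) ^ 2) -
        δ * (Real.sin (Real.arccos (-s / t)) *
          ∏ i, (1 + a i * Real.cos (Real.arccos (-s / t)) ^ 2))) := by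
  have ht0 : 0 < t := by linarith
  have hs2 : s ^ 2 = 1 := by rcases hs with rfl | rfl <;> norm_num
  have h1 : 1 / t ≤ 1 := by rw [div_le_one ht0]; exact ht
  have h1' : 0 < 1 / t := by positivity
  have h2 : -1 ≤ -s / t ∧ -s / t ≤ 1 := by
    rcases hs with rfl | rfl
    · have : -1 / t = -(1 / t) := by ring
      rw [this]; constructor <;> linarith
    · have : -(-1) / t = 1 / t := by ring
      rw [this]; constructor <;> linarith
  have hc : Real.cos (Real.arccos (-s / t)) = -s / t := Real.cos_arccos h2.1 h2.2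
  have hc2 : (-s / t) ^ 2 = 1 / t ^ 2 := by
    rw [div_pow, neg_sq, hs2]
  have hsin : Real.sin (Real.arccos (-s / t)) = √(t ^ 2 - 1) / t := by
    rw [Real.sin_arccos, hc2]
    have : 1 - 1 / t ^ 2 = (t ^ 2 - 1) / t ^ 2 := by field_simp
    rw [this, Real.sqrt_div' _ (by positivity), Real.sqrt_sq ht0.le]
  rw [hc, hsin, hc2, reflect_eval I p hp t ht0.ne']
  have hprod : ∏ i, (t ^ 2 + a i) = (t ^ 2) ^ I * ∏ i, (1 + a i * (1 / t ^ 2)) := by
    have : ∀ i, t ^ 2 + a i = t ^ 2 * (1 + a i * (1 / t ^ 2)) := fun i => by field_simp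
    rw [Finset.prod_congr rfl (fun i _ => this i), Finset.prod_mul_distrib, Finset.prod_const,
      Finset.card_univ, Fintype.card_fin]
  rw [hprod]
  have hpow : t ^ (2 * I + 1) = (t ^ 2) ^ I * t := by rw [pow_succ, pow_mul]
  rw [hpow]
  field_simp
  ring

theorem exists_theta (I : ℕ) (hI : 1 ≤ I) : ∃ (r : Polynomial ℝ) (δ : ℝ) (a : Fin I → ℝ)
    (u : Fin I → ℝ) (σ : Fin I → ℝ),
    r.natDegree ≤ I ∧ 0 < δ ∧ δ < 1 ∧ (∀ i, 0 < a i) ∧ Function.Injective a ∧
    (∀ i, 1 < u i) ∧ Function.Injective u ∧ (∀ i, σ i = 1 ∨ σ i = -1) ∧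
    |r.eval 1| < 4 ∧
    (∀ s : ℝ, (s = 1 ∨ s = -1) → ∀ t : ℝ, 1 ≤ t →
      0 ≤ 4 * t ^ (2 * I + 1) + s * r.eval (t ^ 2) - √(t ^ 2 - 1) * (δ * ∏ i, (t ^ 2 + a i)) ∧
      (4 * t ^ (2 * I + 1) + s * r.eval (t ^ 2) - √(t ^ 2 - 1) * (δ * ∏ i, (t ^ 2 + a i)) = 0 ↔
        ∃ i, s = σ i ∧ t = u i)) ∧
    (∃ κ > 0, ∃ η > 0, ∀ i, ∀ t, |t - u i| ≤ η →
      κ * (t - u i) ^ 2 ≤ 4 * t ^ (2 * I + 1) + σ i * r.eval (t ^ 2)
        - √(t ^ 2 - 1) * (δ * ∏ i, (t ^ 2 + a i))) := by
  classical
  have hpi := Real.pi_pos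
  obtain ⟨R, hRd, hR⟩ := exists_odd I
  obtain ⟨α, hαd, hα1, hαx⟩ := exists_interp I (fun o => match o with | none => 1 | some _ => 0)
  have hℓ : ∀ j : Fin I, ∃ p : Polynomial ℝ, p.natDegree ≤ I ∧ p.eval 1 = 0 ∧
      ∀ i, p.eval (Real.cos (x00 I i) ^ 2) = if i = j then 1 / Real.cos (x00 I i) else 0 := by
    intro j
    exact exists_interp I (fun o => match o with
      | none => 0
      | some i => if i = j then 1 / Real.cos (x00 I i) else 0)
  choose ℓ hℓd hℓ1 hℓx using hℓ
  set a : Fin I → ℝ := fun i => (i : ℕ) + 1 with ha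
  set W : ℝ → ℝ := fun x => 4 - 4 * Real.cos ((2 * I + 1) * x) with hW
  set B : ℝ → ℝ := fun x => Real.cos x * α.eval (Real.cos x ^ 2) -
    Real.sin x * ∏ i, (1 + a i * Real.cos x ^ 2) with hB
  set K : Fin I → ℝ → ℝ := fun j x => Real.cos x * (ℓ j).eval (Real.cos x ^ 2) with hK
  have hcos2 : Nice (fun x => Real.cos x ^ 2) := by
    have := Nice.cos.mul Nice.cos
    refine (congrArg Nice (funext fun x => ?_)).mp this
    ring
  have hBn : Nice B := by
    refine (Nice.cos.mul (hcos2.polynomial α)).sub (Nice.sin.mul ?_)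
    exact Nice.prod Finset.univ (fun i _ => (Nice.const 1).add (hcos2.smul (a i)))
  have hKn : ∀ j, Nice (K j) := fun j => Nice.cos.mul (hcos2.polynomial (ℓ j))
  have hB0 : B 0 = 1 := by
    simp only [hB, Real.cos_zero, Real.sin_zero, one_pow, hα1]
    ring
  have hK0 : ∀ j, K j 0 = 0 := fun j => by
    simp only [hK, Real.cos_zero, one_pow, hℓ1]
    ring
  have hKx : ∀ i j, K j (x00 I i) = if i = j then 1 else 0 := by
    intro i j
    simp only [hK, hℓx]
    split_ifs
    · rw [mul_one_div_cancel (cos_x00_ne_zero I i)]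
    · ring
  -- the admissible radius
  obtain ⟨ε2, hε2, hball⟩ : ∃ ε2 > 0, ∀ y : Fin I → ℝ, (∀ i, |y i - x00 I i| < ε2) →
      (∀ i, 0 < y i ∧ y i < Real.pi ∧ Real.cos (y i) ≠ 0) ∧
      (∀ i j, i ≠ j → Real.cos (y i) ^ 2 ≠ Real.cos (y j) ^ 2) := by
    have hev : ∀ᶠ y : Fin I → ℝ in 𝓝 (x00 I),
        (∀ i, 0 < y i ∧ y i < Real.pi ∧ Real.cos (y i) ≠ 0) ∧
        (∀ i j, i ≠ j → Real.cos (y i) ^ 2 ≠ Real.cos (y j) ^ 2) := by
      refine Eventually.and ?_ ?_
      · rw [eventually_all]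
        intro i
        have c1 : ContinuousAt (fun y : Fin I → ℝ => y i) (x00 I) := (continuous_apply i).continuousAt
        have c2 : ContinuousAt (fun y : Fin I → ℝ => Real.cos (y i)) (x00 I) :=
          (Real.continuous_cos.comp (continuous_apply i)).continuousAt
        exact (c1.eventually (lt_mem_nhds (x00_mem I i).1)).and
          ((c1.eventually (gt_mem_nhds (x00_mem I i).2)).and
            (c2.eventually_ne (cos_x00_ne_zero I i)))
      · rw [eventually_all]
        intro i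
        rw [eventually_all]
        intro j
        by_cases hij : i = j
        · exact Eventually.of_forall (fun y h => absurd hij h)
        · have c3 : ContinuousAt (fun y : Fin I → ℝ => Real.cos (y i) ^ 2 - Real.cos (y j) ^ 2)
              (x00 I) := by
            apply Continuous.continuousAt
            have := continuous_apply (A := fun _ : Fin I => ℝ) i
            have := continuous_apply (A := fun _ : Fin I => ℝ) j
            fun_prop
          have c4 : ∀ᶠ y : Fin I → ℝ in 𝓝 (x00 I), Real.cos (y i) ^ 2 - Real.cos (y j) ^ 2 ≠ 0 :=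
            c3.eventually_ne (fun h0 => hij (cos_sq_x00_inj I i j (sub_eq_zero.1 h0)))
          filter_upwards [c4] with y hy _ h2
          exact hy (sub_eq_zero.2 h2)
    obtain ⟨ε, hε, h⟩ := Metric.eventually_nhds_iff.1 hev
    refine ⟨ε, hε, fun y hy => h ?_⟩
    rw [dist_pi_lt_iff hε]
    intro i
    rw [Real.dist_eq]
    exact hy i
  obtain ⟨δ, hδ0, hδ1, κ, x', hx', hΘ, c, hc, η, hη, hgrow⟩ :=
    core (I := I) (W := W) (B := B) (K := K) (x0 := x00 I) (by simp only [hW]; fun_prop)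
      (fun x => by
        have := Real.cos_le_one ((2 * I + 1) * x)
        simp only [hW]; linarith)
      (fun x hx h => zero_W I x hx h) (fun i => W_x00 I i) hBn hKn hB0 hK0 hKx
      (ε1 := Real.pi / (3 * (2 * I + 1))) (c0 := 2 * (2 * I + 1) ^ 2 / Real.pi ^ 2)
      (by positivity) (by positivity)
      (fun i f hf g hg => conv_W I i f g hf hg) hε2
  obtain ⟨hx1, hx2⟩ := hball x' hx'
  set Rho : Polynomial ℝ := Polynomial.C 4 * R - Polynomial.C δ * α -
    ∑ j, Polynomial.C (κ j) * ℓ j with hRho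
  have hRhod : Rho.natDegree ≤ I := by
    rw [hRho]
    refine (Polynomial.natDegree_sub_le _ _).trans ?_
    rw [max_le_iff]
    constructor
    · refine (Polynomial.natDegree_sub_le _ _).trans ?_
      rw [max_le_iff]
      exact ⟨(Polynomial.natDegree_C_mul_le _ _).trans hRd,
        (Polynomial.natDegree_C_mul_le _ _).trans hαd⟩
    · exact Polynomial.natDegree_sum_le_of_forall_le _ _
        (fun j _ => (Polynomial.natDegree_C_mul_le _ _).trans (hℓd j))
  have hRhoe : ∀ x, Rho.eval x = 4 * R.eval x - δ * α.eval x - ∑ j, κ j * (ℓ j).eval x := by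
    intro x
    rw [hRho]
    simp only [Polynomial.eval_sub, Polynomial.eval_mul, Polynomial.eval_C,
      Polynomial.eval_finsetSum]
  have hkey : ∀ φ, 4 - Real.cos φ * Rho.eval (Real.cos φ ^ 2) -
      δ * (Real.sin φ * ∏ i, (1 + a i * Real.cos φ ^ 2)) = W φ + δ * B φ + ∑ j, κ j * K j φ := by
    intro φ
    rw [hRhoe]
    simp only [hW, hB, hK, hR]
    have : ∑ j, κ j * (Real.cos φ * (ℓ j).eval (Real.cos φ ^ 2)) =
        Real.cos φ * ∑ j, κ j * (ℓ j).eval (Real.cos φ ^ 2) := by
      rw [Finset.mul_sum]; exact Finset.sum_congr rfl (fun j _ => by ring)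
    rw [this]; ring
  have hR1 : R.eval 1 = 1 := by
    have := hR 0
    simp only [mul_zero, Real.cos_zero, one_pow, one_mul] at this
    exact this.symm
  set σ : Fin I → ℝ := fun i => if 0 < Real.cos (x' i) then -1 else 1 with hσ
  set u : Fin I → ℝ := fun i => 1 / |Real.cos (x' i)| with hu
  have hcpos : ∀ i, 0 < |Real.cos (x' i)| := fun i => abs_pos.2 (hx1 i).2.2
  have hu0 : ∀ i, 0 < u i := fun i => by simp only [hu]; have := hcpos i; positivity
  have hσ1 : ∀ i, σ i = 1 ∨ σ i = -1 := fun i => by simp only [hσ]; split_ifs <;> simp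
  have hclt : ∀ i, |Real.cos (x' i)| < 1 := by
    intro i
    have h1 := Real.sin_pos_of_pos_of_lt_pi (hx1 i).1 (hx1 i).2.1
    have h2 := Real.sin_sq_add_cos_sq (x' i)
    apply (sq_lt_one_iff_abs_lt_one _).1
    nlinarith
  have hu1 : ∀ i, 1 < u i := fun i => by
    simp only [hu]
    rw [lt_div_iff₀ (hcpos i), one_mul]
    exact hclt i
  have hσc : ∀ i, -σ i / u i = Real.cos (x' i) := by
    intro i
    simp only [hσ, hu]
    split_ifs with h
    · rw [abs_of_pos h]; field_simp
    · have h' : Real.cos (x' i) < 0 := lt_of_le_of_ne (not_lt.1 h) (hx1 i).2.2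
      rw [abs_of_neg h']
      have := h'.ne
      field_simp
  have harc : ∀ i, Real.arccos (-σ i / u i) = x' i := fun i => by
    rw [hσc i, Real.arccos_cos (hx1 i).1.le (hx1 i).2.1.le]
  have hphi : ∀ x : ℝ, Real.arccos x ∈ Icc 0 Real.pi := fun x =>
    ⟨Real.arccos_nonneg x, Real.arccos_le_pi x⟩
  refine ⟨Rho.reflect I, δ, a, u, σ, ?_, hδ0, hδ1, fun i => by simp only [ha]; positivity, ?_, hu1,
    ?_, hσ1, ?_, ?_, ?_⟩
  · refine (Polynomial.natDegree_reflect_le).trans ?_
    rw [max_le_iff]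
    exact ⟨le_rfl, hRhod⟩
  · intro i j hij
    simp only [ha, add_left_inj, Nat.cast_inj] at hij
    exact Fin.ext hij
  · intro i j hij
    by_contra hne
    apply hx2 i j hne
    simp only [hu] at hij
    have h1 : |Real.cos (x' i)| = |Real.cos (x' j)| := by
      have e1 := (hcpos i).ne'
      have e2 := (hcpos j).ne'
      field_simp at hij
      exact hij.symm
    rw [← sq_abs, h1, sq_abs]
  · have h1 := reflect_eval I Rho hRhod 1 one_ne_zero
    simp only [one_pow, one_mul, div_one] at h1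
    rw [h1, hRhoe, hR1, hα1]
    simp only [hℓ1, mul_zero, Finset.sum_const_zero]
    rw [abs_lt]
    constructor <;> linarith
  · intro s hs t ht
    have ht0 : 0 < t := by linarith
    rw [transfer I Rho hRhod δ a s hs t ht, hkey]
    obtain ⟨h1, h2⟩ := hΘ (Real.arccos (-s / t)) (hphi _)
    have hpow : 0 < t ^ (2 * I + 1) := by positivity
    refine ⟨mul_nonneg hpow.le h1, ?_⟩
    rw [mul_eq_zero, or_iff_right hpow.ne', h2]
    constructor
    · rintro ⟨i, hi⟩
      refine ⟨i, ?_⟩
      have h3 : -s / t = Real.cos (x' i) := by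
        rw [← hi, Real.cos_arccos]
        · rcases hs with rfl | rfl
          · rw [le_div_iff₀ ht0]; linarith
          · rw [le_div_iff₀ ht0]; linarith
        · rcases hs with rfl | rfl
          · rw [div_le_iff₀ ht0]; linarith
          · rw [div_le_iff₀ ht0]; linarith
      have h4 : |Real.cos (x' i)| = 1 / t := by
        rw [← h3, abs_div, abs_of_pos ht0]
        rcases hs with rfl | rfl <;> norm_num
      constructor
      · simp only [hσ]
        rw [← h3]
        rcases hs with rfl | rfl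
        · have : ¬ 0 < -1 / t := by
            rw [not_lt]
            exact div_nonpos_of_nonpos_of_nonneg (by norm_num) ht0.le
          rw [if_neg this]
        · have : 0 < -(-1) / t := by
            rw [neg_neg]; positivity
          rw [if_pos this]
      · simp only [hu]
        rw [h4, one_div_one_div]
    · rintro ⟨i, rfl, rfl⟩
      exact ⟨i, harc i⟩
  · -- growth
    have hev : ∀ᶠ y in 𝓝 (0 : ℝ), ∀ i, 1 < u i + y ∧ u i + y < u i + 1 ∧
        |Real.arccos (-σ i / (u i + y)) - x' i| < η := by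
      rw [eventually_all]
      intro i
      have c1 : ContinuousAt (fun y : ℝ => u i + y) 0 := by fun_prop
      have c2 : ContinuousAt (fun y : ℝ => |Real.arccos (-σ i / (u i + y)) - x' i|) 0 := by
        have c3 : ContinuousAt (fun y : ℝ => -σ i / (u i + y)) 0 := by
          apply ContinuousAt.div continuousAt_const c1
          rw [add_zero]; exact (hu0 i).ne'
        have c4 : ContinuousAt (fun y : ℝ => Real.arccos (-σ i / (u i + y))) 0 :=
          Real.continuous_arccos.continuousAt.comp c3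
        exact (c4.sub continuousAt_const).abs
      have h0 : |Real.arccos (-σ i / (u i + 0)) - x' i| < η := by
        rw [add_zero, harc i, sub_self, abs_zero]
        exact hη
      have h1 : 1 < u i + 0 := by rw [add_zero]; exact hu1 i
      have h2 : u i + 0 < u i + 1 := by linarith
      exact (c1.eventually (lt_mem_nhds h1)).and
        ((c1.eventually (gt_mem_nhds h2)).and (c2.eventually (gt_mem_nhds h0)))
    obtain ⟨η', hη', hb⟩ := Metric.eventually_nhds_iff.1 hev
    set M : ℝ := ∑ i, u i + 1 with hM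
    have huM : ∀ i, u i + 1 ≤ M := by
      intro i
      have := Finset.single_le_sum (f := u) (fun j _ => (hu0 j).le) (Finset.mem_univ i)
      rw [hM]; linarith
    have hM0 : 0 < M := by
      have : 0 ≤ ∑ i, u i := Finset.sum_nonneg (fun j _ => (hu0 j).le)
      rw [hM]; linarith
    refine ⟨c / (M * M) ^ 2, by positivity, η' / 2, by positivity, fun i t ht => ?_⟩
    obtain ⟨h1, h2, h3⟩ := hb (y := t - u i) (by rw [Real.dist_eq, sub_zero]; linarith) i
    have e : u i + (t - u i) = t := by ring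
    rw [e] at h1 h2 h3
    have ht0 : 0 < t := by linarith
    rw [transfer I Rho hRhod δ a (σ i) (hσ1 i) t h1.le, hkey]
    have h4 := hgrow i (Real.arccos (-σ i / t)) h3.le
    have h5 : Real.cos (Real.arccos (-σ i / t)) = -σ i / t := by
      apply Real.cos_arccos
      · rcases hσ1 i with h | h <;> rw [h, le_div_iff₀ ht0] <;> linarith
      · rcases hσ1 i with h | h <;> rw [h, div_le_iff₀ ht0] <;> linarith
    have h6 : |Real.cos (Real.arccos (-σ i / t)) - Real.cos (x' i)| ≤
        |Real.arccos (-σ i / t) - x' i| := by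
      have := Real.lipschitzWith_cos.dist_le_mul (Real.arccos (-σ i / t)) (x' i)
      rw [Real.dist_eq, Real.dist_eq] at this
      simpa using this
    have h7 : (1 / t - 1 / u i) ^ 2 ≤ (Real.arccos (-σ i / t) - x' i) ^ 2 := by
      have e1 : (Real.cos (Real.arccos (-σ i / t)) - Real.cos (x' i)) ^ 2 =
          (1 / t - 1 / u i) ^ 2 := by
        rw [h5, ← hσc i]
        have e2 : -σ i / t - -σ i / u i = -σ i * (1 / t - 1 / u i) := by ring
        rw [e2, mul_pow]
        rcases hσ1 i with h | h <;> rw [h] <;> norm_num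
      rw [← e1]
      exact sq_le_sq.2 h6
    have h8 : (t - u i) ^ 2 / (M * M) ^ 2 ≤ (1 / t - 1 / u i) ^ 2 := by
      have e1 : (1 / t - 1 / u i) ^ 2 = (t - u i) ^ 2 / (t * u i) ^ 2 := by
        have := (hu0 i).ne'
        field_simp
        ring
      rw [e1]
      have e2 : t ≤ M := by linarith [huM i]
      have e3 : u i ≤ M := by linarith [huM i]
      have := hu0 i
      gcongr
    have h9 : 1 ≤ t ^ (2 * I + 1) := one_le_pow₀ h1.le
    have h10 : 0 ≤ W (Real.arccos (-σ i / t)) + δ * B (Real.arccos (-σ i / t)) +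
        ∑ j, κ j * K j (Real.arccos (-σ i / t)) := (hΘ _ (hphi _)).1
    calc c / (M * M) ^ 2 * (t - u i) ^ 2 = c * ((t - u i) ^ 2 / (M * M) ^ 2) := by ring
      _ ≤ c * (Real.arccos (-σ i / t) - x' i) ^ 2 := by gcongr; exact h8.trans h7
      _ ≤ W (Real.arccos (-σ i / t)) + δ * B (Real.arccos (-σ i / t)) +
        ∑ j, κ j * K j (Real.arccos (-σ i / t)) := h4
      _ = 1 * (W (Real.arccos (-σ i / t)) + δ * B (Real.arccos (-σ i / t)) +
        ∑ j, κ j * K j (Real.arccos (-σ i / t))) := (one_mul _).symm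
      _ ≤ _ := by gcongr

end Pool.Agent.MP9d
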