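import Mathlib

namespace Pool.Agent.MP9d

/-- lattice points of the triangle with vertices (-2,0), (0,0), (2,2m) -/
noncomputable def Dm (m : ℤ) : Finset (ℤ × ℤ) :=
  ((Finset.Icc (-2) 2) ×ˢ (Finset.Icc 0 (2 * m))).filter
    (fun w => m * w.1 ≤ w.2 ∧ 2 * w.2 ≤ 2 * m + m * w.1)

/-- interior lattice points of the triangle -/
noncomputable def Dint (m : ℤ) : Finset (ℤ × ℤ) :=
  ((Finset.Icc (-2) 2) ×ˢ (Finset.Icc 0 (2 * m))).filter
    (fun w => 0 < w.2 ∧ m * w.1 < w.2 ∧ 2 * w.2 < 2 * m + m * w.1)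

end Pool.Agent.MP9d
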