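import Mathlib
import Pool.Agent.Work.MP_9d788c_ag.TileDef

/-! Tile polynomial for the nonnegative ternary forms problem (item H of MP_9d788c_ag):
a Laurent polynomial supported in the triangle with vertices (-2,0), (0,0), (2,2m), m = 2I+1,
nonnegative on the torus with exactly 3I zeros, all nondegenerate and separated by interior
monomials. -/

open MvPolynomial

namespace Pool.Agent.MP9d

namespace Tl

lemma sum_line (F : ℤ → ℝ) (S : Finset ℤ) (p : ℤ → Prop) [DecidablePred p] (l : ℤ) (k : ℕ)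
    (h : ∀ y, (y ∈ S ∧ p y) ↔ ∃ j : ℕ, j < k ∧ y = l + j) :
    ∑ y ∈ S, (if p y then F y else 0) = ∑ j ∈ Finset.range k, F (l + j) := by
  rw [← Finset.sum_filter]
  have : S.filter p = (Finset.range k).image (fun j : ℕ => l + (j:ℤ)) := by
    ext y
    simp only [Finset.mem_filter, Finset.mem_image, Finset.mem_range]
    rw [h]
    constructor
    · rintro ⟨j, hj, rfl⟩; exact ⟨j, hj, rfl⟩
    · rintro ⟨j, hj, rfl⟩; exact ⟨j, hj, rfl⟩
  rw [this, Finset.sum_image]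
  intro a _ b _ hab
  simpa using hab

lemma sum_Dm (I : ℕ) (F : ℤ × ℤ → ℝ) :
    ∑ w ∈ Dm (2 * I + 1), F w = F (-2, 0) + ∑ j ∈ Finset.range (I+1), F (-1, (j:ℤ))
      + ∑ j ∈ Finset.range (2*I+2), F (0, (j:ℤ))
      + ∑ j ∈ Finset.range (I+1), F (1, 2*(I:ℤ)+1+j) + F (2, 2*(2*(I:ℤ)+1)) := by
  unfold Dm
  rw [Finset.sum_filter, Finset.sum_product]
  have h5 : Finset.Icc (-2:ℤ) 2 = {-2,-1,0,1,2} := by decide
  rw [h5]
  rw [Finset.sum_insert (by decide), Finset.sum_insert (by decide), Finset.sum_insert (by decide),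
    Finset.sum_insert (by decide), Finset.sum_singleton]
  rw [sum_line (fun y => F (-2, y)) _ _ 0 1, sum_line (fun y => F (-1, y)) _ _ 0 (I+1),
    sum_line (fun y => F (0, y)) _ _ 0 (2*I+2), sum_line (fun y => F (1, y)) _ _ (2*I+1) (I+1),
    sum_line (fun y => F (2, y)) _ _ (2*(2*I+1)) 1]
  · simp
    ring
  · intro y
    simp only [Finset.mem_Icc]
    constructor
    · rintro ⟨h1, h2⟩; exact ⟨0, by omega, by omega⟩
    · rintro ⟨j, hj, rfl⟩; omega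
  · intro y
    simp only [Finset.mem_Icc]
    constructor
    · rintro ⟨h1, h2⟩; exact ⟨(y - (2*I+1)).toNat, by omega, by omega⟩
    · rintro ⟨j, hj, rfl⟩; omega
  · intro y
    simp only [Finset.mem_Icc]
    constructor
    · rintro ⟨h1, h2⟩; exact ⟨y.toNat, by omega, by omega⟩
    · rintro ⟨j, hj, rfl⟩; omega
  · intro y
    simp only [Finset.mem_Icc]
    constructor
    · rintro ⟨h1, h2⟩; exact ⟨y.toNat, by omega, by omega⟩
    · rintro ⟨j, hj, rfl⟩; omega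
  · intro y
    simp only [Finset.mem_Icc]
    constructor
    · rintro ⟨h1, h2⟩; exact ⟨y.toNat, by omega, by omega⟩
    · rintro ⟨j, hj, rfl⟩; omega

lemma sum_Dint (I : ℕ) (F : ℤ × ℤ → ℝ) :
    ∑ w ∈ Dint (2 * I + 1), F w = ∑ j ∈ Finset.range I, F (-1, 1 + (j:ℤ))
      + ∑ j ∈ Finset.range (2*I), F (0, 1 + (j:ℤ))
      + ∑ j ∈ Finset.range I, F (1, 2*(I:ℤ)+2+j) := by
  unfold Dint
  rw [Finset.sum_filter, Finset.sum_product]
  have h5 : Finset.Icc (-2:ℤ) 2 = {-2,-1,0,1,2} := by decide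
  rw [h5]
  rw [Finset.sum_insert (by decide), Finset.sum_insert (by decide), Finset.sum_insert (by decide),
    Finset.sum_insert (by decide), Finset.sum_singleton]
  rw [sum_line (fun y => F (-2, y)) _ _ 0 0, sum_line (fun y => F (-1, y)) _ _ 1 I,
    sum_line (fun y => F (0, y)) _ _ 1 (2*I), sum_line (fun y => F (1, y)) _ _ (2*I+2) I,
    sum_line (fun y => F (2, y)) _ _ 0 0]
  · simp
    ring
  · intro y
    simp only [Finset.mem_Icc]
    constructor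
    · rintro ⟨h1, h2⟩; exact ⟨0, by omega, by omega⟩
    · rintro ⟨j, hj, rfl⟩; omega
  · intro y
    simp only [Finset.mem_Icc]
    constructor
    · rintro ⟨h1, h2⟩; exact ⟨(y - (2*I+2)).toNat, by omega, by omega⟩
    · rintro ⟨j, hj, rfl⟩; omega
  · intro y
    simp only [Finset.mem_Icc]
    constructor
    · rintro ⟨h1, h2⟩; exact ⟨(y-1).toNat, by omega, by omega⟩
    · rintro ⟨j, hj, rfl⟩; omega
  · intro y
    simp only [Finset.mem_Icc]
    constructor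
    · rintro ⟨h1, h2⟩; exact ⟨(y-1).toNat, by omega, by omega⟩
    · rintro ⟨j, hj, rfl⟩; omega
  · intro y
    simp only [Finset.mem_Icc]
    constructor
    · rintro ⟨h1, h2⟩; exact ⟨0, by omega, by omega⟩
    · rintro ⟨j, hj, rfl⟩; omega

/-- the coefficients of the unnormalised tile polynomial -/
noncomputable def a0 (I : ℕ) (r p : Polynomial ℝ) (w : ℤ × ℤ) : ℝ :=
  if w.1 = -2 then 1 else if w.1 = -1 then r.coeff w.2.toNat else
  if w.1 = 0 then p.coeff w.2.toNat else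
  if w.1 = 1 then r.coeff (w.2 - (2*I+1)).toNat else 1

lemma sum_a0 (I : ℕ) (r p : Polynomial ℝ) (hr : r.natDegree ≤ I) (hp : p.natDegree ≤ 2*I+1)
    (x y : ℝ) (hy : y ≠ 0) :
    ∑ w ∈ Dm (2 * I + 1), a0 I r p w * x ^ w.1 * y ^ w.2
      = (x⁻¹) ^ 2 + x⁻¹ * r.eval y + p.eval y + x * y ^ (2*I+1) * r.eval y
        + x ^ 2 * y ^ (2*(2*I+1)) := by
  rw [sum_Dm]
  have h1 : r.eval y = ∑ j ∈ Finset.range (I+1), r.coeff j * y ^ j :=
    Polynomial.eval_eq_sum_range' (by omega) y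
  have h2 : p.eval y = ∑ j ∈ Finset.range (2*I+2), p.coeff j * y ^ j :=
    Polynomial.eval_eq_sum_range' (by omega) y
  have e1 : ∑ j ∈ Finset.range (I+1), a0 I r p (-1, (j:ℤ)) * x ^ (-1 : ℤ) * y ^ (j:ℤ)
      = x⁻¹ * r.eval y := by
    rw [h1, Finset.mul_sum]
    apply Finset.sum_congr rfl
    intro j _
    simp [a0]
    ring
  have e2 : ∑ j ∈ Finset.range (2*I+2), a0 I r p (0, (j:ℤ)) * x ^ (0 : ℤ) * y ^ (j:ℤ)
      = p.eval y := by
    rw [h2]
    apply Finset.sum_congr rfl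
    intro j _
    simp [a0]
  have e3 : ∑ j ∈ Finset.range (I+1), a0 I r p (1, 2*(I:ℤ)+1+j) * x ^ (1 : ℤ)
      * y ^ (2*(I:ℤ)+1+j) = x * y ^ (2*I+1) * r.eval y := by
    rw [h1, Finset.mul_sum]
    apply Finset.sum_congr rfl
    intro j _
    have : (y : ℝ) ^ (2*(I:ℤ)+1+j) = y ^ (2*I+1) * y ^ j := by
      rw [zpow_add₀ hy, zpow_natCast]
      congr 1
    rw [this]
    simp [a0]
    ring
  have e4 : (y : ℝ) ^ (2*(2*(I:ℤ)+1)) = y ^ (2*(2*I+1)) := by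
    exact_mod_cast zpow_natCast y (2*(2*I+1))
  simp only [e1, e2, e3]
  rw [e4]
  have e5 : (x : ℝ) ^ (-2 : ℤ) = (x⁻¹)^2 := by
    rw [zpow_neg, inv_pow]
    norm_cast
  simp [a0, e5]

/-- the product factor -/
noncomputable def ee {I : ℕ} (δ : ℝ) (a : Fin I → ℝ) (y : ℝ) : ℝ := δ * ∏ i, (y + a i)
/-- the first square -/
noncomputable def ff (I : ℕ) (r : Polynomial ℝ) (x y : ℝ) : ℝ :=
  x⁻¹ + x * y ^ (2*I+1) + r.eval y / 2
/-- the unnormalised tile polynomial -/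
noncomputable def PP (I : ℕ) (r : Polynomial ℝ) (δ : ℝ) (a : Fin I → ℝ) (x y : ℝ) : ℝ :=
  (ff I r x y)^2 + (1-y) * (ee δ a y / 2)^2

/-- ee as a polynomial -/
noncomputable def eP {I : ℕ} (δ : ℝ) (a : Fin I → ℝ) : Polynomial ℝ :=
  Polynomial.C δ * ∏ i, (Polynomial.X + Polynomial.C (a i))
/-- the middle coefficient polynomial -/
noncomputable def pP {I : ℕ} (r : Polynomial ℝ) (δ : ℝ) (a : Fin I → ℝ) : Polynomial ℝ :=
  Polynomial.C (1/4) * ((1 - Polynomial.X) * (eP δ a)^2 + 8 * Polynomial.X ^ (2*I+1) + r^2)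

lemma eP_eval {I : ℕ} (δ : ℝ) (a : Fin I → ℝ) (y : ℝ) : (eP δ a).eval y = ee δ a y := by
  simp [eP, ee, Polynomial.eval_prod]

lemma pP_eval {I : ℕ} (r : Polynomial ℝ) (δ : ℝ) (a : Fin I → ℝ) (y : ℝ) :
    (pP r δ a).eval y = ((1-y) * (ee δ a y)^2 + 8 * y^(2*I+1) + (r.eval y)^2)/4 := by
  simp [pP, eP_eval]
  ring

lemma monic_prod (I : ℕ) (a : Fin I → ℝ) :
    (∏ i, (Polynomial.X + Polynomial.C (a i))).Monic :=
  Polynomial.monic_prod_of_monic _ _ (fun i _ => Polynomial.monic_X_add_C (a i))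

lemma natDegree_prod (I : ℕ) (a : Fin I → ℝ) :
    (∏ i, (Polynomial.X + Polynomial.C (a i))).natDegree = I := by
  rw [Polynomial.natDegree_prod_of_monic _ _ (fun i _ => Polynomial.monic_X_add_C (a i))]
  simp

lemma eP_natDegree {I : ℕ} (δ : ℝ) (a : Fin I → ℝ) : (eP δ a).natDegree ≤ I := by
  unfold eP
  refine (Polynomial.natDegree_C_mul_le _ _).trans ?_
  rw [natDegree_prod]

lemma eP_coeff {I : ℕ} (δ : ℝ) (a : Fin I → ℝ) : (eP δ a).coeff I = δ := by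
  unfold eP
  rw [Polynomial.coeff_C_mul]
  have h := monic_prod I a
  rw [Polynomial.Monic, Polynomial.leadingCoeff, natDegree_prod] at h
  rw [h, mul_one]

lemma pP_natDegree {I : ℕ} (r : Polynomial ℝ) (hr : r.natDegree ≤ I) (δ : ℝ) (a : Fin I → ℝ) :
    (pP r δ a).natDegree ≤ 2*I+1 := by
  unfold pP
  refine (Polynomial.natDegree_C_mul_le _ _).trans ?_
  refine Polynomial.natDegree_add_le_of_degree_le (Polynomial.natDegree_add_le_of_degree_le ?_ ?_) ?_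
  · refine Polynomial.natDegree_mul_le.trans ?_
    have h1 : (1 - Polynomial.X : Polynomial ℝ).natDegree ≤ 1 := by
      refine (Polynomial.natDegree_sub_le _ _).trans ?_
      simp
    have h2 : ((eP δ a)^2).natDegree ≤ 2 * I :=
      Polynomial.natDegree_pow_le_of_le 2 (eP_natDegree δ a)
    omega
  · refine Polynomial.natDegree_mul_le.trans ?_
    have h1 : (8 : Polynomial ℝ).natDegree = 0 := Polynomial.natDegree_ofNat 8
    rw [h1, Polynomial.natDegree_X_pow]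
    omega
  · have h2 : (r^2).natDegree ≤ 2 * I := Polynomial.natDegree_pow_le_of_le 2 hr
    omega

lemma pP_coeff {I : ℕ} (r : Polynomial ℝ) (hr : r.natDegree ≤ I) (δ : ℝ) (a : Fin I → ℝ) :
    (pP r δ a).coeff (2*I+1) = 2 - δ^2/4 := by
  unfold pP
  have h2 : ((eP δ a)^2).natDegree ≤ 2 * I :=
    Polynomial.natDegree_pow_le_of_le 2 (eP_natDegree δ a)
  have h3 : (r^2).natDegree ≤ 2 * I := Polynomial.natDegree_pow_le_of_le 2 hr
  have h4 : (r^2).coeff (2*I+1) = 0 := Polynomial.coeff_eq_zero_of_natDegree_lt (by omega)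
  have h5 : ((eP δ a)^2).coeff (2*I+1) = 0 := Polynomial.coeff_eq_zero_of_natDegree_lt (by omega)
  have h6 : ((eP δ a)^2).coeff (2*I) = δ^2 := by
    have := Polynomial.coeff_pow_of_natDegree_le (m := 2) (eP_natDegree δ a)
    rw [eP_coeff] at this
    exact this
  have h8 : (8 * Polynomial.X ^ (2*I+1) : Polynomial ℝ).coeff (2*I+1) = 8 := by
    have : (8 : Polynomial ℝ) = Polynomial.C 8 := rfl
    rw [this, Polynomial.coeff_C_mul, Polynomial.coeff_X_pow]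
    simp
  rw [Polynomial.coeff_C_mul, Polynomial.coeff_add, Polynomial.coeff_add, h4, h8, sub_mul, one_mul,
    Polynomial.coeff_sub, h5, Polynomial.coeff_X_mul, h6]
  ring

lemma PP_eq (I : ℕ) (r : Polynomial ℝ) (hr : r.natDegree ≤ I) (δ : ℝ) (a : Fin I → ℝ)
    (x y : ℝ) (hx : x ≠ 0) (hy : y ≠ 0) :
    ∑ w ∈ Dm (2 * I + 1), a0 I r (pP r δ a) w * x ^ w.1 * y ^ w.2 = PP I r δ a x y := by
  rw [sum_a0 I r _ hr (pP_natDegree r hr δ a) x y hy, pP_eval]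
  unfold PP ff
  rw [mul_comm 2 (2*I+1), pow_mul]
  have : x⁻¹ * x = 1 := inv_mul_cancel₀ hx
  linear_combination (-2 * y^(2*I+1)) * this

/-- roots of the quadratic over a negative `y` -/
lemma quad_roots (q c : ℝ) (hq : 0 < q) : ∃ xp xm : ℝ, 0 < xp ∧ xm < 0 ∧
    ∀ x : ℝ, x ≠ 0 → (x⁻¹ - q*x + c = 0 ↔ x = xp ∨ x = xm) := by
  have hD0 : 0 ≤ c^2+4*q := by positivity
  have hD : √(c^2+4*q)^2 = c^2+4*q := Real.sq_sqrt hD0
  have hDc : |c| < √(c^2+4*q) := by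
    rw [← Real.sqrt_sq_eq_abs]
    exact Real.sqrt_lt_sqrt (by positivity) (by linarith)
  set D := √(c^2+4*q) with hDdef
  obtain ⟨h1, h2⟩ := abs_lt.mp hDc
  refine ⟨(c+D)/(2*q), (c-D)/(2*q), div_pos (by linarith) (by linarith),
    div_neg_of_neg_of_pos (by linarith) (by linarith), ?_⟩
  intro x hx
  have key : q * (x - (c+D)/(2*q)) * (x - (c-D)/(2*q)) = -x * (x⁻¹ - q*x + c) := by
    have : x * x⁻¹ = 1 := mul_inv_cancel₀ hx
    field_simp
    linear_combination (-1) * hD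
  constructor
  · intro h
    rw [h, mul_zero] at key
    rcases mul_eq_zero.mp key with h3 | h3
    · rcases mul_eq_zero.mp h3 with h4 | h4
      · exact absurd h4 hq.ne'
      · left; linarith
    · right; linarith
  · rintro (h | h)
    · rw [← h] at key
      simp only [sub_self, mul_zero, zero_mul] at key
      rcases mul_eq_zero.mp key.symm with h3 | h3
      · exact absurd (neg_eq_zero.mp h3) hx
      · exact h3
    · rw [← h] at key
      simp only [sub_self, mul_zero] at key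
      rcases mul_eq_zero.mp key.symm with h3 | h3
      · exact absurd (neg_eq_zero.mp h3) hx
      · exact h3

lemma ee_eq_zero {I : ℕ} {δ : ℝ} (hδ : 0 < δ) (a : Fin I → ℝ) (y : ℝ) :
    ee δ a y = 0 ↔ ∃ i, y = - a i := by
  unfold ee
  rw [mul_eq_zero, Finset.prod_eq_zero_iff]
  constructor
  · rintro (h | ⟨i, _, hi⟩)
    · exact absurd h hδ.ne'
    · exact ⟨i, by linarith⟩
  · rintro ⟨i, hi⟩
    exact Or.inr ⟨i, Finset.mem_univ _, by linarith⟩

lemma ee_pos {I : ℕ} {δ : ℝ} (hδ : 0 < δ) {a : Fin I → ℝ} (ha : ∀ i, 0 < a i) {y : ℝ} (hy : 0 ≤ y) :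
    0 < ee δ a y := by
  unfold ee
  refine mul_pos hδ (Finset.prod_pos ?_)
  intro i _
  have := ha i
  linarith

/-- factorisation over `y = t^2` -/
lemma PP_factor (I : ℕ) (r : Polynomial ℝ) (δ : ℝ) (a : Fin I → ℝ) (s x t : ℝ)
    (hs : s = 1 ∨ s = -1) (hx : x ≠ 0) (ht : 1 ≤ t) :
    PP I r δ a x (t^2) =
      ((s*x)⁻¹ * (1 - s*x*t^(2*I+1))^2
        + (4 * t ^ (2 * I + 1) + s * r.eval (t ^ 2) - √(t ^ 2 - 1) * ee δ a (t^2))/2) *
      ((s*x)⁻¹ * (1 - s*x*t^(2*I+1))^2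
        + (4 * t ^ (2 * I + 1) + s * r.eval (t ^ 2) + √(t ^ 2 - 1) * ee δ a (t^2))/2) := by
  have hw : √(t^2-1)^2 = t^2 - 1 := Real.sq_sqrt (by nlinarith)
  have hA : (s*x)⁻¹ * (1 - s*x*t^(2*I+1))^2 + 2 * t^(2*I+1)
      = s * (x⁻¹ + x * (t^2)^(2*I+1)) := by
    have h1 : (t^2)^(2*I+1) = t^(2*I+1) * t^(2*I+1) := by ring
    rw [h1]
    have h2 : x⁻¹ * x = 1 := inv_mul_cancel₀ hx
    rcases hs with rfl | rfl
    · rw [one_mul]
      linear_combination (-2 * t^(2*I+1) + x * t^(2*I+1) * t^(2*I+1)) * h2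
    · have h3 : (-1 * x)⁻¹ = - x⁻¹ := by rw [neg_one_mul, inv_neg]
      rw [h3]
      linear_combination (-2 * t^(2*I+1) - x * t^(2*I+1) * t^(2*I+1)) * h2
  have hs2 : s^2 = 1 := by rcases hs with rfl | rfl <;> norm_num
  set w := √(t^2-1)
  set B := (s*x)⁻¹ * (1 - s*x*t^(2*I+1))^2
  set e := ee δ a (t^2)
  have hf : (ff I r x (t^2))^2 = (B + 2 * t^(2*I+1) + s * r.eval (t^2)/2)^2 := by
    rw [hA]
    unfold ff
    linear_combination (-(x⁻¹ + x * (t^2)^(2*I+1) + r.eval (t^2)/2)^2) * hs2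
  unfold PP
  rw [hf]
  linear_combination ((e/2)^2) * hw

lemma PP_neg {I : ℕ} {r : Polynomial ℝ} {δ : ℝ} {a : Fin I → ℝ} (hδ : 0 < δ) (x y : ℝ) (hy : y < 0) :
    0 ≤ PP I r δ a x y ∧ (PP I r δ a x y = 0 ↔ ff I r x y = 0 ∧ ∃ i, y = - a i) := by
  rw [← ee_eq_zero hδ]
  unfold PP
  have h1 : 0 ≤ (ff I r x y)^2 := sq_nonneg _
  have h2 : 0 ≤ (ee δ a y / 2)^2 := sq_nonneg _
  have h3 : 0 ≤ (1-y) * (ee δ a y / 2)^2 := mul_nonneg (by linarith) h2
  refine ⟨add_nonneg h1 h3, ?_⟩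
  constructor
  · intro h
    have h4 : (ff I r x y)^2 = 0 := by linarith
    have h5 : (1-y) * (ee δ a y / 2)^2 = 0 := by linarith
    refine ⟨by simpa using h4, ?_⟩
    rcases mul_eq_zero.mp h5 with h6 | h6
    · linarith
    · have := pow_eq_zero_iff (two_ne_zero) |>.mp h6
      linarith
  · rintro ⟨h4, h5⟩
    rw [h4, h5]
    simp

lemma PP_mid {I : ℕ} {r : Polynomial ℝ} {δ : ℝ} {a : Fin I → ℝ} (hδ : 0 < δ) (ha : ∀ i, 0 < a i)
    (x y : ℝ) (hy : 0 < y) (hy1 : y < 1) : 0 < PP I r δ a x y := by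
  unfold PP
  have h1 : 0 ≤ (ff I r x y)^2 := sq_nonneg _
  have h2 := ee_pos hδ ha hy.le
  have h3 : 0 < (1-y) * (ee δ a y / 2)^2 := mul_pos (by linarith) (by positivity)
  linarith

lemma PP_one {I : ℕ} {r : Polynomial ℝ} {δ : ℝ} {a : Fin I → ℝ} (hr1 : |r.eval 1| < 4)
    (x : ℝ) (hx : x ≠ 0) : 0 < PP I r δ a x 1 := by
  unfold PP
  have h : ff I r x 1 ≠ 0 := by
    intro h
    unfold ff at h
    rw [one_pow, mul_one] at h
    have h1 : x * x⁻¹ = 1 := mul_inv_cancel₀ hx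
    obtain ⟨h2, h3⟩ := abs_lt.mp hr1
    rcases lt_or_gt_of_ne hx with h4 | h4
    · have h5 : x⁻¹ < 0 := inv_lt_zero.mpr h4
      nlinarith [sq_nonneg (x - x⁻¹), sq_nonneg (x + x⁻¹)]
    · have h5 : 0 < x⁻¹ := inv_pos.mpr h4
      nlinarith [sq_nonneg (x - x⁻¹), sq_nonneg (x + x⁻¹)]
  have : 0 < (ff I r x 1)^2 := by positivity
  simp
  exact this

lemma PP_big {I : ℕ} {r : Polynomial ℝ} {δ : ℝ} {a u σ : Fin I → ℝ} (hδ : 0 < δ)
    (ha : ∀ i, 0 < a i) (hu : ∀ i, 1 < u i) (hσ : ∀ i, σ i = 1 ∨ σ i = -1)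
    (hΘ : ∀ s : ℝ, (s = 1 ∨ s = -1) → ∀ t : ℝ, 1 ≤ t →
      0 ≤ 4 * t ^ (2 * I + 1) + s * r.eval (t ^ 2) - √(t ^ 2 - 1) * (δ * ∏ i, (t ^ 2 + a i)) ∧
      (4 * t ^ (2 * I + 1) + s * r.eval (t ^ 2) - √(t ^ 2 - 1) * (δ * ∏ i, (t ^ 2 + a i)) = 0 ↔
        ∃ i, s = σ i ∧ t = u i))
    (x y : ℝ) (hx : x ≠ 0) (hy : 1 < y) :
    0 ≤ PP I r δ a x y ∧ (PP I r δ a x y = 0 ↔
      ∃ i, x = σ i / (u i)^(2*I+1) ∧ y = (u i)^2) := by
  obtain ⟨s, hs, hsx⟩ : ∃ s : ℝ, (s = 1 ∨ s = -1) ∧ 0 < s * x := by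
    rcases lt_or_gt_of_ne hx with h | h
    · exact ⟨-1, Or.inr rfl, by linarith⟩
    · exact ⟨1, Or.inl rfl, by linarith⟩
  obtain ⟨t, ht, rfl⟩ : ∃ t : ℝ, 1 < t ∧ y = t^2 := by
    refine ⟨√y, ?_, (Real.sq_sqrt (by linarith)).symm⟩
    rw [show (1:ℝ) = √1 by simp]
    exact Real.sqrt_lt_sqrt (by norm_num) hy
  obtain ⟨hΘ1, hΘ2⟩ := hΘ s hs t ht.le
  rw [PP_factor I r δ a s x t hs hx ht.le]
  have hee : ee δ a (t^2) = δ * ∏ i, (t ^ 2 + a i) := rfl
  rw [← hee] at hΘ1 hΘ2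
  have hep := ee_pos hδ ha (y := t^2) (by positivity)
  have hw : 0 < √(t^2-1) := Real.sqrt_pos.mpr (by nlinarith)
  have hwe := mul_pos hw hep
  have hB : 0 ≤ (s*x)⁻¹ * (1 - s*x*t^(2*I+1))^2 := by positivity
  have hplus : 0 < (s*x)⁻¹ * (1 - s*x*t^(2*I+1))^2
        + (4 * t ^ (2 * I + 1) + s * r.eval (t ^ 2) + √(t ^ 2 - 1) * ee δ a (t^2))/2 := by
    linarith
  refine ⟨mul_nonneg (by linarith) hplus.le, ?_⟩
  rw [mul_eq_zero, or_iff_left hplus.ne']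
  constructor
  · intro h
    have h1 : (s*x)⁻¹ * (1 - s*x*t^(2*I+1))^2 = 0 := by linarith
    have h2 : 4 * t ^ (2 * I + 1) + s * r.eval (t ^ 2) - √(t ^ 2 - 1) * ee δ a (t^2) = 0 := by
      linarith
    obtain ⟨i, hi, hti⟩ := hΘ2.mp h2
    refine ⟨i, ?_, by rw [hti]⟩
    have h3 : s*x*t^(2*I+1) = 1 := by
      rcases mul_eq_zero.mp h1 with h4 | h4
      · exact absurd h4 (by positivity)
      · have := pow_eq_zero_iff (two_ne_zero) |>.mp h4
        linarith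
    rw [hi, hti] at h3
    have hup : 0 < u i ^ (2*I+1) := by have := hu i; positivity
    rw [eq_div_iff hup.ne']
    rcases hσ i with h5 | h5
    · rw [h5] at h3 ⊢; linarith
    · rw [h5] at h3 ⊢; linarith
  · rintro ⟨i, hxi, hyi⟩
    have hui := hu i
    have hti : t = u i := by
      have := (sq_eq_sq₀ (by linarith) (by linarith)).mp hyi
      exact this
    have hup : 0 < u i ^ (2*I+1) := by positivity
    have hsi : s = σ i := by
      rw [hxi] at hsx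
      have h6 : 0 < s * σ i := by
        have : s * (σ i / u i ^ (2*I+1)) = (s * σ i) / u i ^ (2*I+1) := by ring
        rw [this] at hsx
        exact (div_pos_iff_of_pos_right hup).mp hsx
      rcases hs with rfl | rfl <;> rcases hσ i with h5 | h5 <;> rw [h5] at h6 ⊢ <;> norm_num at h6
    have h2 := hΘ2.mpr ⟨i, hsi, hti⟩
    rw [h2]
    have h3 : s*x*t^(2*I+1) = 1 := by
      rw [hxi, hti, hsi]
      rcases hσ i with h5 | h5 <;> rw [h5] <;> field_simp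
    rw [h3]
    simp

/-- the zeros of the tile polynomial -/
lemma PP_zero_iff {I : ℕ} {r : Polynomial ℝ} {δ : ℝ} {a u σ : Fin I → ℝ} (hδ : 0 < δ)
    (ha : ∀ i, 0 < a i) (hu : ∀ i, 1 < u i) (hσ : ∀ i, σ i = 1 ∨ σ i = -1)
    (hr1 : |r.eval 1| < 4)
    (hΘ : ∀ s : ℝ, (s = 1 ∨ s = -1) → ∀ t : ℝ, 1 ≤ t →
      0 ≤ 4 * t ^ (2 * I + 1) + s * r.eval (t ^ 2) - √(t ^ 2 - 1) * (δ * ∏ i, (t ^ 2 + a i)) ∧
      (4 * t ^ (2 * I + 1) + s * r.eval (t ^ 2) - √(t ^ 2 - 1) * (δ * ∏ i, (t ^ 2 + a i)) = 0 ↔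
        ∃ i, s = σ i ∧ t = u i))
    (xp xm : Fin I → ℝ)
    (hroot : ∀ i x, x ≠ 0 → (ff I r x (-a i) = 0 ↔ x = xp i ∨ x = xm i))
    (x y : ℝ) (hx : x ≠ 0) (hy : y ≠ 0) :
    0 ≤ PP I r δ a x y ∧ (PP I r δ a x y = 0 ↔
      ((∃ i, (xp i, -a i) = (x, y)) ∨ (∃ i, (xm i, -a i) = (x, y))) ∨
      ∃ i, (σ i / (u i)^(2*I+1), (u i)^2) = (x, y)) := by
  rcases lt_or_gt_of_ne hy with h | h
  · obtain ⟨h1, h2⟩ := PP_neg (r := r) (a := a) hδ x y h
    refine ⟨h1, h2.trans ?_⟩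
    constructor
    · rintro ⟨h3, i, rfl⟩
      left
      rcases (hroot i x hx).mp h3 with rfl | rfl
      · left; exact ⟨i, rfl⟩
      · right; exact ⟨i, rfl⟩
    · rintro ((⟨i, hi⟩ | ⟨i, hi⟩) | ⟨i, hi⟩)
      · rw [Prod.mk.injEq] at hi
        obtain ⟨rfl, rfl⟩ := hi
        exact ⟨(hroot i _ hx).mpr (Or.inl rfl), i, rfl⟩
      · rw [Prod.mk.injEq] at hi
        obtain ⟨rfl, rfl⟩ := hi
        exact ⟨(hroot i _ hx).mpr (Or.inr rfl), i, rfl⟩
      · rw [Prod.mk.injEq] at hi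
        have := hu i
        nlinarith [hi.2]
  · rcases lt_trichotomy y 1 with h1 | h1 | h1
    · have h2 := PP_mid (r := r) hδ ha x y h h1
      refine ⟨h2.le, ?_⟩
      constructor
      · intro h3; linarith
      · rintro ((⟨i, hi⟩ | ⟨i, hi⟩) | ⟨i, hi⟩)
        · rw [Prod.mk.injEq] at hi
          have := ha i
          linarith [hi.2]
        · rw [Prod.mk.injEq] at hi
          have := ha i
          linarith [hi.2]
        · rw [Prod.mk.injEq] at hi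
          have := hu i
          nlinarith [hi.2]
    · rw [h1]
      have h2 := PP_one (δ := δ) (a := a) hr1 x hx
      refine ⟨h2.le, ?_⟩
      constructor
      · intro h3; linarith
      · rintro ((⟨i, hi⟩ | ⟨i, hi⟩) | ⟨i, hi⟩)
        · rw [Prod.mk.injEq] at hi
          have := ha i
          linarith [hi.2]
        · rw [Prod.mk.injEq] at hi
          have := ha i
          linarith [hi.2]
        · rw [Prod.mk.injEq] at hi
          have := hu i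
          nlinarith [hi.2]
    · obtain ⟨h2, h3⟩ := PP_big hδ ha hu hσ hΘ x y hx h1
      refine ⟨h2, h3.trans ?_⟩
      constructor
      · rintro ⟨i, h4, h5⟩
        right
        exact ⟨i, by rw [← h4, ← h5]⟩
      · rintro ((⟨i, hi⟩ | ⟨i, hi⟩) | ⟨i, hi⟩)
        · rw [Prod.mk.injEq] at hi
          have := ha i
          linarith [hi.2]
        · rw [Prod.mk.injEq] at hi
          have := ha i
          linarith [hi.2]
        · rw [Prod.mk.injEq] at hi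
          exact ⟨i, hi.1.symm, hi.2.symm⟩

open Filter Topology Asymptotics

/-- a factor continuous and nonzero at the point can be removed -/
lemma isBigO_of_mul_ne {f g : ℝ × ℝ → ℝ} {z0 : ℝ × ℝ} (hg : ContinuousAt g z0) (h0 : g z0 ≠ 0) :
    f =O[𝓝 z0] (fun z => f z * g z) := by
  have h1 : (fun _ : ℝ × ℝ => (1:ℝ)) =O[𝓝 z0] g := by
    have := (hg.inv₀ h0).isBigO_one ℝ
    have h2 : (fun z => (g z)⁻¹ * g z) =O[𝓝 z0] (fun z => 1 * g z) := this.mul (isBigO_refl _ _)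
    have h3 : (fun _ : ℝ × ℝ => (1:ℝ)) =ᶠ[𝓝 z0] (fun z => (g z)⁻¹ * g z) := by
      filter_upwards [hg.eventually_ne h0] with z hz
      rw [inv_mul_cancel₀ hz]
    simpa using h3.trans_isBigO h2
  simpa using (isBigO_refl f (𝓝 z0)).mul h1

/-- differentiable function of one variable, composed -/
lemma isBigO_comp_diff {h : ℝ → ℝ} {φ : ℝ × ℝ → ℝ} {z0 : ℝ × ℝ} (hh : DifferentiableAt ℝ h (φ z0))
    (hφ : ContinuousAt φ z0) :
    (fun z => h (φ z) - h (φ z0)) =O[𝓝 z0] (fun z => φ z - φ z0) :=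
  hh.isBigO_sub.comp_tendsto hφ

lemma growA {I : ℕ} {r : Polynomial ℝ} {δ : ℝ} {a : Fin I → ℝ} (hδ : 0 < δ)
    (ha : ∀ i, 0 < a i) (hinj : Function.Injective a) (i : Fin I) (x0 : ℝ) (hx0 : x0 ≠ 0)
    (hf : ff I r x0 (-a i) = 0) :
    (fun z : ℝ × ℝ => ‖z - (x0, -a i)‖^2) =O[𝓝 (x0, -a i)] (fun z => PP I r δ a z.1 z.2) := by
  set z0 : ℝ × ℝ := (x0, -a i) with hz0
  have c1 : ContinuousAt (fun z : ℝ × ℝ => z.1) z0 := continuous_fst.continuousAt
  have c2 : ContinuousAt (fun z : ℝ × ℝ => z.2) z0 := continuous_snd.continuousAt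
  -- the second coordinate
  have hE : (fun z : ℝ × ℝ => z.2 - (-a i)) =O[𝓝 z0] (fun z => ee δ a z.2) := by
    have h1 : (fun z : ℝ × ℝ => ee δ a z.2) =
        (fun z : ℝ × ℝ => (z.2 - (-a i)) * (δ * ∏ j ∈ Finset.univ.erase i, (z.2 + a j))) := by
      funext z
      unfold ee
      rw [← Finset.mul_prod_erase Finset.univ _ (Finset.mem_univ i)]
      ring
    rw [h1]
    apply isBigO_of_mul_ne
    · have : Continuous (fun z : ℝ × ℝ => δ * ∏ j ∈ Finset.univ.erase i, (z.2 + a j)) := by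
        fun_prop
      exact this.continuousAt
    · simp only [hz0]
      refine mul_ne_zero hδ.ne' (Finset.prod_ne_zero_iff.mpr ?_)
      intro j hj
      have hji := (Finset.mem_erase.mp hj).1
      intro h
      exact hji (hinj (by linarith))
  -- the first coordinate
  set h : ℝ → ℝ := fun y => x0 * y^(2*I+1) + r.eval y / 2 with hh
  have hdiff : Differentiable ℝ h := by
    have := r.differentiable
    fun_prop
  have h2 : (fun z : ℝ × ℝ => h z.2 - h z0.2) =O[𝓝 z0] (fun z => z.2 - z0.2) :=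
    isBigO_comp_diff (φ := fun z => z.2) (hdiff _) c2
  have h3 : (fun z : ℝ × ℝ => z.1 - x0) =O[𝓝 z0]
      (fun z => (z.1 - x0) * (z.2^(2*I+1) - z.1⁻¹ * x0⁻¹)) := by
    apply isBigO_of_mul_ne
    · have : ContinuousAt (fun z : ℝ × ℝ => z.1⁻¹) z0 := c1.inv₀ hx0
      exact (c2.pow _).sub (this.mul continuousAt_const)
    · simp only [hz0]
      have h4 : (-a i)^(2*I+1) < 0 := by
        rw [Odd.neg_pow ⟨I, rfl⟩]
        have := ha i
        have : 0 < a i ^ (2*I+1) := by positivity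
        linarith
      have h5 : 0 < x0⁻¹ * x0⁻¹ := mul_self_pos.mpr (inv_ne_zero hx0)
      linarith
  have hffeq : (fun z : ℝ × ℝ => (z.1 - x0) * (z.2^(2*I+1) - z.1⁻¹ * x0⁻¹)) =ᶠ[𝓝 z0]
      (fun z => ff I r z.1 z.2 - (h z.2 - h z0.2)) := by
    filter_upwards [c1.eventually_ne (show z0.1 ≠ 0 from hx0)] with z hz
    have h4 : ff I r z.1 z.2 = ff I r z.1 z.2 - ff I r x0 (-a i) := by rw [hf]; ring
    rw [h4]
    simp only [ff, hh, hz0]
    field_simp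
    ring
  have h5 : (fun z : ℝ × ℝ => z.1 - x0) =O[𝓝 z0] (fun z => |ff I r z.1 z.2| + |ee δ a z.2|) := by
    refine h3.trans ?_
    refine hffeq.isBigO.trans ?_
    refine IsBigO.sub ?_ ?_
    · refine IsBigO.of_bound 1 (Filter.Eventually.of_forall ?_)
      intro z
      rw [one_mul, Real.norm_eq_abs, Real.norm_eq_abs,
        abs_of_nonneg (a := |ff I r z.1 z.2| + |ee δ a z.2|) (by positivity)]
      linarith [abs_nonneg (ee δ a z.2)]
    · refine (h2.trans hE).trans ?_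
      refine IsBigO.of_bound 1 (Filter.Eventually.of_forall ?_)
      intro z
      rw [one_mul, Real.norm_eq_abs, Real.norm_eq_abs,
        abs_of_nonneg (a := |ff I r z.1 z.2| + |ee δ a z.2|) (by positivity)]
      linarith [abs_nonneg (ff I r z.1 z.2)]
  have h6 : (fun z : ℝ × ℝ => z.2 - (-a i)) =O[𝓝 z0] (fun z => |ff I r z.1 z.2| + |ee δ a z.2|) := by
    refine hE.trans ?_
    refine IsBigO.of_bound 1 (Filter.Eventually.of_forall ?_)
    intro z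
    rw [one_mul, Real.norm_eq_abs, Real.norm_eq_abs,
      abs_of_nonneg (a := |ff I r z.1 z.2| + |ee δ a z.2|) (by positivity)]
    linarith [abs_nonneg (ff I r z.1 z.2)]
  have h7 : (fun z : ℝ × ℝ => z - z0) =O[𝓝 z0] (fun z => |ff I r z.1 z.2| + |ee δ a z.2|) :=
    h5.prod_left h6
  have h8 := (h7.norm_left).pow 2
  refine h8.trans ?_
  refine IsBigO.of_bound 8 ?_
  have hneg : ∀ᶠ z : ℝ × ℝ in 𝓝 z0, z.2 < 0 :=
    c2.eventually_lt continuousAt_const (by simp only [hz0]; linarith [ha i])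
  filter_upwards [hneg] with z hz
  unfold PP
  set f := ff I r z.1 z.2
  set e := ee δ a z.2
  have h9 : 0 ≤ (1 - z.2) * (e/2)^2 := mul_nonneg (by linarith) (sq_nonneg _)
  have h10 : (e/2)^2 ≤ (1 - z.2) * (e/2)^2 := by nlinarith [sq_nonneg (e/2)]
  rw [Real.norm_eq_abs, Real.norm_eq_abs, abs_of_nonneg (sq_nonneg (|f| + |e|)),
    abs_of_nonneg (add_nonneg (sq_nonneg f) h9)]
  have h11 : (|f| + |e|)^2 ≤ 2 * (f^2 + e^2) := by
    have := sq_nonneg (|f| - |e|)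
    have h12 := sq_abs f
    have h13 := sq_abs e
    nlinarith
  nlinarith

lemma growB {I : ℕ} {r : Polynomial ℝ} {δ : ℝ} {a : Fin I → ℝ} (hδ : 0 < δ)
    (ha : ∀ i, 0 < a i) (s u κ η : ℝ) (hu : 1 < u) (hs : s = 1 ∨ s = -1) (hκ : 0 < κ) (hη : 0 < η)
    (hΘ0 : ∀ t : ℝ, 1 ≤ t →
      0 ≤ 4 * t ^ (2 * I + 1) + s * r.eval (t ^ 2) - √(t ^ 2 - 1) * (δ * ∏ i, (t ^ 2 + a i)))
    (hgr : ∀ t, |t - u| ≤ η →
      κ * (t - u) ^ 2 ≤ 4 * t ^ (2 * I + 1) + s * r.eval (t ^ 2)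
        - √(t ^ 2 - 1) * (δ * ∏ i, (t ^ 2 + a i))) :
    (fun z : ℝ × ℝ => ‖z - (s / u^(2*I+1), u^2)‖^2) =O[𝓝 (s / u^(2*I+1), u^2)]
      (fun z => PP I r δ a z.1 z.2) := by
  set x0 : ℝ := s / u^(2*I+1) with hx0d
  set z0 : ℝ × ℝ := (x0, u^2) with hz0
  have c1 : ContinuousAt (fun z : ℝ × ℝ => z.1) z0 := continuous_fst.continuousAt
  have c2 : ContinuousAt (fun z : ℝ × ℝ => z.2) z0 := continuous_snd.continuousAt
  have hup : 0 < u^(2*I+1) := by positivity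
  have hss : s * s = 1 := by rcases hs with rfl | rfl <;> norm_num
  have hsx0 : s * x0 * u^(2*I+1) = 1 := by
    rw [hx0d]; field_simp; nlinarith
  have hX0 : 0 < s * x0 := by
    by_contra hcon
    push Not at hcon
    nlinarith
  have hsqrt : √(z0.2) = u := by
    simp only [hz0]
    exact Real.sqrt_sq (by linarith)
  have ct : ContinuousAt (fun z : ℝ × ℝ => √(z.2)) z0 := c2.sqrt
  -- size functions
  set A : ℝ × ℝ → ℝ := fun z => |1 - s * z.1 * (√(z.2))^(2*I+1)| + |√(z.2) - u| with hA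
  have hAnn : ∀ z, 0 ≤ A z := fun z => by simp only [hA]; positivity
  have e1 : (fun z : ℝ × ℝ => √(z.2) - u) =O[𝓝 z0] A := by
    refine IsBigO.of_bound 1 (Filter.Eventually.of_forall ?_)
    intro z
    rw [one_mul, Real.norm_eq_abs, Real.norm_eq_abs, abs_of_nonneg (hAnn z)]
    simp only [hA]
    linarith [abs_nonneg (1 - s * z.1 * (√(z.2))^(2*I+1))]
  have e2 : (fun z : ℝ × ℝ => 1 - s * z.1 * (√(z.2))^(2*I+1)) =O[𝓝 z0] A := by
    refine IsBigO.of_bound 1 (Filter.Eventually.of_forall ?_)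
    intro z
    rw [one_mul, Real.norm_eq_abs, Real.norm_eq_abs, abs_of_nonneg (hAnn z)]
    simp only [hA]
    linarith [abs_nonneg (√(z.2) - u)]
  have hbig : ∀ᶠ z : ℝ × ℝ in 𝓝 z0, 1 < z.2 :=
    continuousAt_const.eventually_lt c2 (by simp only [hz0]; nlinarith)
  -- second coordinate
  have e3 : (fun z : ℝ × ℝ => z.2 - u^2) =O[𝓝 z0] A := by
    have h1 : (fun z : ℝ × ℝ => (√(z.2))^2 - (√(z0.2))^2) =O[𝓝 z0]
        (fun z => √(z.2) - √(z0.2)) :=
      isBigO_comp_diff (h := fun t => t^2) (φ := fun z => √(z.2)) (by fun_prop) ct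
    rw [hsqrt] at h1
    refine IsBigO.trans ?_ (h1.trans e1)
    refine Filter.EventuallyEq.isBigO ?_
    filter_upwards [hbig] with z hz
    rw [Real.sq_sqrt (by linarith)]
  -- first coordinate
  have e4 : (fun z : ℝ × ℝ => (√(z.2))^(2*I+1) - u^(2*I+1)) =O[𝓝 z0] A := by
    have h1 : (fun z : ℝ × ℝ => (√(z.2))^(2*I+1) - (√(z0.2))^(2*I+1)) =O[𝓝 z0]
        (fun z => √(z.2) - √(z0.2)) :=
      isBigO_comp_diff (h := fun t => t^(2*I+1)) (φ := fun z => √(z.2)) (by fun_prop) ct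
    rw [hsqrt] at h1
    exact h1.trans e1
  have e5 : (fun z : ℝ × ℝ => z.1 - x0) =O[𝓝 z0] A := by
    have h1 : (fun z : ℝ × ℝ => z.1 - x0) =O[𝓝 z0]
        (fun z => (z.1 - x0) * (s * (√(z.2))^(2*I+1))) := by
      apply isBigO_of_mul_ne
      · exact continuousAt_const.mul (ct.pow _)
      · rw [hsqrt]
        intro h
        rcases mul_eq_zero.mp h with h2 | h2
        · rw [h2] at hss; norm_num at hss
        · exact hup.ne' h2
    refine h1.trans ?_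
    have h2 : (fun z : ℝ × ℝ => (z.1 - x0) * (s * (√(z.2))^(2*I+1))) =
        (fun z => -(1 - s * z.1 * (√(z.2))^(2*I+1))
          - s * x0 * ((√(z.2))^(2*I+1) - u^(2*I+1))) := by
      funext z
      linear_combination (-1) * hsx0
    rw [h2]
    exact e2.neg_left.sub (e4.const_mul_left _)
  have e6 : (fun z : ℝ × ℝ => z - z0) =O[𝓝 z0] A := e5.prod_left e3
  have e7 := (e6.norm_left).pow 2
  refine e7.trans ?_
  -- lower bound for PP
  set G : ℝ × ℝ → ℝ := fun z => (s*z.1)⁻¹ * (1 - s*z.1*(√(z.2))^(2*I+1))^2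
        + (4 * (√(z.2)) ^ (2 * I + 1) + s * r.eval ((√(z.2)) ^ 2)
          - √((√(z.2)) ^ 2 - 1) * ee δ a ((√(z.2))^2))/2 with hG
  set Gp : ℝ × ℝ → ℝ := fun z => (s*z.1)⁻¹ * (1 - s*z.1*(√(z.2))^(2*I+1))^2
        + (4 * (√(z.2)) ^ (2 * I + 1) + s * r.eval ((√(z.2)) ^ 2)
          + √((√(z.2)) ^ 2 - 1) * ee δ a ((√(z.2))^2))/2 with hGp
  have hne : ∀ᶠ z : ℝ × ℝ in 𝓝 z0, 0 < s * z.1 :=
    continuousAt_const.eventually_lt (continuousAt_const.mul c1) (by simpa [hz0] using hX0)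
  have hlt : ∀ᶠ z : ℝ × ℝ in 𝓝 z0, s * z.1 < 2 * (s * x0) :=
    (continuousAt_const.mul c1).eventually_lt continuousAt_const (by show s * x0 < 2 * (s * x0); linarith)
  have hnear : ∀ᶠ z : ℝ × ℝ in 𝓝 z0, |√(z.2) - u| < η := by
    have : ContinuousAt (fun z : ℝ × ℝ => |√(z.2) - u|) z0 := (ct.sub continuousAt_const).abs
    exact this.eventually_lt continuousAt_const (by rw [hsqrt]; simpa using hη)
  have hPG : (fun z : ℝ × ℝ => PP I r δ a z.1 z.2) =ᶠ[𝓝 z0] (fun z => G z * Gp z) := by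
    filter_upwards [hbig, hne] with z hz hz1
    have h1 : 1 ≤ √(z.2) := by
      rw [show (1:ℝ) = √1 by simp]
      exact Real.sqrt_le_sqrt hz.le
    have h2 : z.1 ≠ 0 := by
      intro h; rw [h] at hz1; simp at hz1
    have h3 := PP_factor I r δ a s z.1 (√(z.2)) hs h2 h1
    have h4 : (√(z.2))^2 = z.2 := Real.sq_sqrt (by linarith)
    simp only [hG, hGp]
    rw [← h3, h4]
  have hcGp : ContinuousAt Gp z0 := by
    simp only [hGp]
    have h1 : ContinuousAt (fun z : ℝ × ℝ => (s*z.1)⁻¹) z0 :=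
      (continuousAt_const.mul c1).inv₀ (by simpa [hz0] using hX0.ne')
    have h2 : Continuous (fun t : ℝ => (4 * t ^ (2 * I + 1) + s * r.eval (t ^ 2)
          + √(t ^ 2 - 1) * ee δ a (t^2))/2) := by
      have h3 := r.continuous
      have h4 : Continuous (fun y : ℝ => ee δ a y) := by
        unfold ee
        fun_prop
      have h5 : Continuous (fun t : ℝ => r.eval (t^2)) := h3.comp (by fun_prop)
      have h6 : Continuous (fun t : ℝ => ee δ a (t^2)) := h4.comp (by fun_prop)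
      fun_prop
    have h3 : ContinuousAt (fun z : ℝ × ℝ => (1 - s*z.1*(√(z.2))^(2*I+1))^2) z0 :=
      (continuousAt_const.sub ((continuousAt_const.mul c1).mul (ct.pow _))).pow _
    exact (h1.mul h3).add (h2.continuousAt.comp ct)
  have hGp0 : Gp z0 ≠ 0 := by
    simp only [hGp]
    rw [hsqrt]
    have h1 := hΘ0 u hu.le
    have h2 : 0 < √(u^2-1) := Real.sqrt_pos.mpr (by nlinarith)
    have h3 : 0 < ee δ a (u^2) := ee_pos hδ ha (by positivity)
    have h4 := mul_pos h2 h3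
    have h5 : ee δ a (u^2) = δ * ∏ i, (u ^ 2 + a i) := rfl
    rw [← h5] at h1
    have h6 : 0 ≤ (s*z0.1)⁻¹ * (1 - s*z0.1*u^(2*I+1))^2 := by
      have : 0 < s * z0.1 := by simpa [hz0] using hX0
      positivity
    have : 0 < (s*z0.1)⁻¹ * (1 - s*z0.1*u^(2*I+1))^2 + (4 * u ^ (2 * I + 1) + s * r.eval (u ^ 2)
          + √(u ^ 2 - 1) * ee δ a (u^2))/2 := by linarith
    exact this.ne'
  have f1 : G =O[𝓝 z0] (fun z => PP I r δ a z.1 z.2) :=
    (isBigO_of_mul_ne hcGp hGp0).trans hPG.symm.isBigO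
  refine IsBigO.trans ?_ f1
  refine IsBigO.of_bound (2 * (2 * (s * x0)) + 4/κ) ?_
  filter_upwards [hbig, hne, hlt, hnear] with z hz1 hz2 hz3 hz4
  have g1 := hgr (√(z.2)) hz4.le
  have h5 : ee δ a ((√(z.2))^2) = δ * ∏ i, ((√(z.2)) ^ 2 + a i) := rfl
  rw [← h5] at g1
  set t := √(z.2)
  set X := s * z.1 with hX
  set N := 1 - X * t^(2*I+1) with hN
  have g2 : (2 * (s*x0))⁻¹ * N^2 ≤ X⁻¹ * N^2 := by
    refine mul_le_mul_of_nonneg_right ?_ (sq_nonneg _)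
    exact inv_anti₀ hz2 hz3.le
  have g3 : (2 * (s*x0))⁻¹ * N^2 + κ/2 * (t-u)^2 ≤ G z := by
    simp only [hG]
    have : X⁻¹ * N^2 + (4 * t ^ (2 * I + 1) + s * r.eval (t ^ 2)
          - √(t ^ 2 - 1) * ee δ a (t^2))/2 = (s*z.1)⁻¹ * (1 - s*z.1*t^(2*I+1))^2
        + (4 * t ^ (2 * I + 1) + s * r.eval (t ^ 2) - √(t ^ 2 - 1) * ee δ a (t^2))/2 := rfl
    rw [← this]
    linarith
  have g4 : 0 ≤ (2 * (s*x0))⁻¹ * N^2 := by positivity
  have g5 : 0 ≤ κ/2 * (t-u)^2 := by positivity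
  have g6 : 0 ≤ G z := by linarith
  have g7 : N^2 ≤ 2 * (s*x0) * G z := by
    have : N^2 = 2 * (s*x0) * ((2 * (s*x0))⁻¹ * N^2) := by
      rw [← mul_assoc, mul_inv_cancel₀ (by positivity), one_mul]
    rw [this]
    exact mul_le_mul_of_nonneg_left (by linarith) (by positivity)
  have g8 : (t-u)^2 ≤ 2/κ * G z := by
    have : (t-u)^2 = 2/κ * (κ/2 * (t-u)^2) := by field_simp
    rw [this]
    exact mul_le_mul_of_nonneg_left (by linarith) (by positivity)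
  have g9 : A z = |N| + |t - u| := rfl
  rw [Real.norm_eq_abs, Real.norm_eq_abs, abs_of_nonneg (by positivity), abs_of_nonneg g6, g9]
  have g10 : (|N| + |t-u|)^2 ≤ 2 * (N^2 + (t-u)^2) := by
    have := sq_nonneg (|N| - |t-u|)
    have h12 := sq_abs N
    have h13 := sq_abs (t-u)
    nlinarith
  calc (|N| + |t-u|)^2 ≤ 2 * (N^2 + (t-u)^2) := g10
    _ ≤ 2 * (2 * (s*x0) * G z + 2/κ * G z) := by linarith
    _ = (2 * (2 * (s * x0)) + 4/κ) * G z := by ring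

/-- interpolation with polynomials divisible by the variable -/
lemma interp {κ : Type*} [Fintype κ] [DecidableEq κ] (v : κ → ℝ) (hv : Function.Injective v)
    (hne : ∀ k, v k ≠ 0) (g : κ → ℝ) (n : ℕ) (hn : Fintype.card κ = n) :
    ∃ c : ℕ → ℝ, ∀ k, ∑ j ∈ Finset.range n, c j * (v k)^(j+1) = g k := by
  set p := Lagrange.interpolate Finset.univ v (fun k => g k / v k) with hp
  refine ⟨p.coeff, ?_⟩
  intro k
  have h1 : p.eval (v k) = g k / v k :=
    Lagrange.eval_interpolate_at_node _ (hv.injOn) (Finset.mem_univ k)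
  have h2 : p.degree < n := by
    have := Lagrange.degree_interpolate_lt (s := Finset.univ) (v := v) (fun k => g k / v k)
      (hv.injOn)
    rw [Finset.card_univ, hn] at this
    exact this
  have hn0 : 0 < n := by
    rw [← hn]; exact Fintype.card_pos_iff.mpr ⟨k⟩
  have h3 : p.natDegree < n := by
    by_cases hp0 : p = 0
    · rw [hp0]; simpa using hn0
    · exact (Polynomial.natDegree_lt_iff_degree_lt hp0).mpr h2
  rw [Polynomial.eval_eq_sum_range' h3] at h1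
  have h4 : ∑ j ∈ Finset.range n, p.coeff j * (v k)^(j+1)
      = (∑ j ∈ Finset.range n, p.coeff j * (v k)^j) * v k := by
    rw [Finset.sum_mul]
    apply Finset.sum_congr rfl
    intro j _
    ring
  rw [h4, h1, div_mul_cancel₀ _ (hne k)]

/-- the control functions -/
noncomputable def b0 (I : ℕ) (cA cB : ℕ → ℝ) (w : ℤ × ℤ) : ℝ :=
  if w.1 = -1 then cA (w.2 - 1).toNat else
  if w.1 = 0 then cB (w.2 - 1).toNat else - cA (w.2 - (2*I+2)).toNat

lemma sum_b0 (I : ℕ) (cA cB : ℕ → ℝ) (x y : ℝ) :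
    ∑ w ∈ Dint (2 * I + 1), b0 I cA cB w * x ^ w.1 * y ^ w.2 =
      (∑ j ∈ Finset.range I, cA j * y^(j+1)) * (x⁻¹ - x * y^(2*I+1))
        + ∑ j ∈ Finset.range (2*I), cB j * y^(j+1) := by
  rw [sum_Dint]
  have hpow : ∀ j : ℕ, y ^ (1 + (j:ℤ)) = y^(j+1) := by
    intro j
    rw [add_comm]
    exact_mod_cast zpow_natCast y (j+1)
  have e1 : ∑ j ∈ Finset.range I, b0 I cA cB (-1, 1 + (j:ℤ)) * x ^ (-1 : ℤ) * y ^ (1 + (j:ℤ))
      = (∑ j ∈ Finset.range I, cA j * y^(j+1)) * x⁻¹ := by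
    rw [Finset.sum_mul]
    apply Finset.sum_congr rfl
    intro j _
    rw [hpow]
    simp [b0]
    ring
  have e2 : ∑ j ∈ Finset.range (2*I), b0 I cA cB (0, 1 + (j:ℤ)) * x ^ (0 : ℤ) * y ^ (1 + (j:ℤ))
      = ∑ j ∈ Finset.range (2*I), cB j * y^(j+1) := by
    apply Finset.sum_congr rfl
    intro j _
    rw [hpow]
    simp [b0]
  have e3 : ∑ j ∈ Finset.range I, b0 I cA cB (1, 2*(I:ℤ)+2+j) * x ^ (1 : ℤ)
      * y ^ (2*(I:ℤ)+2+j) = (∑ j ∈ Finset.range I, cA j * y^(j+1)) * (- x * y^(2*I+1)) := by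
    rw [Finset.sum_mul]
    apply Finset.sum_congr rfl
    intro j _
    have h1 : y ^ (2*(I:ℤ)+2+j) = y^(2*I+1) * y^(j+1) := by
      rw [← pow_add]
      have : (2*(I:ℤ)+2+j) = ((2*I+1 + (j+1) : ℕ) : ℤ) := by push_cast; ring
      rw [this, zpow_natCast]
    rw [h1]
    simp [b0]
    ring
  simp only [e1, e2, e3]
  ring

/-- conversion of a growth statement into explicit constants -/
lemma growth_consts {n : ℕ} (hn : 0 < n) (ζ : Fin n → ℝ × ℝ) (Q : ℝ × ℝ → ℝ)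
    (hQ : ∀ i, ∀ᶠ z in 𝓝 (ζ i), 0 ≤ Q z)
    (h : ∀ i, (fun z => ‖z - ζ i‖^2) =O[𝓝 (ζ i)] Q) :
    ∃ κ > 0, ∃ ρ > 0, ∀ i, ∀ z : ℝ × ℝ, ‖z - ζ i‖ ≤ ρ → κ * ‖z - ζ i‖ ^ 2 ≤ Q z := by
  have h1 : ∀ i, ∃ κ > 0, ∃ ρ > 0, ∀ z : ℝ × ℝ, ‖z - ζ i‖ ≤ ρ → κ * ‖z - ζ i‖ ^ 2 ≤ Q z := by
    intro i
    obtain ⟨c, hc, hb⟩ := (h i).exists_pos
    have h2 := (hb.bound).and (hQ i)
    rw [Metric.nhds_basis_closedBall.eventually_iff] at h2
    obtain ⟨ρ, hρ, h3⟩ := h2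
    refine ⟨c⁻¹, inv_pos.mpr hc, ρ, hρ, ?_⟩
    intro z hz
    obtain ⟨h4, h5⟩ := h3 (x := z) (by rw [Metric.mem_closedBall, dist_eq_norm]; exact hz)
    rw [Real.norm_eq_abs, Real.norm_eq_abs, abs_of_nonneg (by positivity), abs_of_nonneg h5] at h4
    rw [inv_mul_le_iff₀ hc]
    exact h4
  choose κ hκ ρ hρ h2 using h1
  have hne : (Finset.univ : Finset (Fin n)).Nonempty := ⟨⟨0, hn⟩, Finset.mem_univ _⟩
  obtain ⟨i1, _, hi1⟩ := Finset.exists_min_image Finset.univ κ hne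
  obtain ⟨i2, _, hi2⟩ := Finset.exists_min_image Finset.univ ρ hne
  refine ⟨κ i1, hκ i1, ρ i2, hρ i2, ?_⟩
  intro i z hz
  refine le_trans ?_ (h2 i z (hz.trans (hi2 i (Finset.mem_univ _))))
  exact mul_le_mul_of_nonneg_right (hi1 i (Finset.mem_univ _)) (by positivity)

/-- scaling of a growth statement -/
lemma growth_scale {s t κ0 : ℝ} (hs : 0 < s) (ht : 0 < t) (hκ : 0 < κ0) (Q : ℝ × ℝ → ℝ)
    (z0 : ℝ × ℝ) (h : (fun z => ‖z - z0‖^2) =O[𝓝 z0] Q) :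
    (fun z : ℝ × ℝ => ‖z - (z0.1/s, z0.2/t)‖^2) =O[𝓝 (z0.1/s, z0.2/t)]
      (fun z => Q (s * z.1, t * z.2) / κ0) := by
  set L : ℝ × ℝ → ℝ × ℝ := fun z => (s * z.1, t * z.2) with hL
  set w0 : ℝ × ℝ := (z0.1/s, z0.2/t) with hw0
  have hLw : L w0 = z0 := by
    simp only [hL, hw0]
    rw [mul_div_cancel₀ _ hs.ne', mul_div_cancel₀ _ ht.ne']
  have hLc : Continuous L := by
    simp only [hL]
    fun_prop
  have hLt : Tendsto L (𝓝 w0) (𝓝 z0) := by
    have := hLc.tendsto w0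
    rwa [hLw] at this
  have h1 := h.comp_tendsto hLt
  have h2 : (fun z : ℝ × ℝ => z - w0) =O[𝓝 w0] (fun z => L z - z0) := by
    have h3 : (fun z : ℝ × ℝ => z.1 - w0.1) =O[𝓝 w0] (fun z => L z - z0) := by
      refine IsBigO.of_bound s⁻¹ (Filter.Eventually.of_forall ?_)
      intro z
      have h4 : z.1 - w0.1 = s⁻¹ * ((L z - z0).1) := by
        simp only [hL, hw0, Prod.fst_sub]
        field_simp
      rw [h4, norm_mul, Real.norm_of_nonneg (inv_pos.mpr hs).le]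
      exact mul_le_mul_of_nonneg_left (norm_fst_le _) (inv_pos.mpr hs).le
    have h5 : (fun z : ℝ × ℝ => z.2 - w0.2) =O[𝓝 w0] (fun z => L z - z0) := by
      refine IsBigO.of_bound t⁻¹ (Filter.Eventually.of_forall ?_)
      intro z
      have h4 : z.2 - w0.2 = t⁻¹ * ((L z - z0).2) := by
        simp only [hL, hw0, Prod.snd_sub]
        field_simp
      rw [h4, norm_mul, Real.norm_of_nonneg (inv_pos.mpr ht).le]
      exact mul_le_mul_of_nonneg_left (norm_snd_le _) (inv_pos.mpr ht).le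
    exact h3.prod_left h5
  have h3 := (h2.norm_norm).pow 2
  refine (h3.trans h1).trans ?_
  have h4 : (fun z : ℝ × ℝ => Q (s * z.1, t * z.2) / κ0) = (fun z => κ0⁻¹ * (Q ∘ L) z) := by
    funext z
    simp only [Function.comp, hL]
    ring
  rw [h4]
  exact isBigO_self_const_mul (inv_pos.mpr hκ).ne' _ _

/-- solvability of the control problem at the zeros -/
lemma controls {I : ℕ} {a u σ xp xm : Fin I → ℝ} (ha : ∀ i, 0 < a i)
    (hainj : Function.Injective a) (hu : ∀ i, 1 < u i) (huinj : Function.Injective u)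
    (hxp : ∀ i, 0 < xp i) (hxm : ∀ i, xm i < 0) (τ : (Fin I ⊕ Fin I) ⊕ Fin I → ℝ) :
    ∃ cA cB : ℕ → ℝ, ∀ k, ∀ x y : ℝ,
      (x, y) = Sum.elim (Sum.elim (fun i => (xp i, -a i)) (fun i => (xm i, -a i)))
        (fun i => (σ i / (u i)^(2*I+1), (u i)^2)) k →
      (∑ j ∈ Finset.range I, cA j * y^(j+1)) * (x⁻¹ - x * y^(2*I+1))
        + ∑ j ∈ Finset.range (2*I), cB j * y^(j+1) = τ k := by
  obtain ⟨cA, hA⟩ := interp (fun i => -a i) (fun i j hij => hainj (neg_injective hij))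
    (fun i => neg_ne_zero.mpr (ha i).ne')
    (fun i => (τ (Sum.inl (Sum.inl i)) - τ (Sum.inl (Sum.inr i))) /
      (((xp i)⁻¹ - xp i * (-a i)^(2*I+1)) - ((xm i)⁻¹ - xm i * (-a i)^(2*I+1)))) I
    (Fintype.card_fin I)
  obtain ⟨cB, hB⟩ := interp (κ := Fin I ⊕ Fin I)
    (Sum.elim (fun i => -a i) (fun i => (u i)^2))
    (by
      intro k l hkl
      rcases k with k | k <;> rcases l with l | l <;> simp only [Sum.elim_inl, Sum.elim_inr] at hkl
      · rw [hainj (neg_injective hkl)]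
      · have := ha k; have := hu l; nlinarith
      · have := ha l; have := hu k; nlinarith
      · have h1 := hu k
        have h2 := hu l
        rw [huinj ((sq_eq_sq₀ (by linarith) (by linarith)).mp hkl)])
    (by
      intro k
      rcases k with k | k <;> simp only [Sum.elim_inl, Sum.elim_inr]
      · exact neg_ne_zero.mpr (ha k).ne'
      · have := hu k; positivity)
    (Sum.elim
      (fun i => τ (Sum.inl (Sum.inl i)) - (∑ j ∈ Finset.range I, cA j * (-a i)^(j+1)) *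
        ((xp i)⁻¹ - xp i * (-a i)^(2*I+1)))
      (fun i => τ (Sum.inr i) - (∑ j ∈ Finset.range I, cA j * ((u i)^2)^(j+1)) *
        ((σ i / (u i)^(2*I+1))⁻¹ - (σ i / (u i)^(2*I+1)) * ((u i)^2)^(2*I+1)))) (2*I)
    (by simp; ring)
  refine ⟨cA, cB, ?_⟩
  intro k x y hxy
  rcases k with (i | i) | i
  · simp only [Sum.elim_inl, Prod.mk.injEq] at hxy
    obtain ⟨rfl, rfl⟩ := hxy
    have h1 := hB (Sum.inl i)
    simp only [Sum.elim_inl] at h1
    rw [h1]; ring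
  · simp only [Sum.elim_inl, Sum.elim_inr, Prod.mk.injEq] at hxy
    obtain ⟨rfl, rfl⟩ := hxy
    have h1 := hB (Sum.inl i)
    simp only [Sum.elim_inl] at h1
    rw [h1]
    have h2 := hA i
    have h3 : (-a i)^(2*I+1) < 0 := by
      rw [Odd.neg_pow ⟨I, rfl⟩]
      have := ha i
      have : 0 < a i ^ (2*I+1) := by positivity
      linarith
    have h4 : 0 < (xp i)⁻¹ := inv_pos.mpr (hxp i)
    have h5 : (xm i)⁻¹ < 0 := inv_lt_zero.mpr (hxm i)
    have h6 : 0 < ((xp i)⁻¹ - xp i * (-a i)^(2*I+1)) - ((xm i)⁻¹ - xm i * (-a i)^(2*I+1)) := by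
      have h7 := mul_neg_of_pos_of_neg (hxp i) h3
      have h8 := mul_pos_of_neg_of_neg (hxm i) h3
      linarith
    rw [eq_div_iff h6.ne'] at h2
    linarith
  · simp only [Sum.elim_inr, Prod.mk.injEq] at hxy
    obtain ⟨rfl, rfl⟩ := hxy
    have h1 := hB (Sum.inr i)
    simp only [Sum.elim_inr] at h1
    rw [h1]; ring

end Tl

open Tl Filter Topology Asymptotics

/-- the tile polynomial, from the one variable construction -/
theorem exists_tile_of (I : ℕ) (hI : 1 ≤ I) (hθ : ∃ (r : Polynomial ℝ) (δ : ℝ) (a : Fin I → ℝ)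
    (u : Fin I → ℝ) (σ : Fin I → ℝ),
    r.natDegree ≤ I ∧ 0 < δ ∧ δ < 1 ∧ (∀ i, 0 < a i) ∧ Function.Injective a ∧
    (∀ i, 1 < u i) ∧ Function.Injective u ∧ (∀ i, σ i = 1 ∨ σ i = -1) ∧
    |r.eval 1| < 4 ∧
    (∀ s : ℝ, (s = 1 ∨ s = -1) → ∀ t : ℝ, 1 ≤ t →
      0 ≤ 4 * t ^ (2 * I + 1) + s * r.eval (t ^ 2) - √(t ^ 2 - 1) * (δ * ∏ i, (t ^ 2 + a i)) ∧
      (4 * t ^ (2 * I + 1) + s * r.eval (t ^ 2) - √(t ^ 2 - 1) * (δ * ∏ i, (t ^ 2 + a i)) = 0 ↔
        ∃ i, s = σ i ∧ t = u i)) ∧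
    (∃ κ > 0, ∃ η > 0, ∀ i, ∀ t, |t - u i| ≤ η →
      κ * (t - u i) ^ 2 ≤ 4 * t ^ (2 * I + 1) + σ i * r.eval (t ^ 2)
        - √(t ^ 2 - 1) * (δ * ∏ i, (t ^ 2 + a i)))) :
    ∃ (a : ℤ × ℤ → ℝ) (ζ : Fin (3 * I) → ℝ × ℝ) (b : Fin (3 * I) → ℤ × ℤ → ℝ),
    a (-2, 0) = 1 ∧ a (0, 0) = 1 ∧ a (2, 2 * (2 * I + 1)) = 1 ∧
    |a (-1, 0)| < 2 ∧ |a (1, 2 * I + 1)| < 2 ∧ |a (0, 2 * I + 1)| < 2 ∧
    Function.Injective ζ ∧ (∀ i, (ζ i).1 ≠ 0 ∧ (ζ i).2 ≠ 0) ∧
    (∀ x y : ℝ, x ≠ 0 → y ≠ 0 →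
      0 ≤ ∑ w ∈ Dm (2 * I + 1), a w * x ^ w.1 * y ^ w.2 ∧
      (∑ w ∈ Dm (2 * I + 1), a w * x ^ w.1 * y ^ w.2 = 0 ↔ ∃ i, ζ i = (x, y))) ∧
    (∃ κ > 0, ∃ ρ > 0, ∀ i, ∀ z : ℝ × ℝ, ‖z - ζ i‖ ≤ ρ →
      κ * ‖z - ζ i‖ ^ 2 ≤ ∑ w ∈ Dm (2 * I + 1), a w * z.1 ^ w.1 * z.2 ^ w.2) ∧
    (∀ i j, ∑ w ∈ Dint (2 * I + 1), b i w * (ζ j).1 ^ w.1 * (ζ j).2 ^ w.2 = if i = j then 1 else 0) := by
  obtain ⟨r, δ, a, u, σ, hr, hδ, hδ1, ha, hainj, hu, huinj, hσ, hr1, hΘ, κ, hκ, η, hη, hgr⟩ := hθ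
  -- roots over the negative values
  have hroots : ∀ i, ∃ xp xm : ℝ, 0 < xp ∧ xm < 0 ∧
      ∀ x : ℝ, x ≠ 0 → (ff I r x (-a i) = 0 ↔ x = xp ∨ x = xm) := by
    intro i
    have hq : 0 < a i ^ (2*I+1) := by have := ha i; positivity
    obtain ⟨xp, xm, h1, h2, h3⟩ := quad_roots (a i ^ (2*I+1)) (r.eval (-a i) / 2) hq
    refine ⟨xp, xm, h1, h2, ?_⟩
    intro x hx
    rw [← h3 x hx]
    unfold ff
    rw [Odd.neg_pow ⟨I, rfl⟩]
    have : x⁻¹ + x * -a i ^ (2*I+1) + r.eval (-a i) / 2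
        = x⁻¹ - a i ^ (2*I+1) * x + r.eval (-a i) / 2 := by ring
    rw [this]
  choose xp xm hxp hxm hroot using hroots
  set Z : (Fin I ⊕ Fin I) ⊕ Fin I → ℝ × ℝ :=
    Sum.elim (Sum.elim (fun i => (xp i, -a i)) (fun i => (xm i, -a i)))
        (fun i => (σ i / (u i)^(2*I+1), (u i)^2)) with hZ
  have hcard : Fintype.card ((Fin I ⊕ Fin I) ⊕ Fin I) = 3 * I := by simp; ring
  set e : Fin (3*I) ≃ (Fin I ⊕ Fin I) ⊕ Fin I := (Fintype.equivFinOfCardEq hcard).symm with he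
  have hupos : ∀ i, 0 < u i ^ (2*I+1) := fun i => by have := hu i; positivity
  have hσ0 : ∀ i, σ i ≠ 0 := by
    intro i; rcases hσ i with h | h <;> rw [h] <;> norm_num
  have hZne : ∀ k, (Z k).1 ≠ 0 ∧ (Z k).2 ≠ 0 := by
    intro k
    rcases k with (i | i) | i
    · exact ⟨(hxp i).ne', neg_ne_zero.mpr (ha i).ne'⟩
    · exact ⟨(hxm i).ne, neg_ne_zero.mpr (ha i).ne'⟩
    · exact ⟨div_ne_zero (hσ0 i) (hupos i).ne', by
        have := hu i
        have : 0 < (u i)^2 := by positivity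
        exact this.ne'⟩
  have hZinj : Function.Injective Z := by
    intro k l hkl
    rcases k with (k | k) | k <;> rcases l with (l | l) | l <;>
      simp only [hZ, Sum.elim_inl, Sum.elim_inr, Prod.mk.injEq] at hkl
    · rw [hainj (neg_injective hkl.2)]
    · have := hxp k; have := hxm l; linarith [hkl.1]
    · have := ha k; have := hu l; nlinarith [hkl.2]
    · have := hxm k; have := hxp l; linarith [hkl.1]
    · rw [hainj (neg_injective hkl.2)]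
    · have := ha k; have := hu l; nlinarith [hkl.2]
    · have := ha l; have := hu k; nlinarith [hkl.2]
    · have := ha l; have := hu k; nlinarith [hkl.2]
    · have h1 := hu k
      have h2 := hu l
      rw [huinj ((sq_eq_sq₀ (by linarith) (by linarith)).mp hkl.2)]
  have hPZ : ∀ x y : ℝ, x ≠ 0 → y ≠ 0 → 0 ≤ PP I r δ a x y ∧
      (PP I r δ a x y = 0 ↔ ∃ k, Z k = (x, y)) := by
    intro x y hx hy
    obtain ⟨h1, h2⟩ := PP_zero_iff hδ ha hu hσ hr1 hΘ xp xm hroot x y hx hy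
    refine ⟨h1, h2.trans ?_⟩
    simp only [hZ, Sum.exists, Sum.elim_inl, Sum.elim_inr]
  have hgrow : ∀ k, (fun z : ℝ × ℝ => ‖z - Z k‖^2) =O[𝓝 (Z k)]
      (fun z => PP I r δ a z.1 z.2) := by
    intro k
    rcases k with (i | i) | i
    · exact growA hδ ha hainj i (xp i) (hxp i).ne' ((hroot i _ (hxp i).ne').mpr (Or.inl rfl))
    · exact growA hδ ha hainj i (xm i) (hxm i).ne ((hroot i _ (hxm i).ne).mpr (Or.inr rfl))
    · exact growB hδ ha (σ i) (u i) κ η (hu i) (hσ i) hκ hη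
        (fun t ht => (hΘ (σ i) (hσ i) t ht).1) (hgr i)
  -- normalisation constants
  set p := pP r δ a with hp
  set κ0 : ℝ := p.coeff 0 with hκ0
  have hκ0v : κ0 = ((ee δ a 0)^2 + (r.coeff 0)^2)/4 := by
    rw [hκ0, Polynomial.coeff_zero_eq_eval_zero, hp, pP_eval, Polynomial.coeff_zero_eq_eval_zero]
    simp
  have hee0 : 0 < ee δ a 0 := ee_pos hδ ha le_rfl
  have hκ0pos : 0 < κ0 := by rw [hκ0v]; positivity
  have hr0 : (r.coeff 0)^2 < 4 * κ0 := by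
    rw [hκ0v]
    have : 0 < (ee δ a 0)^2 := by positivity
    linarith
  obtain ⟨s, hs, hsκ⟩ : ∃ s : ℝ, 0 < s ∧ s^2 * κ0 = 1 := by
    refine ⟨(√κ0)⁻¹, inv_pos.mpr (Real.sqrt_pos.mpr hκ0pos), ?_⟩
    rw [inv_pow, Real.sq_sqrt hκ0pos.le]
    exact inv_mul_cancel₀ hκ0pos.ne'
  obtain ⟨t, ht, htκ⟩ : ∃ t : ℝ, 0 < t ∧ t^(2*I+1) = κ0 := by
    refine ⟨κ0 ^ (((2*I+1 : ℕ) : ℝ)⁻¹), Real.rpow_pos_of_pos hκ0pos _, ?_⟩
    exact Real.rpow_inv_natCast_pow hκ0pos.le (by omega)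
  have hsinv : s⁻¹ = s * κ0 := by
    apply inv_eq_of_mul_eq_one_right
    linarith
  have hsum : ∀ x y : ℝ, x ≠ 0 → y ≠ 0 →
      ∑ w ∈ Dm (2 * I + 1), (a0 I r p w * s^w.1 * t^w.2 / κ0) * x ^ w.1 * y ^ w.2
        = PP I r δ a (s*x) (t*y) / κ0 := by
    intro x y hx hy
    rw [← PP_eq I r hr δ a (s*x) (t*y) (mul_ne_zero hs.ne' hx) (mul_ne_zero ht.ne' hy),
      Finset.sum_div]
    apply Finset.sum_congr rfl
    intro w _
    rw [mul_zpow, mul_zpow]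
    ring
  have hctl : ∀ i : Fin (3*I), ∃ cA cB : ℕ → ℝ, ∀ j : Fin (3*I),
      ∑ w ∈ Dint (2 * I + 1), b0 I cA cB w * (Z (e j)).1 ^ w.1 * (Z (e j)).2 ^ w.2
        = if i = j then 1 else 0 := by
    intro i
    obtain ⟨cA, cB, h⟩ := controls (σ := σ) ha hainj hu huinj hxp hxm
      (fun k => if e i = k then 1 else 0)
    refine ⟨cA, cB, ?_⟩
    intro j
    rw [sum_b0]
    have h1 := h (e j) (Z (e j)).1 (Z (e j)).2 rfl
    rw [h1]
    simp
  choose cA cB hctl using hctl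
  refine ⟨fun w => a0 I r p w * s^w.1 * t^w.2 / κ0,
    fun i => ((Z (e i)).1/s, (Z (e i)).2/t),
    fun i w => b0 I (cA i) (cB i) w * s^w.1 * t^w.2, ?_, ?_, ?_, ?_, ?_, ?_, ?_, ?_, ?_, ?_, ?_⟩
  · have h1 : s ^ (-2 : ℤ) = κ0 := by
      rw [zpow_neg]
      apply inv_eq_of_mul_eq_one_right
      exact_mod_cast hsκ
    simp only [a0]
    simp only [if_true, zpow_zero, mul_one, one_mul, h1]
    exact div_self hκ0pos.ne'
  · simp [a0]
    exact div_self hκ0pos.ne'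
  · have h1 : t ^ (2 * (2 * (I:ℤ) + 1)) = κ0^2 := by
      rw [← htκ, ← pow_mul]
      have : (2 * (2 * (I:ℤ) + 1)) = (((2*I+1)*2 : ℕ) : ℤ) := by push_cast; ring
      rw [this, zpow_natCast]
    simp only [a0]
    norm_num
    rw [h1]
    field_simp
    linarith
  · have h1 : a0 I r p (-1, 0) * s ^ (-1 : ℤ) * t ^ (0:ℤ) / κ0 = r.coeff 0 * s := by
      simp only [a0]
      norm_num
      rw [hsinv]
      field_simp
    simp only
    rw [h1]
    apply abs_lt_of_sq_lt_sq _ (by norm_num)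
    have : 0 < s^2 := by positivity
    nlinarith
  · have h1 : a0 I r p (1, 2*I+1) * s ^ (1 : ℤ) * t ^ (2 * (I:ℤ) + 1) / κ0 = r.coeff 0 * s := by
      have h2 : t ^ (2 * (I:ℤ) + 1) = κ0 := by
        rw [← htκ]
        exact_mod_cast zpow_natCast t (2*I+1)
      rw [h2]
      simp only [a0]
      norm_num
      field_simp
    simp only
    rw [h1]
    apply abs_lt_of_sq_lt_sq _ (by norm_num)
    have : 0 < s^2 := by positivity
    nlinarith
  · have h1 : a0 I r p (0, 2*I+1) * s ^ (0 : ℤ) * t ^ (2 * (I:ℤ) + 1) / κ0 = 2 - δ^2/4 := by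
      have h2 : t ^ (2 * (I:ℤ) + 1) = κ0 := by
        rw [← htκ]
        exact_mod_cast zpow_natCast t (2*I+1)
      have h3 : (2 * (I:ℤ) + 1).toNat = 2*I+1 := by omega
      rw [h2]
      simp only [a0]
      norm_num
      rw [h3, hp, pP_coeff r hr δ a]
      field_simp
    simp only
    rw [h1, abs_lt]
    constructor <;> nlinarith
  · intro i j hij
    simp only [Prod.mk.injEq] at hij
    obtain ⟨h1, h2⟩ := hij
    rw [div_left_inj' hs.ne'] at h1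
    rw [div_left_inj' ht.ne'] at h2
    exact e.injective (hZinj (Prod.ext h1 h2))
  · intro i
    exact ⟨div_ne_zero (hZne _).1 hs.ne', div_ne_zero (hZne _).2 ht.ne'⟩
  · intro x y hx hy
    simp only
    rw [hsum x y hx hy]
    obtain ⟨h1, h2⟩ := hPZ (s*x) (t*y) (mul_ne_zero hs.ne' hx) (mul_ne_zero ht.ne' hy)
    refine ⟨div_nonneg h1 hκ0pos.le, ?_⟩
    rw [div_eq_zero_iff, or_iff_left hκ0pos.ne', h2]
    constructor
    · rintro ⟨k, hk⟩
      refine ⟨e.symm k, ?_⟩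
      rw [Equiv.apply_symm_apply, hk]
      simp only [Prod.mk.injEq]
      exact ⟨mul_div_cancel_left₀ x hs.ne', mul_div_cancel_left₀ y ht.ne'⟩
    · rintro ⟨i, hi⟩
      refine ⟨e i, ?_⟩
      rw [Prod.mk.injEq] at hi
      obtain ⟨rfl, rfl⟩ := hi
      rw [mul_div_cancel₀ _ hs.ne', mul_div_cancel₀ _ ht.ne']
  · have hev : ∀ i : Fin (3*I), ∀ᶠ z : ℝ × ℝ in 𝓝 ((Z (e i)).1/s, (Z (e i)).2/t),
        z.1 ≠ 0 ∧ z.2 ≠ 0 := by
      intro i
      have c1 : ContinuousAt (fun z : ℝ × ℝ => z.1) ((Z (e i)).1/s, (Z (e i)).2/t) :=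
        continuous_fst.continuousAt
      have c2 : ContinuousAt (fun z : ℝ × ℝ => z.2) ((Z (e i)).1/s, (Z (e i)).2/t) :=
        continuous_snd.continuousAt
      exact (c1.eventually_ne (div_ne_zero (hZne _).1 hs.ne')).and
        (c2.eventually_ne (div_ne_zero (hZne _).2 ht.ne'))
    refine growth_consts (by omega) _
      (fun z : ℝ × ℝ => ∑ w ∈ Dm (2 * I + 1), (a0 I r p w * s^w.1 * t^w.2 / κ0) * z.1 ^ w.1 * z.2 ^ w.2)
      ?_ ?_
    · intro i
      filter_upwards [hev i] with z hz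
      rw [hsum z.1 z.2 hz.1 hz.2]
      exact div_nonneg (hPZ _ _ (mul_ne_zero hs.ne' hz.1) (mul_ne_zero ht.ne' hz.2)).1 hκ0pos.le
    · intro i
      have h1 := growth_scale hs ht hκ0pos (fun z : ℝ × ℝ => PP I r δ a z.1 z.2) (Z (e i)) (hgrow (e i))
      refine h1.trans (Filter.EventuallyEq.isBigO ?_)
      filter_upwards [hev i] with z hz
      rw [hsum z.1 z.2 hz.1 hz.2]
  · intro i j
    rw [← hctl i j]
    apply Finset.sum_congr rfl
    intro w _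
    simp only
    have h1 : ∀ (q : ℝ) (n : ℤ) (c : ℝ), c ≠ 0 → c^n * (q/c)^n = q^n := by
      intro q n c hc
      rw [← mul_zpow, mul_div_cancel₀ _ hc]
    calc b0 I (cA i) (cB i) w * s^w.1 * t^w.2 * ((Z (e j)).1/s)^w.1 * ((Z (e j)).2/t)^w.2
        = b0 I (cA i) (cB i) w * (s^w.1 * ((Z (e j)).1/s)^w.1) * (t^w.2 * ((Z (e j)).2/t)^w.2) := by
          ring
      _ = _ := by rw [h1 _ _ _ hs.ne', h1 _ _ _ ht.ne']

end Pool.Agent.MP9d
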