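import Pool.Agent.Work.MP_9d788c_ag.TileDef

/-!
Lower bound of a Laurent polynomial supported on the triangle with vertices
`(-2,0), (0,0), (2,2m)` away from its zeros.
-/

namespace Pool.Agent.MP9d

private theorem mono_le {n : ℕ} {σ M u v t z : ℝ} (hσ0 : 0 ≤ σ) (hσ1 : σ ≤ 1) (hM : 0 ≤ M)
    (hn : 0 < n)
    (hu0 : 0 ≤ u) (hu : u ≤ σ ^ (2 * n) * M) (hv0 : 0 ≤ v) (hv : v ≤ M) (ht0 : 0 ≤ t) (ht : t ≤ M)
    {p q r : ℕ} (hp : 1 ≤ p) (h : p + q + r = 2 * n)
    (hzz : z ^ (2 * n) = u ^ p * v ^ q * t ^ r) : z ≤ σ * M := by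
  have h1 : u ^ p ≤ σ ^ (2 * n) * M ^ p := by
    calc u ^ p ≤ (σ ^ (2 * n) * M) ^ p := pow_le_pow_left₀ hu0 hu p
      _ = (σ ^ (2 * n)) ^ p * M ^ p := mul_pow _ _ _
      _ ≤ σ ^ (2 * n) * M ^ p := by
        apply mul_le_mul_of_nonneg_right _ (pow_nonneg hM _)
        exact pow_le_of_le_one (pow_nonneg hσ0 _) (pow_le_one₀ hσ0 hσ1) (by omega)
  have h2 : z ^ (2 * n) ≤ (σ * M) ^ (2 * n) := by
    rw [hzz]
    calc u ^ p * v ^ q * t ^ r ≤ (σ ^ (2 * n) * M ^ p) * M ^ q * M ^ r := by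
          apply mul_le_mul _ (pow_le_pow_left₀ ht0 ht r) (pow_nonneg ht0 _) (by positivity)
          exact mul_le_mul h1 (pow_le_pow_left₀ hv0 hv q) (pow_nonneg hv0 _) (by positivity)
      _ = (σ * M) ^ (2 * n) := by
          rw [mul_pow, ← h]
          ring
  exact le_of_pow_le_pow_left₀ (by omega) (mul_nonneg hσ0 hM) h2

private theorem abs_mono_pow {x y : ℝ} (hx : x ≠ 0) (hy : y ≠ 0) {m : ℤ} {n : ℕ}
    (hmn : (n : ℤ) = m) {w : ℤ × ℤ} {p q r : ℕ} (hp : (p : ℤ) = w.2 - m * w.1)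
    (_hq : (q : ℤ) = 2 * m - 2 * w.2 + m * w.1) (hr : (r : ℤ) = w.2) :
    |x ^ w.1 * y ^ w.2| ^ (2 * n) =
      (x ^ (-2 : ℤ)) ^ p * (x ^ (2 : ℤ) * y ^ (2 * m)) ^ r := by
  have hX : |x| ≠ 0 := abs_ne_zero.2 hx
  have hY : |y| ≠ 0 := abs_ne_zero.2 hy
  have e1 : x ^ (-2 : ℤ) = |x| ^ (-2 : ℤ) := by
    rw [← abs_zpow]
    exact (abs_of_pos ((even_two.neg : Even (-2 : ℤ)).zpow_pos hx)).symm
  have e2 : x ^ (2 : ℤ) = |x| ^ (2 : ℤ) := by
    rw [← abs_zpow]
    exact (abs_of_pos (even_two.zpow_pos hx)).symm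
  have e3 : y ^ (2 * m) = |y| ^ (2 * m) := by
    rw [← abs_zpow]
    exact (abs_of_pos ((even_two_mul m).zpow_pos hy)).symm
  rw [e1, e2, e3, abs_mul, abs_zpow, abs_zpow]
  rw [← zpow_natCast, ← zpow_natCast, ← zpow_natCast, mul_zpow, mul_zpow, ← zpow_mul, ← zpow_mul,
    ← zpow_mul, ← zpow_mul, ← zpow_mul, ← mul_assoc, ← zpow_add₀ hX]
  congr 2
  · push_cast
    rw [hp, hr, hmn]
    ring
  · push_cast
    rw [hr, hmn]
    ring

/-- the main estimate near an edge: all monomials off the edge are small -/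
private theorem edge_est {m : ℤ} (a : ℤ × ℤ → ℝ) {x y σ M e g : ℝ} (E : Finset (ℤ × ℤ))
    (hE : E ⊆ Dm m) (hσ0 : 0 ≤ σ)
    (hM : 0 ≤ M)
    (hoff : ∀ w ∈ Dm m, w ∉ E → |x ^ w.1 * y ^ w.2| ≤ σ * M)
    {δ : ℝ} (hδ : 0 < δ) (hσS : σ * (∑ w ∈ Dm m, |a w|) ≤ δ / 2)
    (hsum : ∑ w ∈ E, a w * x ^ w.1 * y ^ w.2 = e) (he : δ * g ≤ e) (hMg : M ≤ g) :
    δ / 2 * g ≤ ∑ w ∈ Dm m, a w * x ^ w.1 * y ^ w.2 := by
  classical
  rw [← Finset.sum_sdiff hE, hsum]
  have h1 : |∑ w ∈ Dm m \ E, a w * x ^ w.1 * y ^ w.2| ≤ (∑ w ∈ Dm m, |a w|) * (σ * M) := by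
    calc |∑ w ∈ Dm m \ E, a w * x ^ w.1 * y ^ w.2|
        ≤ ∑ w ∈ Dm m \ E, |a w * x ^ w.1 * y ^ w.2| := Finset.abs_sum_le_sum_abs _ _
      _ ≤ ∑ w ∈ Dm m \ E, |a w| * (σ * M) := by
          apply Finset.sum_le_sum
          intro w hw
          rw [mul_assoc, abs_mul]
          exact mul_le_mul_of_nonneg_left
            (hoff w (Finset.mem_sdiff.1 hw).1 (Finset.mem_sdiff.1 hw).2) (abs_nonneg _)
      _ ≤ ∑ w ∈ Dm m, |a w| * (σ * M) := by
          apply Finset.sum_le_sum_of_subset_of_nonneg Finset.sdiff_subset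
          intro w _ _
          positivity
      _ = (∑ w ∈ Dm m, |a w|) * (σ * M) := by rw [Finset.sum_mul]
  have h2 : (∑ w ∈ Dm m, |a w|) * (σ * M) ≤ δ / 2 * M := by
    calc (∑ w ∈ Dm m, |a w|) * (σ * M) = (σ * (∑ w ∈ Dm m, |a w|)) * M := by ring
      _ ≤ δ / 2 * M := mul_le_mul_of_nonneg_right hσS hM
  have h3 := neg_abs_le (∑ w ∈ Dm m \ E, a w * x ^ w.1 * y ^ w.2)
  nlinarith

private theorem quad_bound {u v z c δ : ℝ} (hu : 0 ≤ u) (hv : 0 ≤ v) (hz : z ^ 2 = u * v)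
    (hδ : δ ≤ 1 - |c| / 2) : δ * (u + v) ≤ u + c * z + v := by
  have h1 : |z| ≤ (u + v) / 2 := by
    apply abs_le_of_sq_le_sq _ (by positivity)
    nlinarith [sq_nonneg (u - v)]
  have h2 : |c * z| ≤ |c| * ((u + v) / 2) := by
    rw [abs_mul]
    exact mul_le_mul_of_nonneg_left h1 (abs_nonneg _)
  have h3 := neg_abs_le (c * z)
  have h4 : δ * (u + v) ≤ (1 - |c| / 2) * (u + v) :=
    mul_le_mul_of_nonneg_right hδ (by positivity)
  nlinarith

private theorem final_le {δ A G g P : ℝ} (hδ : 0 ≤ δ) (h1 : A ≤ δ / 4 * G) (h2 : G ≤ 2 * g)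
    (h3 : δ / 2 * g ≤ P) : A ≤ P := by
  have h4 : δ / 4 * G ≤ δ / 4 * (2 * g) := mul_le_mul_of_nonneg_left h2 (by linarith)
  linarith

theorem tile_compact (m : ℤ) (hm : 0 < m) (hodd : Odd m) (a : ℤ × ℤ → ℝ) {N : ℕ} (ζ : Fin N → ℝ × ℝ)
    (h1 : a (-2, 0) = 1) (h2 : a (0, 0) = 1) (h3 : a (2, 2 * m) = 1)
    (h4 : |a (-1, 0)| < 2) (h5 : |a (1, m)| < 2) (h6 : |a (0, m)| < 2)
    (hpos : ∀ x y : ℝ, x ≠ 0 → y ≠ 0 → 0 ≤ ∑ w ∈ Dm m, a w * x ^ w.1 * y ^ w.2 ∧
      (∑ w ∈ Dm m, a w * x ^ w.1 * y ^ w.2 = 0 ↔ ∃ i, ζ i = (x, y)))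
    (ρ : ℝ) (hρ : 0 < ρ) :
    ∃ κ > 0, ∀ x y : ℝ, x ≠ 0 → y ≠ 0 → (∀ i, ρ ≤ ‖(x, y) - ζ i‖) →
      κ * (x ^ (-2 : ℤ) + 1 + x ^ (2 : ℤ) * y ^ (2 * m)) ≤ ∑ w ∈ Dm m, a w * x ^ w.1 * y ^ w.2 := by
  classical
  obtain ⟨n, hn⟩ : ∃ n : ℕ, (n : ℤ) = m := ⟨m.toNat, Int.toNat_of_nonneg hm.le⟩
  have hn0 : 0 < n := by omega
  obtain ⟨l, hl⟩ := hodd
  -- the constant `δ`
  set δ : ℝ := min (1 - |a (-1, 0)| / 2) (min (1 - |a (1, m)| / 2) (1 - |a (0, m)| / 2)) with hδdef
  have hδ : 0 < δ := by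
    rw [hδdef]
    refine lt_min (by linarith) (lt_min (by linarith) (by linarith))
  have hδ1 : δ ≤ 1 - |a (-1, 0)| / 2 := min_le_left _ _
  have hδ2 : δ ≤ 1 - |a (1, m)| / 2 := (min_le_right _ _).trans (min_le_left _ _)
  have hδ3 : δ ≤ 1 - |a (0, m)| / 2 := (min_le_right _ _).trans (min_le_right _ _)
  set S : ℝ := ∑ w ∈ Dm m, |a w| with hS
  have hS0 : 0 ≤ S := Finset.sum_nonneg (fun _ _ => abs_nonneg _)
  -- the small parameter
  set σ : ℝ := min (1 / 2) (δ / (2 * (S + 1))) with hσdef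
  have hσ : 0 < σ := lt_min (by norm_num) (by positivity)
  have hσ1 : σ ≤ 1 := (min_le_left _ _).trans (by norm_num)
  have hσ1' : σ < 1 := lt_of_le_of_lt (min_le_left _ _) (by norm_num)
  have hσS : σ * S ≤ δ / 2 := by
    have : σ ≤ δ / (2 * (S + 1)) := min_le_right _ _
    calc σ * S ≤ δ / (2 * (S + 1)) * S := mul_le_mul_of_nonneg_right this hS0
      _ = δ / 2 * (S / (S + 1)) := by field_simp
      _ ≤ δ / 2 * 1 := by
          apply mul_le_mul_of_nonneg_left _ (by positivity)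
          rw [div_le_one (by positivity)]
          linarith
      _ = δ / 2 := mul_one _
  set τ : ℝ := σ ^ (2 * n) with hτ
  have hτ0 : 0 < τ := by positivity
  have hτ1 : τ < 1 := pow_lt_one₀ hσ.le hσ1' (by omega)
  -- the compact part
  set K : Set (ℝ × ℝ) := {z | τ ≤ z.1 ^ 2 ∧ z.1 ^ 2 ≤ τ⁻¹ ∧ τ ^ 2 ≤ z.2 ^ (2 * n) ∧
    z.2 ^ (2 * n) ≤ (τ⁻¹) ^ 2 ∧ ∀ i, ρ ≤ ‖z - ζ i‖} with hK
  have hKclosed : IsClosed K := by
    rw [hK]
    simp only [Set.ofPred_and]
    refine IsClosed.inter (isClosed_le continuous_const (by fun_prop)) ?_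
    refine IsClosed.inter (isClosed_le (by fun_prop) continuous_const) ?_
    refine IsClosed.inter (isClosed_le continuous_const (by fun_prop)) ?_
    refine IsClosed.inter (isClosed_le (by fun_prop) continuous_const) ?_
    rw [Set.ofPred_forall]
    exact isClosed_iInter (fun i => isClosed_le continuous_const (by fun_prop))
  have hKbdd : Bornology.IsBounded K := by
    rw [isBounded_iff_forall_norm_le]
    refine ⟨1 + τ⁻¹ + (τ⁻¹) ^ 2, ?_⟩
    rintro ⟨x, y⟩ ⟨_, hb, _, hd, _⟩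
    simp only at hb hd
    have hτi : 0 < τ⁻¹ := inv_pos.2 hτ0
    have hx : |x| ≤ 1 + τ⁻¹ := by
      apply abs_le_of_sq_le_sq _ (by positivity)
      nlinarith
    have hy : |y| ≤ 1 + (τ⁻¹) ^ 2 := by
      by_contra hcon
      push Not at hcon
      have h8 : (1 + (τ⁻¹) ^ 2) ^ (2 * n) < |y| ^ (2 * n) :=
        pow_lt_pow_left₀ hcon (by positivity) (by omega)
      have h9 : |y| ^ (2 * n) = y ^ (2 * n) := by
        rw [← abs_pow, abs_of_nonneg]
        exact (even_two_mul n).pow_nonneg y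
      rw [h9] at h8
      have h10 : (1 + (τ⁻¹) ^ 2) ≤ (1 + (τ⁻¹) ^ 2) ^ (2 * n) :=
        le_self_pow₀ (by nlinarith [sq_nonneg τ⁻¹]) (by omega)
      linarith
    rw [Prod.norm_def]
    simp only [Real.norm_eq_abs]
    refine max_le ?_ ?_
    · nlinarith [sq_nonneg τ⁻¹]
    · linarith
  have hKcomp : IsCompact K := Metric.isCompact_of_isClosed_isBounded hKclosed hKbdd
  have hKne : ∀ z ∈ K, z.1 ≠ 0 ∧ z.2 ≠ 0 := by
    rintro ⟨x, y⟩ ⟨ha, _, hc, _, _⟩
    simp only at ha hc ⊢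
    constructor
    · rintro rfl
      norm_num at ha
      linarith
    · rintro rfl
      rw [zero_pow (by omega)] at hc
      nlinarith
  obtain ⟨c₀, hc₀, hc₀K⟩ : ∃ c₀ > 0, ∀ z ∈ K, c₀ ≤ ∑ w ∈ Dm m, a w * z.1 ^ w.1 * z.2 ^ w.2 := by
    rcases K.eq_empty_or_nonempty with hemp | hne
    · exact ⟨1, one_pos, fun z hz => by rw [hemp] at hz; exact absurd hz (Set.notMem_empty z)⟩
    · have hcont : ContinuousOn (fun z : ℝ × ℝ => ∑ w ∈ Dm m, a w * z.1 ^ w.1 * z.2 ^ w.2) K := by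
        apply continuousOn_finsetSum
        intro w _
        refine ContinuousOn.mul (ContinuousOn.mul continuousOn_const ?_) ?_
        · exact ContinuousOn.zpow₀ continuousOn_fst _ (fun z hz => Or.inl (hKne z hz).1)
        · exact ContinuousOn.zpow₀ continuousOn_snd _ (fun z hz => Or.inl (hKne z hz).2)
      obtain ⟨z₀, hz₀, hmin⟩ := hKcomp.exists_isMinOn hne hcont
      refine ⟨∑ w ∈ Dm m, a w * z₀.1 ^ w.1 * z₀.2 ^ w.2, ?_, fun z hz => hmin hz⟩
      have h7 := hpos z₀.1 z₀.2 (hKne z₀ hz₀).1 (hKne z₀ hz₀).2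
      refine lt_of_le_of_ne h7.1 (fun h0 => ?_)
      obtain ⟨i, hi⟩ := h7.2.1 h0.symm
      have h8 := hz₀.2.2.2.2 i
      rw [hi] at h8
      simp at h8
      linarith
  -- the constant
  refine ⟨min (δ / 4) (c₀ * τ / 3), lt_min (by positivity) (by positivity), ?_⟩
  intro x y hx hy hz
  set α : ℝ := x ^ (-2 : ℤ) with hα
  set γ : ℝ := x ^ (2 : ℤ) * y ^ (2 * m) with hγ
  have hx2 : (0 : ℝ) < x ^ (2 : ℤ) := even_two.zpow_pos hx
  have hα0 : 0 < α := (even_two.neg : Even (-2 : ℤ)).zpow_pos hx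
  have hγ0 : 0 < γ := mul_pos hx2 ((even_two_mul m).zpow_pos hy)
  have hG : 0 ≤ α + 1 + γ := by positivity
  set M : ℝ := max α (max 1 γ) with hM
  have hMα : α ≤ M := le_max_left _ _
  have hM1 : 1 ≤ M := (le_max_left _ _).trans (le_max_right _ _)
  have hMγ : γ ≤ M := (le_max_right _ _).trans (le_max_right _ _)
  have hM0 : 0 ≤ M := by linarith
  -- exponents
  have hexp : ∀ w ∈ Dm m, ∃ p q r : ℕ, (p : ℤ) = w.2 - m * w.1 ∧
      (q : ℤ) = 2 * m - 2 * w.2 + m * w.1 ∧ (r : ℤ) = w.2 ∧ p + q + r = 2 * n ∧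
      |x ^ w.1 * y ^ w.2| ^ (2 * n) = α ^ p * γ ^ r := by
    intro w hw
    rw [Dm, Finset.mem_filter, Finset.mem_product, Finset.mem_Icc, Finset.mem_Icc] at hw
    obtain ⟨⟨_, hw2⟩, hw3, hw4⟩ := hw
    refine ⟨(w.2 - m * w.1).toNat, (2 * m - 2 * w.2 + m * w.1).toNat, w.2.toNat,
      Int.toNat_of_nonneg (by linarith), Int.toNat_of_nonneg (by linarith),
      Int.toNat_of_nonneg hw2.1, ?_, ?_⟩
    · have e1 := Int.toNat_of_nonneg (a := w.2 - m * w.1) (by linarith)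
      have e2 := Int.toNat_of_nonneg (a := 2 * m - 2 * w.2 + m * w.1) (by linarith)
      have e3 := Int.toNat_of_nonneg (a := w.2) hw2.1
      zify
      rw [e1, e2, e3, hn]
      ring
    · exact abs_mono_pow hx hy hn (Int.toNat_of_nonneg (by linarith))
        (Int.toNat_of_nonneg (by linarith)) (Int.toNat_of_nonneg hw2.1)
  have hG3 : min (δ / 4) (c₀ * τ / 3) * (α + 1 + γ) ≤ δ / 4 * (α + 1 + γ) :=
    mul_le_mul_of_nonneg_right (min_le_left _ _) hG
  have habs : ∀ w : ℤ × ℤ, 0 ≤ |x ^ w.1 * y ^ w.2| := fun w => abs_nonneg _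
  by_cases hA : α ≤ τ * M
  · -- near the edge `wa = 0`
    set E : Finset (ℤ × ℤ) := {(0, 0), (1, m), (2, 2 * m)} with hE
    have hEsub : E ⊆ Dm m := by
      intro w hw
      rw [hE, Finset.mem_insert, Finset.mem_insert, Finset.mem_singleton] at hw
      rw [Dm, Finset.mem_filter, Finset.mem_product, Finset.mem_Icc, Finset.mem_Icc]
      rcases hw with rfl | rfl | rfl <;> refine ⟨⟨⟨?_, ?_⟩, ⟨?_, ?_⟩⟩, ?_, ?_⟩ <;> simp <;> linarith
    have hoff : ∀ w ∈ Dm m, w ∉ E → |x ^ w.1 * y ^ w.2| ≤ σ * M := by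
      intro w hw hwE
      obtain ⟨p, q, r, hp, hq, hr, hpqr, hpow⟩ := hexp w hw
      have hp1 : 1 ≤ p := by
        by_contra hcon
        have hp0 : w.2 = m * w.1 := by
          have : p = 0 := by omega
          rw [this] at hp
          push_cast at hp
          linarith
        apply hwE
        rw [Dm, Finset.mem_filter, Finset.mem_product, Finset.mem_Icc, Finset.mem_Icc] at hw
        obtain ⟨⟨hw1, hw2⟩, hw3, hw4⟩ := hw
        have hw0 : 0 ≤ w.1 := by
          by_contra hneg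
          push Not at hneg
          have : w.2 < 0 := by rw [hp0]; exact mul_neg_of_pos_of_neg hm hneg
          linarith [hw2.1]
        rw [hE, Finset.mem_insert, Finset.mem_insert, Finset.mem_singleton]
        obtain ⟨w1, w2⟩ := w
        simp only at hp0 hw0 hw1
        have : w1 = 0 ∨ w1 = 1 ∨ w1 = 2 := by omega
        rcases this with rfl | rfl | rfl
        · left; rw [hp0]; simp
        · right; left; rw [hp0]; simp
        · right; right; rw [hp0, mul_comm]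
      exact mono_le hσ.le hσ1 hM0 hn0 hα0.le hA zero_le_one hM1 hγ0.le hMγ hp1 hpqr
        (by rw [hpow]; simp)
    have hsum : ∑ w ∈ E, a w * x ^ w.1 * y ^ w.2 = 1 + a (1, m) * (x * y ^ m) + γ := by
      rw [hE, Finset.sum_insert, Finset.sum_insert, Finset.sum_singleton, h2, h3, hγ]
      · simp
        ring
      · simp
      · simp
    have he : δ * (1 + γ) ≤ 1 + a (1, m) * (x * y ^ m) + γ := by
      apply quad_bound zero_le_one hγ0.le _ hδ2
      rw [hγ, mul_pow, one_mul, ← zpow_natCast (y ^ m), ← zpow_mul]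
      congr 1
      rw [mul_comm m]
      rfl
    have hMg : M ≤ 1 + γ := by
      rw [hM]
      refine max_le ?_ (max_le (by linarith) (by linarith))
      by_contra hcon
      push Not at hcon
      have h7 : M = α := by
        rw [hM]
        exact max_eq_left (max_le (by linarith) (by linarith))
      rw [h7] at hA
      exact absurd hA (not_le.2 (mul_lt_of_lt_one_left hα0 hτ1))
    have hfin := edge_est a E hEsub hσ.le hM0 hoff hδ hσS hsum he hMg
    have h8 : α ≤ 1 + γ := hMα.trans hMg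
    exact final_le hδ.le hG3 (by linarith) hfin
  by_cases hB : 1 ≤ τ * M
  · -- near the edge `wb = 0`
    set E : Finset (ℤ × ℤ) := {(-2, 0), (0, m), (2, 2 * m)} with hE
    have hEsub : E ⊆ Dm m := by
      intro w hw
      rw [hE, Finset.mem_insert, Finset.mem_insert, Finset.mem_singleton] at hw
      rw [Dm, Finset.mem_filter, Finset.mem_product, Finset.mem_Icc, Finset.mem_Icc]
      rcases hw with rfl | rfl | rfl <;> refine ⟨⟨⟨?_, ?_⟩, ⟨?_, ?_⟩⟩, ?_, ?_⟩ <;> simp <;> linarith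
    have hoff : ∀ w ∈ Dm m, w ∉ E → |x ^ w.1 * y ^ w.2| ≤ σ * M := by
      intro w hw hwE
      obtain ⟨p, q, r, hp, hq, hr, hpqr, hpow⟩ := hexp w hw
      have hq1 : 1 ≤ q := by
        by_contra hcon
        have hq0 : 2 * w.2 = 2 * m + m * w.1 := by
          have : q = 0 := by omega
          rw [this] at hq
          push_cast at hq
          linarith
        apply hwE
        rw [Dm, Finset.mem_filter, Finset.mem_product, Finset.mem_Icc, Finset.mem_Icc] at hw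
        obtain ⟨⟨hw1, hw2⟩, hw3, hw4⟩ := hw
        rw [hE, Finset.mem_insert, Finset.mem_insert, Finset.mem_singleton]
        obtain ⟨w1, w2⟩ := w
        simp only at hq0 hw1
        have : w1 = -2 ∨ w1 = -1 ∨ w1 = 0 ∨ w1 = 1 ∨ w1 = 2 := by omega
        rcases this with rfl | rfl | rfl | rfl | rfl
        · left
          have : w2 = 0 := by linarith
          rw [this]
        · exfalso; omega
        · right; left
          have : w2 = m := by linarith
          rw [this]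
        · exfalso; omega
        · right; right
          have : w2 = 2 * m := by linarith
          rw [this]
      exact mono_le hσ.le hσ1 hM0 hn0 zero_le_one hB hα0.le hMα hγ0.le hMγ hq1
        (by omega : q + p + r = 2 * n) (by rw [hpow]; simp)
    have hsum : ∑ w ∈ E, a w * x ^ w.1 * y ^ w.2 = α + a (0, m) * y ^ m + γ := by
      rw [hE, Finset.sum_insert, Finset.sum_insert, Finset.sum_singleton, h1, h3, hγ, hα]
      · simp
        ring
      · simp
      · simp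
    have hxx : x ^ (-2 : ℤ) * x ^ (2 : ℤ) = 1 := by
      rw [← zpow_add₀ hx]; simp
    have he : δ * (α + γ) ≤ α + a (0, m) * y ^ m + γ := by
      apply quad_bound hα0.le hγ0.le _ hδ3
      rw [hγ, hα, ← mul_assoc, hxx, one_mul, ← zpow_natCast (y ^ m), ← zpow_mul]
      congr 1
      rw [mul_comm m]
      rfl
    have hMg : M ≤ α + γ := by
      rw [hM]
      refine max_le (by linarith) (max_le ?_ (by linarith))
      by_contra hcon
      push Not at hcon
      have h7 : M = 1 := by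
        rw [hM]
        rw [max_eq_left (by linarith : γ ≤ 1)]
        exact max_eq_right (by linarith)
      rw [h7] at hB
      linarith
    have hfin := edge_est a E hEsub hσ.le hM0 hoff hδ hσS hsum he hMg
    have h8 : 1 ≤ α + γ := hM1.trans hMg
    exact final_le hδ.le hG3 (by linarith) hfin
  by_cases hC : γ ≤ τ * M
  · -- near the edge `wc = 0`
    set E : Finset (ℤ × ℤ) := {(-2, 0), (-1, 0), (0, 0)} with hE
    have hEsub : E ⊆ Dm m := by
      intro w hw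
      rw [hE, Finset.mem_insert, Finset.mem_insert, Finset.mem_singleton] at hw
      rw [Dm, Finset.mem_filter, Finset.mem_product, Finset.mem_Icc, Finset.mem_Icc]
      rcases hw with rfl | rfl | rfl <;> refine ⟨⟨⟨?_, ?_⟩, ⟨?_, ?_⟩⟩, ?_, ?_⟩ <;> simp <;> linarith
    have hoff : ∀ w ∈ Dm m, w ∉ E → |x ^ w.1 * y ^ w.2| ≤ σ * M := by
      intro w hw hwE
      obtain ⟨p, q, r, hp, hq, hr, hpqr, hpow⟩ := hexp w hw
      have hr1 : 1 ≤ r := by
        by_contra hcon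
        have hr0 : w.2 = 0 := by
          have : r = 0 := by omega
          rw [this] at hr
          push_cast at hr
          linarith
        apply hwE
        rw [Dm, Finset.mem_filter, Finset.mem_product, Finset.mem_Icc, Finset.mem_Icc] at hw
        obtain ⟨⟨hw1, hw2⟩, hw3, hw4⟩ := hw
        rw [hE, Finset.mem_insert, Finset.mem_insert, Finset.mem_singleton]
        obtain ⟨w1, w2⟩ := w
        simp only at hr0 hw1 hw3
        subst hr0
        have hw0 : w1 ≤ 0 := by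
          by_contra hneg
          push Not at hneg
          have : 0 < m * w1 := mul_pos hm hneg
          linarith
        have : w1 = -2 ∨ w1 = -1 ∨ w1 = 0 := by omega
        rcases this with rfl | rfl | rfl <;> simp
      exact mono_le hσ.le hσ1 hM0 hn0 hγ0.le hC hα0.le hMα zero_le_one hM1 hr1
        (by omega : r + p + q = 2 * n) (by rw [hpow]; simp [mul_comm])
    have hsum : ∑ w ∈ E, a w * x ^ w.1 * y ^ w.2 = α + a (-1, 0) * x⁻¹ + 1 := by
      rw [hE, Finset.sum_insert, Finset.sum_insert, Finset.sum_singleton, h1, h2, hα]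
      · simp
        ring
      · simp
      · simp
    have he : δ * (α + 1) ≤ α + a (-1, 0) * x⁻¹ + 1 := by
      apply quad_bound hα0.le zero_le_one _ hδ1
      rw [hα, mul_one, inv_pow, zpow_neg]
      rfl
    have hMg : M ≤ α + 1 := by
      rw [hM]
      refine max_le (by linarith) (max_le (by linarith) ?_)
      by_contra hcon
      push Not at hcon
      have h7 : M = γ := by
        rw [hM]
        rw [max_eq_right (by linarith : (1 : ℝ) ≤ γ)]
        exact max_eq_right (by linarith)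
      rw [h7] at hC
      exact absurd hC (not_le.2 (mul_lt_of_lt_one_left hγ0 hτ1))
    have hfin := edge_est a E hEsub hσ.le hM0 hoff hδ hσS hsum he hMg
    have h8 : γ ≤ α + 1 := hMγ.trans hMg
    exact final_le hδ.le hG3 (by linarith) hfin
  -- the compact part
  push Not at hA hB hC
  have hτi : τ * τ⁻¹ = 1 := mul_inv_cancel₀ hτ0.ne'
  have hτi0 : 0 < τ⁻¹ := inv_pos.2 hτ0
  have hMτ : M ≤ τ⁻¹ := by
    have h7 : τ⁻¹ * (τ * M) ≤ τ⁻¹ * 1 := mul_le_mul_of_nonneg_left hB.le hτi0.le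
    rw [← mul_assoc, inv_mul_cancel₀ hτ0.ne', one_mul, mul_one] at h7
    exact h7
  have hτα : τ ≤ α := by
    have : τ * 1 ≤ τ * M := mul_le_mul_of_nonneg_left hM1 hτ0.le
    linarith
  have hτγ : τ ≤ γ := by
    have : τ * 1 ≤ τ * M := mul_le_mul_of_nonneg_left hM1 hτ0.le
    linarith
  have hαi : α ≤ τ⁻¹ := hMα.trans hMτ
  have hγi : γ ≤ τ⁻¹ := hMγ.trans hMτ
  have hxα : x ^ 2 = α⁻¹ := by
    rw [hα, zpow_neg, inv_inv]
    rfl
  have hyγ : y ^ (2 * n) = α * γ := by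
    have hxx : x ^ (-2 : ℤ) * x ^ (2 : ℤ) = 1 := by
      rw [← zpow_add₀ hx]; simp
    rw [hα, hγ, ← mul_assoc, hxx, one_mul, ← hn]
    rfl
  have hmem : ((x, y) : ℝ × ℝ) ∈ K := by
    refine ⟨?_, ?_, ?_, ?_, hz⟩
    · simp only
      rw [hxα]
      rw [← inv_inv τ]
      exact inv_anti₀ hα0 hαi
    · simp only
      rw [hxα]
      exact inv_anti₀ hτ0 hτα
    · simp only
      rw [hyγ, sq]
      exact mul_le_mul hτα hτγ hτ0.le hα0.le
    · simp only
      rw [hyγ, sq]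
      exact mul_le_mul hαi hγi hγ0.le hτi0.le
  have h7 := hc₀K _ hmem
  simp only at h7
  have h8 : α + 1 + γ ≤ 3 * τ⁻¹ := by linarith
  calc min (δ / 4) (c₀ * τ / 3) * (α + 1 + γ) ≤ (c₀ * τ / 3) * (α + 1 + γ) :=
        mul_le_mul_of_nonneg_right (min_le_right _ _) hG
    _ ≤ (c₀ * τ / 3) * (3 * τ⁻¹) := mul_le_mul_of_nonneg_left h8 (by positivity)
    _ = c₀ * (τ * τ⁻¹) := by ring
    _ = c₀ := by rw [hτi, mul_one]
    _ ≤ _ := h7

end Pool.Agent.MP9d
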