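import Pool.Agent.Work.MP_9d788c_ag.Row2
import Pool.Agent.Work.MP_9d788c_ag.Tile
import Pool.Agent.Work.MP_9d788c_ag.TileCompact
import Pool.Agent.Work.MP_9d788c_ag.Theta

/-!
Stacking rows: a polynomial in the plane with many zeros.
-/

namespace Pool.Agent.MP9d

open Set Filter Topology

theorem Reg.add {E : Type*} [NormedAddCommGroup E] [NormedSpace ℝ E] {K : Set E} {f g : E → ℝ}
    (hf : Reg K f) (hg : Reg K g) : Reg K (fun z => f z + g z) := by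
  obtain ⟨B, hB, b1, b2, b3⟩ := hf
  obtain ⟨C, hC, c1, c2, c3⟩ := hg
  refine ⟨B + C, by positivity, ?_, ?_, ?_⟩
  · intro z hz
    exact (abs_add_le _ _).trans (add_le_add (b1 z hz) (c1 z hz))
  · intro z hz w hw
    have e : f z + g z - (f w + g w) = (f z - f w) + (g z - g w) := by ring
    rw [e, add_mul]
    exact (abs_add_le _ _).trans (add_le_add (b2 z hz w hw) (c2 z hz w hw))
  · intro z hz w hw
    rw [D2_add, add_mul]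
    exact (abs_add_le _ _).trans (add_le_add (b3 z hz w hw) (c3 z hz w hw))

theorem Reg.const_mul {E : Type*} [NormedAddCommGroup E] [NormedSpace ℝ E] {K : Set E}
    {f : E → ℝ} (hf : Reg K f) (c : ℝ) : Reg K (fun z => c * f z) := by
  obtain ⟨B, hB, b1, b2, b3⟩ := hf
  refine ⟨|c| * B, by positivity, ?_, ?_, ?_⟩
  · intro z hz
    rw [abs_mul]
    exact mul_le_mul_of_nonneg_left (b1 z hz) (abs_nonneg c)
  · intro z hz w hw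
    rw [← mul_sub, abs_mul, mul_assoc]
    exact mul_le_mul_of_nonneg_left (b2 z hz w hw) (abs_nonneg c)
  · intro z hz w hw
    rw [D2_const_mul, abs_mul, mul_assoc]
    exact mul_le_mul_of_nonneg_left (b3 z hz w hw) (abs_nonneg c)

theorem Reg.sum {E : Type*} [NormedAddCommGroup E] [NormedSpace ℝ E] {K : Set E}
    {ι : Type*} (J : Finset ι) (f : ι → E → ℝ) (hf : ∀ i ∈ J, Reg K (f i)) :
    Reg K (fun z => ∑ i ∈ J, f i z) := by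
  classical
  induction J using Finset.induction_on with
  | empty => simpa using Reg.const K 0
  | insert a J ha ih =>
    have h1 := hf a (Finset.mem_insert_self _ _)
    have h2 := ih (fun i hi => hf i (Finset.mem_insert_of_mem hi))
    have := h1.add h2
    simpa [Finset.sum_insert ha] using this

/-- the tile data, in the form used for patching -/
theorem tile_data (I : ℕ) (hI : 1 ≤ I) : ∃ (a : ℤ × ℤ → ℝ) (ζ : Fin (3 * I) → ℝ × ℝ)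
    (b : Fin (3 * I) → ℤ × ℤ → ℝ),
    a (-2, 0) = 1 ∧ a (0, 0) = 1 ∧ a (2, 2 * (2 * I + 1)) = 1 ∧ (∀ i, ζ i ∈ Tor) ∧
    (∀ z ∈ Tor, 0 ≤ ∑ w ∈ Dm (2 * I + 1), a w * mon w z) ∧
    (∀ i, ∑ w ∈ Dm (2 * I + 1), a w * mon w (ζ i) = 0) ∧
    (∃ κ > 0, ∃ ρ > 0, ∀ i, ∀ z : ℝ × ℝ, ‖z - ζ i‖ ≤ ρ →
      κ * ‖z - ζ i‖ ^ 2 ≤ ∑ w ∈ Dm (2 * I + 1), a w * mon w z) ∧
    (∀ i j, ∑ w ∈ Dint (2 * I + 1), b i w * mon w (ζ j) = if i = j then 1 else 0) ∧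
    (∀ ρ > 0, ∃ κ > 0, ∀ X ∈ Tor, (∀ i, ρ ≤ ‖X - ζ i‖) →
      κ * (mon (-2, 0) X + mon (0, 0) X + mon (2, 2 * (2 * I + 1)) X) ≤
        ∑ w ∈ Dm (2 * I + 1), a w * mon w X) := by
  obtain ⟨a, ζ, b, h1, h2, h3, h4, h5, h6, _, hζ, hpos, hgrow, hb⟩ :=
    exists_tile_of I hI (exists_theta I hI)
  have hmm : ∀ (f : ℤ × ℤ → ℝ) (S : Finset (ℤ × ℤ)) (z : ℝ × ℝ),
      ∑ w ∈ S, f w * mon w z = ∑ w ∈ S, f w * z.1 ^ w.1 * z.2 ^ w.2 := fun f S z =>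
    Finset.sum_congr rfl fun w _ => by rw [mon, mul_assoc]
  refine ⟨a, ζ, b, h1, h2, h3, hζ, ?_, ?_, ?_, ?_, ?_⟩
  · intro z hz
    rw [hmm]
    exact (hpos z.1 z.2 hz.1 hz.2).1
  · intro i
    rw [hmm]
    exact (hpos (ζ i).1 (ζ i).2 (hζ i).1 (hζ i).2).2.2 ⟨i, rfl⟩
  · obtain ⟨κ, hκ, ρ, hρ, H⟩ := hgrow
    refine ⟨κ, hκ, ρ, hρ, fun i z hz => ?_⟩
    rw [hmm]
    exact H i z hz
  · intro i j
    rw [hmm]
    exact hb i j
  · intro ρ hρ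
    obtain ⟨κ, hκ, H⟩ := tile_compact (2 * I + 1) (by positivity) ⟨I, rfl⟩ a ζ h1 h2 h3 h4 h5 h6
      hpos ρ hρ
    refine ⟨κ, hκ, fun X hX hout => ?_⟩
    have := H X.1 X.2 hX.1 hX.2 hout
    rw [hmm]
    simpa [mon] using this

section Packing

/-- index set of the tiles -/
abbrev TT (Q : ℕ) (K : ℕ → ℕ) : Type := Σ q : Fin Q, Fin (K q)

/-- the tile with index `τ` -/
noncomputable def tl (m Λ : ℤ) {Q : ℕ} {K : ℕ → ℕ} (τ : TT Q K) : TD :=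
  tile m Λ ((τ.1 : ℕ) : ℤ) ((τ.2 : ℕ) : ℤ)

theorem exists_Lambda {m : ℤ} (hm : 0 < m) (Q : ℕ) (K : ℕ → ℕ) :
    ∃ Λ : ℤ, ∀ τ τ' : TT Q K, τ.1 ≠ τ'.1 → ∀ w ∈ Dm m, 1 ≤ (tl m Λ τ).rel ((tl m Λ τ').exp w) := by
  obtain ⟨Λ0, hΛ0⟩ := (Set.finite_range (fun x : TT Q K × TT Q K × (Dm m) =>
    1 - (tl m 0 x.1).rel ((tl m 0 x.2.1).exp x.2.2))).bddAbove
  refine ⟨max Λ0 0, fun τ τ' hne w hw => ?_⟩
  have h1 : 1 - (tl m 0 τ).rel ((tl m 0 τ').exp w) ≤ Λ0 := hΛ0 ⟨(τ, τ', ⟨w, hw⟩), rfl⟩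
  have hq : ((τ.1 : ℕ) : ℤ) ≠ ((τ'.1 : ℕ) : ℤ) := by
    intro h
    apply hne
    ext
    exact_mod_cast h
  have h2 := rows_gap hm hq ((τ'.2 : ℕ) : ℤ) hw
  have h3 := rel_rows m (max Λ0 0) ((τ.1 : ℕ) : ℤ) ((τ.2 : ℕ) : ℤ) ((τ'.1 : ℕ) : ℤ)
    ((τ'.2 : ℕ) : ℤ) w
  simp only [tl] at h1 ⊢
  rw [h3]
  have h4 : max Λ0 0 * 1 ≤ max Λ0 0 * ((((τ'.1 : ℕ) : ℤ) - ((τ.1 : ℕ) : ℤ)) *
      (((tile m 0 ((τ'.1 : ℕ) : ℤ) ((τ'.2 : ℕ) : ℤ)).exp w).2.2 -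
        (m + 1) * (((τ.1 : ℕ) : ℤ) + ((τ'.1 : ℕ) : ℤ) + 1) + 1)) :=
    mul_le_mul_of_nonneg_left h2 (le_max_right _ _)
  have h5 := le_max_left Λ0 0
  linarith

theorem exists_Lambda' {m : ℤ} (Λ : ℤ) (Q : ℕ) (K : ℕ → ℕ) (n : ℕ) :
    ∃ Λ' : ℤ, ∀ τ : TT Q K, 1 ≤ (tl m Λ τ).rel (Λ', 0, 0) ∧ 1 ≤ (tl m Λ τ).rel (Λ', (n : ℤ), 0) ∧
      1 ≤ (tl m Λ τ).rel (Λ', 0, (n : ℤ)) := by
  obtain ⟨L1, h1⟩ := (Set.finite_range (fun τ : TT Q K =>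
    1 - (tl m Λ τ).rel (0, 0, 0))).bddAbove
  obtain ⟨L2, h2⟩ := (Set.finite_range (fun τ : TT Q K =>
    1 - (tl m Λ τ).rel (0, (n : ℤ), 0))).bddAbove
  obtain ⟨L3, h3⟩ := (Set.finite_range (fun τ : TT Q K =>
    1 - (tl m Λ τ).rel (0, 0, (n : ℤ)))).bddAbove
  refine ⟨max L1 (max L2 L3), fun τ => ?_⟩
  have k1 : 1 - (tl m Λ τ).rel (0, 0, 0) ≤ L1 := h1 ⟨τ, rfl⟩
  have k2 : 1 - (tl m Λ τ).rel (0, (n : ℤ), 0) ≤ L2 := h2 ⟨τ, rfl⟩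
  have k3 : 1 - (tl m Λ τ).rel (0, 0, (n : ℤ)) ≤ L3 := h3 ⟨τ, rfl⟩
  have m1 := le_max_left L1 (max L2 L3)
  have m2 := (le_max_left L2 L3).trans (le_max_right L1 (max L2 L3))
  have m3 := (le_max_right L2 L3).trans (le_max_right L1 (max L2 L3))
  simp only [TD.rel] at k1 k2 k3 ⊢
  refine ⟨by linarith, by linarith, by linarith⟩

/-- the extra term -/
noncomputable def qf (Λ' : ℤ) (n : ℕ) (s : ℝ) (z : ℝ × ℝ) : ℝ :=
  mono3 (Λ', 0, 0) s z + mono3 (Λ', (n : ℤ), 0) s z + mono3 (Λ', 0, (n : ℤ)) s z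

theorem qf_eq (Λ' : ℤ) (n : ℕ) (s : ℝ) (z : ℝ × ℝ) :
    qf Λ' n s z = s ^ Λ' * (1 + z.1 ^ n + z.2 ^ n) := by
  simp only [qf, mono3, mon, zpow_zero, zpow_natCast, mul_one, one_mul]
  ring

/-- the big polynomial -/
noncomputable def BigP (m Λ Λ' : ℤ) (a : ℤ × ℤ → ℝ) (Q : ℕ) (K : ℕ → ℕ) (n : ℕ) (s : ℝ)
    (z : ℝ × ℝ) : ℝ :=
  ∑ q : Fin Q, RowP m Λ ((q : ℕ) : ℤ) a (K q) s z + qf Λ' n s z

/-- the controls -/
noncomputable def Ctl (m Λ : ℤ) {N0 : ℕ} (b : Fin N0 → ℤ × ℤ → ℝ) {Q : ℕ} {K : ℕ → ℕ} (s : ℝ)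
    (τ : TT Q K) (i : Fin N0) (z : ℝ × ℝ) : ℝ :=
  ∑ w ∈ Dint m, b i w * mono3 ((tl m Λ τ).exp w) s z

theorem big_negl {m : ℤ} (hm : 0 < m) (hodd : Odd m) {Λ Λ' : ℤ} {a : ℤ × ℤ → ℝ}
    (h1 : a (-2, 0) = 1) (h2 : a (0, 0) = 1) (h3 : a (2, 2 * m) = 1) {Q : ℕ} {K : ℕ → ℕ} {n : ℕ}
    (hΛ : ∀ τ τ' : TT Q K, τ.1 ≠ τ'.1 → ∀ w ∈ Dm m, 1 ≤ (tl m Λ τ).rel ((tl m Λ τ').exp w))
    (hΛ' : ∀ τ : TT Q K, 1 ≤ (tl m Λ τ).rel (Λ', 0, 0) ∧ 1 ≤ (tl m Λ τ).rel (Λ', (n : ℤ), 0) ∧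
      1 ≤ (tl m Λ τ).rel (Λ', 0, (n : ℤ))) (τ : TT Q K) :
    Negl (tl m Λ τ) (fun s z => BigP m Λ Λ' a Q K n s z -
      Fful m Λ ((τ.1 : ℕ) : ℤ) a τ.2 s z) := by
  classical
  have e : (fun (s : ℝ) (z : ℝ × ℝ) => BigP m Λ Λ' a Q K n s z -
      Fful m Λ ((τ.1 : ℕ) : ℤ) a τ.2 s z) = fun s z =>
      ((RowP m Λ ((τ.1 : ℕ) : ℤ) a (K τ.1) s z - Fful m Λ ((τ.1 : ℕ) : ℤ) a τ.2 s z) +
      ∑ q ∈ Finset.univ.erase τ.1, RowP m Λ ((q : ℕ) : ℤ) a (K q) s z) + qf Λ' n s z := by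
    funext s z
    simp only [BigP]
    rw [← Finset.add_sum_erase _ _ (Finset.mem_univ τ.1)]
    ring
  rw [e]
  refine Negl.add (Negl.add ?_ ?_) ?_
  · exact row_negl hm hodd Λ ((τ.1 : ℕ) : ℤ) h1 h2 h3 τ.2.2
  · refine Negl.sum _ _ fun q hq => ?_
    rw [Finset.mem_erase] at hq
    have hmon : ∀ l < K q, ∀ w ∈ Dm m,
        Negl (tl m Λ τ) (fun s z => mono3 ((tile m Λ ((q : ℕ) : ℤ) l).exp w) s z) := by
      intro l hl w hw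
      exact Negl.mono3 _ _ (hΛ τ ⟨q, ⟨l, hl⟩⟩ (Ne.symm hq.1) w hw)
    refine Negl.sub ?_ ?_
    · refine Negl.sum _ _ fun l hl => Negl.sum _ _ fun w hw => Negl.const_mul ?_ _
      exact hmon l (Finset.mem_range.1 hl) w hw
    · refine Negl.sum _ _ fun l hl => Negl.sum _ _ fun w hw => Negl.const_mul ?_ _
      rw [Finset.mem_filter] at hw
      have := Finset.mem_range.1 hl
      exact hmon l (by omega) w hw.1
  · obtain ⟨k1, k2, k3⟩ := hΛ' τ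
    exact ((Negl.mono3 _ _ k1).add (Negl.mono3 _ _ k2)).add (Negl.mono3 _ _ k3)

theorem ctl_negl {m : ℤ} (hm : 0 < m) {Λ : ℤ} {N0 : ℕ} (b : Fin N0 → ℤ × ℤ → ℝ) {Q : ℕ}
    {K : ℕ → ℕ}
    (hΛ : ∀ τ τ' : TT Q K, τ.1 ≠ τ'.1 → ∀ w ∈ Dm m, 1 ≤ (tl m Λ τ).rel ((tl m Λ τ').exp w))
    (τ τ' : TT Q K) (hne : τ ≠ τ') (i : Fin N0) :
    Negl (tl m Λ τ) (fun s z => Ctl m Λ b s τ' i z) := by
  refine Negl.sum _ _ fun w hw => Negl.const_mul ?_ _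
  refine Negl.mono3 _ _ ?_
  have hwD := Dint_sub_Dm m hw
  by_cases hq : τ.1 = τ'.1
  · obtain ⟨q, k⟩ := τ
    obtain ⟨q', l⟩ := τ'
    simp only at hq
    subst hq
    have hkl : k ≠ l := fun h => hne (by rw [h])
    have hkl' : (k : ℕ) ≠ (l : ℕ) := fun h => hkl (Fin.ext h)
    rcases lt_or_gt_of_ne hkl' with h | h
    · exact rel_after hm Λ _ _ _ hwD (by exact_mod_cast h) (wl_pos_int hw _)
    · exact rel_before hm Λ _ _ _ hwD (by exact_mod_cast h) (wf_pos_int hw _)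
  · exact hΛ τ τ' hq w hwD

theorem sum_TT {Q : ℕ} {K : ℕ → ℕ} (f : ℕ → ℕ → ℝ) :
    ∑ τ : TT Q K, f τ.1 τ.2 = ∑ q : Fin Q, ∑ l ∈ Finset.range (K q), f q l := by
  rw [Fintype.sum_sigma]
  exact Finset.sum_congr rfl fun q _ => Fin.sum_univ_eq_sum_range (fun l => f q l) (K q)

theorem qf_pos (Λ' : ℤ) {n : ℕ} (hn : Even n) {s : ℝ} (hs : 0 < s) (z : ℝ × ℝ) :
    0 < qf Λ' n s z := by
  rw [qf_eq]
  have h1 := hn.pow_nonneg z.1
  have h2 := hn.pow_nonneg z.2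
  have h3 : 0 < s ^ Λ' := zpow_pos hs _
  exact mul_pos h3 (by linarith)

theorem chi_continuousOn (t : TD) (s : ℝ) : ContinuousOn (t.chi s) Tor := by
  unfold TD.chi
  refine ContinuousOn.prodMk ?_ ?_
  · exact continuousOn_const.mul (continuousOn_fst.zpow₀ _ (fun z hz => Or.inl hz.1))
  · exact continuousOn_const.mul (continuousOn_snd.zpow₀ _ (fun z hz => Or.inl hz.2))

/-- the patched polynomial -/
theorem packed (I : ℕ) (hI : 1 ≤ I) (Q : ℕ) (K : ℕ → ℕ) (n : ℕ) (hn : Even n) :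
    ∃ (Λ Λ' : ℤ) (a : ℤ × ℤ → ℝ) (b : Fin (3 * I) → ℤ × ℤ → ℝ) (s : ℝ)
      (cc : TT Q K × Fin (3 * I) → ℝ) (U : Set (ℝ × ℝ)),
      0 < s ∧ IsCompact U ∧ U ⊆ Tor ∧
      (∀ z ∈ Tor, 0 ≤ BigP (2 * I + 1) Λ Λ' a Q K n s z +
        ∑ j, cc j * Ctl (2 * I + 1) Λ b s j.1 j.2 z) ∧
      {z | z ∈ Tor ∧ BigP (2 * I + 1) Λ Λ' a Q K n s z +
        ∑ j, cc j * Ctl (2 * I + 1) Λ b s j.1 j.2 z = 0}.Finite ∧
      {z | z ∈ Tor ∧ BigP (2 * I + 1) Λ Λ' a Q K n s z +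
        ∑ j, cc j * Ctl (2 * I + 1) Λ b s j.1 j.2 z = 0}.ncard =
        Fintype.card (TT Q K) * (3 * I) ∧
      (∀ z ∈ Tor, z ∉ U → s ^ Λ' * (1 + z.1 ^ n + z.2 ^ n) ≤ BigP (2 * I + 1) Λ Λ' a Q K n s z +
        ∑ j, cc j * Ctl (2 * I + 1) Λ b s j.1 j.2 z) := by
  classical
  obtain ⟨a, ζ, b, h1, h2, h3, hζ, hpos, hzero, ⟨κ0, hκ0, ρ0, hρ0, hgrow⟩, hb, hcomp⟩ :=
    tile_data I hI
  set m : ℤ := 2 * I + 1 with hm
  have hm0 : 0 < m := by positivity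
  have hodd : Odd m := ⟨I, rfl⟩
  obtain ⟨Λ, hΛ⟩ := exists_Lambda hm0 Q K
  obtain ⟨Λ', hΛ'⟩ := exists_Lambda' (m := m) Λ Q K n
  have N1 := big_negl hm0 hodd h1 h2 h3 hΛ hΛ' (n := n) (a := a)
  choose R hR hRe using N1
  have N2 : ∀ τ τ' : TT Q K, ∀ i : Fin (3 * I), ∃ R', SmallFam R' ∧
      ∀ s ∈ Ioo (0 : ℝ) 1, ∀ X ∈ Tor, Ctl m Λ b s τ' i ((tl m Λ τ).chi s X) =
        (tl m Λ τ).cen s X * ((if τ = τ' then ∑ w ∈ Dint m, b i w * mon w X else 0) + R' s X) := by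
    intro τ τ' i
    by_cases hττ : τ = τ'
    · subst hττ
      refine ⟨_, SmallFam.zero, fun s hs X hX => ?_⟩
      rw [if_pos rfl, add_zero, Finset.mul_sum]
      simp only [Ctl]
      refine Finset.sum_congr rfl fun w _ => ?_
      rw [(tl m Λ τ).mono3_chi_self (tile_eps _ _ _ _) w hs.1.ne' hX]
      ring
    · obtain ⟨R', hR', hRe'⟩ := ctl_negl hm0 b hΛ τ τ' hττ i
      refine ⟨R', hR', fun s hs X hX => ?_⟩
      rw [if_neg hττ, zero_add]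
      exact hRe' s hs X hX
  choose R' hR' hRe' using N2
  -- lower bounds for rows
  have hP3 : ∀ ρ > 0, ∃ κ > 0, ∀ᶠ s in 𝓝[>] (0 : ℝ), ∀ z ∈ Tor,
      (∀ (τ : TT Q K) (i : Fin (3 * I)), ∀ X ∈ Tor, ‖X - ζ i‖ ≤ ρ → (tl m Λ τ).chi s X ≠ z) →
        κ * ∑ j : TT Q K × Fin (3 * I), |Ctl m Λ b s j.1 j.2 z| + qf Λ' n s z ≤
          BigP m Λ Λ' a Q K n s z := by
    intro ρ hρ
    obtain ⟨κt, hκt, hκt'⟩ := hcomp ρ hρ
    choose κ' hκ' s0 hs0 hrow using fun q : Fin Q =>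
      row_lower hm0 hodd h1 h2 h3 ζ ρ κt hκt hκt' (K q)
    -- a common constant
    obtain ⟨κm, hκm, hκm'⟩ : ∃ κm > 0, ∀ q, κm ≤ κ' q := by
      by_cases hQ : Nonempty (Fin Q)
      · refine ⟨Finset.univ.inf' Finset.univ_nonempty κ', ?_, fun q =>
          Finset.inf'_le κ' (Finset.mem_univ q)⟩
        rw [gt_iff_lt, Finset.lt_inf'_iff]
        exact fun q _ => hκ' q
      · rw [not_nonempty_iff] at hQ
        exact ⟨1, one_pos, fun q => (hQ.false q).elim⟩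
    set Cb : ℝ := ∑ i, ∑ w ∈ Dint m, |b i w| with hCb
    have hCb0 : 0 ≤ Cb := Finset.sum_nonneg fun _ _ => Finset.sum_nonneg fun _ _ => abs_nonneg _
    refine ⟨κm / (Cb + 1), by positivity, ?_⟩
    have hev : ∀ᶠ s in 𝓝[>] (0 : ℝ), ∀ q, s < s0 q := by
      rw [eventually_all]
      intro q
      exact nhdsWithin_le_nhds (Iio_mem_nhds (hs0 q))
    filter_upwards [hev, self_mem_nhdsWithin] with s hs hspos z hz hout
    have hs_pos : (0 : ℝ) < s := hspos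
    have hrows : ∀ q : Fin Q, κ' q * ∑ l ∈ Finset.range (K q), ∑ w ∈ Dm m,
        |mono3 ((tile m Λ ((q : ℕ) : ℤ) l).exp w) s z| ≤ RowP m Λ ((q : ℕ) : ℤ) a (K q) s z := by
      intro q
      refine hrow q Λ ((q : ℕ) : ℤ) s hs_pos (hs q) z hz ?_
      intro k hk X hX hchi i
      by_contra hcon
      push Not at hcon
      exact hout ⟨q, ⟨k, hk⟩⟩ i X hX hcon.le hchi
    set S : ℝ := ∑ q : Fin Q, ∑ l ∈ Finset.range (K q), ∑ w ∈ Dm m,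
        |mono3 ((tile m Λ ((q : ℕ) : ℤ) l).exp w) s z| with hS
    have hS0 : 0 ≤ S := Finset.sum_nonneg fun _ _ => Finset.sum_nonneg fun _ _ =>
      Finset.sum_nonneg fun _ _ => abs_nonneg _
    have hbig : κm * S ≤ ∑ q : Fin Q, RowP m Λ ((q : ℕ) : ℤ) a (K q) s z := by
      rw [hS, Finset.mul_sum]
      refine Finset.sum_le_sum fun q _ => le_trans ?_ (hrows q)
      refine mul_le_mul_of_nonneg_right (hκm' q) ?_
      exact Finset.sum_nonneg fun _ _ => Finset.sum_nonneg fun _ _ => abs_nonneg _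
    have hctl : ∑ j : TT Q K × Fin (3 * I), |Ctl m Λ b s j.1 j.2 z| ≤ Cb * S := by
      rw [Fintype.sum_prod_type]
      have hτ : ∀ τ : TT Q K, ∑ i : Fin (3 * I), |Ctl m Λ b s τ i z| ≤
          Cb * ∑ w ∈ Dm m, |mono3 ((tile m Λ ((τ.1 : ℕ) : ℤ) ((τ.2 : ℕ) : ℤ)).exp w) s z| := by
        intro τ
        rw [hCb, Finset.sum_mul]
        refine Finset.sum_le_sum fun i _ => ?_
        simp only [Ctl]
        refine (Finset.abs_sum_le_sum_abs _ _).trans ?_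
        rw [Finset.sum_mul]
        refine Finset.sum_le_sum fun w hw => ?_
        rw [abs_mul]
        refine mul_le_mul_of_nonneg_left ?_ (abs_nonneg _)
        exact Finset.single_le_sum (f := fun w => |mono3 ((tile m Λ ((τ.1 : ℕ) : ℤ)
          ((τ.2 : ℕ) : ℤ)).exp w) s z|) (fun _ _ => abs_nonneg _) (Dint_sub_Dm m hw)
      calc _ ≤ ∑ τ : TT Q K, Cb * ∑ w ∈ Dm m,
            |mono3 ((tile m Λ ((τ.1 : ℕ) : ℤ) ((τ.2 : ℕ) : ℤ)).exp w) s z| :=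
            Finset.sum_le_sum fun τ _ => hτ τ
        _ = Cb * S := by
            rw [← Finset.mul_sum, hS]
            congr 1
            exact sum_TT (fun q l => ∑ w ∈ Dm m, |mono3 ((tile m Λ (q : ℤ) (l : ℤ)).exp w) s z|)
    have h5 : κm / (Cb + 1) * ∑ j : TT Q K × Fin (3 * I), |Ctl m Λ b s j.1 j.2 z| ≤ κm * S := by
      calc _ ≤ κm / (Cb + 1) * (Cb * S) := mul_le_mul_of_nonneg_left hctl (by positivity)
        _ ≤ κm / (Cb + 1) * ((Cb + 1) * S) := by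
            refine mul_le_mul_of_nonneg_left ?_ (by positivity)
            exact mul_le_mul_of_nonneg_right (by linarith) hS0
        _ = κm * S := by field_simp
    simp only [BigP]
    linarith
  obtain ⟨s, hs, cc, ρ, hρ, hballs, hnn, hfin, hcard, hout⟩ :=
    patch (T := TT Q K) (fun z => ∑ w ∈ Dm m, a w * mon w z)
      (fun i z => ∑ w ∈ Dint m, b i w * mon w z) ζ
      (continuousOn_finsetSum _ fun w _ => continuousOn_const.mul (continuousOn_mon w))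
      (fun i => ContDiffAt.sum fun w _ => contDiffAt_const.mul (contDiffAt_mon w (ζ i) (hζ i) 2))
      hpos hzero κ0 ρ0 hκ0 hρ0 hgrow hζ
      (fun i => continuousOn_finsetSum _ fun w _ => continuousOn_const.mul (continuousOn_mon w))
      (fun i K hK => Reg.sum _ _ fun w _ => (reg_mon hK w).const_mul _)
      hb
      (fun s z => BigP m Λ Λ' a Q K n s z) (fun s τ i z => Ctl m Λ b s τ i z)
      (fun s τ X => (tl m Λ τ).chi s X) (fun s τ X => (tl m Λ τ).cen s X)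
      (fun s z => qf Λ' n s z)
      (fun s hs τ X hX => (tl m Λ τ).chi_mem hs.1.ne' hX)
      (fun s hs τ X hX => cen_pos m Λ _ _ hs.1 hX)
      R hR
      (fun s hs τ X hX => by
        have e1 := hRe τ s hs X hX
        have e2 : Fful m Λ ((τ.1 : ℕ) : ℤ) a τ.2 s ((tl m Λ τ).chi s X) =
            (tl m Λ τ).cen s X * ∑ w ∈ Dm m, a w * mon w X := by
          simp only [Fful]
          rw [Finset.mul_sum]
          refine Finset.sum_congr rfl fun w _ => ?_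
          have := (tl m Λ τ).mono3_chi_self (tile_eps _ _ _ _) w hs.1.ne' hX
          simp only [tl] at this ⊢
          rw [this]
          ring
        rw [mul_add, ← e1, ← e2]
        ring)
      R' hR' (fun s hs τ τ' i X hX => hRe' τ τ' i s hs X hX)
      (fun s hs z _ => qf_pos Λ' hn hs.1 z) hP3
  refine ⟨Λ, Λ', a, b, s, cc, ⋃ τ : TT Q K, ⋃ i : Fin (3 * I),
    (tl m Λ τ).chi s '' Metric.closedBall (ζ i) ρ, hs.1, ?_, ?_, hnn, hfin, hcard, ?_⟩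
  · refine isCompact_iUnion fun τ => isCompact_iUnion fun i => ?_
    exact (isCompact_closedBall _ _).image_of_continuousOn
      ((chi_continuousOn _ s).mono (hballs i))
  · refine iUnion_subset fun τ => iUnion_subset fun i => ?_
    rintro _ ⟨X, hX, rfl⟩
    exact (tl m Λ τ).chi_mem hs.1.ne' (hballs i hX)
  · intro z hz hzU
    rw [← qf_eq]
    refine hout z hz fun τ i X hX hXn hchi => hzU ?_
    exact mem_iUnion.2 ⟨τ, mem_iUnion.2 ⟨i, X, mem_closedBall_iff_norm.2 hXn, hchi⟩⟩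

end Packing

end Pool.Agent.MP9d
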