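import Pool.Agent.Work.MP_9d788c_ag.Perturb

/-!
The abstract patchworking theorem.
-/

namespace Pool.Agent.MP9d

open Set Filter Topology

/-- Laurent monomial -/
noncomputable def mon (e : ℤ × ℤ) (z : ℝ × ℝ) : ℝ := z.1 ^ e.1 * z.2 ^ e.2

/-- the real torus -/
def Tor : Set (ℝ × ℝ) := {z | z.1 ≠ 0 ∧ z.2 ≠ 0}

/-- bounded convex sets bounded away from the axes -/
def GoodK (K : Set (ℝ × ℝ)) : Prop :=
  Convex ℝ K ∧ (∃ c > 0, ∀ z ∈ K, c ≤ |z.1| ∧ c ≤ |z.2|) ∧ ∃ M, ∀ z ∈ K, ‖z‖ ≤ M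

theorem GoodK.sub_tor {K : Set (ℝ × ℝ)} (hK : GoodK K) : K ⊆ Tor := by
  intro z hz
  obtain ⟨_, ⟨c, hc, h⟩, _⟩ := hK
  have := h z hz
  constructor
  · intro h0
    rw [h0, abs_zero] at this
    linarith [this.1]
  · intro h0
    rw [h0, abs_zero] at this
    linarith [this.2]

theorem GoodK.diam {K : Set (ℝ × ℝ)} (hK : GoodK K) : ∃ M, ∀ z ∈ K, ∀ w ∈ K, ‖z - w‖ ≤ M := by
  obtain ⟨_, _, M, h⟩ := hK
  refine ⟨M + M, fun z hz w hw => (norm_sub_le _ _).trans (add_le_add (h z hz) (h w hw))⟩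

theorem reg_mon {K : Set (ℝ × ℝ)} (hK : GoodK K) (e : ℤ × ℤ) : Reg K (mon e) := by
  obtain ⟨M, hM⟩ := hK.diam
  obtain ⟨hc, ⟨c, hc0, hcK⟩, R, hR⟩ := hK
  have h1 : Reg K (fun z => z.1) := Reg.clm hR (ContinuousLinearMap.fst ℝ ℝ ℝ)
  have h2 : Reg K (fun z => z.2) := Reg.clm hR (ContinuousLinearMap.snd ℝ ℝ ℝ)
  exact Reg.mul hc (Reg.zpow hc h1 hM hc0 (fun z hz => (hcK z hz).1) e.1)
    (Reg.zpow hc h2 hM hc0 (fun z hz => (hcK z hz).2) e.2) hM

theorem continuousOn_mon (e : ℤ × ℤ) : ContinuousOn (mon e) Tor := by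
  unfold mon
  refine ContinuousOn.mul ?_ ?_
  · exact continuousOn_fst.zpow₀ _ (fun z hz => Or.inl hz.1)
  · exact continuousOn_snd.zpow₀ _ (fun z hz => Or.inl hz.2)

/-- families of functions tending to zero in `C²` sense on good sets -/
def SmallFam (R : ℝ → ℝ × ℝ → ℝ) : Prop :=
  (∀ s ∈ Ioo (0 : ℝ) 1, ContinuousOn (R s) Tor) ∧
  ∀ K, GoodK K → ∀ ε > 0, ∀ᶠ s in 𝓝[>] (0 : ℝ),
    (∀ z ∈ K, |R s z| ≤ ε) ∧ (∀ z ∈ K, ∀ w ∈ K, |D2 (R s) z w| ≤ ε * ‖z - w‖ ^ 2)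

theorem SmallFam.mon (g : ℤ) (hg : 1 ≤ g) (e : ℤ × ℤ) :
    SmallFam (fun s z => s ^ g * mon e z) := by
  refine ⟨fun s _ => continuousOn_const.mul (continuousOn_mon e), ?_⟩
  intro K hK ε hε
  obtain ⟨B, hB, b1, _, b3⟩ := reg_mon hK e
  have hev : ∀ᶠ s in 𝓝[>] (0 : ℝ), s < min 1 (ε / (B + 1)) := by
    have : (0 : ℝ) < min 1 (ε / (B + 1)) := by positivity
    exact nhdsWithin_le_nhds (Iio_mem_nhds this)
  filter_upwards [hev, self_mem_nhdsWithin] with s hs hs0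
  have hs0 : 0 < s := hs0
  have hs1 : s < 1 := hs.trans_le (min_le_left _ _)
  have hs2 : s < ε / (B + 1) := hs.trans_le (min_le_right _ _)
  have hsg : s ^ g ≤ s := by
    have := zpow_le_zpow_right_of_le_one₀ hs0 hs1.le hg
    simpa using this
  have hsg0 : 0 < s ^ g := zpow_pos hs0 g
  have hsB : s ^ g * B ≤ ε := by
    rw [lt_div_iff₀ (by positivity)] at hs2
    nlinarith
  constructor
  · intro z hz
    rw [abs_mul, abs_of_pos hsg0]
    exact (mul_le_mul_of_nonneg_left (b1 z hz) hsg0.le).trans hsB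
  · intro z hz w hw
    rw [D2_const_mul, abs_mul, abs_of_pos hsg0]
    refine (mul_le_mul_of_nonneg_left (b3 z hz w hw) hsg0.le).trans ?_
    rw [← mul_assoc]
    exact mul_le_mul_of_nonneg_right hsB (by positivity)

theorem SmallFam.zero : SmallFam (fun _ _ => 0) := by
  refine ⟨fun s _ => continuousOn_const, ?_⟩
  intro K hK ε hε
  filter_upwards with s
  refine ⟨fun z _ => by simpa using hε.le, fun z _ w _ => ?_⟩
  have : D2 (fun _ : ℝ × ℝ => (0 : ℝ)) z w = 0 := by simp only [D2]; ring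
  rw [this, abs_zero]; positivity

theorem SmallFam.add {R S : ℝ → ℝ × ℝ → ℝ} (hR : SmallFam R) (hS : SmallFam S) :
    SmallFam (fun s z => R s z + S s z) := by
  refine ⟨fun s hs => (hR.1 s hs).add (hS.1 s hs), ?_⟩
  intro K hK ε hε
  filter_upwards [hR.2 K hK (ε / 2) (by positivity), hS.2 K hK (ε / 2) (by positivity)]
    with s h1 h2
  constructor
  · intro z hz
    refine (abs_add_le _ _).trans ?_
    linarith [h1.1 z hz, h2.1 z hz]
  · intro z hz w hw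
    rw [D2_add]
    refine (abs_add_le _ _).trans ?_
    linarith [h1.2 z hz w hw, h2.2 z hz w hw]

theorem SmallFam.const_mul {R : ℝ → ℝ × ℝ → ℝ} (hR : SmallFam R) (c : ℝ) :
    SmallFam (fun s z => c * R s z) := by
  refine ⟨fun s hs => continuousOn_const.mul (hR.1 s hs), ?_⟩
  intro K hK ε hε
  filter_upwards [hR.2 K hK (ε / (|c| + 1)) (by positivity)] with s h1
  have hc : |c| * (ε / (|c| + 1)) ≤ ε := by
    rw [mul_div_assoc', div_le_iff₀ (by positivity)]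
    nlinarith [abs_nonneg c]
  constructor
  · intro z hz
    rw [abs_mul]
    exact (mul_le_mul_of_nonneg_left (h1.1 z hz) (abs_nonneg c)).trans hc
  · intro z hz w hw
    rw [D2_const_mul, abs_mul]
    refine (mul_le_mul_of_nonneg_left (h1.2 z hz w hw) (abs_nonneg c)).trans ?_
    rw [← mul_assoc]
    exact mul_le_mul_of_nonneg_right hc (by positivity)

theorem SmallFam.sum {ι : Type*} (J : Finset ι) (R : ι → ℝ → ℝ × ℝ → ℝ)
    (hR : ∀ i ∈ J, SmallFam (R i)) : SmallFam (fun s z => ∑ i ∈ J, R i s z) := by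
  classical
  induction J using Finset.induction_on with
  | empty => simpa using SmallFam.zero
  | insert a J ha ih =>
    have h1 := hR a (Finset.mem_insert_self _ _)
    have h2 := ih (fun i hi => hR i (Finset.mem_insert_of_mem hi))
    have := h1.add h2
    simpa [Finset.sum_insert ha] using this

theorem goodK_closedBall (ζ : ℝ × ℝ) (hζ : ζ ∈ Tor) : ∃ r0 > 0, ∀ r ≤ r0,
    GoodK (Metric.closedBall ζ r) := by
  obtain ⟨h1, h2⟩ := hζ
  have p1 : 0 < |ζ.1| := abs_pos.2 h1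
  have p2 : 0 < |ζ.2| := abs_pos.2 h2
  set c := min |ζ.1| |ζ.2| / 2 with hc
  have hc0 : 0 < c := by positivity
  refine ⟨c, hc0, fun r hr => ⟨convex_closedBall _ _, ⟨c, hc0, ?_⟩, ⟨‖ζ‖ + c, ?_⟩⟩⟩
  · intro z hz
    have hz' : ‖z - ζ‖ ≤ c := (mem_closedBall_iff_norm.1 hz).trans hr
    have e1 : |z.1 - ζ.1| ≤ c := (norm_fst_le (z - ζ)).trans hz'
    have e2 : |z.2 - ζ.2| ≤ c := (norm_snd_le (z - ζ)).trans hz'
    have m1 : 2 * c ≤ |ζ.1| := by rw [hc]; linarith [min_le_left |ζ.1| |ζ.2|]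
    have m2 : 2 * c ≤ |ζ.2| := by rw [hc]; linarith [min_le_right |ζ.1| |ζ.2|]
    have t1 := abs_sub_abs_le_abs_sub ζ.1 z.1
    have t2 := abs_sub_abs_le_abs_sub ζ.2 z.2
    rw [abs_sub_comm] at t1 t2
    constructor <;> linarith
  · intro z hz
    have hz' : ‖z - ζ‖ ≤ c := (mem_closedBall_iff_norm.1 hz).trans hr
    have : z = ζ + (z - ζ) := by abel
    rw [this]
    exact (norm_add_le _ _).trans (by linarith)

theorem contDiffAt_zpow_comp {E : Type*} [NormedAddCommGroup E] [NormedSpace ℝ E]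
    {f : E → ℝ} {x : E} {n : ℕ} (hf : ContDiffAt ℝ n f x) (h : f x ≠ 0) (k : ℤ) :
    ContDiffAt ℝ n (fun y => f y ^ k) x := by
  obtain ⟨m, rfl | rfl⟩ := k.eq_nat_or_neg
  · simpa using hf.pow m
  · have := (hf.pow m).inv (pow_ne_zero m h)
    simp only [zpow_neg, zpow_natCast]
    exact this

theorem contDiffAt_mon (e : ℤ × ℤ) (ζ : ℝ × ℝ) (hζ : ζ ∈ Tor) (n : ℕ) :
    ContDiffAt ℝ n (mon e) ζ := by
  unfold mon
  exact (contDiffAt_zpow_comp contDiffAt_fst hζ.1 _).mul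
    (contDiffAt_zpow_comp contDiffAt_snd hζ.2 _)

theorem patch {T : Type*} [Fintype T] [DecidableEq T] {N0 : ℕ}
    (Ph : ℝ × ℝ → ℝ) (hb : Fin N0 → ℝ × ℝ → ℝ) (ζ : Fin N0 → ℝ × ℝ)
    (hPc : ContinuousOn Ph Tor) (hPs : ∀ i, ContDiffAt ℝ 2 Ph (ζ i))
    (hP0 : ∀ z ∈ Tor, 0 ≤ Ph z) (hPζ : ∀ i, Ph (ζ i) = 0)
    (κ0 ρ0 : ℝ) (hκ0 : 0 < κ0) (hρ0 : 0 < ρ0)
    (hgrow : ∀ i z, ‖z - ζ i‖ ≤ ρ0 → κ0 * ‖z - ζ i‖ ^ 2 ≤ Ph z)
    (hζ : ∀ i, ζ i ∈ Tor)
    (hbc : ∀ i, ContinuousOn (hb i) Tor) (hbreg : ∀ i K, GoodK K → Reg K (hb i))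
    (hbδ : ∀ i j, hb i (ζ j) = if i = j then 1 else 0)
    (P : ℝ → ℝ × ℝ → ℝ) (h : ℝ → T → Fin N0 → ℝ × ℝ → ℝ) (χ : ℝ → T → ℝ × ℝ → ℝ × ℝ)
    (c : ℝ → T → ℝ × ℝ → ℝ) (q : ℝ → ℝ × ℝ → ℝ)
    (hχ : ∀ s ∈ Ioo (0 : ℝ) 1, ∀ τ, ∀ X ∈ Tor, χ s τ X ∈ Tor)
    (hc : ∀ s ∈ Ioo (0 : ℝ) 1, ∀ τ, ∀ X ∈ Tor, 0 < c s τ X)
    (R : T → ℝ → ℝ × ℝ → ℝ) (hR : ∀ τ, SmallFam (R τ))
    (hP1 : ∀ s ∈ Ioo (0 : ℝ) 1, ∀ τ, ∀ X ∈ Tor, P s (χ s τ X) = c s τ X * (Ph X + R τ s X))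
    (R' : T → T → Fin N0 → ℝ → ℝ × ℝ → ℝ) (hR' : ∀ τ τ' i, SmallFam (R' τ τ' i))
    (hP2 : ∀ s ∈ Ioo (0 : ℝ) 1, ∀ τ τ' i, ∀ X ∈ Tor,
      h s τ' i (χ s τ X) = c s τ X * ((if τ = τ' then hb i X else 0) + R' τ τ' i s X))
    (hq : ∀ s ∈ Ioo (0 : ℝ) 1, ∀ z ∈ Tor, 0 < q s z)
    (hP3 : ∀ ρ > 0, ∃ κ > 0, ∀ᶠ s in 𝓝[>] (0 : ℝ), ∀ z ∈ Tor,
      (∀ τ i, ∀ X ∈ Tor, ‖X - ζ i‖ ≤ ρ → χ s τ X ≠ z) →
        κ * ∑ j : T × Fin N0, |h s j.1 j.2 z| + q s z ≤ P s z) :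
    ∃ s ∈ Ioo (0 : ℝ) 1, ∃ cc : T × Fin N0 → ℝ, ∃ ρ > 0,
      (∀ i, Metric.closedBall (ζ i) ρ ⊆ Tor) ∧
      (∀ z ∈ Tor, 0 ≤ P s z + ∑ j, cc j * h s j.1 j.2 z) ∧
      {z | z ∈ Tor ∧ P s z + ∑ j, cc j * h s j.1 j.2 z = 0}.Finite ∧
      {z | z ∈ Tor ∧ P s z + ∑ j, cc j * h s j.1 j.2 z = 0}.ncard =
        Fintype.card T * N0 ∧
      (∀ z ∈ Tor, (∀ τ i, ∀ X ∈ Tor, ‖X - ζ i‖ ≤ ρ → χ s τ X ≠ z) →
        q s z ≤ P s z + ∑ j, cc j * h s j.1 j.2 z) := by
  classical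
  -- choice of the radius
  have hrad : ∃ ρ > 0, ∃ c0 > 0, (∀ i, GoodK (Metric.closedBall (ζ i) ρ)) ∧
      (∀ i, ∀ z w, ‖z - ζ i‖ ≤ ρ → ‖w - ζ i‖ ≤ ρ → c0 * ‖z - w‖ ^ 2 ≤ D2 Ph z w) ∧
      (∀ i, ∀ z, ‖z - ζ i‖ ≤ ρ → ∑ j, |hb j z - if i = j then 1 else 0| ≤ 1 / 6) := by
    have h1 : ∀ i, ∃ r > 0, GoodK (Metric.closedBall (ζ i) r) ∧ ∀ r' ≤ r,
        GoodK (Metric.closedBall (ζ i) r') := fun i => by
      obtain ⟨r, hr, H⟩ := goodK_closedBall (ζ i) (hζ i)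
      exact ⟨r, hr, H r le_rfl, H⟩
    have h2 : ∀ i, ∃ c > 0, ∃ r > 0, ∀ z w, ‖z - ζ i‖ ≤ r → ‖w - ζ i‖ ≤ r →
        c * ‖z - w‖ ^ 2 ≤ D2 Ph z w := fun i =>
      strong_conv Ph (ζ i) (hPs i) (hPζ i) κ0 ρ0 hκ0 hρ0 (hgrow i)
    have h3 : ∀ i, ∃ r > 0, ∀ z, ‖z - ζ i‖ ≤ r →
        ∑ j, |hb j z - if i = j then 1 else 0| ≤ 1 / 6 := fun i => by
      have hcont : ContinuousAt (fun z => ∑ j, |hb j z - if i = j then (1 : ℝ) else 0|) (ζ i) := by
        have hT : Tor ∈ 𝓝 (ζ i) := by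
          obtain ⟨r, hr, _, H⟩ := h1 i
          exact mem_of_superset (Metric.closedBall_mem_nhds _ hr) (H r le_rfl).sub_tor
        refine tendsto_finsetSum _ fun j _ => ?_
        exact (((hbc j).continuousAt hT).sub continuousAt_const).abs
      have h0 : ∑ j, |hb j (ζ i) - if i = j then (1 : ℝ) else 0| = 0 := by
        refine Finset.sum_eq_zero fun j _ => ?_
        rw [hbδ]
        by_cases hij : i = j
        · simp [hij]
        · simp [hij, Ne.symm hij]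
      have hev := hcont.eventually (gt_mem_nhds (show (fun z => ∑ j, |hb j z - if i = j then (1 : ℝ)
        else 0|) (ζ i) < 1 / 6 by simp only [h0]; norm_num))
      obtain ⟨r, hr, H⟩ := Metric.eventually_nhds_iff.1 hev
      refine ⟨r / 2, by positivity, fun z hz => (H ?_).le⟩
      rw [dist_eq_norm]
      linarith
    choose r1 hr1 _ g1 using h1
    choose c2 hc2 r2 hr2 g2 using h2
    choose r3 hr3 g3 using h3
    by_cases hN : Nonempty (Fin N0)
    · obtain ⟨ρ, hρ, Hρ⟩ : ∃ ρ > 0, ∀ i, ρ ≤ r1 i ∧ ρ ≤ r2 i ∧ ρ ≤ r3 i := by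
        refine ⟨Finset.univ.inf' Finset.univ_nonempty (fun i => min (r1 i) (min (r2 i) (r3 i))),
          ?_, ?_⟩
        · rw [gt_iff_lt, Finset.lt_inf'_iff]
          intro i _
          exact lt_min (hr1 i) (lt_min (hr2 i) (hr3 i))
        · intro i
          have := Finset.inf'_le (fun i => min (r1 i) (min (r2 i) (r3 i))) (Finset.mem_univ i)
          exact ⟨this.trans (min_le_left _ _),
            this.trans ((min_le_right _ _).trans (min_le_left _ _)),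
            this.trans ((min_le_right _ _).trans (min_le_right _ _))⟩
      obtain ⟨c0, hc0, Hc0⟩ : ∃ c0 > 0, ∀ i, c0 ≤ c2 i := by
        refine ⟨Finset.univ.inf' Finset.univ_nonempty c2, ?_, ?_⟩
        · rw [gt_iff_lt, Finset.lt_inf'_iff]
          exact fun i _ => hc2 i
        · exact fun i => Finset.inf'_le c2 (Finset.mem_univ i)
      refine ⟨ρ, hρ, c0, hc0, fun i => g1 i ρ (Hρ i).1, fun i z w hz hw => ?_, fun i z hz => ?_⟩
      · refine le_trans ?_ (g2 i z w (hz.trans (Hρ i).2.1) (hw.trans (Hρ i).2.1))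
        exact mul_le_mul_of_nonneg_right (Hc0 i) (by positivity)
      · exact g3 i z (hz.trans (Hρ i).2.2)
    · rw [not_nonempty_iff] at hN
      exact ⟨1, one_pos, 1, one_pos, fun i => (hN.false i).elim, fun i => (hN.false i).elim,
        fun i => (hN.false i).elim⟩
  obtain ⟨ρ, hρ, c0, hc0, hgood, hconv, hbsum⟩ := hrad
  obtain ⟨κ, hκ, hκev⟩ := hP3 ρ hρ
  -- bound for the second differences of the controls
  obtain ⟨B, hB, hBb⟩ : ∃ B, 0 ≤ B ∧ ∀ i j, ∀ z ∈ Metric.closedBall (ζ i) ρ,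
      ∀ w ∈ Metric.closedBall (ζ i) ρ, |D2 (hb j) z w| ≤ B * ‖z - w‖ ^ 2 := by
    choose Bf hBf _ _ hB3 using fun i j => hbreg j _ (hgood i)
    refine ⟨∑ i, ∑ j, Bf i j, Finset.sum_nonneg fun i _ => Finset.sum_nonneg fun j _ => hBf i j,
      fun i j z hz w hw => (hB3 i j z hz w hw).trans ?_⟩
    refine mul_le_mul_of_nonneg_right ?_ (by positivity)
    calc Bf i j ≤ ∑ j, Bf i j :=
          Finset.single_le_sum (f := fun j => Bf i j) (fun j _ => hBf i j) (Finset.mem_univ j)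
      _ ≤ ∑ i, ∑ j, Bf i j :=
          Finset.single_le_sum (f := fun i => ∑ j, Bf i j)
            (fun i _ => Finset.sum_nonneg fun j _ => hBf i j) (Finset.mem_univ i)
  set Nn : ℝ := (Fintype.card (T × Fin N0) : ℝ) with hNn
  have hNn0 : 0 ≤ Nn := by positivity
  set D : ℝ := 1 + 2 * Nn * (B + 1) with hD
  have hD0 : 0 < D := by positivity
  set η : ℝ := min (κ / 2) (c0 / (2 * D)) with hη
  have hη0 : 0 < η := by positivity
  have hη1 : 2 * η ≤ κ := by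
    have := min_le_left (κ / 2) (c0 / (2 * D))
    rw [← hη] at this
    linarith
  have hη2 : η * D ≤ c0 / 2 := by
    have := min_le_right (κ / 2) (c0 / (2 * D))
    rw [← hη] at this
    calc η * D ≤ c0 / (2 * D) * D := mul_le_mul_of_nonneg_right this hD0.le
      _ = c0 / 2 := by field_simp
  set ε : ℝ := 1 / (6 * (Nn + 1)) with hε
  have hε0 : 0 < ε := by positivity
  have hε1 : ε ≤ 1 := by
    rw [hε, div_le_one (by positivity)]
    linarith
  have hεN : Nn * ε ≤ 1 / 6 := by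
    rw [hε, mul_one_div, div_le_div_iff₀ (by positivity) (by norm_num)]
    linarith
  have ev1 : ∀ᶠ s in 𝓝[>] (0 : ℝ), ∀ τ i,
      (∀ z ∈ Metric.closedBall (ζ i) ρ, |R τ s z| ≤ η) ∧
      (∀ z ∈ Metric.closedBall (ζ i) ρ, ∀ w ∈ Metric.closedBall (ζ i) ρ,
        |D2 (R τ s) z w| ≤ η * ‖z - w‖ ^ 2) := by
    rw [eventually_all]
    intro τ
    rw [eventually_all]
    intro i
    exact (hR τ).2 _ (hgood i) η hη0
  have ev2 : ∀ᶠ s in 𝓝[>] (0 : ℝ), ∀ τ τ' i' i,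
      (∀ z ∈ Metric.closedBall (ζ i) ρ, |R' τ τ' i' s z| ≤ ε) ∧
      (∀ z ∈ Metric.closedBall (ζ i) ρ, ∀ w ∈ Metric.closedBall (ζ i) ρ,
        |D2 (R' τ τ' i' s) z w| ≤ ε * ‖z - w‖ ^ 2) := by
    rw [eventually_all]
    intro τ
    rw [eventually_all]
    intro τ'
    rw [eventually_all]
    intro i'
    rw [eventually_all]
    intro i
    exact (hR' τ τ' i').2 _ (hgood i) ε hε0
  have ev3 : ∀ᶠ s in 𝓝[>] (0 : ℝ), s ∈ Ioo (0 : ℝ) 1 := Ioo_mem_nhdsGT one_pos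
  obtain ⟨s, ⟨⟨hs1, hs2⟩, hs3⟩, hs⟩ := (((ev1.and ev2).and hκev).and ev3).exists
  set K : T × Fin N0 → Set (ℝ × ℝ) := fun j => Metric.closedBall (ζ j.2) ρ with hK
  set A : T × Fin N0 → ℝ × ℝ → ℝ := fun j X => Ph X + R j.1 s X with hA
  set H : T × Fin N0 → T × Fin N0 → ℝ × ℝ → ℝ := fun j j' X =>
    (if j.1 = j'.1 then hb j'.2 X else 0) + R' j.1 j'.1 j'.2 s X with hH
  have hKT : ∀ j, K j ⊆ Tor := fun j => (hgood j.2).sub_tor
  have hAc : ∀ j, ContinuousOn (A j) (K j) := fun j =>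
    (hPc.mono (hKT j)).add (((hR j.1).1 s hs).mono (hKT j))
  have hHc : ∀ j j', ContinuousOn (H j j') (K j) := fun j j' => by
    refine ContinuousOn.add ?_ (((hR' j.1 j'.1 j'.2).1 s hs).mono (hKT j))
    by_cases hjj : j.1 = j'.1
    · simp only [hjj, if_true]
      exact (hbc j'.2).mono (hKT j)
    · simp only [hjj, if_false]
      exact continuousOn_const
  have hd3 : ∀ j, ∀ w ∈ K j, ∑ j', |H j j' w - if j = j' then 1 else 0| ≤ 1 / 3 := by
    intro j w hw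
    have hpt : ∀ j', |H j j' w - if j = j' then 1 else 0| ≤
        (if j.1 = j'.1 then |hb j'.2 w - if j.2 = j'.2 then 1 else 0| else 0) + ε := by
      intro j'
      have hRb := (hs2 j.1 j'.1 j'.2 j.2).1 w hw
      by_cases h1 : j.1 = j'.1
      · by_cases h2 : j.2 = j'.2
        · have h3 : j = j' := Prod.ext h1 h2
          simp only [hH, h3, if_true]
          rw [h1] at hRb
          have e : hb j'.2 w + R' j'.1 j'.1 j'.2 s w - 1 =
            (hb j'.2 w - 1) + R' j'.1 j'.1 j'.2 s w := by ring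
          rw [e]
          exact (abs_add_le _ _).trans (by linarith)
        · have h3 : j ≠ j' := fun h => h2 (by rw [h])
          simp only [hH, h1, h2, h3, if_true, if_false, sub_zero]
          rw [h1] at hRb
          exact (abs_add_le _ _).trans (by linarith)
      · have h3 : j ≠ j' := fun h => h1 (by rw [h])
        simp only [hH, h1, h3, if_false, sub_zero, zero_add]
        exact hRb
    calc ∑ j', |H j j' w - if j = j' then 1 else 0|
        ≤ ∑ j' : T × Fin N0, ((if j.1 = j'.1 then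
            |hb j'.2 w - if j.2 = j'.2 then 1 else 0| else 0) + ε) :=
          Finset.sum_le_sum fun j' _ => hpt j'
      _ = ∑ i', |hb i' w - if j.2 = i' then 1 else 0| + Nn * ε := by
          rw [Finset.sum_add_distrib, Finset.sum_const, Finset.card_univ, nsmul_eq_mul,
            Fintype.sum_prod_type]
          congr 1
          rw [Finset.sum_eq_single j.1]
          · simp
          · intro b _ hb'
            simp [Ne.symm hb']
          · simp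
      _ ≤ 1 / 6 + 1 / 6 := add_le_add (hbsum j.2 w (mem_closedBall_iff_norm.1 hw)) hεN
      _ = 1 / 3 := by norm_num
  obtain ⟨cc, hcc, hzero⟩ := fixed_min K (fun j => isCompact_closedBall _ _)
    (fun j => ⟨ζ j.2, Metric.mem_closedBall_self hρ.le⟩) A H hAc hHc η hη0.le
    (fun j w hw => by
      have h1 := hP0 w (hKT j hw)
      have h2 := (abs_le.1 ((hs1 j.1 j.2).1 w hw)).1
      simp only [hA]
      linarith)
    (fun j => ⟨ζ j.2, Metric.mem_closedBall_self hρ.le, by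
      have h2 := (abs_le.1 ((hs1 j.1 j.2).1 (ζ j.2) (Metric.mem_closedBall_self hρ.le))).2
      simp only [hA, hPζ]
      linarith⟩)
    (fun j w hw => (hd3 j w hw).trans (by norm_num))
  set F : T × Fin N0 → ℝ × ℝ → ℝ := fun j X => A j X + ∑ j', cc j' * H j j' X with hF
  set P' : ℝ × ℝ → ℝ := fun z => P s z + ∑ j, cc j * h s j.1 j.2 z with hP'
  have hchart : ∀ j : T × Fin N0, ∀ X ∈ Tor, P' (χ s j.1 X) = c s j.1 X * F j X := by
    intro j X hX
    simp only [hP', hF, hA, hH]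
    rw [hP1 s hs j.1 X hX, mul_add (c s j.1 X) (Ph X + R j.1 s X), Finset.mul_sum]
    congr 1
    refine Finset.sum_congr rfl fun j' _ => ?_
    rw [hP2 s hs j.1 j'.1 j'.2 X hX]
    ring
  have hout : ∀ z ∈ Tor, (∀ τ i, ∀ X ∈ Tor, ‖X - ζ i‖ ≤ ρ → χ s τ X ≠ z) → q s z ≤ P' z := by
    intro z hz hz'
    have h1 := hs3 z hz hz'
    have h2 : |∑ j, cc j * h s j.1 j.2 z| ≤ κ * ∑ j : T × Fin N0, |h s j.1 j.2 z| := by
      refine (Finset.abs_sum_le_sum_abs _ _).trans ?_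
      rw [Finset.mul_sum]
      refine Finset.sum_le_sum fun j _ => ?_
      rw [abs_mul]
      exact mul_le_mul_of_nonneg_right ((hcc j).trans hη1) (abs_nonneg _)
    have h3 := (abs_le.1 h2).1
    simp only [hP']
    linarith
  -- strict convexity
  have hFconv : ∀ j, ∀ z ∈ K j, ∀ w ∈ K j, c0 / 2 * ‖z - w‖ ^ 2 ≤ D2 (F j) z w := by
    intro j z hz w hw
    have hzb := mem_closedBall_iff_norm.1 hz
    have hwb := mem_closedBall_iff_norm.1 hw
    have h1 := hconv j.2 z w hzb hwb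
    have h2 := (abs_le.1 ((hs1 j.1 j.2).2 z hz w hw)).1
    have h3 : ∀ j', |D2 (H j j') z w| ≤ (B + 1) * ‖z - w‖ ^ 2 := by
      intro j'
      have e1 : D2 (H j j') z w = D2 (fun X => if j.1 = j'.1 then hb j'.2 X else 0) z w +
          D2 (R' j.1 j'.1 j'.2 s) z w := by
        simp only [hH]
        rw [← D2_add]
      rw [e1]
      refine (abs_add_le _ _).trans ?_
      have h4 := (hs2 j.1 j'.1 j'.2 j.2).2 z hz w hw
      have h5 : |D2 (fun X => if j.1 = j'.1 then hb j'.2 X else 0) z w| ≤ B * ‖z - w‖ ^ 2 := by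
        by_cases hjj : j.1 = j'.1
        · simp only [hjj, if_true]
          exact hBb j.2 j'.2 z hz w hw
        · simp only [hjj, if_false]
          have : D2 (fun _ : ℝ × ℝ => (0 : ℝ)) z w = 0 := by simp only [D2]; ring
          rw [this, abs_zero]
          positivity
      have h6 : ε * ‖z - w‖ ^ 2 ≤ 1 * ‖z - w‖ ^ 2 :=
        mul_le_mul_of_nonneg_right hε1 (by positivity)
      linarith
    have e2 : D2 (F j) z w = D2 Ph z w + D2 (R j.1 s) z w + ∑ j', cc j' * D2 (H j j') z w := by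
      simp only [hF, hA]
      rw [D2_add, D2_add, D2_sum]
      congr 1
      exact Finset.sum_congr rfl fun j' _ => D2_const_mul _ _ _ _
    have h7 : |∑ j', cc j' * D2 (H j j') z w| ≤ Nn * (2 * η * ((B + 1) * ‖z - w‖ ^ 2)) := by
      refine (Finset.abs_sum_le_sum_abs _ _).trans ?_
      calc ∑ j', |cc j' * D2 (H j j') z w| ≤ ∑ _j' : T × Fin N0, 2 * η * ((B + 1) * ‖z - w‖ ^ 2) := by
            refine Finset.sum_le_sum fun j' _ => ?_
            rw [abs_mul]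
            exact mul_le_mul (hcc j') (h3 j') (abs_nonneg _) (by positivity)
        _ = Nn * (2 * η * ((B + 1) * ‖z - w‖ ^ 2)) := by
            rw [Finset.sum_const, Finset.card_univ, nsmul_eq_mul]
    have h8 := (abs_le.1 h7).1
    rw [e2]
    have h9 : η * D * ‖z - w‖ ^ 2 ≤ c0 / 2 * ‖z - w‖ ^ 2 :=
      mul_le_mul_of_nonneg_right hη2 (by positivity)
    have h10 : η * D * ‖z - w‖ ^ 2 = η * ‖z - w‖ ^ 2 +
        Nn * (2 * η * ((B + 1) * ‖z - w‖ ^ 2)) := by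
      rw [hD]; ring
    linarith
  choose hnn X hXK hX0 using hzero
  have huniq : ∀ j, ∀ Y ∈ K j, F j Y = 0 → Y = X j := by
    intro j Y hY hY0
    have h1 := hFconv j Y hY (X j) (hXK j)
    have hmid : (1 / 2 : ℝ) • (Y + X j) ∈ K j := by
      rw [smul_add]
      exact (hgood j.2).1 hY (hXK j) (by norm_num) (by norm_num) (by norm_num)
    have h2 := hnn j _ hmid
    have h3 : D2 (F j) Y (X j) ≤ 0 := by
      simp only [D2]
      have : F j (X j) = 0 := hX0 j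
      rw [hY0, this]
      have : 0 ≤ F j ((1 / 2 : ℝ) • (Y + X j)) := h2
      linarith
    have h4 : ‖Y - X j‖ ^ 2 ≤ 0 := by
      by_contra hcon
      push Not at hcon
      have : 0 < c0 / 2 * ‖Y - X j‖ ^ 2 := by positivity
      linarith
    have h5 : ‖Y - X j‖ = 0 := by
      have := sq_nonneg ‖Y - X j‖
      exact pow_eq_zero_iff (two_ne_zero) |>.1 (le_antisymm h4 this)
    exact sub_eq_zero.1 (norm_eq_zero.1 h5)
  have hXT : ∀ j, X j ∈ Tor := fun j => hKT j (hXK j)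
  set Z : T × Fin N0 → ℝ × ℝ := fun j => χ s j.1 (X j) with hZ
  have hZ0 : ∀ j, P' (Z j) = 0 := fun j => by
    have : F j (X j) = 0 := hX0 j
    rw [hZ, hchart j (X j) (hXT j), this, mul_zero]
  have hZT : ∀ j, Z j ∈ Tor := fun j => hχ s hs j.1 _ (hXT j)
  have hinj : Function.Injective Z := by
    intro j j' hjj
    by_contra hne
    have hcj : 0 < c s j.1 (X j) := hc s hs j.1 _ (hXT j)
    have hcj' : 0 < c s j'.1 (X j') := hc s hs j'.1 _ (hXT j')
    have gen : ∀ a b : T × Fin N0, h s b.1 b.2 (Z a) = c s a.1 (X a) * H a b (X a) := by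
      intro a b
      exact hP2 s hs a.1 b.1 b.2 (X a) (hXT a)
    have hb1 : ∀ a b, |H a b (X a) - if a = b then 1 else 0| ≤ 1 / 3 := fun a b =>
      (Finset.single_le_sum (f := fun b => |H a b (X a) - if a = b then 1 else 0|)
        (fun _ _ => abs_nonneg _) (Finset.mem_univ b)).trans (hd3 a (X a) (hXK a))
    have k1 := (abs_le.1 (hb1 j j)).1
    have k2 := (abs_le.1 (hb1 j' j)).2
    have k3 := (abs_le.1 (hb1 j' j')).1
    have k4 := (abs_le.1 (hb1 j j')).2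
    rw [if_pos rfl] at k1 k3
    rw [if_neg (Ne.symm hne)] at k2
    rw [if_neg hne] at k4
    have e1 := gen j j
    have e2 := gen j' j
    have e3 := gen j' j'
    have e4 := gen j j'
    rw [hjj] at e1 e4
    have i1 : 2 / 3 * c s j.1 (X j) ≤ h s j.1 j.2 (Z j') := by
      rw [e1]; nlinarith
    have i2 : h s j.1 j.2 (Z j') ≤ 1 / 3 * c s j'.1 (X j') := by
      rw [e2]; nlinarith
    have i3 : 2 / 3 * c s j'.1 (X j') ≤ h s j'.1 j'.2 (Z j') := by
      rw [e3]; nlinarith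
    have i4 : h s j'.1 j'.2 (Z j') ≤ 1 / 3 * c s j.1 (X j) := by
      rw [e4]; nlinarith
    linarith
  have hset : {z | z ∈ Tor ∧ P s z + ∑ j, cc j * h s j.1 j.2 z = 0} = Set.range Z := by
    ext z
    constructor
    · rintro ⟨hzT, hz0⟩
      by_contra hcon
      have hz1 : ∀ τ i, ∀ X ∈ Tor, ‖X - ζ i‖ ≤ ρ → χ s τ X ≠ z := by
        intro τ i Y hY hYn hYz
        apply hcon
        have h1 : P' (χ s τ Y) = c s τ Y * F (τ, i) Y := hchart (τ, i) Y hY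
        have h2 : P' (χ s τ Y) = 0 := by rw [hYz]; exact hz0
        rw [h2] at h1
        have h3 : F (τ, i) Y = 0 := by
          rcases mul_eq_zero.1 h1.symm with h | h
          · exact absurd h (hc s hs τ Y hY).ne'
          · exact h
        have h4 := huniq (τ, i) Y (mem_closedBall_iff_norm.2 hYn) h3
        exact ⟨(τ, i), by simp only [hZ]; rw [← h4, hYz]⟩
      have h5 := hout z hzT hz1
      have h6 := hq s hs z hzT
      have h7 : P' z = 0 := hz0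
      linarith
    · rintro ⟨j, rfl⟩
      exact ⟨hZT j, hZ0 j⟩
  refine ⟨s, hs, cc, ρ, hρ, fun i => (hgood i).sub_tor, ?_, ?_, ?_, hout⟩
  · intro z hz
    by_cases hz1 : ∀ τ i, ∀ X ∈ Tor, ‖X - ζ i‖ ≤ ρ → χ s τ X ≠ z
    · exact (hq s hs z hz).le.trans (hout z hz hz1)
    · push Not at hz1
      obtain ⟨τ, i, Y, hY, hYn, hYz⟩ := hz1
      have h1 : P' (χ s τ Y) = c s τ Y * F (τ, i) Y := hchart (τ, i) Y hY
      rw [hYz] at h1
      have h2 := hnn (τ, i) Y (mem_closedBall_iff_norm.2 hYn)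
      show 0 ≤ P' z
      rw [h1]
      exact mul_nonneg (hc s hs τ Y hY).le h2
  · rw [hset]
    exact Set.finite_range Z
  · rw [hset, ← Set.image_univ, Set.ncard_image_of_injective _ hinj, Set.ncard_univ,
      Nat.card_eq_fintype_card, Fintype.card_prod, Fintype.card_fin]

end Pool.Agent.MP9d
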