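import Mathlib

/-!
Perturbation tools: a Banach fixed point lemma restoring exact zeros, second differences,
strong midpoint convexity.
-/

namespace Pool.Agent.MP9d

open Set Filter Topology

section FixedPoint

variable {ι : Type*} [Fintype ι] [DecidableEq ι]
variable {E : Type*} [TopologicalSpace E]

/-- Fixed point lemma: the minima of finitely many functions can be moved to zero. -/
theorem fixed_min (K : ι → Set E) (hK : ∀ i, IsCompact (K i)) (hne : ∀ i, (K i).Nonempty)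
    (A : ι → E → ℝ) (H : ι → ι → E → ℝ) (hA : ∀ i, ContinuousOn (A i) (K i))
    (hH : ∀ i j, ContinuousOn (H i j) (K i)) (η : ℝ) (hη : 0 ≤ η)
    (hlow : ∀ i, ∀ w ∈ K i, -η ≤ A i w) (hup : ∀ i, ∃ w ∈ K i, A i w ≤ η)
    (hd : ∀ i, ∀ w ∈ K i, ∑ j, |H i j w - if i = j then 1 else 0| ≤ 1 / 2) :
    ∃ c : ι → ℝ, (∀ j, |c j| ≤ 2 * η) ∧
      ∀ i, (∀ w ∈ K i, 0 ≤ A i w + ∑ j, c j * H i j w) ∧
        ∃ w ∈ K i, A i w + ∑ j, c j * H i j w = 0 := by
  classical
  -- the function to minimise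
  let Φ : (ι → ℝ) → ι → E → ℝ := fun c i w =>
    A i w + ∑ j, c j * (H i j w - if i = j then 1 else 0)
  have hΦ : ∀ c i, ContinuousOn (Φ c i) (K i) := by
    intro c i
    refine (hA i).add (continuousOn_finsetSum _ fun j _ => ?_)
    exact continuousOn_const.mul ((hH i j).sub continuousOn_const)
  have hex : ∀ c i, ∃ w ∈ K i, ∀ w' ∈ K i, Φ c i w ≤ Φ c i w' := fun c i =>
    (hK i).exists_isMinOn (hne i) (hΦ c i)
  choose w hwK hwmin using hex
  let T : (ι → ℝ) → (ι → ℝ) := fun c i => -Φ c i (w c i)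
  have hnorm : ∀ c : ι → ℝ, ∀ j, |c j| ≤ ‖c‖ := fun c j => by
    simpa using norm_le_pi_norm c j
  have hsum : ∀ (c : ι → ℝ) i, ∀ v ∈ K i,
      |∑ j, c j * (H i j v - if i = j then 1 else 0)| ≤ 1 / 2 * ‖c‖ := by
    intro c i v hv
    calc |∑ j, c j * (H i j v - if i = j then 1 else 0)|
        ≤ ∑ j, |c j * (H i j v - if i = j then 1 else 0)| := Finset.abs_sum_le_sum_abs _ _
      _ ≤ ∑ j, ‖c‖ * |H i j v - if i = j then 1 else 0| := by
          refine Finset.sum_le_sum fun j _ => ?_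
          rw [abs_mul]
          exact mul_le_mul_of_nonneg_right (hnorm c j) (abs_nonneg _)
      _ = ‖c‖ * ∑ j, |H i j v - if i = j then 1 else 0| := by rw [Finset.mul_sum]
      _ ≤ ‖c‖ * (1 / 2) := mul_le_mul_of_nonneg_left (hd i v hv) (norm_nonneg _)
      _ = 1 / 2 * ‖c‖ := by ring
  have hdiff : ∀ c c' i, ∀ v ∈ K i, Φ c i v ≤ Φ c' i v + 1 / 2 * ‖c - c'‖ := by
    intro c c' i v hv
    have h1 : Φ c i v - Φ c' i v = ∑ j, (c - c') j * (H i j v - if i = j then 1 else 0) := by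
      simp only [Φ, Pi.sub_apply, sub_mul, Finset.sum_sub_distrib]
      ring
    have h2 := (abs_le.1 (hsum (c - c') i v hv)).2
    linarith
  have hT : ∀ c c', dist (T c) (T c') ≤ 1 / 2 * dist c c' := by
    intro c c'
    rw [dist_eq_norm, dist_eq_norm, pi_norm_le_iff_of_nonneg (by positivity)]
    intro i
    rw [Real.norm_eq_abs, abs_le]
    have h1 := hwmin c i (w c' i) (hwK c' i)
    have h2 := hwmin c' i (w c i) (hwK c i)
    have h3 := hdiff c c' i (w c' i) (hwK c' i)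
    have h4 := hdiff c' c i (w c i) (hwK c i)
    rw [norm_sub_rev c' c] at h4
    simp only [T, Pi.sub_apply]
    constructor <;> linarith
  have hcontr : ContractingWith (1 / 2) T := by
    refine ⟨by norm_num, LipschitzWith.of_dist_le_mul ?_⟩
    intro c c'
    have := hT c c'
    simpa using this
  let c := ContractingWith.fixedPoint T hcontr
  have hc : T c = c := hcontr.fixedPoint_isFixedPt
  refine ⟨c, ?_, ?_⟩
  · have hb : ‖c‖ ≤ 2 * η := by
      have h1 : ‖T c‖ ≤ η + 1 / 2 * ‖c‖ := by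
        rw [pi_norm_le_iff_of_nonneg (by positivity)]
        intro i
        rw [Real.norm_eq_abs, abs_le]
        obtain ⟨v, hv, hv'⟩ := hup i
        have h2 := hwmin c i v hv
        have h3 := (abs_le.1 (hsum c i v hv)).2
        have h4 := (abs_le.1 (hsum c i (w c i) (hwK c i))).1
        have h5 := hlow i (w c i) (hwK c i)
        simp only [T, Φ] at *
        constructor <;> linarith
      rw [hc] at h1
      linarith
    intro j
    exact (hnorm c j).trans hb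
  · intro i
    have key : ∀ v, A i v + ∑ j, c j * H i j v = Φ c i v + c i := by
      intro v
      simp only [Φ, mul_sub, Finset.sum_sub_distrib]
      simp only [mul_ite, mul_one, mul_zero, Finset.sum_ite_eq, Finset.mem_univ, if_true]
      ring
    have hci : c i = -Φ c i (w c i) := congrFun hc.symm i
    constructor
    · intro v hv
      rw [key v]
      have := hwmin c i v hv
      linarith
    · exact ⟨w c i, hwK c i, by rw [key]; linarith⟩

end FixedPoint

section SecondDiff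

variable {E : Type*} [NormedAddCommGroup E] [NormedSpace ℝ E]

/-- second (midpoint) difference -/
noncomputable def D2 (f : E → ℝ) (z w : E) : ℝ := f z + f w - 2 * f ((1 / 2 : ℝ) • (z + w))

theorem D2_add (f g : E → ℝ) (z w : E) : D2 (fun x => f x + g x) z w = D2 f z w + D2 g z w := by
  simp only [D2]; ring

theorem D2_const_mul (c : ℝ) (f : E → ℝ) (z w : E) :
    D2 (fun x => c * f x) z w = c * D2 f z w := by
  simp only [D2]; ring

theorem D2_sum {ι : Type*} (s : Finset ι) (f : ι → E → ℝ) (z w : E) :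
    D2 (fun x => ∑ i ∈ s, f i x) z w = ∑ i ∈ s, D2 (f i) z w := by
  simp only [D2, Finset.sum_add_distrib, Finset.sum_sub_distrib, Finset.mul_sum]

/-- A `C²` function with quadratic growth at a zero is strongly midpoint convex there. -/
theorem strong_conv (f : E → ℝ) (ζ : E) (hf : ContDiffAt ℝ 2 f ζ) (h0 : f ζ = 0)
    (κ ρ : ℝ) (hκ : 0 < κ) (hρ : 0 < ρ)
    (hg : ∀ z, ‖z - ζ‖ ≤ ρ → κ * ‖z - ζ‖ ^ 2 ≤ f z) :
    ∃ c > 0, ∃ r > 0, ∀ z w, ‖z - ζ‖ ≤ r → ‖w - ζ‖ ≤ r → c * ‖z - w‖ ^ 2 ≤ D2 f z w := by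
  -- differentiability near `ζ`
  have hdiff : ∀ᶠ z in 𝓝 ζ, DifferentiableAt ℝ f z := by
    have := hf.eventually (by simp)
    filter_upwards [this] with z hz
    exact hz.differentiableAt (by norm_num)
  have hf' : ContDiffAt ℝ 1 (fderiv ℝ f) ζ := hf.fderiv_right (by norm_num)
  have hstrict := hf'.hasStrictFDerivAt (by norm_num)
  set L := fderiv ℝ (fderiv ℝ f) ζ with hL
  have hε : (0 : ℝ) < κ / 4 := by positivity
  have hev := hstrict.isLittleO.def hε
  rw [Filter.Eventually, nhds_prod_eq] at hev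
  obtain ⟨s, hs, s', hs', hst⟩ := Filter.mem_prod_iff.1 hev
  have hmem : s ∩ s' ∩ {z | DifferentiableAt ℝ f z} ∈ 𝓝 ζ := inter_mem (inter_mem hs hs') hdiff
  obtain ⟨r0, hr0, hball⟩ := Metric.mem_nhds_iff.1 hmem
  -- key estimate
  have key : ∀ m h : E, ‖m - ζ‖ + ‖h‖ < r0 →
      |f (m + h) + f (m - h) - 2 * f m - L h h| ≤ κ / 2 * ‖h‖ ^ 2 := by
    intro m h hmh
    have hin : ∀ t : ℝ, t ∈ Icc (-1 : ℝ) 1 → m + t • h ∈ Metric.ball ζ r0 := by
      intro t ht
      rw [Metric.mem_ball, dist_eq_norm]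
      have : m + t • h - ζ = (m - ζ) + t • h := by abel
      rw [this]
      refine (norm_add_le _ _).trans_lt ?_
      rw [norm_smul, Real.norm_eq_abs]
      have : |t| ≤ 1 := abs_le.2 ht
      have := mul_le_mul_of_nonneg_right this (norm_nonneg h)
      linarith
    let g : ℝ → ℝ := fun t => f (m + t • h) + f (m - t • h) - 2 * f m - t ^ 2 * L h h
    have hline : ∀ t : ℝ, HasDerivAt (fun t : ℝ => m + t • h) h t := by
      intro t
      simpa using ((hasDerivAt_id t).smul_const h).const_add m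
    have hline' : ∀ t : ℝ, HasDerivAt (fun t : ℝ => m - t • h) (-h) t := by
      intro t
      simpa using ((hasDerivAt_id t).smul_const h).const_sub m
    have hgd : ∀ t ∈ Icc (0 : ℝ) 1, HasDerivAt g
        (fderiv ℝ f (m + t • h) h + fderiv ℝ f (m - t • h) (-h) - 2 * t * L h h) t := by
      intro t ht
      have h1 : DifferentiableAt ℝ f (m + t • h) :=
        (hball (hin t ⟨by linarith [ht.1], ht.2⟩)).2
      have h2 : DifferentiableAt ℝ f (m - t • h) := by
        have := (hball (hin (-t) ⟨by linarith [ht.2], by linarith [ht.1]⟩)).2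
        simpa [sub_eq_add_neg] using this
      have e1 := h1.hasFDerivAt.comp_hasDerivAt t (hline t)
      have e2 := h2.hasFDerivAt.comp_hasDerivAt t (hline' t)
      have e3 : HasDerivAt (fun t : ℝ => t ^ 2 * L h h) (2 * t * L h h) t := by
        simpa using (hasDerivAt_pow 2 t).mul_const (L h h)
      have := ((e1.add e2).sub_const (2 * f m)).sub e3
      exact this
    have hbound : ∀ t ∈ Icc (0 : ℝ) 1,
        ‖fderiv ℝ f (m + t • h) h + fderiv ℝ f (m - t • h) (-h) - 2 * t * L h h‖ ≤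
          κ / 2 * ‖h‖ ^ 2 := by
      intro t ht
      have hp : m + t • h ∈ s := (hball (hin t ⟨by linarith [ht.1], ht.2⟩)).1.1
      have hq : m - t • h ∈ s' := by
        have := (hball (hin (-t) ⟨by linarith [ht.2], by linarith [ht.1]⟩)).1.2
        simpa [sub_eq_add_neg] using this
      have hpq : (m + t • h, m - t • h) ∈ s ×ˢ s' := ⟨hp, hq⟩
      have h1 := hst hpq
      simp only [mem_ofPred_eq] at h1
      have h2 : m + t • h - (m - t • h) = (2 * t) • h := by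
        rw [mul_smul, two_smul]; abel
      rw [h2] at h1
      have h3 : fderiv ℝ f (m + t • h) h + fderiv ℝ f (m - t • h) (-h) - 2 * t * L h h =
          (fderiv ℝ f (m + t • h) - fderiv ℝ f (m - t • h) - L ((2 * t) • h)) h := by
        simp only [map_neg, map_smul, FunLike.coe_sub, Pi.sub_apply, FunLike.coe_smul,
          Pi.smul_apply, smul_eq_mul]
        ring
      rw [h3]
      refine (ContinuousLinearMap.le_opNorm _ _).trans ?_
      have h4 := mul_le_mul_of_nonneg_right h1 (norm_nonneg h)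
      refine h4.trans ?_
      rw [norm_smul, Real.norm_eq_abs, abs_mul, abs_of_nonneg ht.1, abs_two]
      have : t * ‖h‖ ^ 2 ≤ 1 * ‖h‖ ^ 2 := mul_le_mul_of_nonneg_right ht.2 (by positivity)
      nlinarith [norm_nonneg h]
    have hmv := Convex.norm_image_sub_le_of_norm_hasDerivWithin_le
      (f := g) (C := κ / 2 * ‖h‖ ^ 2) (s := Icc (0 : ℝ) 1) (x := 0) (y := 1)
      (fun t ht => (hgd t ht).hasDerivWithinAt) hbound (convex_Icc 0 1)
      (by simp) (by simp)
    have hg0 : g 0 = 0 := by simp [g]; ring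
    have hg1 : g 1 = f (m + h) + f (m - h) - 2 * f m - L h h := by simp [g]
    rw [hg0, hg1] at hmv
    simpa using hmv
  -- lower bound for the quadratic form
  have hquad : ∀ h : E, ‖h‖ < r0 → ‖h‖ ≤ ρ → 3 / 2 * κ * ‖h‖ ^ 2 ≤ L h h := by
    intro h hh hh'
    have h1 := key ζ h (by simpa using hh)
    have h2 := hg (ζ + h) (by simpa using hh')
    have h3 := hg (ζ - h) (by simpa using hh')
    have e1 : ζ + h - ζ = h := by abel
    have e2 : ζ - h - ζ = -h := by abel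
    rw [e1] at h2
    rw [e2, norm_neg] at h3
    rw [h0] at h1
    have := (abs_le.1 h1).2
    linarith
  refine ⟨κ / 4, by positivity, min (r0 / 4) (ρ / 4), by positivity, ?_⟩
  intro z w hz hw
  set m := (1 / 2 : ℝ) • (z + w) with hm
  set h := (1 / 2 : ℝ) • (z - w) with hh
  have ez : m + h = z := by
    rw [hm, hh, ← smul_add]
    have : z + w + (z - w) = (2 : ℝ) • z := by rw [two_smul]; abel
    rw [this, smul_smul]; norm_num
  have ew : m - h = w := by
    rw [hm, hh, ← smul_sub]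
    have : z + w - (z - w) = (2 : ℝ) • w := by rw [two_smul]; abel
    rw [this, smul_smul]; norm_num
  have hnh : ‖h‖ = ‖z - w‖ / 2 := by
    rw [hh, norm_smul]; norm_num; ring
  have hzw : ‖z - w‖ ≤ ‖z - ζ‖ + ‖w - ζ‖ := by
    have : z - w = (z - ζ) - (w - ζ) := by abel
    rw [this]; exact norm_sub_le _ _
  have hmζ : ‖m - ζ‖ ≤ (‖z - ζ‖ + ‖w - ζ‖) / 2 := by
    have : m - ζ = (1 / 2 : ℝ) • ((z - ζ) + (w - ζ)) := by
      rw [hm]
      have : (z - ζ) + (w - ζ) = (z + w) - (2 : ℝ) • ζ := by rw [two_smul]; abel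
      rw [this, smul_sub, smul_smul]; norm_num
    rw [this, norm_smul]
    have := norm_add_le (z - ζ) (w - ζ)
    norm_num
    linarith
  have hz1 := hz.trans (min_le_left _ _)
  have hz2 := hz.trans (min_le_right _ _)
  have hw1 := hw.trans (min_le_left _ _)
  have hw2 := hw.trans (min_le_right _ _)
  have k1 := key m h (by linarith)
  have k2 := hquad h (by linarith) (by linarith)
  have k3 := (abs_le.1 k1).1
  rw [ez, ew] at k3
  simp only [D2, ← hm]
  have : ‖h‖ ^ 2 = ‖z - w‖ ^ 2 / 4 := by rw [hnh]; ring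
  rw [this] at k2 k3
  linarith

/-- bounded, Lipschitz, with bounded second differences -/
def Reg (K : Set E) (f : E → ℝ) : Prop := ∃ B, 0 ≤ B ∧ (∀ z ∈ K, |f z| ≤ B) ∧
  (∀ z ∈ K, ∀ w ∈ K, |f z - f w| ≤ B * ‖z - w‖) ∧
  (∀ z ∈ K, ∀ w ∈ K, |D2 f z w| ≤ B * ‖z - w‖ ^ 2)

theorem Reg.const (K : Set E) (c : ℝ) : Reg K (fun _ => c) := by
  refine ⟨|c|, abs_nonneg _, fun _ _ => le_rfl, fun z _ w _ => ?_, fun z _ w _ => ?_⟩
  · simp only [sub_self, abs_zero]; positivity
  · have : D2 (fun _ : E => c) z w = 0 := by simp only [D2]; ring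
    rw [this, abs_zero]; positivity

theorem Reg.mul {K : Set E} (hK : Convex ℝ K) {f g : E → ℝ} (hf : Reg K f) (hg : Reg K g)
    {M : ℝ} (hM : ∀ z ∈ K, ∀ w ∈ K, ‖z - w‖ ≤ M) :
    Reg K (fun z => f z * g z) := by
  obtain ⟨B, hB, b1, b2, b3⟩ := hf
  obtain ⟨C, hC, c1, c2, c3⟩ := hg
  have hmid : ∀ z ∈ K, ∀ w ∈ K, (1 / 2 : ℝ) • (z + w) ∈ K := by
    intro z hz w hw
    rw [smul_add]
    exact hK hz hw (by norm_num) (by norm_num) (by norm_num)
  have hM' : ∀ z ∈ K, ∀ w ∈ K, ‖z - w‖ ^ 2 ≤ M ^ 2 := fun z hz w hw =>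
    pow_le_pow_left₀ (norm_nonneg _) (hM z hz w hw) 2
  refine ⟨4 * B * C + B * C * M ^ 2, by positivity, ?_, ?_, ?_⟩
  · intro z hz
    rw [abs_mul]
    have := mul_le_mul (b1 z hz) (c1 z hz) (abs_nonneg _) hB
    have h2 : 0 ≤ B * C := by positivity
    have h3 : 0 ≤ B * C * M ^ 2 := by positivity
    linarith
  · intro z hz w hw
    have e : f z * g z - f w * g w = f z * (g z - g w) + (f z - f w) * g w := by ring
    rw [e]
    refine (abs_add_le _ _).trans ?_
    rw [abs_mul, abs_mul]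
    have h1 := mul_le_mul (b1 z hz) (c2 z hz w hw) (abs_nonneg _) hB
    have h2 := mul_le_mul (b2 z hz w hw) (c1 w hw) (abs_nonneg _) (by positivity)
    have h3 : 0 ≤ B * C * M ^ 2 * ‖z - w‖ := by positivity
    have h4 : 0 ≤ B * C * ‖z - w‖ := by positivity
    nlinarith
  · intro z hz w hw
    have e : D2 (fun z => f z * g z) z w =
        f ((1 / 2 : ℝ) • (z + w)) * D2 g z w + g ((1 / 2 : ℝ) • (z + w)) * D2 f z w +
        1 / 2 * (D2 f z w * D2 g z w) + 1 / 2 * ((f z - f w) * (g z - g w)) := by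
      simp only [D2]; ring
    rw [e]
    have hm := hmid z hz w hw
    have h1 := mul_le_mul (b1 _ hm) (c3 z hz w hw) (abs_nonneg _) hB
    have h2 := mul_le_mul (c1 _ hm) (b3 z hz w hw) (abs_nonneg _) hC
    have h3 := mul_le_mul (b3 z hz w hw) (c3 z hz w hw) (abs_nonneg _) (by positivity)
    have h4 := mul_le_mul (b2 z hz w hw) (c2 z hz w hw) (abs_nonneg _) (by positivity)
    have h5 : B * ‖z - w‖ ^ 2 * (C * ‖z - w‖ ^ 2) ≤ B * C * M ^ 2 * ‖z - w‖ ^ 2 := by
      have : 0 ≤ B * C * ‖z - w‖ ^ 2 := by positivity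
      have := mul_le_mul_of_nonneg_left (hM' z hz w hw) this
      linarith
    rw [← abs_mul] at h1 h2 h3 h4
    have a1 := abs_add_le (f ((1 / 2 : ℝ) • (z + w)) * D2 g z w +
      g ((1 / 2 : ℝ) • (z + w)) * D2 f z w + 1 / 2 * (D2 f z w * D2 g z w))
      (1 / 2 * ((f z - f w) * (g z - g w)))
    have a2 := abs_add_le (f ((1 / 2 : ℝ) • (z + w)) * D2 g z w +
      g ((1 / 2 : ℝ) • (z + w)) * D2 f z w) (1 / 2 * (D2 f z w * D2 g z w))
    have a3 := abs_add_le (f ((1 / 2 : ℝ) • (z + w)) * D2 g z w)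
      (g ((1 / 2 : ℝ) • (z + w)) * D2 f z w)
    have a4 : |1 / 2 * (D2 f z w * D2 g z w)| = 1 / 2 * |D2 f z w * D2 g z w| := by
      rw [abs_mul]; norm_num
    have a5 : |1 / 2 * ((f z - f w) * (g z - g w))| = 1 / 2 * |(f z - f w) * (g z - g w)| := by
      rw [abs_mul]; norm_num
    have h6 : 0 ≤ B * C * ‖z - w‖ ^ 2 := by positivity
    have h7 : 0 ≤ B * C * M ^ 2 * ‖z - w‖ ^ 2 := by positivity
    nlinarith

theorem Reg.inv {K : Set E} (hK : Convex ℝ K) {f : E → ℝ} (hf : Reg K f)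
    {c : ℝ} (hc : 0 < c) (hcf : ∀ z ∈ K, c ≤ |f z|) :
    Reg K (fun z => (f z)⁻¹) := by
  obtain ⟨B, hB, b1, b2, b3⟩ := hf
  have hmid : ∀ z ∈ K, ∀ w ∈ K, (1 / 2 : ℝ) • (z + w) ∈ K := by
    intro z hz w hw
    rw [smul_add]
    exact hK hz hw (by norm_num) (by norm_num) (by norm_num)
  have hne : ∀ z ∈ K, f z ≠ 0 := fun z hz h => by
    have := hcf z hz
    rw [h, abs_zero] at this
    linarith
  have hinv : ∀ z ∈ K, |(f z)⁻¹| ≤ c⁻¹ := fun z hz => by
    rw [abs_inv]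
    exact inv_anti₀ hc (hcf z hz)
  refine ⟨c⁻¹ + B * c⁻¹ ^ 2 + 2 * B ^ 2 * c⁻¹ ^ 3, by positivity, ?_, ?_, ?_⟩
  · intro z hz
    have h1 : 0 ≤ B * c⁻¹ ^ 2 := by positivity
    have h2 : 0 ≤ 2 * B ^ 2 * c⁻¹ ^ 3 := by positivity
    have := hinv z hz
    linarith
  · intro z hz w hw
    have e : (f z)⁻¹ - (f w)⁻¹ = (f w - f z) * ((f z)⁻¹ * (f w)⁻¹) := by
      field_simp [hne z hz, hne w hw]
    rw [e, abs_mul, abs_mul, abs_sub_comm]
    have h1 : |(f z)⁻¹| * |(f w)⁻¹| ≤ c⁻¹ * c⁻¹ :=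
      mul_le_mul (hinv z hz) (hinv w hw) (abs_nonneg _) (by positivity)
    have h2 := mul_le_mul (b2 z hz w hw) h1 (by positivity) (by positivity)
    have h3 : 0 ≤ c⁻¹ * ‖z - w‖ := by positivity
    have h4 : 0 ≤ 2 * B ^ 2 * c⁻¹ ^ 3 * ‖z - w‖ := by positivity
    nlinarith
  · intro z hz w hw
    set m := (1 / 2 : ℝ) • (z + w) with hm
    have hmK : m ∈ K := hmid z hz w hw
    have e : D2 (fun z => (f z)⁻¹) z w =
        -(1 / 2) * ((f z + f w) * D2 f z w) * ((f z)⁻¹ * (f w)⁻¹ * (f m)⁻¹) +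
        1 / 2 * (f z - f w) ^ 2 * ((f z)⁻¹ * (f w)⁻¹ * (f m)⁻¹) := by
      simp only [D2, ← hm]
      have h1 := hne z hz
      have h2 := hne w hw
      have h3 := hne m hmK
      field_simp
      ring
    rw [e]
    have h0 : |(f z)⁻¹ * (f w)⁻¹ * (f m)⁻¹| ≤ c⁻¹ * c⁻¹ * c⁻¹ := by
      rw [abs_mul, abs_mul]
      exact mul_le_mul (mul_le_mul (hinv z hz) (hinv w hw) (abs_nonneg _) (by positivity))
        (hinv m hmK) (abs_nonneg _) (by positivity)
    have h1 : |(f z + f w) * D2 f z w| ≤ 2 * B * (B * ‖z - w‖ ^ 2) := by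
      rw [abs_mul]
      refine mul_le_mul ?_ (b3 z hz w hw) (abs_nonneg _) (by positivity)
      have := abs_add_le (f z) (f w)
      linarith [b1 z hz, b1 w hw]
    have h2 : |(f z - f w) ^ 2| ≤ (B * ‖z - w‖) ^ 2 := by
      rw [abs_pow]
      exact pow_le_pow_left₀ (abs_nonneg _) (b2 z hz w hw) 2
    have h3 : |(f z + f w) * D2 f z w| * |(f z)⁻¹ * (f w)⁻¹ * (f m)⁻¹| ≤
        2 * B * (B * ‖z - w‖ ^ 2) * (c⁻¹ * c⁻¹ * c⁻¹) :=
      mul_le_mul h1 h0 (abs_nonneg _) (by positivity)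
    have h4 : |(f z - f w) ^ 2| * |(f z)⁻¹ * (f w)⁻¹ * (f m)⁻¹| ≤
        (B * ‖z - w‖) ^ 2 * (c⁻¹ * c⁻¹ * c⁻¹) :=
      mul_le_mul h2 h0 (abs_nonneg _) (by positivity)
    refine (abs_add_le _ _).trans ?_
    have e1 : |-(1 / 2) * ((f z + f w) * D2 f z w) * ((f z)⁻¹ * (f w)⁻¹ * (f m)⁻¹)| =
        1 / 2 * (|(f z + f w) * D2 f z w| * |(f z)⁻¹ * (f w)⁻¹ * (f m)⁻¹|) := by
      rw [abs_mul, abs_mul (-(1 / 2) : ℝ), abs_neg, abs_of_pos (by norm_num : (0:ℝ) < 1 / 2)]
      ring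
    have e2 : |1 / 2 * (f z - f w) ^ 2 * ((f z)⁻¹ * (f w)⁻¹ * (f m)⁻¹)| =
        1 / 2 * (|(f z - f w) ^ 2| * |(f z)⁻¹ * (f w)⁻¹ * (f m)⁻¹|) := by
      rw [abs_mul, abs_mul (1 / 2 : ℝ), abs_of_pos (by norm_num : (0:ℝ) < 1 / 2)]
      ring
    rw [e1, e2]
    have h5 : 0 ≤ c⁻¹ * ‖z - w‖ ^ 2 := by positivity
    have h6 : 0 ≤ B * c⁻¹ ^ 2 * ‖z - w‖ ^ 2 := by positivity
    have h7 : 0 ≤ B ^ 2 * c⁻¹ ^ 3 * ‖z - w‖ ^ 2 := by positivity
    nlinarith

theorem Reg.pow {K : Set E} (hK : Convex ℝ K) {f : E → ℝ} (hf : Reg K f)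
    {M : ℝ} (hM : ∀ z ∈ K, ∀ w ∈ K, ‖z - w‖ ≤ M) (n : ℕ) :
    Reg K (fun z => f z ^ n) := by
  induction n with
  | zero => simpa using Reg.const K 1
  | succ n ih => simpa [pow_succ] using Reg.mul hK ih hf hM

theorem Reg.zpow {K : Set E} (hK : Convex ℝ K) {f : E → ℝ} (hf : Reg K f)
    {M : ℝ} (hM : ∀ z ∈ K, ∀ w ∈ K, ‖z - w‖ ≤ M) {c : ℝ} (hc : 0 < c)
    (hcf : ∀ z ∈ K, c ≤ |f z|) (n : ℤ) :
    Reg K (fun z => f z ^ n) := by
  obtain ⟨n, rfl | rfl⟩ := n.eq_nat_or_neg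
  · simpa using Reg.pow hK hf hM n
  · have := Reg.pow hK (Reg.inv hK hf hc hcf) hM n
    simpa [inv_pow] using this

theorem Reg.clm {K : Set E} {R : ℝ} (hK : ∀ z ∈ K, ‖z‖ ≤ R) (L : E →L[ℝ] ℝ) :
    Reg K (fun z => L z) := by
  by_cases hne : K.Nonempty
  · obtain ⟨z0, hz0⟩ := hne
    have hR : 0 ≤ R := (norm_nonneg _).trans (hK z0 hz0)
    refine ⟨‖L‖ * R + ‖L‖, by positivity, ?_, ?_, ?_⟩
    · intro z hz
      have h1 := L.le_opNorm z
      have h2 := mul_le_mul_of_nonneg_left (hK z hz) (norm_nonneg L)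
      rw [Real.norm_eq_abs] at h1
      linarith [norm_nonneg L]
    · intro z hz w hw
      rw [← map_sub]
      have h1 := L.le_opNorm (z - w)
      rw [Real.norm_eq_abs] at h1
      have : 0 ≤ ‖L‖ * R * ‖z - w‖ := by positivity
      nlinarith
    · intro z hz w hw
      have : D2 (fun z => L z) z w = 0 := by
        simp only [D2, map_smul, map_add, smul_eq_mul]; ring
      rw [this, abs_zero]
      positivity
  · rw [not_nonempty_iff_eq_empty] at hne
    subst hne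
    exact ⟨0, le_rfl, by simp, by simp, by simp⟩

end SecondDiff

end Pool.Agent.MP9d
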