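import Pool.Agent.Work.MP_9d788c_ag.Patch
import Pool.Agent.Work.MP_9d788c_ag.TileDef

/-!
Rows of tiles: exponents, charts, the chain lemma.
-/

namespace Pool.Agent.MP9d

open Set Filter Topology

/-- data of a tile: sign, chart exponents, exponents of the centre -/
structure TD where
  ε : ℤ
  ξ : ℤ
  η : ℤ
  G : ℤ
  p : ℤ
  b : ℤ

/-- exponents `(s,x,y)` of the monomial `w` of the tile -/
def TD.exp (t : TD) (w : ℤ × ℤ) : ℤ × ℤ × ℤ :=
  (t.G - t.ε * (t.ξ * w.1 + t.η * w.2), t.p + t.ε * w.1, t.b + t.ε * w.2)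

/-- relative exponent of `e` in the chart of `t` -/
def TD.rel (t : TD) (e : ℤ × ℤ × ℤ) : ℤ :=
  e.1 + t.ξ * e.2.1 + t.η * e.2.2 - (t.G + t.ξ * t.p + t.η * t.b)

/-- weighted monomial -/
noncomputable def mono3 (e : ℤ × ℤ × ℤ) (s : ℝ) (z : ℝ × ℝ) : ℝ := s ^ e.1 * mon e.2 z

/-- the chart -/
noncomputable def TD.chi (t : TD) (s : ℝ) (X : ℝ × ℝ) : ℝ × ℝ :=
  (s ^ t.ξ * X.1 ^ t.ε, s ^ t.η * X.2 ^ t.ε)

/-- the centre monomial in the chart -/
noncomputable def TD.cen (t : TD) (s : ℝ) (X : ℝ × ℝ) : ℝ :=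
  s ^ (t.G + t.ξ * t.p + t.η * t.b) * mon (t.ε * t.p, t.ε * t.b) X

theorem TD.chi_mem (t : TD) {s : ℝ} (hs : s ≠ 0) {X : ℝ × ℝ} (hX : X ∈ Tor) :
    t.chi s X ∈ Tor :=
  ⟨mul_ne_zero (zpow_ne_zero _ hs) (zpow_ne_zero _ hX.1),
    mul_ne_zero (zpow_ne_zero _ hs) (zpow_ne_zero _ hX.2)⟩

theorem TD.mono3_chi (t : TD) (e : ℤ × ℤ × ℤ) {s : ℝ} (hs : s ≠ 0) {X : ℝ × ℝ} (hX : X ∈ Tor) :
    mono3 e s (t.chi s X) = t.cen s X * (s ^ t.rel e *
      mon (t.ε * (e.2.1 - t.p), t.ε * (e.2.2 - t.b)) X) := by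
  simp only [mono3, mon, TD.chi, TD.cen, TD.rel]
  obtain ⟨h1, h2⟩ := hX
  have e1 : s ^ (e.1 + t.ξ * e.2.1 + t.η * e.2.2 - (t.G + t.ξ * t.p + t.η * t.b)) =
      s ^ e.1 * s ^ (t.ξ * e.2.1) * s ^ (t.η * e.2.2) *
        (s ^ (t.G + t.ξ * t.p + t.η * t.b))⁻¹ := by
    rw [sub_eq_add_neg, zpow_add₀ hs, zpow_neg, zpow_add₀ hs, zpow_add₀ hs]
  have e2 : X.1 ^ (t.ε * (e.2.1 - t.p)) = X.1 ^ (t.ε * e.2.1) * (X.1 ^ (t.ε * t.p))⁻¹ := by
    rw [mul_sub, sub_eq_add_neg, zpow_add₀ h1, zpow_neg]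
  have e3 : X.2 ^ (t.ε * (e.2.2 - t.b)) = X.2 ^ (t.ε * e.2.2) * (X.2 ^ (t.ε * t.b))⁻¹ := by
    rw [mul_sub, sub_eq_add_neg, zpow_add₀ h2, zpow_neg]
  rw [e1, e2, e3, mul_zpow, mul_zpow, ← zpow_mul, ← zpow_mul, ← zpow_mul, ← zpow_mul]
  have n1 : s ^ (t.G + t.ξ * t.p + t.η * t.b) ≠ 0 := zpow_ne_zero _ hs
  have n2 : X.1 ^ (t.ε * t.p) ≠ 0 := zpow_ne_zero _ h1
  have n3 : X.2 ^ (t.ε * t.b) ≠ 0 := zpow_ne_zero _ h2
  field_simp

theorem TD.rel_exp_self (t : TD) (w : ℤ × ℤ) : t.rel (t.exp w) = 0 := by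
  simp only [TD.rel, TD.exp]
  ring

theorem TD.mono3_chi_self (t : TD) (hε : t.ε * t.ε = 1) (w : ℤ × ℤ) {s : ℝ} (hs : s ≠ 0)
    {X : ℝ × ℝ} (hX : X ∈ Tor) :
    mono3 (t.exp w) s (t.chi s X) = t.cen s X * mon w X := by
  rw [t.mono3_chi _ hs hX, t.rel_exp_self w, zpow_zero, one_mul]
  congr 2
  simp only [TD.exp]
  ext
  · simp only
    have : t.ε * (t.p + t.ε * w.1 - t.p) = (t.ε * t.ε) * w.1 := by ring
    rw [this, hε, one_mul]
  · simp only
    have : t.ε * (t.b + t.ε * w.2 - t.b) = (t.ε * t.ε) * w.2 := by ring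
    rw [this, hε, one_mul]

/-- the inverse chart -/
noncomputable def TD.inv (t : TD) (s : ℝ) (z : ℝ × ℝ) : ℝ × ℝ :=
  ((s ^ (-t.ξ) * z.1) ^ t.ε, (s ^ (-t.η) * z.2) ^ t.ε)

theorem TD.inv_mem (t : TD) {s : ℝ} (hs : s ≠ 0) {z : ℝ × ℝ} (hz : z ∈ Tor) :
    t.inv s z ∈ Tor :=
  ⟨zpow_ne_zero _ (mul_ne_zero (zpow_ne_zero _ hs) hz.1),
    zpow_ne_zero _ (mul_ne_zero (zpow_ne_zero _ hs) hz.2)⟩

theorem TD.chi_inv (t : TD) (hε : t.ε * t.ε = 1) {s : ℝ} (hs : s ≠ 0) {z : ℝ × ℝ} :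
    t.chi s (t.inv s z) = z := by
  simp only [TD.chi, TD.inv]
  rw [← zpow_mul, ← zpow_mul, hε, zpow_one, zpow_one, ← mul_assoc, ← mul_assoc,
    ← zpow_add₀ hs, ← zpow_add₀ hs]
  simp

/-- functions negligible in the chart of `t` -/
def Negl (t : TD) (g : ℝ → ℝ × ℝ → ℝ) : Prop :=
  ∃ R, SmallFam R ∧ ∀ s ∈ Ioo (0 : ℝ) 1, ∀ X ∈ Tor, g s (t.chi s X) = t.cen s X * R s X

theorem Negl.mono3 (t : TD) (e : ℤ × ℤ × ℤ) (h : 1 ≤ t.rel e) :
    Negl t (fun s z => mono3 e s z) :=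
  ⟨_, SmallFam.mon (t.rel e) h (t.ε * (e.2.1 - t.p), t.ε * (e.2.2 - t.b)),
    fun _ hs _ hX => t.mono3_chi e hs.1.ne' hX⟩

theorem Negl.const_mul {t : TD} {g : ℝ → ℝ × ℝ → ℝ} (hg : Negl t g) (c : ℝ) :
    Negl t (fun s z => c * g s z) := by
  obtain ⟨R, hR, h⟩ := hg
  refine ⟨_, hR.const_mul c, fun s hs X hX => ?_⟩
  simp only [h s hs X hX]
  ring

theorem Negl.add {t : TD} {g g' : ℝ → ℝ × ℝ → ℝ} (hg : Negl t g) (hg' : Negl t g') :
    Negl t (fun s z => g s z + g' s z) := by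
  obtain ⟨R, hR, h⟩ := hg
  obtain ⟨R', hR', h'⟩ := hg'
  refine ⟨_, hR.add hR', fun s hs X hX => ?_⟩
  simp only [h s hs X hX, h' s hs X hX]
  ring

theorem Negl.sub {t : TD} {g g' : ℝ → ℝ × ℝ → ℝ} (hg : Negl t g) (hg' : Negl t g') :
    Negl t (fun s z => g s z - g' s z) := by
  have := hg.add (hg'.const_mul (-1))
  simpa [sub_eq_add_neg] using this

theorem Negl.sum {t : TD} {ι : Type*} (J : Finset ι) (g : ι → ℝ → ℝ × ℝ → ℝ)
    (hg : ∀ i ∈ J, Negl t (g i)) : Negl t (fun s z => ∑ i ∈ J, g i s z) := by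
  classical
  induction J using Finset.induction_on with
  | empty => exact ⟨_, SmallFam.zero, fun s _ X _ => by simp⟩
  | insert a J ha ih =>
    have h1 := hg a (Finset.mem_insert_self _ _)
    have h2 := ih (fun i hi => hg i (Finset.mem_insert_of_mem hi))
    have := h1.add h2
    simpa [Finset.sum_insert ha] using this

/-- offset of the row `q` -/
def off (m q : ℤ) : ℤ := (2 * m + 2) * q
/-- convex weight of the row `q` -/
def tht (m q : ℤ) : ℤ := (m + 1) * q * (q + 1) - q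

/-- the tile `l` of the row `q` -/
noncomputable def tile (m Λ q l : ℤ) : TD :=
  if Even l then
    ⟨1, -2 * m * (l + 1), 3 * l + 4 - Λ * q, m * (l + 2) ^ 2 + Λ * (q * off m q - tht m q),
      l + 2, off m q⟩
  else
    ⟨-1, -2 * m * (l + 1), 3 * l + 3 - Λ * q,
      m * (l ^ 2 - 1) + Λ * (q * (2 * m + off m q) - tht m q), l + 3, 2 * m + off m q⟩

/-- exponents of the vertex `l` of the row `q` -/
noncomputable def vx (m Λ q l : ℤ) : ℤ × ℤ × ℤ :=
  if Even l then (m * l ^ 2 + Λ * (q * off m q - tht m q), l, off m q)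
  else (m * (l ^ 2 - 1) + Λ * (q * (2 * m + off m q) - tht m q), l + 3, 2 * m + off m q)

theorem tile_even {m Λ q l : ℤ} (h : Even l) : tile m Λ q l =
    ⟨1, -2 * m * (l + 1), 3 * l + 4 - Λ * q, m * (l + 2) ^ 2 + Λ * (q * off m q - tht m q),
      l + 2, off m q⟩ := if_pos h

theorem tile_odd {m Λ q l : ℤ} (h : ¬ Even l) : tile m Λ q l =
    ⟨-1, -2 * m * (l + 1), 3 * l + 3 - Λ * q,
      m * (l ^ 2 - 1) + Λ * (q * (2 * m + off m q) - tht m q), l + 3, 2 * m + off m q⟩ :=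
  if_neg h

theorem vx_even {m Λ q l : ℤ} (h : Even l) : vx m Λ q l =
    (m * l ^ 2 + Λ * (q * off m q - tht m q), l, off m q) := if_pos h

theorem vx_odd {m Λ q l : ℤ} (h : ¬ Even l) : vx m Λ q l =
    (m * (l ^ 2 - 1) + Λ * (q * (2 * m + off m q) - tht m q), l + 3, 2 * m + off m q) :=
  if_neg h

theorem even_succ_iff (l : ℤ) : Even (l + 1) ↔ ¬ Even l := Int.even_add_one
theorem even_add_two_iff (l : ℤ) : Even (l + 2) ↔ Even l := by
  constructor
  · rintro ⟨a, ha⟩; exact ⟨a - 1, by omega⟩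
  · rintro ⟨a, ha⟩; exact ⟨a + 1, by omega⟩

theorem tile_eps (m Λ q l : ℤ) : (tile m Λ q l).ε * (tile m Λ q l).ε = 1 := by
  by_cases h : Even l
  · rw [tile_even h]; norm_num
  · rw [tile_odd h]; norm_num

/-- weight of the first vertex -/
noncomputable def wf (m l : ℤ) (w : ℤ × ℤ) : ℤ :=
  if Even l then w.2 - m * w.1 else 2 * m - 2 * w.2 + m * w.1
/-- weight of the last vertex -/
noncomputable def wl (m l : ℤ) (w : ℤ × ℤ) : ℤ :=
  if Even l then 2 * m - 2 * w.2 + m * w.1 else w.2 - m * w.1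

theorem wf_even {m l : ℤ} {w : ℤ × ℤ} (h : Even l) : wf m l w = w.2 - m * w.1 := if_pos h
theorem wf_odd {m l : ℤ} {w : ℤ × ℤ} (h : ¬ Even l) : wf m l w = 2 * m - 2 * w.2 + m * w.1 :=
  if_neg h
theorem wl_even {m l : ℤ} {w : ℤ × ℤ} (h : Even l) : wl m l w = 2 * m - 2 * w.2 + m * w.1 :=
  if_pos h
theorem wl_odd {m l : ℤ} {w : ℤ × ℤ} (h : ¬ Even l) : wl m l w = w.2 - m * w.1 := if_neg h

theorem wsum (m l : ℤ) (w : ℤ × ℤ) : wf m l w + w.2 + wl m l w = 2 * m := by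
  by_cases h : Even l
  · rw [wf_even h, wl_even h]; ring
  · rw [wf_odd h, wl_odd h]; ring

theorem bary (m Λ q l : ℤ) (w : ℤ × ℤ) :
    (2 * m * ((tile m Λ q l).exp w).1 = wf m l w * (vx m Λ q l).1 + w.2 * (vx m Λ q (l + 1)).1 +
      wl m l w * (vx m Λ q (l + 2)).1) ∧
    (2 * m * ((tile m Λ q l).exp w).2.1 = wf m l w * (vx m Λ q l).2.1 +
      w.2 * (vx m Λ q (l + 1)).2.1 + wl m l w * (vx m Λ q (l + 2)).2.1) ∧
    (2 * m * ((tile m Λ q l).exp w).2.2 = wf m l w * (vx m Λ q l).2.2 +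
      w.2 * (vx m Λ q (l + 1)).2.2 + wl m l w * (vx m Λ q (l + 2)).2.2) := by
  by_cases h : Even l
  · have h1 : ¬ Even (l + 1) := by rw [even_succ_iff]; exact not_not.2 h
    have h2 : Even (l + 2) := (even_add_two_iff l).2 h
    rw [tile_even h, vx_even h, vx_odd h1, vx_even h2, wf_even h, wl_even h]
    simp only [TD.exp]
    refine ⟨by ring, by ring, by ring⟩
  · have h1 : Even (l + 1) := (even_succ_iff l).2 h
    have h2 : ¬ Even (l + 2) := fun h' => h ((even_add_two_iff l).1 h')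
    rw [tile_odd h, vx_odd h, vx_even h1, vx_odd h2, wf_odd h, wl_odd h]
    simp only [TD.exp]
    refine ⟨by ring, by ring, by ring⟩

theorem rel_vx (m Λ q k l : ℤ) : (tile m Λ q k).rel (vx m Λ q l) =
    if Even (l - k) then m * ((l - k) * (l - k - 2)) else m * (l - k - 1) ^ 2 := by
  by_cases hk : Even k
  · by_cases hl : Even l
    · have h : Even (l - k) := hl.sub hk
      rw [if_pos h, tile_even hk, vx_even hl]
      simp only [TD.rel]
      ring
    · have h : ¬ Even (l - k) := fun h => hl (by have := h.add hk; simpa using this)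
      rw [if_neg h, tile_even hk, vx_odd hl]
      simp only [TD.rel]
      ring
  · by_cases hl : Even l
    · have h : ¬ Even (l - k) := fun h => hk (by have := hl.sub h; simpa using this)
      rw [if_neg h, tile_odd hk, vx_even hl]
      simp only [TD.rel]
      ring
    · have h : Even (l - k) := by
        rw [Int.not_even_iff_odd] at hk hl
        exact hl.sub_odd hk
      rw [if_pos h, tile_odd hk, vx_odd hl]
      simp only [TD.rel]
      ring

theorem rel_vx_nonneg {m : ℤ} (hm : 0 < m) (Λ q k l : ℤ) :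
    0 ≤ (tile m Λ q k).rel (vx m Λ q l) := by
  rw [rel_vx]
  split_ifs with h
  · obtain ⟨a, ha⟩ := h
    have : (l - k) * (l - k - 2) = 4 * (a * (a - 1)) := by rw [ha]; ring
    rw [this]
    have h2 : 0 ≤ a * (a - 1) := by
      rcases le_or_gt a 0 with h | h
      · exact mul_nonneg_of_nonpos_of_nonpos h (by omega)
      · exact mul_nonneg h.le (by omega)
    positivity
  · positivity

theorem rel_vx_pos {m : ℤ} (hm : 0 < m) (Λ q k l : ℤ) (h : l < k ∨ k + 2 < l) :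
    0 < (tile m Λ q k).rel (vx m Λ q l) := by
  rw [rel_vx]
  split_ifs with h'
  · refine mul_pos hm ?_
    rcases h with h | h
    · exact mul_pos_of_neg_of_neg (by omega) (by omega)
    · exact mul_pos (by omega) (by omega)
  · refine mul_pos hm ?_
    have : l - k - 1 ≠ 0 := by omega
    positivity

theorem rel_bary (m Λ q k l : ℤ) (w : ℤ × ℤ) :
    2 * m * (tile m Λ q k).rel ((tile m Λ q l).exp w) =
      wf m l w * (tile m Λ q k).rel (vx m Λ q l) + w.2 * (tile m Λ q k).rel (vx m Λ q (l + 1)) +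
        wl m l w * (tile m Λ q k).rel (vx m Λ q (l + 2)) := by
  obtain ⟨h1, h2, h3⟩ := bary m Λ q l w
  have h4 := wsum m l w
  simp only [TD.rel]
  linear_combination h1 + (tile m Λ q k).ξ * h2 + (tile m Λ q k).η * h3 +
    ((tile m Λ q k).G + (tile m Λ q k).ξ * (tile m Λ q k).p +
      (tile m Λ q k).η * (tile m Λ q k).b) * h4

theorem mem_Dm {m : ℤ} {w : ℤ × ℤ} (h : w ∈ Dm m) :
    0 ≤ w.2 ∧ w.2 ≤ 2 * m ∧ m * w.1 ≤ w.2 ∧ 2 * w.2 ≤ 2 * m + m * w.1 ∧ -2 ≤ w.1 ∧ w.1 ≤ 2 := by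
  simp only [Dm, Finset.mem_filter, Finset.mem_product, Finset.mem_Icc] at h
  tauto

theorem Dint_sub_Dm (m : ℤ) : Dint m ⊆ Dm m := by
  intro w h
  simp only [Dint, Dm, Finset.mem_filter, Finset.mem_product, Finset.mem_Icc] at h ⊢
  refine ⟨h.1, h.2.2.1.le, h.2.2.2.le⟩

theorem wf_nonneg {m : ℤ} {w : ℤ × ℤ} (h : w ∈ Dm m) (l : ℤ) : 0 ≤ wf m l w := by
  obtain ⟨h1, h2, h3, h4, _⟩ := mem_Dm h
  unfold wf
  split_ifs <;> linarith

theorem wl_nonneg {m : ℤ} {w : ℤ × ℤ} (h : w ∈ Dm m) (l : ℤ) : 0 ≤ wl m l w := by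
  obtain ⟨h1, h2, h3, h4, _⟩ := mem_Dm h
  unfold wl
  split_ifs <;> linarith

theorem wf_pos_int {m : ℤ} {w : ℤ × ℤ} (h : w ∈ Dint m) (l : ℤ) : 0 < wf m l w := by
  simp only [Dint, Finset.mem_filter, Finset.mem_product, Finset.mem_Icc] at h
  unfold wf
  split_ifs <;> linarith [h.2.1, h.2.2.1, h.2.2.2]

theorem wl_pos_int {m : ℤ} {w : ℤ × ℤ} (h : w ∈ Dint m) (l : ℤ) : 0 < wl m l w := by
  simp only [Dint, Finset.mem_filter, Finset.mem_product, Finset.mem_Icc] at h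
  unfold wl
  split_ifs <;> linarith [h.2.1, h.2.2.1, h.2.2.2]

theorem rel_before {m : ℤ} (hm : 0 < m) (Λ q k l : ℤ) {w : ℤ × ℤ} (hw : w ∈ Dm m)
    (hlk : l < k) (hpos : 0 < wf m l w) : 1 ≤ (tile m Λ q k).rel ((tile m Λ q l).exp w) := by
  have h1 := rel_bary m Λ q k l w
  have h2 := rel_vx_pos hm Λ q k l (Or.inl hlk)
  have h3 := rel_vx_nonneg hm Λ q k (l + 1)
  have h4 := rel_vx_nonneg hm Λ q k (l + 2)
  have h5 := (mem_Dm hw).1
  have h6 := wl_nonneg hw l
  have h7 : 0 < 2 * m * (tile m Λ q k).rel ((tile m Λ q l).exp w) := by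
    rw [h1]
    have := mul_pos hpos h2
    have := mul_nonneg h5 h3
    have := mul_nonneg h6 h4
    linarith
  have h8 := (mul_pos_iff_of_pos_left (by positivity : (0:ℤ) < 2 * m)).1 h7
  omega

theorem rel_after {m : ℤ} (hm : 0 < m) (Λ q k l : ℤ) {w : ℤ × ℤ} (hw : w ∈ Dm m)
    (hlk : k < l) (hpos : 0 < wl m l w) : 1 ≤ (tile m Λ q k).rel ((tile m Λ q l).exp w) := by
  have h1 := rel_bary m Λ q k l w
  have h2 := rel_vx_pos hm Λ q k (l + 2) (Or.inr (by omega))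
  have h3 := rel_vx_nonneg hm Λ q k (l + 1)
  have h4 := rel_vx_nonneg hm Λ q k l
  have h5 := (mem_Dm hw).1
  have h6 := wf_nonneg hw l
  have h7 : 0 < 2 * m * (tile m Λ q k).rel ((tile m Λ q l).exp w) := by
    rw [h1]
    have := mul_pos hpos h2
    have := mul_nonneg h5 h3
    have := mul_nonneg h6 h4
    linarith
  have h8 := (mul_pos_iff_of_pos_left (by positivity : (0:ℤ) < 2 * m)).1 h7
  omega

/-- the dependence of the relative exponents on `Λ` -/
theorem rel_rows (m Λ q k q' l : ℤ) (w : ℤ × ℤ) :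
    (tile m Λ q k).rel ((tile m Λ q' l).exp w) =
      (tile m 0 q k).rel ((tile m 0 q' l).exp w) +
        Λ * ((q' - q) * (((tile m 0 q' l).exp w).2.2 - (m + 1) * (q + q' + 1) + 1)) := by
  by_cases hk : Even k
  · by_cases hl : Even l
    · rw [tile_even hk, tile_even hk, tile_even hl, tile_even hl]
      simp only [TD.rel, TD.exp, tht, off]
      ring
    · rw [tile_even hk, tile_even hk, tile_odd hl, tile_odd hl]
      simp only [TD.rel, TD.exp, tht, off]
      ring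
  · by_cases hl : Even l
    · rw [tile_odd hk, tile_odd hk, tile_even hl, tile_even hl]
      simp only [TD.rel, TD.exp, tht, off]
      ring
    · rw [tile_odd hk, tile_odd hk, tile_odd hl, tile_odd hl]
      simp only [TD.rel, TD.exp, tht, off]
      ring

/-- positions of the monomials of a tile -/
theorem exp_pos {m : ℤ} (Λ q l : ℤ) {w : ℤ × ℤ} (hw : w ∈ Dm m) :
    l ≤ ((tile m Λ q l).exp w).2.1 ∧ ((tile m Λ q l).exp w).2.1 ≤ l + 5 ∧
    off m q ≤ ((tile m Λ q l).exp w).2.2 ∧ ((tile m Λ q l).exp w).2.2 ≤ off m q + 2 * m := by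
  obtain ⟨h1, h2, h3, h4, h5, h6⟩ := mem_Dm hw
  by_cases hl : Even l
  · rw [tile_even hl]
    simp only [TD.exp]
    refine ⟨?_, ?_, ?_, ?_⟩ <;> linarith
  · rw [tile_odd hl]
    simp only [TD.exp]
    refine ⟨?_, ?_, ?_, ?_⟩ <;> linarith

theorem rows_gap {m : ℤ} (hm : 0 < m) {q q' : ℤ} (hq : q ≠ q') (l : ℤ) {w : ℤ × ℤ}
    (hw : w ∈ Dm m) :
    1 ≤ (q' - q) * (((tile m 0 q' l).exp w).2.2 - (m + 1) * (q + q' + 1) + 1) := by
  obtain ⟨_, _, h1, h2⟩ := exp_pos 0 q' l hw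
  simp only [off] at h1 h2
  rcases lt_or_gt_of_ne hq with h | h
  · have h3 : 1 ≤ q' - q := by omega
    have h4 : 0 ≤ (m + 1) * (q' - q - 1) := mul_nonneg (by omega) (by omega)
    have h5 : 1 ≤ ((tile m 0 q' l).exp w).2.2 - (m + 1) * (q + q' + 1) + 1 := by nlinarith
    nlinarith
  · have h3 : 1 ≤ q - q' := by omega
    have h4 : 0 ≤ (m + 1) * (q - q' - 1) := mul_nonneg (by omega) (by omega)
    have h5 : ((tile m 0 q' l).exp w).2.2 - (m + 1) * (q + q' + 1) + 1 ≤ -1 := by nlinarith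
    nlinarith

/-- logarithm of a weighted monomial -/
noncomputable def lnm (e : ℤ × ℤ × ℤ) (s : ℝ) (z : ℝ × ℝ) : ℝ :=
  e.1 * Real.log s + e.2.1 * Real.log |z.1| + e.2.2 * Real.log |z.2|

theorem exp_zpow_log {x : ℝ} (hx : 0 < x) (n : ℤ) : Real.exp (n * Real.log x) = x ^ n := by
  rw [mul_comm, Real.exp_mul, Real.exp_log hx, Real.rpow_intCast]

theorem abs_mono3 (e : ℤ × ℤ × ℤ) {s : ℝ} (hs : 0 < s) {z : ℝ × ℝ} (hz : z ∈ Tor) :
    |mono3 e s z| = Real.exp (lnm e s z) := by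
  simp only [mono3, mon, lnm]
  rw [Real.exp_add, Real.exp_add, exp_zpow_log hs, exp_zpow_log (abs_pos.2 hz.1),
    exp_zpow_log (abs_pos.2 hz.2), abs_mul, abs_mul, abs_zpow, abs_zpow, abs_zpow,
    abs_of_pos hs, mul_assoc]

theorem mono3_vx_pos (m Λ q l : ℤ) {s : ℝ} (hs : 0 < s) {z : ℝ × ℝ} (hz : z ∈ Tor) :
    0 < mono3 (vx m Λ q l) s z := by
  have ho : Even (off m q) := ⟨(m + 1) * q, by simp only [off]; ring⟩
  have ho2 : Even (2 * m + off m q) := by
    refine Even.add ⟨m, by ring⟩ ho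
  by_cases hl : Even l
  · rw [vx_even hl]
    simp only [mono3, mon]
    have h1 : 0 < z.1 ^ l := hl.zpow_pos hz.1
    have h2 : 0 < z.2 ^ (off m q) := ho.zpow_pos hz.2
    positivity
  · rw [vx_odd hl]
    have hl3 : Even (l + 3) := by
      rw [Int.not_even_iff_odd] at hl
      exact hl.add_odd (by decide)
    simp only [mono3, mon]
    have h1 : 0 < z.1 ^ (l + 3) := hl3.zpow_pos hz.1
    have h2 : 0 < z.2 ^ (2 * m + off m q) := ho2.zpow_pos hz.2
    positivity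

theorem mono3_vx (m Λ q l : ℤ) {s : ℝ} (hs : 0 < s) {z : ℝ × ℝ} (hz : z ∈ Tor) :
    mono3 (vx m Λ q l) s z = Real.exp (lnm (vx m Λ q l) s z) := by
  rw [← abs_mono3 _ hs hz, abs_of_pos (mono3_vx_pos m Λ q l hs hz)]

theorem lnm_rec (m Λ q l : ℤ) (s : ℝ) (z : ℝ × ℝ) :
    lnm (vx m Λ q l) s z + lnm (vx m Λ q (l + 3)) s z =
      lnm (vx m Λ q (l + 1)) s z + lnm (vx m Λ q (l + 2)) s z + 4 * m * Real.log s := by
  have e3 : l + 3 = (l + 2) + 1 := by ring
  by_cases h : Even l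
  · have h1 : ¬ Even (l + 1) := by rw [even_succ_iff]; exact not_not.2 h
    have h2 : Even (l + 2) := (even_add_two_iff l).2 h
    have h3 : ¬ Even (l + 3) := by rw [e3, even_succ_iff]; exact not_not.2 h2
    rw [vx_even h, vx_odd h1, vx_even h2, vx_odd h3]
    simp only [lnm]
    push_cast
    ring
  · have h1 : Even (l + 1) := (even_succ_iff l).2 h
    have h2 : ¬ Even (l + 2) := fun h' => h ((even_add_two_iff l).1 h')
    have h3 : Even (l + 3) := by rw [e3, even_succ_iff]; exact h2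
    rw [vx_odd h, vx_even h1, vx_odd h2, vx_even h3]
    simp only [lnm]
    push_cast
    ring

theorem lnm_bary (m Λ q l : ℤ) (w : ℤ × ℤ) (s : ℝ) (z : ℝ × ℝ) :
    2 * m * lnm ((tile m Λ q l).exp w) s z =
      wf m l w * lnm (vx m Λ q l) s z + w.2 * lnm (vx m Λ q (l + 1)) s z +
        wl m l w * lnm (vx m Λ q (l + 2)) s z := by
  obtain ⟨h1, h2, h3⟩ := bary m Λ q l w
  have h1' : (2 * m * ((tile m Λ q l).exp w).1 : ℝ) = wf m l w * (vx m Λ q l).1 +
    w.2 * (vx m Λ q (l + 1)).1 + wl m l w * (vx m Λ q (l + 2)).1 := by exact_mod_cast h1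
  have h2' : (2 * m * ((tile m Λ q l).exp w).2.1 : ℝ) = wf m l w * (vx m Λ q l).2.1 +
    w.2 * (vx m Λ q (l + 1)).2.1 + wl m l w * (vx m Λ q (l + 2)).2.1 := by exact_mod_cast h2
  have h3' : (2 * m * ((tile m Λ q l).exp w).2.2 : ℝ) = wf m l w * (vx m Λ q l).2.2 +
    w.2 * (vx m Λ q (l + 1)).2.2 + wl m l w * (vx m Λ q (l + 2)).2.2 := by exact_mod_cast h3
  simp only [lnm]
  linear_combination Real.log s * h1' + Real.log |z.1| * h2' + Real.log |z.2| * h3'

/-- the chain lemma -/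
theorem chain (u : ℕ → ℝ) (τ : ℝ) (hτ : 0 < τ) (K : ℕ) (hK : 1 ≤ K)
    (hu : ∀ l, u l + u (l + 3) = u (l + 1) + u (l + 2) - τ) :
    ∃ k < K, ∃ M, (M = u k ∨ M = u (k + 1) ∨ M = u (k + 2)) ∧
      u k ≤ M ∧ u (k + 1) ≤ M ∧ u (k + 2) ≤ M ∧
      (∀ l < k, u l ≤ M - τ / 2) ∧ (∀ l, k + 2 < l → l ≤ K + 1 → u l ≤ M - τ / 2) := by
  -- choice of k
  obtain ⟨k, hkK, hbefore, hafter⟩ : ∃ k < K, (∀ l < k, τ / 2 ≤ u (l + 2) - u l) ∧
      (∀ l, k < l → l < K → u (l + 2) - u l ≤ -(τ / 2)) := by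
    by_cases hex : ∃ k, k < K ∧ u (k + 2) - u k ≤ τ / 2
    · classical
      let k := Nat.find hex
      obtain ⟨hk1, hk2⟩ := Nat.find_spec hex
      refine ⟨k, hk1, fun l hl => ?_, fun l hl hlK => ?_⟩
      · have := Nat.find_min hex hl
        push Not at this
        exact (this (lt_trans hl hk1)).le
      · -- d decreases by τ at each step
        have hstep : ∀ j, u (k + j + 2) - u (k + j) = u (k + 2) - u k - j * τ := by
          intro j
          induction j with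
          | zero => simp
          | succ j ih =>
            have := hu (k + j)
            have e1 : k + (j + 1) + 2 = k + j + 3 := by ring
            have e2 : k + (j + 1) = k + j + 1 := by ring
            rw [e1, e2]
            push_cast
            linarith
        obtain ⟨j, rfl⟩ := Nat.exists_eq_add_of_lt hl
        have h1 := hstep (j + 1)
        have e1 : k + (j + 1) = k + j + 1 := by ring
        rw [e1] at h1
        rw [h1]
        push_cast
        have : 0 ≤ (j : ℝ) * τ := by positivity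
        linarith
    · push Not at hex
      refine ⟨K - 1, by omega, fun l hl => (hex l (by omega)).le, fun l hl hlK => by omega⟩
  obtain ⟨M, hM, h0, h1, h2⟩ : ∃ M, (M = u k ∨ M = u (k + 1) ∨ M = u (k + 2)) ∧
      u k ≤ M ∧ u (k + 1) ≤ M ∧ u (k + 2) ≤ M := by
    rcases le_total (u k) (u (k + 1)) with h | h
    · rcases le_total (u (k + 1)) (u (k + 2)) with h' | h'
      · exact ⟨_, Or.inr (Or.inr rfl), h.trans h', h', le_rfl⟩
      · exact ⟨_, Or.inr (Or.inl rfl), h, le_rfl, h'⟩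
    · rcases le_total (u k) (u (k + 2)) with h' | h'
      · exact ⟨_, Or.inr (Or.inr rfl), h', h.trans h', le_rfl⟩
      · exact ⟨_, Or.inl rfl, le_rfl, h, h'⟩
  refine ⟨k, hkK, M, hM, h0, h1, h2, ?_, ?_⟩
  · -- downward
    have key : ∀ j l, l + j + 1 = k → u l ≤ M - τ / 2 := by
      intro j
      induction j using Nat.strong_induction_on with
      | _ j ih =>
        intro l hl
        have hb := hbefore l (by omega)
        have h3 : u (l + 2) ≤ M := by
          rcases j with _ | _ | j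
          · have : l + 2 = k + 1 := by omega
            rw [this]; exact h1
          · have : l + 2 = k := by omega
            rw [this]; exact h0
          · have := ih j (by omega) (l + 2) (by omega)
            linarith
        linarith
    intro l hl
    exact key (k - l - 1) l (by omega)
  · have key : ∀ j l, l = k + 3 + j → l ≤ K + 1 → u l ≤ M - τ / 2 := by
      intro j
      induction j using Nat.strong_induction_on with
      | _ j ih =>
        intro l hl hlK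
        obtain ⟨l', rfl⟩ : ∃ l', l = l' + 2 := ⟨l - 2, by omega⟩
        have hb := hafter l' (by omega) (by omega)
        have h3 : u l' ≤ M := by
          rcases j with _ | _ | j
          · have : l' = k + 1 := by omega
            rw [this]; exact h1
          · have : l' = k + 2 := by omega
            rw [this]; exact h2
          · have := ih j (by omega) l' (by omega) (by omega)
            linarith
        linarith
    intro l hl hlK
    exact key (l - k - 3) l (by omega) hlK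

end Pool.Agent.MP9d
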