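import Pool.Agent.Work.MP_9d788c_ag.Row

/-!
Rows of tiles: the row polynomial, its charts and its lower bound.
-/

namespace Pool.Agent.MP9d

open Set Filter Topology

section

variable (m Λ q : ℤ) (a : ℤ × ℤ → ℝ)

/-- full tile -/
noncomputable def Fful (l : ℕ) (s : ℝ) (z : ℝ × ℝ) : ℝ :=
  ∑ w ∈ Dm m, a w * mono3 ((tile m Λ q l).exp w) s z

/-- edge shared with the next tile -/
noncomputable def Sed (l : ℕ) (s : ℝ) (z : ℝ × ℝ) : ℝ :=
  ∑ w ∈ (Dm m).filter (fun w => wf m l w = 0), a w * mono3 ((tile m Λ q l).exp w) s z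

/-- edge shared with the previous tile -/
noncomputable def Sed' (l : ℕ) (s : ℝ) (z : ℝ × ℝ) : ℝ :=
  ∑ w ∈ (Dm m).filter (fun w => wl m l w = 0), a w * mono3 ((tile m Λ q l).exp w) s z

/-- the row polynomial -/
noncomputable def RowP (K : ℕ) (s : ℝ) (z : ℝ × ℝ) : ℝ :=
  ∑ l ∈ Finset.range K, Fful m Λ q a l s z - ∑ l ∈ Finset.range (K - 1), Sed m Λ q a l s z

end

theorem filter_alpha {m : ℤ} (hm : 0 < m) :
    (Dm m).filter (fun w => w.2 - m * w.1 = 0) = {(0, 0), (1, m), (2, 2 * m)} := by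
  ext ⟨x, y⟩
  simp only [Dm, Finset.mem_filter, Finset.mem_product, Finset.mem_Icc, Finset.mem_insert,
    Finset.mem_singleton, Prod.mk.injEq]
  constructor
  · rintro ⟨⟨⟨⟨h1, h2⟩, h3, h4⟩, h5, h6⟩, h7⟩
    have hy : y = m * x := by linarith
    have hx : 0 ≤ x := by
      by_contra hcon
      push Not at hcon
      have : m * x < 0 := mul_neg_of_pos_of_neg hm hcon
      linarith
    interval_cases x
    · left; constructor <;> linarith
    · right; left; constructor <;> linarith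
    · right; right; constructor <;> linarith
  · rintro (⟨rfl, rfl⟩ | ⟨rfl, rfl⟩ | ⟨rfl, rfl⟩)
    · refine ⟨⟨⟨⟨by norm_num, by norm_num⟩, by norm_num, by linarith⟩, by linarith, by linarith⟩,
        by ring⟩
    · refine ⟨⟨⟨⟨by norm_num, by norm_num⟩, by linarith, by linarith⟩, by linarith, by linarith⟩,
        by ring⟩
    · refine ⟨⟨⟨⟨by norm_num, by norm_num⟩, by linarith, by linarith⟩, by linarith, by linarith⟩,
        by ring⟩

theorem filter_beta {m : ℤ} (hm : 0 < m) (hodd : Odd m) :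
    (Dm m).filter (fun w => 2 * m - 2 * w.2 + m * w.1 = 0) = {(-2, 0), (0, m), (2, 2 * m)} := by
  ext ⟨x, y⟩
  simp only [Dm, Finset.mem_filter, Finset.mem_product, Finset.mem_Icc, Finset.mem_insert,
    Finset.mem_singleton, Prod.mk.injEq]
  constructor
  · rintro ⟨⟨⟨⟨h1, h2⟩, h3, h4⟩, h5, h6⟩, h7⟩
    obtain ⟨c, hc⟩ := hodd
    have hx : x = -2 ∨ x = -1 ∨ x = 0 ∨ x = 1 ∨ x = 2 := by omega
    rcases hx with rfl | rfl | rfl | rfl | rfl
    · left; constructor <;> linarith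
    · omega
    · right; left; constructor <;> linarith
    · omega
    · right; right; constructor <;> linarith
  · rintro (⟨rfl, rfl⟩ | ⟨rfl, rfl⟩ | ⟨rfl, rfl⟩)
    · refine ⟨⟨⟨⟨by norm_num, by norm_num⟩, by norm_num, by linarith⟩, by linarith, by linarith⟩,
        by ring⟩
    · refine ⟨⟨⟨⟨by norm_num, by norm_num⟩, by linarith, by linarith⟩, by linarith, by linarith⟩,
        by ring⟩
    · refine ⟨⟨⟨⟨by norm_num, by norm_num⟩, by linarith, by linarith⟩, by linarith, by linarith⟩,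
        by ring⟩

theorem exp_match_even (m Λ q : ℤ) {l : ℤ} (hl : Even l) :
    (tile m Λ q l).exp (0, 0) = (tile m Λ q (l + 1)).exp (2, 2 * m) ∧
    (tile m Λ q l).exp (1, m) = (tile m Λ q (l + 1)).exp (1, m) ∧
    (tile m Λ q l).exp (2, 2 * m) = (tile m Λ q (l + 1)).exp (0, 0) := by
  have h1 : ¬ Even (l + 1) := by rw [even_succ_iff]; exact not_not.2 hl
  rw [tile_even hl, tile_odd h1]
  simp only [TD.exp]
  refine ⟨?_, ?_, ?_⟩ <;> (ext <;> simp only <;> ring)

theorem exp_match_odd (m Λ q : ℤ) {l : ℤ} (hl : ¬ Even l) :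
    (tile m Λ q l).exp (-2, 0) = (tile m Λ q (l + 1)).exp (2, 2 * m) ∧
    (tile m Λ q l).exp (0, m) = (tile m Λ q (l + 1)).exp (0, m) ∧
    (tile m Λ q l).exp (2, 2 * m) = (tile m Λ q (l + 1)).exp (-2, 0) := by
  have h1 : Even (l + 1) := by rw [even_succ_iff]; exact hl
  rw [tile_odd hl, tile_even h1]
  simp only [TD.exp]
  refine ⟨?_, ?_, ?_⟩ <;> (ext <;> simp only <;> ring)

theorem sed_match {m : ℤ} (hm : 0 < m) (hodd : Odd m) (Λ q : ℤ) {a : ℤ × ℤ → ℝ}
    (h1 : a (-2, 0) = 1) (h2 : a (0, 0) = 1) (h3 : a (2, 2 * m) = 1) (l : ℕ) (s : ℝ) (z : ℝ × ℝ) :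
    Sed m Λ q a l s z = Sed' m Λ q a (l + 1) s z := by
  have hm2 : (2 : ℤ) * m ≠ 0 := by omega
  simp only [Sed, Sed']
  push_cast
  by_cases hl : Even (l : ℤ)
  · have hl1 : ¬ Even ((l : ℤ) + 1) := by rw [even_succ_iff]; exact not_not.2 hl
    have e1 : (Dm m).filter (fun w => wf m l w = 0) = {(0, 0), (1, m), (2, 2 * m)} := by
      rw [← filter_alpha hm]
      exact Finset.filter_congr fun w _ => by rw [wf_even hl]
    have e2 : (Dm m).filter (fun w => wl m (l + 1) w = 0) = {(0, 0), (1, m), (2, 2 * m)} := by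
      rw [← filter_alpha hm]
      exact Finset.filter_congr fun w _ => by rw [wl_odd hl1]
    obtain ⟨m1, m2, m3⟩ := exp_match_even m Λ q hl
    rw [e1, e2, Finset.sum_insert (by simp), Finset.sum_insert (by simp), Finset.sum_singleton,
      Finset.sum_insert (by simp), Finset.sum_insert (by simp), Finset.sum_singleton,
      m1, m2, m3, h2, h3]
    ring
  · have hl1 : Even ((l : ℤ) + 1) := by rw [even_succ_iff]; exact hl
    have e1 : (Dm m).filter (fun w => wf m l w = 0) = {(-2, 0), (0, m), (2, 2 * m)} := by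
      rw [← filter_beta hm hodd]
      exact Finset.filter_congr fun w _ => by rw [wf_odd hl]
    have e2 : (Dm m).filter (fun w => wl m (l + 1) w = 0) = {(-2, 0), (0, m), (2, 2 * m)} := by
      rw [← filter_beta hm hodd]
      exact Finset.filter_congr fun w _ => by rw [wl_even hl1]
    obtain ⟨m1, m2, m3⟩ := exp_match_odd m Λ q hl
    rw [e1, e2, Finset.sum_insert (by simp), Finset.sum_insert (by simp), Finset.sum_singleton,
      Finset.sum_insert (by simp), Finset.sum_insert (by simp), Finset.sum_singleton,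
      m1, m2, m3, h1, h3]
    ring

theorem ful_sub_sed (m Λ q : ℤ) (a : ℤ × ℤ → ℝ) (l : ℕ) (s : ℝ) (z : ℝ × ℝ) :
    Fful m Λ q a l s z - Sed m Λ q a l s z =
      ∑ w ∈ (Dm m).filter (fun w => ¬ wf m l w = 0), a w * mono3 ((tile m Λ q l).exp w) s z := by
  simp only [Fful, Sed]
  rw [← Finset.sum_filter_add_sum_filter_not (Dm m) (fun w => wf m l w = 0)]
  ring

theorem ful_sub_sed' (m Λ q : ℤ) (a : ℤ × ℤ → ℝ) (l : ℕ) (s : ℝ) (z : ℝ × ℝ) :
    Fful m Λ q a l s z - Sed' m Λ q a l s z =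
      ∑ w ∈ (Dm m).filter (fun w => ¬ wl m l w = 0), a w * mono3 ((tile m Λ q l).exp w) s z := by
  simp only [Fful, Sed']
  rw [← Finset.sum_filter_add_sum_filter_not (Dm m) (fun w => wl m l w = 0)]
  ring

theorem row_decomp {m : ℤ} (hm : 0 < m) (hodd : Odd m) (Λ q : ℤ) {a : ℤ × ℤ → ℝ}
    (h1 : a (-2, 0) = 1) (h2 : a (0, 0) = 1) (h3 : a (2, 2 * m) = 1) {K k : ℕ} (hk : k < K)
    (s : ℝ) (z : ℝ × ℝ) :
    RowP m Λ q a K s z = Fful m Λ q a k s z +
      (∑ l ∈ Finset.range k, (Fful m Λ q a l s z - Sed m Λ q a l s z) +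
      ∑ l ∈ Finset.Ico (k + 1) K, (Fful m Λ q a l s z - Sed' m Λ q a l s z)) := by
  have e1 : ∑ l ∈ Finset.range K, Fful m Λ q a l s z = ∑ l ∈ Finset.range k, Fful m Λ q a l s z +
      Fful m Λ q a k s z + ∑ l ∈ Finset.Ico (k + 1) K, Fful m Λ q a l s z := by
    rw [← Finset.sum_range_succ, Finset.sum_range_add_sum_Ico _ (by omega)]
  have e2 : ∑ l ∈ Finset.range (K - 1), Sed m Λ q a l s z =
      ∑ l ∈ Finset.range k, Sed m Λ q a l s z + ∑ l ∈ Finset.Ico k (K - 1), Sed m Λ q a l s z := by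
    rw [Finset.sum_range_add_sum_Ico _ (by omega)]
  have e3 : ∑ l ∈ Finset.Ico k (K - 1), Sed m Λ q a l s z =
      ∑ l ∈ Finset.Ico (k + 1) K, Sed' m Λ q a l s z := by
    have : K = K - 1 + 1 := by omega
    conv_rhs => rw [this]
    rw [← Finset.sum_Ico_add' (fun l => Sed' m Λ q a l s z) k (K - 1) 1]
    exact Finset.sum_congr rfl fun l _ => sed_match hm hodd Λ q h1 h2 h3 l s z
  simp only [RowP, Finset.sum_sub_distrib]
  rw [e1, e2, e3]
  ring

theorem row_negl {m : ℤ} (hm : 0 < m) (hodd : Odd m) (Λ q : ℤ) {a : ℤ × ℤ → ℝ}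
    (h1 : a (-2, 0) = 1) (h2 : a (0, 0) = 1) (h3 : a (2, 2 * m) = 1) {K k : ℕ} (hk : k < K) :
    Negl (tile m Λ q k) (fun s z => RowP m Λ q a K s z - Fful m Λ q a k s z) := by
  have e : (fun (s : ℝ) (z : ℝ × ℝ) => RowP m Λ q a K s z - Fful m Λ q a k s z) = fun s z =>
      (∑ l ∈ Finset.range k, ∑ w ∈ (Dm m).filter (fun w => ¬ wf m l w = 0),
        a w * mono3 ((tile m Λ q l).exp w) s z) +
      ∑ l ∈ Finset.Ico (k + 1) K, ∑ w ∈ (Dm m).filter (fun w => ¬ wl m l w = 0),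
        a w * mono3 ((tile m Λ q l).exp w) s z := by
    funext s z
    rw [row_decomp hm hodd Λ q h1 h2 h3 hk]
    simp only [ful_sub_sed, ful_sub_sed']
    ring
  rw [e]
  refine Negl.add ?_ ?_
  · refine Negl.sum _ _ fun l hl => Negl.sum _ _ fun w hw => Negl.const_mul ?_ _
    rw [Finset.mem_range] at hl
    rw [Finset.mem_filter] at hw
    refine Negl.mono3 _ _ (rel_before hm Λ q k l hw.1 (by exact_mod_cast hl) ?_)
    exact lt_of_le_of_ne (wf_nonneg hw.1 l) (Ne.symm hw.2)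
  · refine Negl.sum _ _ fun l hl => Negl.sum _ _ fun w hw => Negl.const_mul ?_ _
    rw [Finset.mem_Ico] at hl
    rw [Finset.mem_filter] at hw
    refine Negl.mono3 _ _ (rel_after hm Λ q k l hw.1 (by exact_mod_cast hl.1) ?_)
    exact lt_of_le_of_ne (wl_nonneg hw.1 l) (Ne.symm hw.2)

/-- bound for the monomials of a row -/
theorem row_bound {m : ℤ} (hm : 0 < m) (Λ q : ℤ) {K : ℕ} (hK : 1 ≤ K)
    {s : ℝ} (hs0 : 0 < s) (hs1 : s < 1) {z : ℝ × ℝ} (hz : z ∈ Tor) :
    ∃ k < K, ∃ M, 0 < M ∧ M ≤ mono3 (vx m Λ q k) s z + mono3 (vx m Λ q (k + 1)) s z +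
        mono3 (vx m Λ q (k + 2)) s z ∧
      (∀ l < K, ∀ w ∈ Dm m, |mono3 ((tile m Λ q l).exp w) s z| ≤ M) ∧
      (∀ l < k, ∀ w ∈ Dm m, wf m l w ≠ 0 → |mono3 ((tile m Λ q l).exp w) s z| ≤ s * M) ∧
      (∀ l, k < l → l < K → ∀ w ∈ Dm m, wl m l w ≠ 0 →
        |mono3 ((tile m Λ q l).exp w) s z| ≤ s * M) := by
  have hlog : Real.log s < 0 := Real.log_neg hs0 hs1
  have hmR : (0 : ℝ) < m := by exact_mod_cast hm
  set τ : ℝ := -(4 * m * Real.log s) with hτ
  have hτ0 : 0 < τ := by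
    rw [hτ]
    have : 4 * (m : ℝ) * Real.log s < 0 := mul_neg_of_pos_of_neg (by positivity) hlog
    linarith
  obtain ⟨k, hkK, M, hM, hM0, hM1, hM2, hb, ha⟩ :=
    chain (fun l : ℕ => lnm (vx m Λ q l) s z) τ hτ0 K hK (fun l => by
      have := lnm_rec m Λ q l s z
      push_cast
      rw [hτ]
      linarith)
  have hall : ∀ l ≤ K + 1, lnm (vx m Λ q (l : ℕ)) s z ≤ M := by
    intro l hl
    rcases lt_trichotomy l k with h | h | h
    · have := hb l h
      linarith
    · rw [h]; exact hM0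
    · rcases Nat.lt_or_ge (k + 2) l with h' | h'
      · have := ha l h' hl
        linarith
      · have : l = k + 1 ∨ l = k + 2 := by omega
        rcases this with rfl | rfl
        · exact hM1
        · exact hM2
  have hcast1 : ∀ l : ℕ, ((l + 1 : ℕ) : ℤ) = (l : ℤ) + 1 := fun l => by push_cast; ring
  have hcast2 : ∀ l : ℕ, ((l + 2 : ℕ) : ℤ) = (l : ℤ) + 2 := fun l => by push_cast; ring
  refine ⟨k, hkK, Real.exp M, Real.exp_pos _, ?_, ?_, ?_, ?_⟩
  · have p0 := mono3_vx_pos m Λ q k hs0 hz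
    have p1 := mono3_vx_pos m Λ q (k + 1) hs0 hz
    have p2 := mono3_vx_pos m Λ q (k + 2) hs0 hz
    have e0 := mono3_vx m Λ q k hs0 hz
    have e1 := mono3_vx m Λ q (k + 1) hs0 hz
    have e2 := mono3_vx m Λ q (k + 2) hs0 hz
    rw [hcast1, hcast2] at hM
    rcases hM with h | h | h
    · rw [h, ← e0]; linarith
    · rw [h, ← e1]; linarith
    · rw [h, ← e2]; linarith
  · intro l hl w hw
    rw [abs_mono3 _ hs0 hz, Real.exp_le_exp]
    have h1 := lnm_bary m Λ q l w s z
    have h2 := hall l (by omega)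
    have h3 := hall (l + 1) (by omega)
    have h4 := hall (l + 2) (by omega)
    rw [hcast1] at h3
    rw [hcast2] at h4
    have w1 : (0 : ℝ) ≤ wf m l w := by exact_mod_cast wf_nonneg hw l
    have w2 : (0 : ℝ) ≤ w.2 := by exact_mod_cast (mem_Dm hw).1
    have w3 : (0 : ℝ) ≤ wl m l w := by exact_mod_cast wl_nonneg hw l
    have ws : (wf m l w : ℝ) + w.2 + wl m l w = 2 * m := by exact_mod_cast wsum m l w
    have i1 := mul_le_mul_of_nonneg_left h2 w1
    have i2 := mul_le_mul_of_nonneg_left h3 w2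
    have i3 := mul_le_mul_of_nonneg_left h4 w3
    have h5 : 2 * (m : ℝ) * lnm ((tile m Λ q l).exp w) s z ≤ 2 * m * M := by
      rw [h1, ← ws]; linarith
    exact le_of_mul_le_mul_left h5 (by positivity)
  · intro l hl w hw hw0
    rw [abs_mono3 _ hs0 hz]
    have hsM : s * Real.exp M = Real.exp (M + Real.log s) := by
      rw [Real.exp_add, Real.exp_log hs0]; ring
    rw [hsM, Real.exp_le_exp]
    have h1 := lnm_bary m Λ q l w s z
    have h2 := hb l hl
    have h3 := hall (l + 1) (by omega)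
    have h4 := hall (l + 2) (by omega)
    rw [hcast1] at h3
    rw [hcast2] at h4
    have hwf := wf_nonneg hw l
    have w1 : (1 : ℝ) ≤ wf m l w := by
      have : 1 ≤ wf m l w := by omega
      exact_mod_cast this
    have w2 : (0 : ℝ) ≤ w.2 := by exact_mod_cast (mem_Dm hw).1
    have w3 : (0 : ℝ) ≤ wl m l w := by exact_mod_cast wl_nonneg hw l
    have ws : (wf m l w : ℝ) + w.2 + wl m l w = 2 * m := by exact_mod_cast wsum m l w
    have i1 := mul_le_mul_of_nonneg_left h2 (by linarith : (0 : ℝ) ≤ wf m l w)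
    have i2 := mul_le_mul_of_nonneg_left h3 w2
    have i3 := mul_le_mul_of_nonneg_left h4 w3
    have i4 : τ / 2 ≤ wf m l w * (τ / 2) := by nlinarith
    have h5 : 2 * (m : ℝ) * lnm ((tile m Λ q l).exp w) s z ≤ 2 * m * (M + Real.log s) := by
      have e : 2 * (m : ℝ) * (M + Real.log s) = 2 * m * M - τ / 2 := by rw [hτ]; ring
      rw [e, h1, ← ws]; linarith
    exact le_of_mul_le_mul_left h5 (by positivity)
  · intro l hkl hl w hw hw0
    rw [abs_mono3 _ hs0 hz]
    have hsM : s * Real.exp M = Real.exp (M + Real.log s) := by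
      rw [Real.exp_add, Real.exp_log hs0]; ring
    rw [hsM, Real.exp_le_exp]
    have h1 := lnm_bary m Λ q l w s z
    have h2 := hall l (by omega)
    have h3 := hall (l + 1) (by omega)
    have h4 := ha (l + 2) (by omega) (by omega)
    rw [hcast1] at h3
    rw [hcast2] at h4
    have hwl := wl_nonneg hw l
    have w1 : (0 : ℝ) ≤ wf m l w := by exact_mod_cast wf_nonneg hw l
    have w2 : (0 : ℝ) ≤ w.2 := by exact_mod_cast (mem_Dm hw).1
    have w3 : (1 : ℝ) ≤ wl m l w := by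
      have : 1 ≤ wl m l w := by omega
      exact_mod_cast this
    have ws : (wf m l w : ℝ) + w.2 + wl m l w = 2 * m := by exact_mod_cast wsum m l w
    have i1 := mul_le_mul_of_nonneg_left h2 w1
    have i2 := mul_le_mul_of_nonneg_left h3 w2
    have i3 := mul_le_mul_of_nonneg_left h4 (by linarith : (0 : ℝ) ≤ wl m l w)
    have i4 : τ / 2 ≤ wl m l w * (τ / 2) := by nlinarith
    have h5 : 2 * (m : ℝ) * lnm ((tile m Λ q l).exp w) s z ≤ 2 * m * (M + Real.log s) := by
      have e : 2 * (m : ℝ) * (M + Real.log s) = 2 * m * M - τ / 2 := by rw [hτ]; ring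
      rw [e, h1, ← ws]; linarith
    exact le_of_mul_le_mul_left h5 (by positivity)

theorem vertex_exps (m Λ q l : ℤ) :
    ((tile m Λ q l).exp (-2, 0) = vx m Λ q l ∨ (tile m Λ q l).exp (-2, 0) = vx m Λ q (l + 2)) ∧
    ((tile m Λ q l).exp (0, 0) = vx m Λ q l ∨ (tile m Λ q l).exp (0, 0) = vx m Λ q (l + 2)) := by
  by_cases h : Even l
  · have h2 : Even (l + 2) := (even_add_two_iff l).2 h
    rw [tile_even h, vx_even h, vx_even h2]
    simp only [TD.exp]
    refine ⟨Or.inl ?_, Or.inr ?_⟩ <;> (ext <;> simp only <;> ring)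
  · have h2 : ¬ Even (l + 2) := fun h' => h ((even_add_two_iff l).1 h')
    rw [tile_odd h, vx_odd h, vx_odd h2]
    simp only [TD.exp]
    refine ⟨Or.inr ?_, Or.inl ?_⟩ <;> (ext <;> simp only <;> ring)

theorem vertex_sum (m Λ q l : ℤ) (s : ℝ) (z : ℝ × ℝ) :
    mono3 (vx m Λ q l) s z + mono3 (vx m Λ q (l + 1)) s z + mono3 (vx m Λ q (l + 2)) s z =
      mono3 ((tile m Λ q l).exp (-2, 0)) s z + mono3 ((tile m Λ q l).exp (0, 0)) s z +
        mono3 ((tile m Λ q l).exp (2, 2 * m)) s z := by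
  by_cases h : Even l
  · have h1 : ¬ Even (l + 1) := by rw [even_succ_iff]; exact not_not.2 h
    have h2 : Even (l + 2) := (even_add_two_iff l).2 h
    have e1 : (tile m Λ q l).exp (-2, 0) = vx m Λ q l := by
      rw [tile_even h, vx_even h]; simp only [TD.exp]; ext <;> simp only <;> ring
    have e2 : (tile m Λ q l).exp (0, 0) = vx m Λ q (l + 2) := by
      rw [tile_even h, vx_even h2]; simp only [TD.exp]; ext <;> simp only <;> ring
    have e3 : (tile m Λ q l).exp (2, 2 * m) = vx m Λ q (l + 1) := by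
      rw [tile_even h, vx_odd h1]; simp only [TD.exp]; ext <;> simp only <;> ring
    rw [e1, e2, e3]; ring
  · have h1 : Even (l + 1) := (even_succ_iff l).2 h
    have h2 : ¬ Even (l + 2) := fun h' => h ((even_add_two_iff l).1 h')
    have e1 : (tile m Λ q l).exp (-2, 0) = vx m Λ q (l + 2) := by
      rw [tile_odd h, vx_odd h2]; simp only [TD.exp]; ext <;> simp only <;> ring
    have e2 : (tile m Λ q l).exp (0, 0) = vx m Λ q l := by
      rw [tile_odd h, vx_odd h]; simp only [TD.exp]; ext <;> simp only <;> ring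
    have e3 : (tile m Λ q l).exp (2, 2 * m) = vx m Λ q (l + 1) := by
      rw [tile_odd h, vx_even h1]; simp only [TD.exp]; ext <;> simp only <;> ring
    rw [e1, e2, e3]; ring

theorem cen_pos (m Λ q l : ℤ) {s : ℝ} (hs : 0 < s) {X : ℝ × ℝ} (hX : X ∈ Tor) :
    0 < (tile m Λ q l).cen s X := by
  have ho : Even (off m q) := ⟨(m + 1) * q, by simp only [off]; ring⟩
  have ho2 : Even (2 * m + off m q) := by
    refine Even.add ⟨m, by ring⟩ ho
  have hε : ∀ n : ℤ, Even n → Even ((tile m Λ q l).ε * n) := fun n hn => hn.mul_left _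
  have hp : Even (tile m Λ q l).p := by
    by_cases h : Even l
    · rw [tile_even h]; exact (even_add_two_iff l).2 h
    · rw [tile_odd h]
      rw [Int.not_even_iff_odd] at h
      exact h.add_odd (by decide)
  have hb : Even (tile m Λ q l).b := by
    by_cases h : Even l
    · rw [tile_even h]; exact ho
    · rw [tile_odd h]; exact ho2
  simp only [TD.cen, mon]
  have h1 := (hε _ hp).zpow_pos hX.1
  have h2 := (hε _ hb).zpow_pos hX.2
  positivity

/-- lower bound for a row -/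
theorem row_lower {m : ℤ} (hm : 0 < m) (hodd : Odd m) {a : ℤ × ℤ → ℝ}
    (h1 : a (-2, 0) = 1) (h2 : a (0, 0) = 1) (h3 : a (2, 2 * m) = 1) {N : ℕ}
    (ζ : Fin N → ℝ × ℝ) (ρ κ : ℝ) (hκ : 0 < κ)
    (hκρ : ∀ X ∈ Tor, (∀ i, ρ ≤ ‖X - ζ i‖) →
      κ * (mon (-2, 0) X + mon (0, 0) X + mon (2, 2 * m) X) ≤ ∑ w ∈ Dm m, a w * mon w X)
    (K : ℕ) : ∃ κ' > 0, ∃ s0 > 0, ∀ (Λ q : ℤ) (s : ℝ), 0 < s → s < s0 → ∀ z ∈ Tor,
      (∀ k < K, ∀ X ∈ Tor, (tile m Λ q (k : ℕ)).chi s X = z → ∀ i, ρ ≤ ‖X - ζ i‖) →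
      κ' * ∑ l ∈ Finset.range K, ∑ w ∈ Dm m, |mono3 ((tile m Λ q l).exp w) s z| ≤
        RowP m Λ q a K s z := by
  rcases Nat.eq_zero_or_pos K with rfl | hK
  · exact ⟨1, one_pos, 1, one_pos, fun Λ q s _ _ z _ _ => by simp [RowP]⟩
  set Ca : ℝ := ∑ w ∈ Dm m, |a w| with hCa
  have hCa0 : 0 ≤ Ca := Finset.sum_nonneg fun _ _ => abs_nonneg _
  set Dc : ℝ := ((Dm m).card : ℝ) with hDc
  have hKR : (0 : ℝ) < K := by exact_mod_cast hK
  refine ⟨κ / (2 * (K * (Dc + 1))), by positivity, min 1 (κ / (2 * (Ca * K + 1))), by positivity,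
    fun Λ q s hs0 hs1 z hz hout => ?_⟩
  have hs1' : s < 1 := hs1.trans_le (min_le_left _ _)
  have hs2 : s * (Ca * K) ≤ κ / 2 := by
    have h := (hs1.trans_le (min_le_right _ _)).le
    rw [le_div_iff₀ (by positivity)] at h
    nlinarith
  obtain ⟨k, hkK, M, hM0, hMG, hall, hbef, haft⟩ := row_bound hm Λ q hK hs0 hs1' hz
  -- the main tile
  set t := tile m Λ q (k : ℕ) with ht
  have hε : t.ε * t.ε = 1 := tile_eps m Λ q k
  set X := t.inv s z with hX
  have hXT : X ∈ Tor := t.inv_mem hs0.ne' hz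
  have hchi : t.chi s X = z := t.chi_inv hε hs0.ne'
  have hXout := hout k hkK X hXT hchi
  have hcen : 0 < t.cen s X := cen_pos m Λ q k hs0 hXT
  have hF : Fful m Λ q a k s z = t.cen s X * ∑ w ∈ Dm m, a w * mon w X := by
    simp only [Fful]
    rw [Finset.mul_sum]
    refine Finset.sum_congr rfl fun w _ => ?_
    rw [← hchi, ← ht, t.mono3_chi_self hε w hs0.ne' hXT]
    ring
  have hV : mono3 (vx m Λ q k) s z + mono3 (vx m Λ q (k + 1)) s z + mono3 (vx m Λ q (k + 2)) s z =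
      t.cen s X * (mon (-2, 0) X + mon (0, 0) X + mon (2, 2 * m) X) := by
    rw [vertex_sum, ← ht, ← hchi, t.mono3_chi_self hε _ hs0.ne' hXT,
      t.mono3_chi_self hε _ hs0.ne' hXT, t.mono3_chi_self hε _ hs0.ne' hXT]
    ring
  have hFlow : κ * M ≤ Fful m Λ q a k s z := by
    have i1 := hκρ X hXT hXout
    have i2 := mul_le_mul_of_nonneg_left i1 hcen.le
    rw [← hF] at i2
    have i3 := mul_le_mul_of_nonneg_left hMG hκ.le
    rw [hV] at i3
    calc κ * M ≤ _ := i3
      _ = t.cen s X * (κ * (mon (-2, 0) X + mon (0, 0) X + mon (2, 2 * m) X)) := by ring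
      _ ≤ _ := i2
  -- the other tiles
  have hsum : ∀ (l : ℕ) (P : ℤ × ℤ → Prop) [DecidablePred P],
      (∀ w ∈ Dm m, P w → |mono3 ((tile m Λ q l).exp w) s z| ≤ s * M) →
      |∑ w ∈ (Dm m).filter P, a w * mono3 ((tile m Λ q l).exp w) s z| ≤ Ca * (s * M) := by
    intro l P _ hP
    refine (Finset.abs_sum_le_sum_abs _ _).trans ?_
    calc ∑ w ∈ (Dm m).filter P, |a w * mono3 ((tile m Λ q l).exp w) s z|
        ≤ ∑ w ∈ (Dm m).filter P, |a w| * (s * M) := by
          refine Finset.sum_le_sum fun w hw => ?_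
          rw [Finset.mem_filter] at hw
          rw [abs_mul]
          exact mul_le_mul_of_nonneg_left (hP w hw.1 hw.2) (abs_nonneg _)
      _ = (∑ w ∈ (Dm m).filter P, |a w|) * (s * M) := by rw [Finset.sum_mul]
      _ ≤ Ca * (s * M) := by
          refine mul_le_mul_of_nonneg_right ?_ (by positivity)
          exact Finset.sum_le_sum_of_subset_of_nonneg (Finset.filter_subset _ _)
            fun _ _ _ => abs_nonneg _
  have hR : |RowP m Λ q a K s z - Fful m Λ q a k s z| ≤ K * (Ca * (s * M)) := by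
    rw [row_decomp hm hodd Λ q h1 h2 h3 hkK, add_sub_cancel_left]
    simp only [ful_sub_sed, ful_sub_sed']
    refine (abs_add_le _ _).trans ?_
    have j1 : |∑ l ∈ Finset.range k, ∑ w ∈ (Dm m).filter (fun w => ¬ wf m l w = 0),
        a w * mono3 ((tile m Λ q l).exp w) s z| ≤ k * (Ca * (s * M)) := by
      refine (Finset.abs_sum_le_sum_abs _ _).trans ?_
      calc _ ≤ ∑ _l ∈ Finset.range k, Ca * (s * M) :=
            Finset.sum_le_sum fun l hl => hsum l _ (fun w hw hw0 =>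
              hbef l (Finset.mem_range.1 hl) w hw hw0)
        _ = _ := by rw [Finset.sum_const, Finset.card_range, nsmul_eq_mul]
    have j2 : |∑ l ∈ Finset.Ico (k + 1) K, ∑ w ∈ (Dm m).filter (fun w => ¬ wl m l w = 0),
        a w * mono3 ((tile m Λ q l).exp w) s z| ≤ (K - k - 1 : ℕ) * (Ca * (s * M)) := by
      refine (Finset.abs_sum_le_sum_abs _ _).trans ?_
      calc _ ≤ ∑ _l ∈ Finset.Ico (k + 1) K, Ca * (s * M) :=
            Finset.sum_le_sum fun l hl => hsum l _ (fun w hw hw0 => by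
              rw [Finset.mem_Ico] at hl
              exact haft l (by omega) hl.2 w hw hw0)
        _ = _ := by rw [Finset.sum_const, Nat.card_Ico, nsmul_eq_mul]; congr 2
    have j3 : (k : ℝ) + (K - k - 1 : ℕ) ≤ K := by
      have : k + (K - k - 1) ≤ K := by omega
      exact_mod_cast this
    have j4 : 0 ≤ Ca * (s * M) := by positivity
    calc _ ≤ (k : ℝ) * (Ca * (s * M)) + (K - k - 1 : ℕ) * (Ca * (s * M)) := add_le_add j1 j2
      _ = ((k : ℝ) + (K - k - 1 : ℕ)) * (Ca * (s * M)) := by ring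
      _ ≤ K * (Ca * (s * M)) := mul_le_mul_of_nonneg_right j3 j4
  have hlow : κ / 2 * M ≤ RowP m Λ q a K s z := by
    have h4 := (abs_le.1 hR).1
    have h5 : K * (Ca * (s * M)) ≤ κ / 2 * M := by
      have := mul_le_mul_of_nonneg_right hs2 hM0.le
      calc K * (Ca * (s * M)) = s * (Ca * K) * M := by ring
        _ ≤ κ / 2 * M := this
    linarith
  have htot : ∑ l ∈ Finset.range K, ∑ w ∈ Dm m, |mono3 ((tile m Λ q l).exp w) s z| ≤
      K * (Dc * M) := by
    calc _ ≤ ∑ _l ∈ Finset.range K, ∑ _w ∈ Dm m, M :=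
          Finset.sum_le_sum fun l hl => Finset.sum_le_sum fun w hw =>
            hall l (Finset.mem_range.1 hl) w hw
      _ = K * (Dc * M) := by
          simp only [Finset.sum_const, Finset.card_range, nsmul_eq_mul]
          rw [← hDc]
  have hDc0 : 0 ≤ Dc := by positivity
  calc κ / (2 * (K * (Dc + 1))) *
        ∑ l ∈ Finset.range K, ∑ w ∈ Dm m, |mono3 ((tile m Λ q l).exp w) s z|
      ≤ κ / (2 * (K * (Dc + 1))) * (K * (Dc * M)) :=
        mul_le_mul_of_nonneg_left htot (by positivity)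
    _ ≤ κ / (2 * (K * (Dc + 1))) * (K * ((Dc + 1) * M)) := by
        refine mul_le_mul_of_nonneg_left ?_ (by positivity)
        refine mul_le_mul_of_nonneg_left ?_ hKR.le
        exact mul_le_mul_of_nonneg_right (by linarith) hM0.le
    _ = κ / 2 * M := by field_simp
    _ ≤ _ := hlow

end Pool.Agent.MP9d
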