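import Mathlib

/-! Perturbation of a nonnegative function with nondegenerate zeros (item G of MP_9d788c_ag). -/

set_option autoImplicit false

namespace Pool.Agent.MP9d

open Set Filter Topology

/-- bounded, Lipschitz, with bounded second differences -/
def Nice (E : ℝ → ℝ) : Prop := ∃ B : ℝ, 0 ≤ B ∧ (∀ x, |E x| ≤ B) ∧ (∀ x y, |E x - E y| ≤ B * |x - y|) ∧
  (∀ f g, |E f + E g - 2 * E ((f + g) / 2)| ≤ B * (f - g) ^ 2)

theorem Nice.const (c : ℝ) : Nice (fun _ => c) := by
  refine ⟨|c|, abs_nonneg _, fun _ => le_rfl, fun x y => ?_, fun f g => ?_⟩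
  · simp only [sub_self, abs_zero]; positivity
  · have : c + c - 2 * c = 0 := by ring
    simp only [this, abs_zero]; positivity

theorem Nice.add {E F : ℝ → ℝ} (hE : Nice E) (hF : Nice F) : Nice (fun x => E x + F x) := by
  obtain ⟨B, h0, h1, h2, h3⟩ := hE
  obtain ⟨C, k0, k1, k2, k3⟩ := hF
  refine ⟨B + C, add_nonneg h0 k0, fun x => ?_, fun x y => ?_, fun f g => ?_⟩
  · exact (abs_add_le _ _).trans (add_le_add (h1 x) (k1 x))
  · have : E x + F x - (E y + F y) = (E x - E y) + (F x - F y) := by ring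
    rw [this, add_mul]
    exact (abs_add_le _ _).trans (add_le_add (h2 x y) (k2 x y))
  · have : E f + F f + (E g + F g) - 2 * (E ((f + g) / 2) + F ((f + g) / 2)) =
      (E f + E g - 2 * E ((f + g) / 2)) + (F f + F g - 2 * F ((f + g) / 2)) := by ring
    rw [this, add_mul]
    exact (abs_add_le _ _).trans (add_le_add (h3 f g) (k3 f g))

theorem Nice.mul {E F : ℝ → ℝ} (hE : Nice E) (hF : Nice F) : Nice (fun x => E x * F x) := by
  obtain ⟨B, h0, h1, h2, h3⟩ := hE
  obtain ⟨C, k0, k1, k2, k3⟩ := hF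
  have hBC : 0 ≤ B * C := mul_nonneg h0 k0
  refine ⟨3 * (B * C), by positivity, fun x => ?_, fun x y => ?_, fun f g => ?_⟩
  · rw [abs_mul]
    calc |E x| * |F x| ≤ B * C := mul_le_mul (h1 x) (k1 x) (abs_nonneg _) h0
      _ ≤ _ := by linarith
  · have : E x * F x - E y * F y = E x * (F x - F y) + (E x - E y) * F y := by ring
    rw [this]
    refine (abs_add_le _ _).trans ?_
    rw [abs_mul, abs_mul]
    have e1 : |E x| * |F x - F y| ≤ B * (C * |x - y|) := mul_le_mul (h1 x) (k2 x y) (abs_nonneg _) h0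
    have e2 : |E x - E y| * |F y| ≤ (B * |x - y|) * C :=
      mul_le_mul (h2 x y) (k1 y) (abs_nonneg _) (by positivity)
    have e3 : 0 ≤ B * C * |x - y| := by positivity
    nlinarith
  · set m := (f + g) / 2 with hm
    have id : E f * F f + E g * F g - 2 * (E m * F m) =
        E m * (F f + F g - 2 * F m) + F m * (E f + E g - 2 * E m) +
        (E f - E m) * (F f - F m) + (E g - E m) * (F g - F m) := by ring
    rw [id]
    have a1 : |E m * (F f + F g - 2 * F m)| ≤ B * (C * (f - g) ^ 2) := by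
      rw [abs_mul]; exact mul_le_mul (h1 m) (k3 f g) (abs_nonneg _) h0
    have a2 : |F m * (E f + E g - 2 * E m)| ≤ C * (B * (f - g) ^ 2) := by
      rw [abs_mul]; exact mul_le_mul (k1 m) (h3 f g) (abs_nonneg _) k0
    have hfm : |f - m| = |f - g| / 2 := by
      have : f - m = (f - g) / 2 := by rw [hm]; ring
      rw [this, abs_div, abs_two]
    have hgm : |g - m| = |f - g| / 2 := by
      have : g - m = -((f - g) / 2) := by rw [hm]; ring
      rw [this, abs_neg, abs_div, abs_two]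
    have a3 : |(E f - E m) * (F f - F m)| ≤ (B * |f - m|) * (C * |f - m|) := by
      rw [abs_mul]; exact mul_le_mul (h2 f m) (k2 f m) (abs_nonneg _) (by positivity)
    have a4 : |(E g - E m) * (F g - F m)| ≤ (B * |g - m|) * (C * |g - m|) := by
      rw [abs_mul]; exact mul_le_mul (h2 g m) (k2 g m) (abs_nonneg _) (by positivity)
    rw [hfm] at a3
    rw [hgm] at a4
    have hsq : |f - g| ^ 2 = (f - g) ^ 2 := sq_abs _
    have a3' : |(E f - E m) * (F f - F m)| ≤ B * C * (f - g) ^ 2 / 4 := by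
      refine a3.trans (le_of_eq ?_); rw [← hsq]; ring
    have a4' : |(E g - E m) * (F g - F m)| ≤ B * C * (f - g) ^ 2 / 4 := by
      refine a4.trans (le_of_eq ?_); rw [← hsq]; ring
    have hp : 0 ≤ B * C * (f - g) ^ 2 := by positivity
    calc _ ≤ |E m * (F f + F g - 2 * F m) + F m * (E f + E g - 2 * E m) +
        (E f - E m) * (F f - F m)| + |(E g - E m) * (F g - F m)| := abs_add_le _ _
      _ ≤ |E m * (F f + F g - 2 * F m) + F m * (E f + E g - 2 * E m)| +
        |(E f - E m) * (F f - F m)| + |(E g - E m) * (F g - F m)| := by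
          gcongr; exact abs_add_le _ _
      _ ≤ |E m * (F f + F g - 2 * F m)| + |F m * (E f + E g - 2 * E m)| +
        |(E f - E m) * (F f - F m)| + |(E g - E m) * (F g - F m)| := by
          gcongr; exact abs_add_le _ _
      _ ≤ _ := by nlinarith

theorem Nice.smul {E : ℝ → ℝ} (c : ℝ) (hE : Nice E) : Nice (fun x => c * E x) :=
  (Nice.const c).mul hE

theorem Nice.sub {E F : ℝ → ℝ} (hE : Nice E) (hF : Nice F) : Nice (fun x => E x - F x) := by
  have := hE.add (hF.smul (-1))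
  refine (congrArg Nice (funext fun x => ?_)).mp this
  ring

theorem Nice.prod {ι : Type*} (s : Finset ι) {E : ι → ℝ → ℝ} (h : ∀ i ∈ s, Nice (E i)) :
    Nice (fun x => ∏ i ∈ s, E i x) := by
  classical
  induction s using Finset.induction_on with
  | empty => simpa using Nice.const 1
  | insert a s ha ih =>
    have := (h a (Finset.mem_insert_self a s)).mul (ih (fun i hi => h i (Finset.mem_insert_of_mem hi)))
    refine (congrArg Nice (funext fun x => ?_)).mp this
    rw [Finset.prod_insert ha]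

theorem Nice.polynomial {E : ℝ → ℝ} (hE : Nice E) (p : Polynomial ℝ) : Nice (fun x => p.eval (E x)) := by
  induction p using Polynomial.induction_on with
  | C a => simpa using Nice.const a
  | add p q hp hq => simpa using hp.add hq
  | monomial n a h =>
    have := h.mul hE
    refine (congrArg Nice (funext fun x => ?_)).mp this
    simp only [Polynomial.eval_mul, Polynomial.eval_C, Polynomial.eval_pow, Polynomial.eval_X]
    ring

theorem Nice.cos : Nice Real.cos := by
  refine ⟨1, zero_le_one, fun x => Real.abs_cos_le_one x, fun x y => ?_, fun f g => ?_⟩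
  · rw [one_mul, Real.cos_sub_cos, abs_mul, abs_mul]
    have h1 := Real.abs_sin_le_one ((x + y) / 2)
    have h2 : |Real.sin ((x - y) / 2)| ≤ |(x - y) / 2| := by
      have := Real.abs_sin_lt_abs (x := (x - y) / 2)
      by_cases h : (x - y) / 2 = 0
      · rw [h]; simp
      · exact (this h).le
    rw [abs_div, abs_two] at h2
    have h3 : |(-2 : ℝ)| = 2 := by rw [abs_neg, abs_two]
    rw [h3]
    nlinarith [abs_nonneg (Real.sin ((x - y) / 2)), abs_nonneg (Real.sin ((x + y) / 2))]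
  · have e : Real.cos f + Real.cos g = 2 * Real.cos ((f + g) / 2) * Real.cos ((f - g) / 2) :=
      Real.cos_add_cos f g
    have e2 : Real.cos f + Real.cos g - 2 * Real.cos ((f + g) / 2) =
        -(2 * Real.cos ((f + g) / 2) * (1 - Real.cos ((f - g) / 2))) := by rw [e]; ring
    rw [e2, abs_neg, abs_mul, abs_mul, abs_two]
    have h1 := Real.abs_cos_le_one ((f + g) / 2)
    have h2 := Real.one_sub_sq_div_two_le_cos (x := (f - g) / 2)
    have h3 := Real.cos_le_one ((f - g) / 2)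
    have h4 : |1 - Real.cos ((f - g) / 2)| ≤ ((f - g) / 2) ^ 2 / 2 := by
      rw [abs_of_nonneg (by linarith)]; linarith
    have h5 := abs_nonneg (1 - Real.cos ((f - g) / 2))
    have h6 := sq_nonneg (f - g)
    calc 2 * |Real.cos ((f + g) / 2)| * |1 - Real.cos ((f - g) / 2)|
        ≤ 2 * 1 * (((f - g) / 2) ^ 2 / 2) := by gcongr
      _ ≤ _ := by nlinarith

theorem Nice.sin : Nice Real.sin := by
  have h := Nice.cos
  obtain ⟨B, h0, h1, h2, h3⟩ := h
  have e : ∀ x, Real.sin x = Real.cos (x - Real.pi / 2) := fun x => (Real.cos_sub_pi_div_two x).symm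
  refine ⟨B, h0, fun x => by rw [e]; exact h1 _, fun x y => ?_, fun f g => ?_⟩
  · rw [e, e]
    refine (h2 _ _).trans (le_of_eq ?_)
    congr 2; ring
  · rw [e, e, e]
    have := h3 (f - Real.pi / 2) (g - Real.pi / 2)
    have e1 : (f - Real.pi / 2 + (g - Real.pi / 2)) / 2 = (f + g) / 2 - Real.pi / 2 := by ring
    have e2 : f - Real.pi / 2 - (g - Real.pi / 2) = f - g := by ring
    rwa [e1, e2] at this

theorem Nice.continuous {E : ℝ → ℝ} (hE : Nice E) : Continuous E := by
  obtain ⟨B, h0, _, h2, _⟩ := hE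
  have : LipschitzWith ⟨B, h0⟩ E := LipschitzWith.of_dist_le_mul (fun x y => by
    rw [Real.dist_eq, Real.dist_eq]; exact h2 x y)
  exact this.continuous

/-- The perturbation theorem. -/
theorem core {I : ℕ} {W B : ℝ → ℝ} {K : Fin I → ℝ → ℝ} {x0 : Fin I → ℝ} (hW : Continuous W)
    (hW0 : ∀ x, 0 ≤ W x)
    (hWz : ∀ x ∈ Icc 0 Real.pi, W x = 0 → x = 0 ∨ ∃ i, x = x0 i) (hWx : ∀ i, W (x0 i) = 0)
    (hB : Nice B) (hK : ∀ j, Nice (K j)) (hB0 : B 0 = 1) (hK0 : ∀ j, K j 0 = 0)
    (hKx : ∀ i j, K j (x0 i) = if i = j then 1 else 0) {ε1 c0 : ℝ} (hε1 : 0 < ε1) (hc0 : 0 < c0)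
    (hconv : ∀ i, ∀ f, |f - x0 i| ≤ ε1 → ∀ g, |g - x0 i| ≤ ε1 →
      c0 * (f - g) ^ 2 ≤ W f + W g - 2 * W ((f + g) / 2))
    {ε2 : ℝ} (hε2 : 0 < ε2) :
    ∃ δ : ℝ, 0 < δ ∧ δ < 1 ∧ ∃ κ : Fin I → ℝ, ∃ x' : Fin I → ℝ, (∀ i, |x' i - x0 i| < ε2) ∧
      (∀ x ∈ Icc 0 Real.pi, 0 ≤ W x + δ * B x + ∑ j, κ j * K j x ∧
        (W x + δ * B x + ∑ j, κ j * K j x = 0 ↔ ∃ i, x = x' i)) ∧
      ∃ c > 0, ∃ η > 0, ∀ i x, |x - x' i| ≤ η →
        c * (x - x' i) ^ 2 ≤ W x + δ * B x + ∑ j, κ j * K j x := by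
  classical
  have hBc := hB.continuous
  have hKc : ∀ j, Continuous (K j) := fun j => (hK j).continuous
  obtain ⟨b, b0, b1, b2, b3⟩ := hB
  choose k k0 k1 k2 k3 using hK
  set Λ : ℝ := b + ∑ j, k j + 1 with hΛ
  have hsum0 : 0 ≤ ∑ j, k j := Finset.sum_nonneg (fun j _ => k0 j)
  have hΛ1 : 1 ≤ Λ := by rw [hΛ]; linarith
  have hbΛ : b ≤ Λ := by rw [hΛ]; linarith
  have hkΛ : ∀ j, k j ≤ Λ := fun j => by
    have := Finset.single_le_sum (f := k) (fun j _ => k0 j) (Finset.mem_univ j)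
    rw [hΛ]; linarith
  have hΛ0 : 0 < Λ := by linarith
  obtain ⟨B1, B2, B3⟩ : (∀ x, |B x| ≤ Λ) ∧ (∀ x y, |B x - B y| ≤ Λ * |x - y|) ∧
      (∀ f g, |B f + B g - 2 * B ((f + g) / 2)| ≤ Λ * (f - g) ^ 2) :=
    ⟨fun x => (b1 x).trans hbΛ, fun x y => (b2 x y).trans (by gcongr),
      fun f g => (b3 f g).trans (by gcongr)⟩
  obtain ⟨K1, K2, K3⟩ : (∀ j x, |K j x| ≤ Λ) ∧ (∀ j x y, |K j x - K j y| ≤ Λ * |x - y|) ∧
      (∀ j f g, |K j f + K j g - 2 * K j ((f + g) / 2)| ≤ Λ * (f - g) ^ 2) :=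
    ⟨fun j x => (k1 j x).trans (hkΛ j), fun j x y => (k2 j x y).trans (by gcongr; exact hkΛ j),
      fun j f g => (k3 j f g).trans (by gcongr; exact hkΛ j)⟩
  set ε : ℝ := min ε1 (min (ε2 / 2) (1 / (3 * (I * Λ + 1)))) with hε
  have hε0 : 0 < ε := by
    rw [hε, lt_min_iff, lt_min_iff]; exact ⟨hε1, by positivity, by positivity⟩
  have hεε1 : ε ≤ ε1 := min_le_left _ _
  have hεε2 : ε < ε2 := by
    have : ε ≤ ε2 / 2 := (min_le_right _ _).trans (min_le_left _ _)
    linarith
  have hεI : I * Λ * ε ≤ 1 / 3 := by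
    have h1 : ε ≤ 1 / (3 * (I * Λ + 1)) := (min_le_right _ _).trans (min_le_right _ _)
    calc I * Λ * ε ≤ (I * Λ + 1) * ε := by nlinarith
      _ ≤ (I * Λ + 1) * (1 / (3 * (I * Λ + 1))) := by gcongr
      _ = _ := by field_simp
  set C5 : ℝ := Λ + 2 * I * Λ ^ 2 with hC5
  have hC50 : 0 < C5 := by positivity
  set K0 : Set ℝ := {x | x ∈ Icc (1 / (2 * C5)) Real.pi ∧ ∀ i, ε ≤ |x - x0 i|} with hK0def
  have hK0c : IsCompact K0 := by
    have h1 : K0 = Icc (1 / (2 * C5)) Real.pi ∩ ⋂ i, {x | ε ≤ |x - x0 i|} := by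
      ext x; simp [hK0def]
    rw [h1]
    refine isCompact_Icc.inter_right (isClosed_iInter (fun i => ?_))
    exact isClosed_le continuous_const (by fun_prop)
  obtain ⟨w, hw0, hw⟩ : ∃ w, 0 < w ∧ ∀ x ∈ K0, w ≤ W x := by
    refine hK0c.exists_forall_le' hW.continuousOn (a := 0) (fun x hx => ?_)
    refine lt_of_le_of_ne (hW0 x) (fun h0 => ?_)
    have hx1 : 0 < x := lt_of_lt_of_le (by positivity) hx.1.1
    rcases hWz x ⟨hx1.le, hx.1.2⟩ h0.symm with h | ⟨i, h⟩
    · linarith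
    · have := hx.2 i
      rw [h, sub_self, abs_zero] at this
      linarith
  set δ : ℝ := min (1 / 2) (min (c0 * ε ^ 2) (min w (c0 / 2)) / (2 * C5)) with hδ
  have hδ0 : 0 < δ := by
    rw [hδ, lt_min_iff]
    refine ⟨by norm_num, div_pos ?_ (by positivity)⟩
    rw [lt_min_iff, lt_min_iff]
    exact ⟨by positivity, hw0, by positivity⟩
  have hδ1 : δ < 1 := lt_of_le_of_lt (min_le_left _ _) (by norm_num)
  have hδm : 2 * (δ * C5) ≤ min (c0 * ε ^ 2) (min w (c0 / 2)) := by
    have : δ ≤ min (c0 * ε ^ 2) (min w (c0 / 2)) / (2 * C5) := min_le_right _ _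
    rw [le_div_iff₀ (by positivity)] at this
    linarith
  have hδC : 0 < δ * C5 := by positivity
  have hδ2 : δ * C5 < c0 * ε ^ 2 := by
    have := hδm.trans (min_le_left _ _); linarith
  have hδ3 : δ * C5 < w := by
    have := hδm.trans ((min_le_right _ _).trans (min_le_left _ _)); linarith
  have hδ4 : δ * C5 ≤ c0 / 2 := by
    have := hδm.trans ((min_le_right _ _).trans (min_le_right _ _)); linarith
  -- the fixed point
  set H : Fin I → (Fin I → ℝ) → ℝ → ℝ := fun i κ x =>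
    W x + δ * B x + ∑ j, κ j * (K j x - if i = j then 1 else 0) with hH
  have hHc : ∀ i κ, Continuous (H i κ) := by
    intro i κ
    simp only [hH]
    fun_prop
  have hmin : ∀ i κ, ∃ x ∈ Icc (x0 i - ε) (x0 i + ε), ∀ y ∈ Icc (x0 i - ε) (x0 i + ε),
      H i κ x ≤ H i κ y := by
    intro i κ
    obtain ⟨x, hx, hx2⟩ := isCompact_Icc.exists_isMinOn (nonempty_Icc.2 (by linarith))
      ((hHc i κ).continuousOn (s := Icc (x0 i - ε) (x0 i + ε)))
    exact ⟨x, hx, fun y hy => hx2 hy⟩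
  choose xm hxm1 hxm2 using hmin
  have habs : ∀ i x, x ∈ Icc (x0 i - ε) (x0 i + ε) ↔ |x - x0 i| ≤ ε := by
    intro i x; rw [abs_le, mem_Icc]; constructor <;> rintro ⟨h1, h2⟩ <;> constructor <;> linarith
  have hdiff : ∀ (i : Fin I) (κ κ' : Fin I → ℝ) (x : ℝ), |x - x0 i| ≤ ε →
      |∑ j, (κ j - κ' j) * (K j x - if i = j then 1 else 0)| ≤ 1 / 3 * dist κ κ' := by
    intro i κ κ' x hx
    calc |∑ j, (κ j - κ' j) * (K j x - if i = j then 1 else 0)|
        ≤ ∑ j, |(κ j - κ' j) * (K j x - if i = j then 1 else 0)| := Finset.abs_sum_le_sum_abs _ _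
      _ ≤ ∑ _j : Fin I, dist κ κ' * (Λ * ε) := by
          refine Finset.sum_le_sum (fun j _ => ?_)
          rw [abs_mul]
          have e1 : |κ j - κ' j| ≤ dist κ κ' := by
            rw [← Real.dist_eq]; exact dist_le_pi_dist κ κ' j
          have e2 : |K j x - if i = j then 1 else 0| ≤ Λ * ε := by
            rw [← hKx i j]
            exact (K2 j x (x0 i)).trans (by gcongr)
          exact mul_le_mul e1 e2 (abs_nonneg _) dist_nonneg
      _ = (I * Λ * ε) * dist κ κ' := by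
          rw [Finset.sum_const, Finset.card_univ, Fintype.card_fin, nsmul_eq_mul]; ring
      _ ≤ _ := by gcongr
  set T : (Fin I → ℝ) → (Fin I → ℝ) := fun κ i => -H i κ (xm i κ) with hT
  have hTle : ∀ (κ κ' : Fin I → ℝ) (i : Fin I), H i κ' (xm i κ') ≤ H i κ (xm i κ) + 1 / 3 * dist κ κ' := by
    intro κ κ' i
    have h1 := hxm2 i κ' (xm i κ) (hxm1 i κ)
    have h2 : H i κ' (xm i κ) = H i κ (xm i κ) -
        ∑ j, (κ j - κ' j) * (K j (xm i κ) - if i = j then 1 else 0) := by
      simp only [hH, sub_mul, Finset.sum_sub_distrib]; ring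
    have h3 := hdiff i κ κ' (xm i κ) ((habs i _).1 (hxm1 i κ))
    rw [abs_le] at h3
    linarith [h3.1]
  have hTc : ContractingWith (1 / 3 : NNReal) T := by
    refine ⟨?_, LipschitzWith.of_dist_le_mul (fun κ κ' => ?_)⟩
    · rw [← NNReal.coe_lt_coe]; norm_num
    · have e3 : ((1 / 3 : NNReal) : ℝ) = 1 / 3 := by norm_num
      rw [e3, dist_pi_le_iff (by positivity)]
      intro i
      simp only [hT, Real.dist_eq]
      have h1 := hTle κ κ' i
      have h2 := hTle κ' κ i
      rw [dist_comm κ' κ] at h2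
      rw [abs_le]; constructor <;> linarith
  obtain ⟨κ, hκ⟩ : ∃ κ, T κ = κ := ⟨hTc.fixedPoint, hTc.fixedPoint_isFixedPt⟩
  have hκi : ∀ i, κ i = -H i κ (xm i κ) := fun i => by
    have := congrFun hκ i
    exact this.symm
  -- bound for κ
  have hκb : ∀ i, |κ i| ≤ 2 * δ * Λ := by
    have h1 : ∀ i, |κ i| ≤ δ * Λ + 1 / 3 * dist κ 0 := by
      intro i
      rw [hκi i, abs_neg, abs_le]
      have hx := (habs i _).1 (hxm1 i κ)
      have e1 := hdiff i κ 0 (xm i κ) hx
      simp only [Pi.zero_apply, sub_zero] at e1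
      rw [abs_le] at e1
      have e2 := B1 (xm i κ)
      rw [abs_le] at e2
      have e3 := hW0 (xm i κ)
      have e4 := hxm2 i κ (x0 i) ((habs i _).2 (by rw [sub_self, abs_zero]; exact hε0.le))
      have e5 : H i κ (x0 i) = δ * B (x0 i) := by
        simp only [hH, hWx, hKx, sub_self, mul_zero, Finset.sum_const_zero]; ring
      have e6 := B1 (x0 i)
      rw [abs_le] at e6
      have e7 : 0 ≤ dist κ 0 := dist_nonneg
      have m1 := mul_le_mul_of_nonneg_left e2.1 hδ0.le
      have m2 := mul_le_mul_of_nonneg_left e6.2 hδ0.le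
      constructor
      · simp only [hH]
        linarith [e1.1]
      · rw [e5] at e4
        linarith
    have h2 : dist κ 0 ≤ δ * Λ + 1 / 3 * dist κ 0 := by
      refine (dist_pi_le_iff (by positivity)).2 (fun i => ?_)
      rw [Real.dist_eq, Pi.zero_apply, sub_zero]
      exact h1 i
    intro i
    have := h1 i
    have : 0 < δ * Λ := by positivity
    linarith
  -- estimates for the perturbation
  have hE : ∀ x, |δ * B x + ∑ j, κ j * K j x| ≤ δ * C5 := by
    intro x
    have e1 : |δ * B x| ≤ δ * Λ := by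
      rw [abs_mul, abs_of_pos hδ0]; gcongr; exact B1 x
    have e2 : |∑ j, κ j * K j x| ≤ ∑ _j : Fin I, 2 * δ * Λ * Λ := by
      refine (Finset.abs_sum_le_sum_abs _ _).trans (Finset.sum_le_sum (fun j _ => ?_))
      rw [abs_mul]
      exact mul_le_mul (hκb j) (K1 j x) (abs_nonneg _) (by positivity)
    rw [Finset.sum_const, Finset.card_univ, Fintype.card_fin, nsmul_eq_mul] at e2
    calc _ ≤ |δ * B x| + |∑ j, κ j * K j x| := abs_add_le _ _
      _ ≤ δ * Λ + I * (2 * δ * Λ * Λ) := add_le_add e1 e2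
      _ = _ := by rw [hC5]; ring
  have hE2 : ∀ f g, |(δ * B f + ∑ j, κ j * K j f) + (δ * B g + ∑ j, κ j * K j g) -
      2 * (δ * B ((f + g) / 2) + ∑ j, κ j * K j ((f + g) / 2))| ≤ δ * C5 * (f - g) ^ 2 := by
    intro f g
    have id : (δ * B f + ∑ j, κ j * K j f) + (δ * B g + ∑ j, κ j * K j g) -
      2 * (δ * B ((f + g) / 2) + ∑ j, κ j * K j ((f + g) / 2)) =
      δ * (B f + B g - 2 * B ((f + g) / 2)) + ∑ j, κ j * (K j f + K j g - 2 * K j ((f + g) / 2)) := by
      simp only [mul_add, mul_sub, Finset.sum_add_distrib, Finset.sum_sub_distrib]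
      have : ∑ j, κ j * (2 * K j ((f + g) / 2)) = 2 * ∑ j, κ j * K j ((f + g) / 2) := by
        rw [Finset.mul_sum]; exact Finset.sum_congr rfl (fun j _ => by ring)
      rw [this]; ring
    rw [id]
    have e1 : |δ * (B f + B g - 2 * B ((f + g) / 2))| ≤ δ * (Λ * (f - g) ^ 2) := by
      rw [abs_mul, abs_of_pos hδ0]; gcongr; exact B3 f g
    have e2 : |∑ j, κ j * (K j f + K j g - 2 * K j ((f + g) / 2))| ≤
        ∑ _j : Fin I, 2 * δ * Λ * (Λ * (f - g) ^ 2) := by
      refine (Finset.abs_sum_le_sum_abs _ _).trans (Finset.sum_le_sum (fun j _ => ?_))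
      rw [abs_mul]
      exact mul_le_mul (hκb j) (K3 j f g) (abs_nonneg _) (by positivity)
    rw [Finset.sum_const, Finset.card_univ, Fintype.card_fin, nsmul_eq_mul] at e2
    calc _ ≤ |δ * (B f + B g - 2 * B ((f + g) / 2))| +
          |∑ j, κ j * (K j f + K j g - 2 * K j ((f + g) / 2))| := abs_add_le _ _
      _ ≤ δ * (Λ * (f - g) ^ 2) + I * (2 * δ * Λ * (Λ * (f - g) ^ 2)) := add_le_add e1 e2
      _ = _ := by rw [hC5]; ring
  set Θ : ℝ → ℝ := fun x => W x + δ * B x + ∑ j, κ j * K j x with hΘ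
  have hΘH : ∀ i x, Θ x = H i κ x + κ i := by
    intro i x
    simp only [hΘ, hH, mul_sub, Finset.sum_sub_distrib, mul_ite, mul_one, mul_zero,
      Finset.sum_ite_eq, Finset.mem_univ, if_true]
    ring
  have hΘ0 : ∀ i, Θ (xm i κ) = 0 := fun i => by
    rw [hΘH i]
    have := hκi i
    linarith
  have hΘn : ∀ i x, |x - x0 i| ≤ ε → 0 ≤ Θ x := by
    intro i x hx
    rw [hΘH i]
    have := hxm2 i κ x ((habs i x).2 hx)
    have := hκi i
    linarith
  -- growth
  have hgrow : ∀ i x, |x - x0 i| ≤ ε → c0 / 2 * (x - xm i κ) ^ 2 ≤ Θ x := by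
    intro i x hx
    have hx' := (habs i _).1 (hxm1 i κ)
    have h1 := hconv i x (hx.trans hεε1) (xm i κ) (hx'.trans hεε1)
    have h2 := hE2 x (xm i κ)
    rw [abs_le] at h2
    have hmid : |(x + xm i κ) / 2 - x0 i| ≤ ε := by
      rw [abs_le] at hx hx' ⊢
      constructor <;> linarith [hx.1, hx.2, hx'.1, hx'.2]
    have h3 := hΘn i _ hmid
    have h4 := hΘ0 i
    simp only [hΘ] at h3 h4 ⊢
    have h5 : δ * C5 * (x - xm i κ) ^ 2 ≤ c0 / 2 * (x - xm i κ) ^ 2 := by gcongr
    linarith [h2.1]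
  -- positivity near zero
  have hnear : ∀ x ∈ Icc 0 (1 / (2 * C5)), 0 < Θ x := by
    intro x hx
    have e1 : 1 - Λ * x ≤ B x := by
      have := B2 x 0
      rw [sub_zero, abs_of_nonneg hx.1, hB0, abs_le] at this
      linarith [this.1]
    have e2 : |∑ j, κ j * K j x| ≤ ∑ _j : Fin I, 2 * δ * Λ * (Λ * x) := by
      refine (Finset.abs_sum_le_sum_abs _ _).trans (Finset.sum_le_sum (fun j _ => ?_))
      rw [abs_mul]
      refine mul_le_mul (hκb j) ?_ (abs_nonneg _) (by positivity)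
      have := K2 j x 0
      rwa [hK0, sub_zero, sub_zero, abs_of_nonneg hx.1] at this
    rw [Finset.sum_const, Finset.card_univ, Fintype.card_fin, nsmul_eq_mul, abs_le] at e2
    have e3 : C5 * x ≤ 1 / 2 := by
      calc C5 * x ≤ C5 * (1 / (2 * C5)) := by gcongr; exact hx.2
        _ = _ := by field_simp
    have e4 := hW0 x
    have e5 : δ * (1 - Λ * x) ≤ δ * B x := by gcongr
    have e6 : δ * (1 - Λ * x) - I * (2 * δ * Λ * (Λ * x)) = δ * (1 - C5 * x) := by rw [hC5]; ring
    have e7 : 0 < δ * (1 - C5 * x) := by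
      apply mul_pos hδ0; linarith
    simp only [hΘ]
    linarith [e2.1]
  have hfar : ∀ x ∈ K0, 0 < Θ x := by
    intro x hx
    have h1 := hw x hx
    have h2 := hE x
    rw [abs_le] at h2
    simp only [hΘ]
    linarith [h2.1]
  have hint : ∀ i, |xm i κ - x0 i| < ε := by
    intro i
    refine lt_of_le_of_ne ((habs i _).1 (hxm1 i κ)) (fun heq => ?_)
    have h1 := hconv i (xm i κ) (heq.le.trans hεε1) (x0 i) (by rw [sub_self, abs_zero]; exact hε1.le)
    have h2 := hE (xm i κ)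
    rw [abs_le] at h2
    have h3 := hΘ0 i
    simp only [hΘ] at h3
    have h4 := hW0 ((xm i κ + x0 i) / 2)
    have h5 : (xm i κ - x0 i) ^ 2 = ε ^ 2 := by rw [← heq, sq_abs]
    rw [hWx, h5] at h1
    linarith [h2.1]
  refine ⟨δ, hδ0, hδ1, κ, fun i => xm i κ, fun i => (hint i).trans hεε2, fun x hx => ?_, ?_⟩
  · change 0 ≤ Θ x ∧ (Θ x = 0 ↔ ∃ i, x = xm i κ)
    by_cases hex : ∃ i, |x - x0 i| ≤ ε
    · obtain ⟨i, hi⟩ := hex
      refine ⟨hΘn i x hi, fun h0 => ⟨i, ?_⟩, ?_⟩
      · have := hgrow i x hi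
        rw [h0] at this
        have h2 : (x - xm i κ) ^ 2 ≤ 0 := by
          by_contra hcon
          push Not at hcon
          have : 0 < c0 / 2 * (x - xm i κ) ^ 2 := by positivity
          linarith
        have h3 : (x - xm i κ) ^ 2 = 0 := le_antisymm h2 (sq_nonneg _)
        have h4 := pow_eq_zero_iff (two_ne_zero) |>.1 h3
        linarith
      · rintro ⟨j, rfl⟩; exact hΘ0 j
    · push Not at hex
      have hpos : 0 < Θ x := by
        rcases le_total x (1 / (2 * C5)) with h | h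
        · exact hnear x ⟨hx.1, h⟩
        · exact hfar x ⟨⟨h, hx.2⟩, fun i => (hex i).le⟩
      refine ⟨hpos.le, fun h0 => absurd h0 hpos.ne', ?_⟩
      rintro ⟨j, rfl⟩; exact hΘ0 j
  · -- growth with a uniform radius
    have hev : ∀ᶠ y in 𝓝 (0 : ℝ), ∀ i, |xm i κ + y - x0 i| < ε := by
      rw [eventually_all]
      intro i
      have hc : Continuous (fun y : ℝ => |xm i κ + y - x0 i|) := by fun_prop
      have := hc.continuousAt (x := 0)
      have h0 : |xm i κ + 0 - x0 i| < ε := by rw [add_zero]; exact hint i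
      exact this.eventually (gt_mem_nhds h0)
    obtain ⟨η, hη, hball⟩ := Metric.eventually_nhds_iff.1 hev
    refine ⟨c0 / 2, by positivity, η / 2, by positivity, fun i x hx => ?_⟩
    refine hgrow i x ?_
    have := hball (y := x - xm i κ) (by rw [Real.dist_eq, sub_zero]; linarith) i
    have e : xm i κ + (x - xm i κ) - x0 i = x - x0 i := by ring
    rw [e] at this
    exact this.le

end Pool.Agent.MP9d
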